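import Mathlib
import Pool.Agent.Lib.MP_2a816b_nt.Expo
import Pool.Agent.Lib.MP_570bef_ntM.Defs
import Pool.Agent.Lib.MP_570bef_ntS.Defs

/-!
# Waring's problem for polynomials: definitions

From `MP_570bef_ntS.Defs`: `kap k = 1 - 1/k`, `Dio`. From `MP_2a816b_nt.Expo`: `e x = exp (2 π i x)`, `nn x` the distance to the nearest integer.
-/

set_option autoImplicit false

open Finset Real Polynomial
open Pool.Agent.Lib.MP_2a816b_nt (e norm_e conj_e e_add e_neg)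

namespace Pool.Agent.Lib.MP_570bef_ntW

open Pool.Agent.Lib.MP_570bef_ntS (kap Dio)

/-- `g x + θ x ^ j` -/
noncomputable def pf (g : ℝ[X]) (j : ℕ) (θ x : ℝ) : ℝ := g.eval x + θ * x ^ j

/-- the exponential sum `∑_{a ≤ n < b} e (p n)` -/
noncomputable def SS (p : ℝ[X]) (a b : ℕ) : ℂ := ∑ n ∈ Ico a b, e (p.eval (n : ℝ))

/-- the difference polynomial `p (X + h) - p X` -/
noncomputable def dp (p : ℝ[X]) (h : ℕ) : ℝ[X] := Polynomial.taylor (h : ℝ) p - p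

/-- the polynomial `m ↦ p_{≤ l} (Q m + r)` -/
noncomputable def low (p : ℝ[X]) (l Q r : ℕ) : ℝ[X] :=
  (∑ i ∈ range (l + 1), C (p.coeff i) * X ^ i).comp (C (Q : ℝ) * X + C (r : ℝ))

/-- leading coefficient lemma in degree `d`: a large exponential sum has a leading coefficient close to a rational number with a small denominator -/
def LCL (d : ℕ) : Prop :=
  ∀ ε : ℝ, 0 < ε → ∃ σ C : ℝ, 0 < σ ∧ 1 ≤ C ∧ ∀ (P : ℕ) (p : ℝ[X]) (a b : ℕ), 1 ≤ P →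
    p.natDegree ≤ d → b ≤ a + P → ‖SS p a b‖ ≤ C * (P : ℝ) ^ (1 - σ) ∨
    ∃ (q : ℕ) (z : ℤ), 1 ≤ q ∧ (q : ℝ) ≤ C * (P : ℝ) ^ ε ∧
      |(q : ℝ) * p.coeff d - z| ≤ C * (P : ℝ) ^ (-(d : ℝ) + ε)

/-- the same for all the coefficients of index at least `l` -/
def ACL (d l : ℕ) : Prop :=
  ∀ ε : ℝ, 0 < ε → ∃ σ C : ℝ, 0 < σ ∧ 1 ≤ C ∧ ∀ (P : ℕ) (p : ℝ[X]) (a b : ℕ), 1 ≤ P →
    p.natDegree ≤ d → b ≤ 4 * P → ‖SS p a b‖ ≤ C * (P : ℝ) ^ (1 - σ) ∨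
    ∃ Q : ℕ, 1 ≤ Q ∧ (Q : ℝ) ≤ C * (P : ℝ) ^ ε ∧ ∀ i, l ≤ i → i ≤ d → ∃ z : ℤ,
      |(Q : ℝ) * p.coeff i - z| ≤ C * (P : ℝ) ^ (-(i : ℝ) + ε)

/-- the integer parts of a sequence -/
noncomputable def gf (φ : ℕ → ℝ) (n : ℕ) : ℕ := ⌊φ n⌋₊

/-- the weight `sin² (π φ n)` -/
noncomputable def wf (φ : ℕ → ℝ) (n : ℕ) : ℝ := sin (π * φ n) ^ 2

/-- `⌈K N^(1/k)⌉` -/
noncomputable def YF (k : ℕ) (K : ℝ) (N : ℕ) : ℕ := ⌈K * (N : ℝ) ^ (1 / (k : ℝ))⌉₊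

/-- regular sequences: size `n^k`, enough values in short intervals, a Weyl bound -/
structure Reg (k : ℕ) (φ : ℕ → ℝ) (K c σ : ℝ) (N1 : ℕ) : Prop where
  hk : 2 ≤ k
  hK : 1 ≤ K
  hc : 0 < c
  hσ : 0 < σ
  hσ1 : σ ≤ 1 / 2
  nonneg : ∀ n, 0 ≤ φ n
  up : ∀ n : ℕ, 1 ≤ n → φ n ≤ K * (n : ℝ) ^ k
  cnt : ∀ A H N : ℕ, N1 ≤ N → N ≤ 2 * A → A + H ≤ 2 * N →
    c * (H : ℝ) * (N : ℝ) ^ (1 / (k : ℝ) - 1) - 1 ≤
      (#{m ∈ range (YF k K N) | A ≤ gf φ m ∧ gf φ m < A + H} : ℝ)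
  weyl : ∀ (P : ℕ) (α : ℝ), 1 ≤ P → (P : ℝ) ^ (-(k : ℝ) + 1 / 4) ≤ |α| →
    ‖∑ n ∈ Ico P (2 * P), e (α * φ n)‖ ≤ K * (P : ℝ) ^ (1 - σ) * (1 + |α|)

/-- `1/(4k)` -/
noncomputable def dl (k : ℕ) : ℝ := 1 / (4 * (k : ℝ))

/-- natural numbers in `(a X, (1 + 1/(4k)) a X]` -/
noncomputable def rd (k : ℕ) (a X : ℝ) : Finset ℕ :=
  Finset.Ioc ⌊a * X⌋₊ ⌊(1 + dl k) * (a * X)⌋₊

/-- diminishing ranges -/
noncomputable def TW (k s : ℕ) (a X : ℝ) : Finset (Fin s → ℕ) :=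
  Fintype.piFinset fun i : Fin s => rd k a (X ^ (kap k ^ (i : ℕ)))

/-- two blocks of diminishing ranges with ratio 8 -/
noncomputable def TF (k s r : ℕ) (X : ℝ) : Finset ((Fin s → ℕ) × (Fin r → ℕ)) :=
  TW k s 1 X ×ˢ TW k r (1 / 8) X

/-- the sum of the values of `u` over both blocks -/
def Su (u : ℝ → ℝ) {s r : ℕ} (t : (Fin s → ℕ) × (Fin r → ℕ)) : ℝ :=
  ∑ i, u (t.1 i : ℝ) + ∑ i, u (t.2 i : ℝ)

/-- number of elements of the family with two conditions -/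
noncomputable def KK (u v : ℝ → ℝ) (k s r : ℕ) (X A B E F : ℝ) : ℕ :=
  #{t ∈ TF k s r X | |Su u t - A| ≤ E ∧ |Su v t - B| ≤ F}

/-- `max 1 (min T W / Z)` -/
noncomputable def MX (T W Z : ℝ) : ℝ := max 1 (min T W / Z)

/-- the bound for `KK` -/
noncomputable def BB (k j s r : ℕ) (T X : ℝ) : ℝ :=
  MX T (X ^ k) ((X ^ (kap k ^ s)) ^ k) *
    ((X / X ^ (kap k ^ r)) ^ (k - j) * MX T (X ^ j) ((X ^ (kap k ^ r)) ^ j))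

/-- number of pairs of elements of the family with values at distance at most `R` -/
noncomputable def NN (g : ℝ[X]) (k j s r : ℕ) (β R X : ℝ) : ℕ :=
  #{z ∈ TF k s r X ×ˢ TF k s r X |
    |(Su (fun x => g.eval x) z.1 - Su (fun x => g.eval x) z.2) +
      β * (Su (fun x => x ^ j) z.1 - Su (fun x => x ^ j) z.2)| ≤ R}

/-- sum of the floors of a pair of tuples -/
noncomputable def vw (f : ℝ → ℝ) {s r : ℕ} (t : (Fin s → ℕ) × (Fin r → ℕ)) : ℕ :=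
  ∑ i, ⌊f (t.1 i)⌋₊ + ∑ i, ⌊f (t.2 i)⌋₊

/-- every large natural number is a sum of `s` numbers `⌊f n⌋` with `f n ≥ 0` -/
def LW (f : ℝ → ℝ) (s : ℕ) : Prop :=
  ∃ N₀ : ℕ, ∀ N : ℕ, N₀ ≤ N → ∃ n : Fin s → ℕ, (∀ i, 0 ≤ f (n i)) ∧ N = ∑ i, ⌊f (n i)⌋₊

end Pool.Agent.Lib.MP_570bef_ntW
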