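import Mathlib
import Pool.Agent.Lib.MP_570bef_ntW.Defs
import Pool.Agent.Lib.MP_570bef_ntP.Bas

/-!
# Abel: partial summation with a slowly varying phase

`norm_e_sub_le : ‖e x - e y‖ ≤ 2 π |x - y|` (`MP_570bef_ntP/Bas.lean`). Put `E M = ∑_{n ∈ Ico a M} f n`, `d n = e (ψ n)`. If `b ≤ a` the sum is `0` and `B ≥ 0` (`hB 0`), `R ≥ 0`. Otherwise `∑_{n ∈ Ico a b} f n d n = E b * d (b-1) - ∑_{n ∈ Ico a (b-1)} E (n+1) (d (n+1) - d n)` (induction on `b`; compare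
`MP_570bef_ntS/Geo.lean`), so the norm is at most `B + B ∑_{n ∈ Ico a (b-1)} ‖d (n+1) - d n‖ ≤ B (1 + 2π R)`.
-/

set_option autoImplicit false

open Finset Real Polynomial
open Pool.Agent.Lib.MP_2a816b_nt (e nn norm_e conj_e e_add e_neg)

namespace Pool.Agent.Lib.MP_570bef_ntW

open Pool.Agent.Lib.MP_570bef_ntS (kap Dio)

private theorem Abel_parts (f d : ℕ → ℂ) (a n : ℕ) (h : a ≤ n) :
    ∑ i ∈ Ico a (n + 1), f i * d i = (∑ i ∈ Ico a (n + 1), f i) * d n -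
      ∑ i ∈ Ico a n, (∑ l ∈ Ico a (i + 1), f l) * (d (i + 1) - d i) := by
  induction n, h using Nat.le_induction with
  | base => simp
  | succ n hn ih =>
    rw [Finset.sum_Ico_succ_top (by omega : a ≤ n + 1), ih,
      Finset.sum_Ico_succ_top (by omega : a ≤ n + 1) (fun i => f i),
      Finset.sum_Ico_succ_top hn (fun i => (∑ l ∈ Ico a (i + 1), f l) * (d (i + 1) - d i))]
    ring

theorem abel_e (f : ℕ → ℂ) (ψ : ℕ → ℝ) (a b : ℕ) (B R : ℝ)
    (hB : ∀ b' : ℕ, b' ≤ b → ‖∑ n ∈ Ico a b', f n‖ ≤ B)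
    (hR : ∑ n ∈ Ico a (b - 1), |ψ (n + 1) - ψ n| ≤ R) :
    ‖∑ n ∈ Ico a b, f n * e (ψ n)‖ ≤ B * (1 + 2 * π * R) := by
  have hB0 : 0 ≤ B := by
    have h := hB 0 (Nat.zero_le b)
    simpa using h
  have hR0 : 0 ≤ R := le_trans (Finset.sum_nonneg fun i _ => abs_nonneg _) hR
  have hπ := Real.pi_pos
  rcases Nat.lt_or_ge a b with hab | hab
  · obtain ⟨n, rfl⟩ : ∃ n, b = n + 1 := ⟨b - 1, by omega⟩
    have han : a ≤ n := by omega
    rw [Nat.add_sub_cancel] at hR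
    rw [Abel_parts f (fun n => e (ψ n)) a n han]
    have h1 : ‖(∑ i ∈ Ico a (n + 1), f i) * e (ψ n)‖ ≤ B := by
      rw [norm_mul, norm_e, mul_one]
      exact hB (n + 1) le_rfl
    have h2 : ‖∑ i ∈ Ico a n, (∑ l ∈ Ico a (i + 1), f l) * (e (ψ (i + 1)) - e (ψ i))‖ ≤
        B * (2 * π * R) := by
      refine (norm_sum_le _ _).trans ?_
      have h3 : ∀ i ∈ Ico a n, ‖(∑ l ∈ Ico a (i + 1), f l) * (e (ψ (i + 1)) - e (ψ i))‖ ≤
          B * (2 * π) * |ψ (i + 1) - ψ i| := by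
        intro i hi
        have hi2 := (Finset.mem_Ico.mp hi).2
        rw [norm_mul, mul_assoc]
        exact mul_le_mul (hB (i + 1) (by omega)) (Pool.Agent.Lib.MP_570bef_ntP.norm_e_sub_le _ _) (norm_nonneg _) hB0
      refine (Finset.sum_le_sum h3).trans ?_
      rw [← Finset.mul_sum]
      have h4 := mul_le_mul_of_nonneg_left hR (by positivity : 0 ≤ B * (2 * π))
      linarith
    refine (norm_sub_le _ _).trans ?_
    linarith
  · rw [Finset.Ico_eq_empty (by omega), Finset.sum_empty, norm_zero]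
    positivity

end Pool.Agent.Lib.MP_570bef_ntW
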