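import Mathlib
import Pool.Agent.Lib.MP_570bef_ntW.Defs

/-!
# Cls: residue classes

A copy of the private lemmas `qs_le`, `qs_split` of `MP_570bef_ntS/Qs.lean`.
`cls_le`: `(b + q - 1 - r)/q ≤ b`: `b + q - 1 - r < q (b + 1)` (`Nat.div_lt_of_lt_mul` or `Nat.div_le_of_le_mul`, `q ≥ 1`).
-/

set_option autoImplicit false

open Finset Real Polynomial
open Pool.Agent.Lib.MP_2a816b_nt (e nn norm_e conj_e e_add e_neg)

namespace Pool.Agent.Lib.MP_570bef_ntW

open Pool.Agent.Lib.MP_570bef_ntS (kap Dio)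

private theorem cls_qs_le (q a r m : ℕ) (hr : r < q) : (a + q - 1 - r) / q ≤ m ↔ a ≤ q * m + r := by
  rw [← Nat.lt_succ_iff, Nat.div_lt_iff_lt_mul (by omega), Nat.succ_mul, mul_comm m q]
  omega

theorem cls_lt (q b r m : ℕ) (hr : r < q) : m < (b + q - 1 - r) / q ↔ q * m + r < b := by
  rw [← not_le, cls_qs_le q b r m hr, not_le]

theorem cls_le (q b r : ℕ) (hq : 1 ≤ q) : (b + q - 1 - r) / q ≤ b := by
  rw [← Nat.lt_succ_iff, Nat.div_lt_iff_lt_mul (by omega), Nat.succ_mul]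
  have h : b ≤ b * q := Nat.le_mul_of_pos_right b (by omega)
  omega

theorem cls_split (f : ℕ → ℂ) (q a b : ℕ) (hq : 1 ≤ q) :
    ∑ n ∈ Ico a b, f n =
      ∑ r ∈ range q, ∑ m ∈ Ico ((a + q - 1 - r) / q) ((b + q - 1 - r) / q), f (q * m + r) := by
  rw [Finset.sum_sigma']
  refine Finset.sum_bij' (fun n _ => (⟨n % q, n / q⟩ : Σ _ : ℕ, ℕ)) (fun x _ => q * x.2 + x.1)
    ?_ ?_ ?_ ?_ ?_
  · intro n hn
    rw [Finset.mem_Ico] at hn
    have h1 : n % q < q := Nat.mod_lt _ hq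
    have h2 : q * (n / q) + n % q = n := Nat.div_add_mod n q
    rw [Finset.mem_sigma, Finset.mem_range, Finset.mem_Ico]
    refine ⟨h1, (cls_qs_le q a (n % q) (n / q) h1).2 (by omega), ?_⟩
    rw [← not_le]
    intro h3
    have h4 := (cls_qs_le q b (n % q) (n / q) h1).1 h3
    omega
  · rintro ⟨r, m⟩ hx
    rw [Finset.mem_sigma, Finset.mem_range, Finset.mem_Ico] at hx
    obtain ⟨h1, h2, h3⟩ := hx
    rw [Finset.mem_Ico]
    refine ⟨(cls_qs_le q a r m h1).1 h2, ?_⟩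
    rw [← not_le]
    intro h4
    have h5 := (cls_qs_le q b r m h1).2 h4
    exact absurd h3 (not_lt.2 h5)
  · intro n _
    exact Nat.div_add_mod n q
  · rintro ⟨r, m⟩ hx
    rw [Finset.mem_sigma, Finset.mem_range] at hx
    have h1 : r < q := hx.1
    have h2 : (q * m + r) % q = r := by
      rw [Nat.mul_add_mod, Nat.mod_eq_of_lt h1]
    have h3 : (q * m + r) / q = m := by
      rw [Nat.mul_add_div (by omega), Nat.div_eq_of_lt h1, add_zero]
    show (⟨(q * m + r) % q, (q * m + r) / q⟩ : Σ _ : ℕ, ℕ) = ⟨r, m⟩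
    rw [h2, h3]
  · intro n _
    show f n = f (q * (n / q) + n % q)
    rw [Nat.div_add_mod n q]

end Pool.Agent.Lib.MP_570bef_ntW
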