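import Mathlib
import Pool.Agent.Lib.MP_570bef_ntW.Defs

/-!
# LowP: the low part in a residue class

`low p l Q r = (∑_{i ≤ l} C (p.coeff i) X^i).comp (C Q * X + C r)`.
`low_eval`: `eval_comp`, `eval_finset_sum`. `low_natDegree`: `natDegree_comp_le`, the inner polynomial has degree at most one, the outer one at most `l`. `low_coeff`: the coefficient of `X^l` of `(C Q * X + C r)^i` is `0` for `i < l` (degree) and `Q^l` for `i = l` (`coeff_pow_of_natDegree_le` or the leading coefficient of a power); compose termwise (`finset_sum_comp` or `Polynomial.sum_comp`, `mul_comp`, `C_comp`, `X_pow_comp`), `finset_sum_coeff`.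
-/

set_option autoImplicit false

open Finset Real Polynomial
open Pool.Agent.Lib.MP_2a816b_nt (e nn norm_e conj_e e_add e_neg)

namespace Pool.Agent.Lib.MP_570bef_ntW

open Pool.Agent.Lib.MP_570bef_ntS (kap Dio)

theorem low_eval (p : ℝ[X]) (l Q r : ℕ) (x : ℝ) :
    (low p l Q r).eval x = ∑ i ∈ range (l + 1), p.coeff i * ((Q : ℝ) * x + r) ^ i := by
  unfold low
  rw [eval_comp, eval_finsetSum]
  refine Finset.sum_congr rfl fun i _ => ?_
  simp only [eval_mul, eval_C, eval_pow, eval_X, eval_add]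

theorem low_natDegree (p : ℝ[X]) (l Q r : ℕ) : (low p l Q r).natDegree ≤ l := by
  unfold low
  refine natDegree_comp_le.trans ?_
  have h1 : (∑ i ∈ range (l + 1), C (p.coeff i) * X ^ i : ℝ[X]).natDegree ≤ l := by
    refine natDegree_sum_le_of_forall_le _ _ fun i hi => ?_
    refine (natDegree_C_mul_X_pow_le _ _).trans ?_
    have h2 := Finset.mem_range.1 hi
    omega
  have h2 : (C (Q : ℝ) * X + C (r : ℝ)).natDegree ≤ 1 := natDegree_linear_le
  calc _ ≤ l * 1 := Nat.mul_le_mul h1 h2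
    _ = l := mul_one l

theorem low_coeff (p : ℝ[X]) (l Q r : ℕ) : (low p l Q r).coeff l = p.coeff l * (Q : ℝ) ^ l := by
  have h0 : (C (Q : ℝ) * X + C (r : ℝ)).natDegree ≤ 1 := natDegree_linear_le
  have hc1 : (C (Q : ℝ) * X + C (r : ℝ)).coeff 1 = (Q : ℝ) := by
    rw [coeff_add, coeff_C_mul, coeff_X_one, mul_one, coeff_C, if_neg one_ne_zero, add_zero]
  unfold low
  have hs : (∑ i ∈ range (l + 1), C (p.coeff i) * X ^ i : ℝ[X]).comp (C (Q : ℝ) * X + C (r : ℝ)) =
      ∑ i ∈ range (l + 1), (C (p.coeff i) * X ^ i : ℝ[X]).comp (C (Q : ℝ) * X + C (r : ℝ)) :=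
    map_sum (compRingHom (C (Q : ℝ) * X + C (r : ℝ))) _ _
  rw [hs, finsetSum_coeff, Finset.sum_eq_single l]
  · rw [mul_comp, C_comp, X_pow_comp, coeff_C_mul]
    congr 1
    have h1 := coeff_pow_of_natDegree_le (m := l) h0
    rw [mul_one, hc1] at h1
    exact h1
  · intro i hi hil
    rw [mul_comp, C_comp, X_pow_comp, coeff_C_mul]
    have h1 : ((C (Q : ℝ) * X + C (r : ℝ)) ^ i).natDegree ≤ i * 1 := natDegree_pow_le_of_le i h0
    have h2 := Finset.mem_range.1 hi
    rw [coeff_eq_zero_of_natDegree_lt (lt_of_le_of_lt h1 (by omega)), mul_zero]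
  · intro h
    exact absurd (Finset.mem_range.2 (Nat.lt_succ_self l)) h

end Pool.Agent.Lib.MP_570bef_ntW
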