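import Mathlib
import Pool.Agent.Lib.MP_570bef_ntW.Abel
import Pool.Agent.Lib.MP_570bef_ntW.Cls
import Pool.Agent.Lib.MP_570bef_ntW.LowP

/-!
# ClsS: removal of the top coefficients in residue classes

`cls_split` with `q = Q`: it is enough to bound, for `r < Q` and `a' = (a+Q-1-r)/Q`, `b' = (b+Q-1-r)/Q ≤ b ≤ 4P`, the sum `∑_{m ∈ Ico a' b'} e (p.eval (Q m + r))` by `B (1 + 2π δ (d+1) 4^d)`.
`p.eval n = ∑_{i ≤ l} p_i n^i + ∑_{l < i ≤ d} p_i n^i` (`eval_eq_sum_range'` with `natDegree p < d + 1`). Put `ζ i = p_i - z i/Q`. For `n = Q m + r` and `i > l` (so `i ≥ 1`): `(z i/Q) n^i - (z i/Q) r^i` is an integer (`n^i ≡ r^i mod Q`: `Q ∣ (Q m + r)^i - r^i`, `sub_dvd_pow_sub_pow`), so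
`e (p.eval n) = e (c_r) * e ((low p l Q r).eval m) * e (ψ m)`, `c_r = ∑_{l < i ≤ d} (z i/Q) r^i`, `ψ m = ∑_{l < i ≤ d} ζ i (Q m + r)^i` (`low_eval`, `e_add`, `e_add_int`/`e_int` of `MP_2a816b_nt/Expo.lean`). `‖e c_r‖ = 1`.
`abel_e` with `f m = e ((low p l Q r).eval m)`, bound `B` (`hB`, its partial sums are `SS (low p l Q r) a' b''`), `R = δ (d+1) 4^d`: `∑_{m ∈ Ico a' (b'-1)} |ψ (m+1) - ψ m| ≤ ∑_i |ζ i| ∑_m ((Q(m+1)+r)^i - (Q m+r)^i) ≤ ∑_i |ζ i| (4P)^i` (telescoping, `Q (b'-1) + r < b ≤ 4P` by `cls_lt`) `≤ ∑_{l < i ≤ d} δ 4^i ≤ δ (d+1) 4^d`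
(`|ζ i| ≤ δ P^(-i)`, `(4P)^i = 4^i P^i`).
-/

set_option autoImplicit false

open Finset Real Polynomial
open Pool.Agent.Lib.MP_2a816b_nt (e nn norm_e conj_e e_add e_neg)

namespace Pool.Agent.Lib.MP_570bef_ntW

open Pool.Agent.Lib.MP_570bef_ntS (kap Dio)
open Pool.Agent.Lib.MP_2a816b_nt (e_int e_add_int)

private theorem ClsS_tel (G : ℕ → ℝ) (hG : ∀ n, 0 ≤ G n) (a N : ℕ) :
    ∑ m ∈ Ico a N, (G (m + 1) - G m) ≤ G N := by
  induction N with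
  | zero => simpa using hG 0
  | succ N ih =>
    rcases Nat.lt_or_ge N a with h | h
    · rw [Finset.Ico_eq_empty (by omega), Finset.sum_empty]
      exact hG _
    · rw [Finset.sum_Ico_succ_top h]
      linarith

/-- the phase of the high part, up to integers -/
private theorem ClsS_int (z : ℕ → ℤ) (Q m r l d : ℕ) (hQ : 1 ≤ Q) :
    ∃ T : ℤ, ∑ i ∈ Ico (l + 1) (d + 1), ((z i : ℝ) / Q) * (((Q : ℝ) * m + r) ^ i - (r : ℝ) ^ i) = T := by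
  have hQ0 : (Q : ℝ) ≠ 0 := by positivity
  have h1 : ∀ i : ℕ, ∃ t : ℤ, ((z i : ℝ) / Q) * (((Q : ℝ) * m + r) ^ i - (r : ℝ) ^ i) = t := by
    intro i
    have h2 : ((Q : ℤ) * m + r - r) ∣ ((Q : ℤ) * m + r) ^ i - (r : ℤ) ^ i := sub_dvd_pow_sub_pow _ _ i
    rw [add_sub_cancel_right] at h2
    obtain ⟨w, hw⟩ := h2
    refine ⟨z i * (m * w), ?_⟩
    have h3 : ((Q : ℝ) * m + r) ^ i - (r : ℝ) ^ i = (Q : ℝ) * m * w := by exact_mod_cast hw
    rw [h3]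
    push_cast
    field_simp
  choose t ht using h1
  refine ⟨∑ i ∈ Ico (l + 1) (d + 1), t i, ?_⟩
  push_cast
  exact Finset.sum_congr rfl fun i _ => ht i

private theorem ClsS_phase (p : ℝ[X]) (d l : ℕ) (hp : p.natDegree ≤ d) (hld : l ≤ d) (Q r m : ℕ) (hQ : 1 ≤ Q)
    (z : ℕ → ℤ) : e (p.eval ((Q * m + r : ℕ) : ℝ)) =
      e (∑ i ∈ Ico (l + 1) (d + 1), ((z i : ℝ) / Q) * (r : ℝ) ^ i) *
        (e ((low p l Q r).eval (m : ℝ)) *
          e (∑ i ∈ Ico (l + 1) (d + 1), (p.coeff i - (z i : ℝ) / Q) * ((Q : ℝ) * m + r) ^ i)) := by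
  obtain ⟨T, hT⟩ := ClsS_int z Q m r l d hQ
  have h1 : p.eval ((Q * m + r : ℕ) : ℝ) = ∑ i ∈ range (d + 1), p.coeff i * ((Q : ℝ) * m + r) ^ i := by
    rw [eval_eq_sum_range' (show p.natDegree < d + 1 by omega)]
    push_cast
    rfl
  have h2 : ∑ i ∈ range (d + 1), p.coeff i * ((Q : ℝ) * m + r) ^ i =
      (low p l Q r).eval (m : ℝ) + ∑ i ∈ Ico (l + 1) (d + 1), p.coeff i * ((Q : ℝ) * m + r) ^ i := by
    rw [low_eval, Finset.sum_range_add_sum_Ico _ (by omega)]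
  have h3 : ∑ i ∈ Ico (l + 1) (d + 1), p.coeff i * ((Q : ℝ) * m + r) ^ i =
      ∑ i ∈ Ico (l + 1) (d + 1), ((z i : ℝ) / Q) * (r : ℝ) ^ i +
        ∑ i ∈ Ico (l + 1) (d + 1), (p.coeff i - (z i : ℝ) / Q) * ((Q : ℝ) * m + r) ^ i + (T : ℝ) := by
    rw [← hT, ← Finset.sum_add_distrib, ← Finset.sum_add_distrib]
    refine Finset.sum_congr rfl fun i _ => ?_
    ring
  have h4 : p.eval ((Q * m + r : ℕ) : ℝ) = (∑ i ∈ Ico (l + 1) (d + 1), ((z i : ℝ) / Q) * (r : ℝ) ^ i +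
      ((low p l Q r).eval (m : ℝ) +
        ∑ i ∈ Ico (l + 1) (d + 1), (p.coeff i - (z i : ℝ) / Q) * ((Q : ℝ) * m + r) ^ i)) + (T : ℝ) := by
    rw [h1, h2, h3]
    ring
  rw [h4, e_add_int, e_add, e_add]

theorem class_sum (p : ℝ[X]) (d l : ℕ) (hp : p.natDegree ≤ d) (hld : l ≤ d) (Q P : ℕ) (hQ : 1 ≤ Q)
    (hP : 1 ≤ P) (z : ℕ → ℤ) (δ : ℝ) (hδ : 0 ≤ δ)
    (hz : ∀ i, l + 1 ≤ i → i ≤ d → |p.coeff i - z i / Q| ≤ δ * (P : ℝ) ^ (-(i : ℝ)))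
    (a b : ℕ) (hb : b ≤ 4 * P) (B : ℝ)
    (hB : ∀ r : ℕ, r < Q → ∀ a' b' : ℕ, b' ≤ 4 * P → ‖SS (low p l Q r) a' b'‖ ≤ B) :
    ‖SS p a b‖ ≤ Q * (B * (1 + 2 * π * (δ * (d + 1) * 4 ^ d))) := by
  have hQ0 : (0 : ℝ) < Q := by exact_mod_cast hQ
  have hP0 : (0 : ℝ) < P := by exact_mod_cast hP
  obtain ⟨R, hRdef⟩ : ∃ R : ℝ, R = δ * (d + 1) * 4 ^ d := ⟨_, rfl⟩
  have hR0 : 0 ≤ R := by
    rw [hRdef]
    positivity
  rw [← hRdef]
  have hmain : ∀ r ∈ range Q, ‖∑ m ∈ Ico ((a + Q - 1 - r) / Q) ((b + Q - 1 - r) / Q),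
      e (p.eval ((Q * m + r : ℕ) : ℝ))‖ ≤ B * (1 + 2 * π * R) := by
    intro r hr
    rw [Finset.mem_range] at hr
    obtain ⟨a', ha'⟩ : ∃ a' : ℕ, a' = (a + Q - 1 - r) / Q := ⟨_, rfl⟩
    obtain ⟨b', hb'⟩ : ∃ b' : ℕ, b' = (b + Q - 1 - r) / Q := ⟨_, rfl⟩
    rw [← ha', ← hb']
    have hbb : b' ≤ b := by
      rw [hb']
      exact cls_le Q b r hQ
    have e1 : ∑ m ∈ Ico a' b', e (p.eval ((Q * m + r : ℕ) : ℝ)) =
        e (∑ i ∈ Ico (l + 1) (d + 1), ((z i : ℝ) / Q) * (r : ℝ) ^ i) *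
          ∑ m ∈ Ico a' b', e ((low p l Q r).eval (m : ℝ)) *
            e ((fun m : ℕ => ∑ i ∈ Ico (l + 1) (d + 1), (p.coeff i - (z i : ℝ) / Q) * ((Q : ℝ) * m + r) ^ i) m) := by
      rw [Finset.mul_sum]
      exact Finset.sum_congr rfl fun m _ => ClsS_phase p d l hp hld Q r m hQ z
    rw [e1, norm_mul, norm_e, one_mul]
    refine abel_e _ _ a' b' B R (fun b'' hb'' => ?_) ?_
    · exact hB r hr a' b'' (by omega)
    · rcases Nat.eq_zero_or_pos b' with h0 | h0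
      · rw [h0, Finset.Ico_eq_empty (by omega), Finset.sum_empty]
        exact hR0
      · have h1 : Q * (b' - 1) + r < b := (cls_lt Q b r (b' - 1) hr).1 (by omega)
        have h2 : (Q : ℝ) * ((b' - 1 : ℕ) : ℝ) + r ≤ 4 * P := by
          have h3 : Q * (b' - 1) + r ≤ 4 * P := by omega
          exact_mod_cast h3
        have h3 : ∀ m ∈ Ico a' (b' - 1),
            |∑ i ∈ Ico (l + 1) (d + 1), (p.coeff i - (z i : ℝ) / Q) * ((Q : ℝ) * ((m + 1 : ℕ) : ℝ) + r) ^ i -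
              ∑ i ∈ Ico (l + 1) (d + 1), (p.coeff i - (z i : ℝ) / Q) * ((Q : ℝ) * m + r) ^ i| ≤
            ∑ i ∈ Ico (l + 1) (d + 1), |p.coeff i - (z i : ℝ) / Q| *
              (((Q : ℝ) * ((m + 1 : ℕ) : ℝ) + r) ^ i - ((Q : ℝ) * m + r) ^ i) := by
          intro m _
          rw [← Finset.sum_sub_distrib]
          refine (Finset.abs_sum_le_sum_abs _ _).trans (Finset.sum_le_sum fun i _ => ?_)
          rw [← mul_sub, abs_mul]
          refine le_of_eq ?_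
          congr 1
          refine abs_of_nonneg (sub_nonneg.2 (pow_le_pow_left₀ (by positivity) ?_ i))
          push_cast
          nlinarith
        refine (Finset.sum_le_sum h3).trans ?_
        rw [Finset.sum_comm]
        have h4 : ∀ i ∈ Ico (l + 1) (d + 1), ∑ m ∈ Ico a' (b' - 1), |p.coeff i - (z i : ℝ) / Q| *
              (((Q : ℝ) * ((m + 1 : ℕ) : ℝ) + r) ^ i - ((Q : ℝ) * m + r) ^ i) ≤ δ * 4 ^ d := by
          intro i hi
          rw [Finset.mem_Ico] at hi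
          rw [← Finset.mul_sum]
          have h5 := ClsS_tel (fun m : ℕ => ((Q : ℝ) * m + r) ^ i) (fun n => by positivity) a' (b' - 1)
          beta_reduce at h5
          have h6 : ((Q : ℝ) * ((b' - 1 : ℕ) : ℝ) + r) ^ i ≤ (4 * P : ℝ) ^ i :=
            pow_le_pow_left₀ (by positivity) h2 i
          have h7 := hz i hi.1 (by omega)
          have h8 : (4 : ℝ) ^ i ≤ 4 ^ d := pow_le_pow_right₀ (by norm_num) (by omega)
          calc |p.coeff i - (z i : ℝ) / Q| *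
                ∑ m ∈ Ico a' (b' - 1), (((Q : ℝ) * ((m + 1 : ℕ) : ℝ) + r) ^ i - ((Q : ℝ) * m + r) ^ i)
              ≤ |p.coeff i - (z i : ℝ) / Q| * (4 * P : ℝ) ^ i :=
                mul_le_mul_of_nonneg_left (h5.trans h6) (abs_nonneg _)
            _ ≤ δ * (P : ℝ) ^ (-(i : ℝ)) * (4 * P : ℝ) ^ i := mul_le_mul_of_nonneg_right h7 (by positivity)
            _ = δ * 4 ^ i := by
                rw [Real.rpow_neg hP0.le, Real.rpow_natCast, mul_pow]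
                have h9 : (P : ℝ) ^ i ≠ 0 := by positivity
                field_simp
            _ ≤ δ * 4 ^ d := mul_le_mul_of_nonneg_left h8 hδ
        refine (Finset.sum_le_sum h4).trans ?_
        rw [Finset.sum_const, Nat.card_Ico, nsmul_eq_mul, hRdef]
        have h5 : ((d + 1 - (l + 1) : ℕ) : ℝ) ≤ (d : ℝ) + 1 := by
          have h6 : d + 1 - (l + 1) ≤ d + 1 := Nat.sub_le _ _
          exact_mod_cast h6
        calc ((d + 1 - (l + 1) : ℕ) : ℝ) * (δ * 4 ^ d) ≤ ((d : ℝ) + 1) * (δ * 4 ^ d) :=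
              mul_le_mul_of_nonneg_right h5 (by positivity)
          _ = δ * (d + 1) * 4 ^ d := by ring
  unfold SS
  rw [cls_split (fun n : ℕ => e (p.eval (n : ℝ))) Q a b hQ]
  calc ‖∑ r ∈ range Q, ∑ m ∈ Ico ((a + Q - 1 - r) / Q) ((b + Q - 1 - r) / Q), e (p.eval ((Q * m + r : ℕ) : ℝ))‖
      ≤ ∑ r ∈ range Q, ‖∑ m ∈ Ico ((a + Q - 1 - r) / Q) ((b + Q - 1 - r) / Q),
          e (p.eval ((Q * m + r : ℕ) : ℝ))‖ := norm_sum_le _ _
    _ ≤ ∑ _r ∈ range Q, B * (1 + 2 * π * R) := Finset.sum_le_sum hmain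
    _ = Q * (B * (1 + 2 * π * R)) := by rw [Finset.sum_const, Finset.card_range, nsmul_eq_mul]

end Pool.Agent.Lib.MP_570bef_ntW
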