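import Mathlib
import Pool.Agent.Lib.MP_570bef_ntW.Defs

/-!
# LclO: degree one

`D K x = ∑_{u < K} e (u x)`, `norm_D_le`, `norm_D_mul_nn : ‖D K x‖ * (2 nn x) ≤ 1` in `MP_2a816b_nt/Expo.lean`. `natDegree p ≤ 1`: `p.eval n = c0 + n α`, `α = p.coeff 1` (`Polynomial.eval_eq_sum_range'` or `exists_eq_X_add_C_of_natDegree_le_one`), so `SS p a b = e (c0 + a α) * D (b - a) α` (`Finset.sum_Ico_eq_sum_range`, `e_add`, `mul_sum`), `‖SS p a b‖ = ‖D (b-a) α‖`.
`σ = ε`, `C = 1`. If `nn α ≤ P^(-1+ε)`: second alternative with `q = 1`, `z = round α` (`nn x = |x - round x|`, `1 ≤ P^ε`). Otherwise `‖D‖ ≤ 1/(2 nn α) ≤ P^(1-ε)/2`.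
-/

set_option autoImplicit false

open Finset Real Polynomial
open Pool.Agent.Lib.MP_2a816b_nt (e nn norm_e conj_e e_add e_neg)

namespace Pool.Agent.Lib.MP_570bef_ntW

open Pool.Agent.Lib.MP_570bef_ntS (kap Dio)
open Pool.Agent.Lib.MP_2a816b_nt (D norm_D_le norm_D_mul_nn nn_le nn_nonneg)

private theorem LclO_norm (p : ℝ[X]) (a b : ℕ) (hp : p.natDegree ≤ 1) :
    ‖SS p a b‖ = ‖D (b - a) (p.coeff 1)‖ := by
  have hev : ∀ x : ℝ, p.eval x = p.coeff 1 * x + p.coeff 0 := by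
    intro x
    have h1 := Polynomial.eq_X_add_C_of_natDegree_le_one hp
    have h2 : p.eval x = (Polynomial.C (p.coeff 1) * Polynomial.X +
        Polynomial.C (p.coeff 0)).eval x := by rw [← h1]
    rw [h2, Polynomial.eval_add, Polynomial.eval_mul, Polynomial.eval_C, Polynomial.eval_X,
      Polynomial.eval_C]
  have h : SS p a b = e (p.eval (a : ℝ)) * D (b - a) (p.coeff 1) := by
    unfold SS D
    rw [Finset.sum_Ico_eq_sum_range, Finset.mul_sum]
    refine Finset.sum_congr rfl fun i _ => ?_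
    rw [← e_add, hev, hev, Nat.cast_add]
    congr 1
    ring
  rw [h, norm_mul, norm_e, one_mul]

theorem lcl_one : LCL 1 := by
  intro ε hε
  refine ⟨ε, 1, hε, le_rfl, ?_⟩
  intro P p a b hP hp _
  have hP1 : (1 : ℝ) ≤ (P : ℝ) := by exact_mod_cast hP
  have hP0 : (0 : ℝ) < (P : ℝ) := lt_of_lt_of_le one_pos hP1
  rcases le_or_gt (nn (p.coeff 1)) ((P : ℝ) ^ (-1 + ε)) with h | h
  · right
    refine ⟨1, round (p.coeff 1), le_rfl, ?_, ?_⟩
    · rw [Nat.cast_one, one_mul]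
      exact Real.one_le_rpow hP1 hε.le
    · rw [Nat.cast_one, one_mul, one_mul]
      exact h
  · left
    rw [LclO_norm p a b hp, one_mul]
    have h1 := norm_D_mul_nn (b - a) (p.coeff 1)
    have h2 : ‖D (b - a) (p.coeff 1)‖ * (P : ℝ) ^ (-1 + ε) ≤ 1 := by
      refine le_trans (mul_le_mul_of_nonneg_left ?_ (norm_nonneg _)) h1
      have h3 := nn_nonneg (p.coeff 1)
      linarith
    have h4 : (P : ℝ) ^ (-1 + ε) * (P : ℝ) ^ (1 - ε) = 1 := by
      rw [← Real.rpow_add hP0]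
      ring_nf
      exact Real.rpow_zero _
    have h5 : 0 ≤ (P : ℝ) ^ (1 - ε) := Real.rpow_nonneg hP0.le _
    calc ‖D (b - a) (p.coeff 1)‖ = ‖D (b - a) (p.coeff 1)‖ * (P : ℝ) ^ (-1 + ε) * (P : ℝ) ^ (1 - ε) := by
          rw [mul_assoc, h4, mul_one]
      _ ≤ 1 * (P : ℝ) ^ (1 - ε) := mul_le_mul_of_nonneg_right h2 h5
      _ = (P : ℝ) ^ (1 - ε) := one_mul _

end Pool.Agent.Lib.MP_570bef_ntW
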