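import Mathlib
import Pool.Agent.Lib.MP_570bef_ntW.Defs

/-!
# Dp: the difference polynomial

`dp p h = taylor h p - p`. `dp_eval`: `Polynomial.taylor_eval` (`(taylor r f).eval s = f.eval (s + r)`).
`natDegree p ≤ d + 1`. Coefficients: `(taylor h p).coeff n = (hasseDeriv n p).eval h` (`Polynomial.taylor_coeff`). For `n = d + 1`: `hasseDeriv (d+1) p` is the constant `p.coeff (d+1)` (`hasseDeriv_coeff`: its coefficient of index `m` is `(m+d+1).choose (d+1) * p.coeff (m+d+1)`, zero for `m ≥ 1`), for `n > d + 1` both coefficients are zero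
(`natDegree_taylor`, `coeff_eq_zero_of_natDegree_lt`), so `dp p h` has no coefficient of index `≥ d + 1` (`natDegree_le_iff_coeff_eq_zero`). For `n = d`: `hasseDeriv d p = p.coeff d + (d+1) p.coeff (d+1) X`, so `(taylor h p).coeff d = p.coeff d + (d+1) p.coeff (d+1) h`.
(`taylor_coeff` and `eval_eq_sum_range'` or `eval_eq_sum` are convenient; alternatively expand `(X + C h)^n` by hand.)
`dp_SS`: the sum in `vdc` for the function `n ↦ p.eval n`.
-/

set_option autoImplicit false

open Finset Real Polynomial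
open Pool.Agent.Lib.MP_2a816b_nt (e nn norm_e conj_e e_add e_neg)

namespace Pool.Agent.Lib.MP_570bef_ntW

open Pool.Agent.Lib.MP_570bef_ntS (kap Dio)

theorem dp_natDegree (p : ℝ[X]) (d h : ℕ) (hp : p.natDegree ≤ d + 1) : (dp p h).natDegree ≤ d := by
  rw [natDegree_le_iff_coeff_eq_zero]
  intro n hn
  unfold dp
  rw [coeff_sub, taylor_coeff]
  rcases Nat.eq_or_lt_of_le (Nat.succ_le_of_lt hn) with h1 | h1
  · subst h1
    have h2 : (hasseDeriv (d + 1) p).natDegree < 1 := by
      have := natDegree_hasseDeriv_le p (d + 1)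
      omega
    rw [Nat.succ_eq_add_one, eval_eq_sum_range' h2]
    simp [hasseDeriv_coeff]
  · have h2 : p.coeff n = 0 := coeff_eq_zero_of_natDegree_lt (by omega)
    have h3 : hasseDeriv n p = 0 := hasseDeriv_eq_zero_of_lt_natDegree p n (by omega)
    rw [h2, h3, eval_zero, sub_zero]

theorem dp_coeff (p : ℝ[X]) (d h : ℕ) (hp : p.natDegree ≤ d + 1) :
    (dp p h).coeff d = ((d : ℝ) + 1) * h * p.coeff (d + 1) := by
  unfold dp
  rw [coeff_sub, taylor_coeff]
  have h2 : (hasseDeriv d p).natDegree < 2 := by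
    have := natDegree_hasseDeriv_le p d
    omega
  rw [eval_eq_sum_range' h2, Finset.sum_range_succ, Finset.sum_range_one, hasseDeriv_coeff,
    hasseDeriv_coeff, zero_add, Nat.choose_self, add_comm 1 d, Nat.choose_succ_self_right]
  push_cast
  ring

theorem dp_eval (p : ℝ[X]) (h : ℕ) (x : ℝ) : (dp p h).eval x = p.eval (x + h) - p.eval x := by
  unfold dp
  rw [eval_sub, taylor_eval]

theorem dp_SS (p : ℝ[X]) (a b h : ℕ) :
    SS (dp p h) a b = ∑ n ∈ Ico a b, e (p.eval ((n + h : ℕ) : ℝ) - p.eval (n : ℝ)) := by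
  unfold SS
  refine Finset.sum_congr rfl fun n _ => ?_
  rw [dp_eval]
  push_cast
  rfl

end Pool.Agent.Lib.MP_570bef_ntW
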