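import Mathlib
import Pool.Agent.Lib.MP_570bef_ntW.Defs
import Pool.Agent.Lib.MP_570bef_ntP.Vin

/-!
# Many: many multiples close to integers

`mm V x = if 2 V nn x ≤ 1 then V else 1/(2 nn x)` (`MP_570bef_ntP/Bas.lean`, `mm_nonneg`), `vin` (Vinogradov, `MP_570bef_ntP/Vin.lean`).
Let `L P = 1 + (D + 1) log P ≤ K P^(η/2)` with `K = 1 + 2 (D+1)/η` (`Real.log_le_rpow_div`). Let `P0 ≥ 1` be such that for `P ≥ P0`: `P^(η/2) ≥ 64 K/c` and `P^(1-η) ≥ 64/c` (`tendsto_rpow_atTop`), `C = max (16/c) (P0^(D+1)) + 1`.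
Case `P < P0`: `q = 1`, `z = round β`: `|β - z| ≤ 1/2 ≤ C P^(2η-1)/V` because `V ≤ P^D ≤ P0^D` and `P^(2η-1) ≥ P^(-1) ≥ P0^(-1)`; `1 ≤ C P^η`.
Case `P ≥ P0`: `n = ⌊V P^(1-2η)⌋₊ ≥ 1` (`V P^(1-2η) ≥ P ≥ 1`). Dirichlet `Real.exists_rat_abs_sub_le_and_den_le β`: a rational `w` with `w.den ≤ n`, `|β - w| ≤ 1/((n+1) w.den)`; `q = w.den`, `z = w.num` coprime (`Rat.isCoprime_num_den` or `w.reduced`), `w = z/q` (`Rat.cast_def`). `q ≤ V P^(1-2η) < n + 1`, so
`|β - z/q| ≤ 1/(q V P^(1-2η)) ≤ 1/q²` and `|q β - z| ≤ 1/(V P^(1-2η)) = P^(2η-1)/V`.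
`vin` with `w₀ = 0`, `W = P`: `∑_{j < P} mm V (β j) ≤ (P/q + 1)(8V + 8q(1 + log q))`, the left side is at least `#G * V ≥ c P^(1-η) V` (`G ⊆ range P`, for `h ∈ G` `mm V (β h) = V`). Expanding: `c P^(1-η) V ≤ 8 P V/q + 8 P (1 + log q) + 8 V + 8 q (1 + log q)`. `1 + log q ≤ L P` as `q ≤ V P ≤ P^(D+1)`.
`8 V ≤ (c/8) P^(1-η) V`. `8 P (1 + log q) ≤ 8 K P^(1+η/2) ≤ (c/8) P^(1+η) ≤ (c/8) P^(1-η) V` (`V ≥ P^(2η)`). `8 q (1+log q) ≤ 8 V P^(1-2η) K P^(η/2) ≤ (c/8) P^(1-η) V`. So `8 P V/q ≥ (c/2) P^(1-η) V`, `q ≤ (16/c) P^η`.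
-/

set_option autoImplicit false

open Finset Real Polynomial
open Pool.Agent.Lib.MP_2a816b_nt (e nn norm_e conj_e e_add e_neg)

namespace Pool.Agent.Lib.MP_570bef_ntW

open Pool.Agent.Lib.MP_570bef_ntS (kap Dio)
open Pool.Agent.Lib.MP_570bef_ntP (mm vin mm_nonneg)

theorem many (D : ℕ) (η c : ℝ) (hη : 0 < η) (hη1 : η ≤ 1 / 8) (hc : 0 < c) :
    ∃ C : ℝ, 1 ≤ C ∧ ∀ (P : ℕ) (V β : ℝ) (G : Finset ℕ), 1 ≤ P → (P : ℝ) ^ (2 * η) ≤ V →
      V ≤ (P : ℝ) ^ (D : ℝ) → G ⊆ range P → c * (P : ℝ) ^ (1 - η) ≤ (#G : ℝ) →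
      (∀ h ∈ G, 2 * V * nn (β * h) ≤ 1) →
      ∃ (q : ℕ) (z : ℤ), 1 ≤ q ∧ (q : ℝ) ≤ C * (P : ℝ) ^ η ∧
        |(q : ℝ) * β - z| ≤ C * (P : ℝ) ^ (2 * η - 1) / V := by
  have hD1 : (0 : ℝ) ≤ (D : ℝ) + 1 := by positivity
  obtain ⟨K, hKdef⟩ : ∃ K : ℝ, K = 1 + 2 * ((D : ℝ) + 1) / η := ⟨_, rfl⟩
  have hK0 : 0 < K := by rw [hKdef]; positivity
  have ev1 : ∀ᶠ x : ℝ in Filter.atTop, 64 * K / c ≤ x ^ (η / 2) :=
    (tendsto_rpow_atTop (by positivity)).eventually_ge_atTop _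
  have ev2 : ∀ᶠ x : ℝ in Filter.atTop, 64 / c ≤ x ^ (1 - η) :=
    (tendsto_rpow_atTop (by linarith)).eventually_ge_atTop _
  obtain ⟨P0, hP0⟩ := Filter.eventually_atTop.1 (ev1.and ev2)
  obtain ⟨R, hRdef⟩ : ∃ R : ℝ, R = max P0 1 := ⟨_, rfl⟩
  have hR1 : 1 ≤ R := hRdef ▸ le_max_right _ _
  have hR0 : P0 ≤ R := hRdef ▸ le_max_left _ _
  obtain ⟨C, hC⟩ : ∃ C : ℝ, C = 16 / c + R ^ ((D : ℝ) + 1) := ⟨_, rfl⟩
  have hRp : 1 ≤ R ^ ((D : ℝ) + 1) := Real.one_le_rpow hR1 hD1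
  have hc16 : 0 < 16 / c := by positivity
  have hC1 : 1 ≤ C := by rw [hC]; linarith
  refine ⟨C, hC1, ?_⟩
  intro P V β G hP hV1 hV2 hG hGc hh
  have hP1 : (1 : ℝ) ≤ P := by exact_mod_cast hP
  have hPp : (0 : ℝ) < P := by linarith
  have hVpos : 0 < V := lt_of_lt_of_le (Real.rpow_pos_of_pos hPp _) hV1
  rcases lt_or_ge (P : ℝ) R with hlt | hge
  · refine ⟨1, round β, le_refl _, ?_, ?_⟩
    · have h1 : 1 ≤ (P : ℝ) ^ η := Real.one_le_rpow hP1 hη.le
      rw [Nat.cast_one]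
      nlinarith
    · have h1 : |β - round β| ≤ 1 / 2 := abs_sub_round β
      rw [Nat.cast_one, one_mul]
      refine h1.trans ?_
      rw [le_div_iff₀ hVpos]
      have h2 : (P : ℝ) ^ (2 * η - 1) * (P : ℝ) ^ ((D : ℝ) + 1) = (P : ℝ) ^ ((D : ℝ) + 2 * η) := by
        rw [← Real.rpow_add hPp]
        congr 1
        ring
      have h3 : (P : ℝ) ^ ((D : ℝ) + 1) ≤ R ^ ((D : ℝ) + 1) := Real.rpow_le_rpow hPp.le hlt.le hD1
      have h4 : (P : ℝ) ^ (D : ℝ) ≤ (P : ℝ) ^ ((D : ℝ) + 2 * η) :=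
        Real.rpow_le_rpow_of_exponent_le hP1 (by linarith)
      have h5 : 0 < (P : ℝ) ^ (2 * η - 1) := Real.rpow_pos_of_pos hPp _
      have h6 : R ^ ((D : ℝ) + 1) ≤ C := by rw [hC]; linarith
      calc 1 / 2 * V ≤ V := by linarith
        _ ≤ (P : ℝ) ^ (D : ℝ) := hV2
        _ ≤ (P : ℝ) ^ ((D : ℝ) + 2 * η) := h4
        _ = (P : ℝ) ^ (2 * η - 1) * (P : ℝ) ^ ((D : ℝ) + 1) := h2.symm
        _ ≤ (P : ℝ) ^ (2 * η - 1) * C := mul_le_mul_of_nonneg_left (h3.trans h6) h5.le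
        _ = C * (P : ℝ) ^ (2 * η - 1) := mul_comm _ _
  · obtain ⟨e1, e2⟩ := hP0 P (hR0.trans hge)
    obtain ⟨B, hB⟩ : ∃ B : ℝ, B = (P : ℝ) ^ (1 - 2 * η) := ⟨_, rfl⟩
    obtain ⟨Y, hY⟩ : ∃ Y : ℝ, Y = (P : ℝ) ^ (η / 2) := ⟨_, rfl⟩
    have hB0 : 0 < B := by rw [hB]; positivity
    have hY0 : 0 < Y := by rw [hY]; positivity
    have hY2 : (P : ℝ) ^ η = Y * Y := by
      rw [hY, ← Real.rpow_add hPp]
      congr 1
      ring
    have hY4 : (P : ℝ) ^ (2 * η) = Y * Y * (Y * Y) := by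
      rw [← hY2, ← Real.rpow_add hPp]
      congr 1
      ring
    have hA : (P : ℝ) ^ (1 - η) = B * (Y * Y) := by
      rw [← hY2, hB, ← Real.rpow_add hPp]
      congr 1
      ring
    have hPB : (P : ℝ) = B * (Y * Y * (Y * Y)) := by
      rw [← hY4, hB, ← Real.rpow_add hPp]
      have h1 : 1 - 2 * η + 2 * η = 1 := by ring
      rw [h1, Real.rpow_one]
    rw [← hY] at e1
    rw [hA] at e2 hGc
    rw [hY4] at hV1
    have e1' : 64 * K ≤ Y * c := (div_le_iff₀ hc).1 e1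
    have e2' : 64 ≤ B * (Y * Y) * c := (div_le_iff₀ hc).1 e2
    obtain ⟨X, hX⟩ : ∃ X : ℝ, X = V * B := ⟨_, rfl⟩
    have hX1 : (P : ℝ) ≤ X := by
      rw [hX, hPB, mul_comm B]
      exact mul_le_mul_of_nonneg_right hV1 hB0.le
    have hX0 : 0 < X := by linarith
    have hn : 0 < ⌊X⌋₊ := Nat.floor_pos.2 (hP1.trans hX1)
    obtain ⟨w, hw1, hw2⟩ := Real.exists_rat_abs_sub_le_and_den_le β hn
    have hq1 : 1 ≤ w.den := w.pos
    have hqR : (0 : ℝ) < (w.den : ℝ) := by exact_mod_cast w.pos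
    have hwq : ((w : ℚ) : ℝ) = (w.num : ℝ) / (w.den : ℝ) := Rat.cast_def w
    have hqX : (w.den : ℝ) ≤ X :=
      le_trans (by exact_mod_cast hw2) (Nat.floor_le hX0.le)
    have hXn : X < (⌊X⌋₊ : ℝ) + 1 := Nat.lt_floor_add_one X
    have hw3 : |β - (w.num : ℝ) / (w.den : ℝ)| ≤ 1 / (X * (w.den : ℝ)) := by
      rw [← hwq]
      refine hw1.trans ?_
      apply one_div_le_one_div_of_le (by positivity)
      exact mul_le_mul_of_nonneg_right hXn.le hqR.le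
    have hw4 : |β - (w.num : ℝ) / (w.den : ℝ)| ≤ 1 / (w.den : ℝ) ^ 2 := by
      refine hw3.trans ?_
      apply one_div_le_one_div_of_le (by positivity)
      rw [sq]
      exact mul_le_mul_of_nonneg_right hqX hqR.le
    have hcop : IsCoprime w.num (w.den : ℤ) := Rat.isCoprime_num_den w
    have hv := vin β V w.num w.den hq1 hcop hw4 hVpos.le 0 P
    have hlow : (#G : ℝ) * V ≤ ∑ j ∈ range P, mm V (β * (((0 : ℤ) : ℝ) + j)) := by
      calc (#G : ℝ) * V = ∑ j ∈ G, V := by rw [Finset.sum_const, nsmul_eq_mul]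
        _ = ∑ j ∈ G, mm V (β * (((0 : ℤ) : ℝ) + j)) := by
            refine Finset.sum_congr rfl fun j hj => ?_
            have h1 := hh j hj
            rw [Int.cast_zero, zero_add]
            unfold mm
            rw [if_pos h1]
        _ ≤ _ := Finset.sum_le_sum_of_subset_of_nonneg hG fun i _ _ => mm_nonneg _ _ hVpos.le
    have hlog : 1 + Real.log w.den ≤ K * Y := by
      have h1 : (w.den : ℝ) ≤ (P : ℝ) ^ ((D : ℝ) + 1) := by
        refine hqX.trans ?_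
        rw [hX, Real.rpow_add hPp, Real.rpow_one]
        refine mul_le_mul hV2 ?_ hB0.le (by positivity)
        rw [hB]
        calc (P : ℝ) ^ (1 - 2 * η) ≤ (P : ℝ) ^ (1 : ℝ) :=
              Real.rpow_le_rpow_of_exponent_le hP1 (by linarith)
          _ = P := Real.rpow_one _
      have h2 : Real.log w.den ≤ ((D : ℝ) + 1) * Real.log P := by
        rw [← Real.log_rpow hPp]
        exact Real.log_le_log hqR h1
      have h3 : Real.log P ≤ Y / (η / 2) := by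
        rw [hY]
        exact Real.log_le_rpow_div hPp.le (by positivity)
      have h4 : 1 ≤ Y := by
        rw [hY]
        exact Real.one_le_rpow hP1 (by positivity)
      have h5 : ((D : ℝ) + 1) * Real.log P ≤ ((D : ℝ) + 1) * (Y / (η / 2)) :=
        mul_le_mul_of_nonneg_left h3 hD1
      have h6 : K * Y = Y + ((D : ℝ) + 1) * (Y / (η / 2)) := by
        rw [hKdef]
        field_simp
      linarith
    obtain ⟨q, hq⟩ : ∃ q : ℝ, q = (w.den : ℝ) := ⟨_, rfl⟩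
    refine ⟨w.den, w.num, hq1, ?_, ?_⟩
    · have hL0 : 0 ≤ 1 + Real.log w.den := by
        have := Real.log_nonneg (show (1 : ℝ) ≤ w.den by exact_mod_cast hq1)
        linarith
      obtain ⟨L, hL⟩ : ∃ L : ℝ, L = 1 + Real.log w.den := ⟨_, rfl⟩
      have h1 : c * (B * (Y * Y)) * V ≤ ((P : ℝ) / (w.den : ℝ) + 1) *
          (8 * V + 8 * (w.den : ℝ) * (1 + Real.log w.den)) :=
        le_trans (mul_le_mul_of_nonneg_right hGc hVpos.le) (hlow.trans hv)
      rw [← hL] at h1 hL0 hlog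
      rw [← hq] at h1 hqR hqX
      rw [← hq]
      have h2 : c * (B * (Y * Y)) * V * q ≤ ((P : ℝ) + q) * (8 * V + 8 * q * L) := by
        have h3 := mul_le_mul_of_nonneg_right h1 hqR.le
        have h4 : ((P : ℝ) / q + 1) * (8 * V + 8 * q * L) * q =
            ((P : ℝ) + q) * (8 * V + 8 * q * L) := by
          field_simp
        rw [h4] at h3
        exact h3
      have a1 : 64 * (q * V) ≤ B * (Y * Y) * c * (q * V) :=
        mul_le_mul_of_nonneg_right e2' (by positivity)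
      have a0 : 64 * L ≤ c * (Y * Y) := by
        have h3 : 64 * (K * Y) ≤ c * (Y * Y) := by
          have h4 := mul_le_mul_of_nonneg_right e1' hY0.le
          linarith
        linarith
      have a2 : 64 * L * (P * q) ≤ c * (B * (Y * Y)) * V * q := by
        have h3 : 64 * L * ((P : ℝ) * q) ≤ c * (Y * Y) * ((P : ℝ) * q) :=
          mul_le_mul_of_nonneg_right a0 (by positivity)
        have h4 : c * (Y * Y) * ((P : ℝ) * q) = c * (Y * Y) * B * q * (Y * Y * (Y * Y)) := by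
          rw [hPB]
          ring
        have h5 : c * (Y * Y) * B * q * (Y * Y * (Y * Y)) ≤ c * (Y * Y) * B * q * V :=
          mul_le_mul_of_nonneg_left hV1 (by positivity)
        linarith
      have a3 : 64 * L * (q * q) ≤ c * (B * (Y * Y)) * V * q := by
        have h3 : 64 * L * (q * q) ≤ c * (Y * Y) * (q * q) :=
          mul_le_mul_of_nonneg_right a0 (by positivity)
        have h4 : c * (Y * Y) * q * q ≤ c * (Y * Y) * q * X :=
          mul_le_mul_of_nonneg_left hqX (by positivity)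
        rw [hX] at h4
        linarith
      have h5 : 5 / 8 * (c * q) * (B * (Y * Y) * V) ≤ 8 * (Y * Y) * (B * (Y * Y) * V) := by
        have h6 : ((P : ℝ) + q) * (8 * V + 8 * q * L) =
            8 * (P * V) + 8 * (L * (P * q)) + 8 * (q * V) + 8 * (L * (q * q)) := by ring
        have h7 : 8 * ((P : ℝ) * V) = 8 * (Y * Y) * (B * (Y * Y) * V) := by
          rw [hPB]
          ring
        rw [h6] at h2
        linarith
      have h6 : 5 / 8 * (c * q) ≤ 8 * (Y * Y) :=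
        le_of_mul_le_mul_right h5 (by positivity)
      have h7 : q ≤ 16 / c * (Y * Y) := by
        rw [div_mul_eq_mul_div, le_div_iff₀ hc]
        nlinarith [mul_pos hY0 hY0]
      rw [hY2]
      refine h7.trans (mul_le_mul_of_nonneg_right ?_ (by positivity))
      rw [hC]
      linarith
    · have h1 : (w.den : ℝ) * β - w.num = (w.den : ℝ) * (β - (w.num : ℝ) / (w.den : ℝ)) := by
        field_simp
      rw [h1, abs_mul, abs_of_pos hqR]
      have h2 : (w.den : ℝ) * |β - (w.num : ℝ) / (w.den : ℝ)| ≤ 1 / X := by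
        calc (w.den : ℝ) * |β - (w.num : ℝ) / (w.den : ℝ)| ≤ (w.den : ℝ) * (1 / (X * (w.den : ℝ))) :=
              mul_le_mul_of_nonneg_left hw3 hqR.le
          _ = 1 / X := by field_simp
      refine h2.trans ?_
      have h3 : 1 / X = (P : ℝ) ^ (2 * η - 1) / V := by
        have h4 : (P : ℝ) ^ (2 * η - 1) = 1 / B := by
          have h5 : 2 * η - 1 = -(1 - 2 * η) := by ring
          rw [h5, Real.rpow_neg hPp.le, hB, one_div]
        rw [h4, hX, div_div, mul_comm]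
      rw [h3]
      refine div_le_div_of_nonneg_right ?_ hVpos.le
      have h4 : 0 ≤ (P : ℝ) ^ (2 * η - 1) := by positivity
      nlinarith

end Pool.Agent.Lib.MP_570bef_ntW
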