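import Mathlib
import Pool.Agent.Lib.MP_570bef_ntW.Dp
import Pool.Agent.Lib.MP_50b5e1_nt.X.VdC

/-!
# ManyH: a large sum has many large differenced sums

`N = b - a`. `‖SS p a b‖ ≤ N` (norm of a sum of `N` terms of norm one; `b ≤ a` gives `0`), and `‖SS p a b‖ > 8 C1 P^(1-σ) ≥ 8`, so `a < b`, `1 ≤ N ≤ P`. `vdc` (file `MP_50b5e1_nt/X/VdC.lean`) for `F n = p.eval n` and `H = N`: `‖S‖² ≤ 2 (N + 2 ∑_{h ∈ Ico 1 N} ‖S_h‖)`, `S_h = ∑_{n ∈ Ico a (b-h)} e (F (n+h) - F n) = SS (dp p h) a (b-h)` (`dp_SS`).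
So `∑_{h ∈ Ico 1 N} ‖S_h‖ ≥ (‖S‖² - 2P)/4 ≥ (64 C1² P^(2-2σ) - 2 P)/4 ≥ 15 C1² P^(2-2σ)` (`P ≤ P^(2-2σ)` since `σ ≤ 1/2`, `C1 ≥ 1`). Let `G` be the filter of the statement. The `h ∈ Ico 1 N` not in `G` contribute at most `P C1 P^(1-σ1) = C1 P^(2-σ1) ≤ C1² P^(2-2σ)`, and the ones in `G` at most `#G * P` (`‖S_h‖ ≤ b - h - a ≤ P`).
Hence `#G * P ≥ 14 C1² P^(2-2σ)` and `#G ≥ P^(1-2σ)`. (`Ico 1 N ⊆ range P`.)
-/

set_option autoImplicit false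

open Finset Real Polynomial
open Pool.Agent.Lib.MP_2a816b_nt (e nn norm_e conj_e e_add e_neg)

namespace Pool.Agent.Lib.MP_570bef_ntW

open Pool.Agent.Lib.MP_570bef_ntS (kap Dio)

private theorem ManyH_le (p : ℝ[X]) (a b P : ℕ) (hab : b ≤ a + P) : ‖SS p a b‖ ≤ P := by
  unfold SS
  refine le_trans (norm_sum_le _ _) ?_
  have h1 : ∀ n ∈ Ico a b, ‖e (p.eval (n : ℝ))‖ = 1 := fun n _ => norm_e _
  rw [Finset.sum_congr rfl h1, Finset.sum_const, Nat.card_Ico, nsmul_eq_mul, mul_one]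
  have h2 : b - a ≤ P := by omega
  exact_mod_cast h2

theorem many_h (p : ℝ[X]) (a b P : ℕ) (C1 σ1 σ : ℝ) (hP : 1 ≤ P) (hC : 1 ≤ C1) (hσ : 0 < σ)
    (hσ1 : 2 * σ ≤ σ1) (hσ2 : σ ≤ 1 / 2) (hab : b ≤ a + P)
    (hS : 8 * C1 * (P : ℝ) ^ (1 - σ) < ‖SS p a b‖) :
    (P : ℝ) ^ (1 - 2 * σ) ≤
      (#{h ∈ range P | C1 * (P : ℝ) ^ (1 - σ1) < ‖SS (dp p h) a (b - h)‖} : ℝ) := by
  have hP1 : (1 : ℝ) ≤ P := by exact_mod_cast hP
  have hP0 : (0 : ℝ) < P := by linarith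
  obtain ⟨x, hx⟩ : ∃ x : ℝ, x = (P : ℝ) ^ (1 - σ) := ⟨_, rfl⟩
  have hx0 : 0 < x := by
    rw [hx]
    exact Real.rpow_pos_of_pos hP0 _
  have hx2 : x ^ 2 = (P : ℝ) ^ (2 - 2 * σ) := by
    rw [hx, ← Real.rpow_natCast, ← Real.rpow_mul hP0.le]
    congr 1
    push_cast
    ring
  rw [← hx] at hS
  have hS0 : 0 < ‖SS p a b‖ := lt_trans (by positivity) hS
  have hlt : a < b := by
    by_contra hcon
    have h1 : SS p a b = 0 := by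
      unfold SS
      rw [Finset.Ico_eq_empty (by omega), Finset.sum_empty]
    rw [h1, norm_zero] at hS0
    exact lt_irrefl _ hS0
  have hNR : (b : ℝ) - a = ((b - a : ℕ) : ℝ) := by
    rw [Nat.cast_sub hlt.le]
  have hN0 : (0 : ℝ) < ((b - a : ℕ) : ℝ) := by
    have h1 : 0 < b - a := by omega
    exact_mod_cast h1
  have hNP : ((b - a : ℕ) : ℝ) ≤ P := by
    have h1 : b - a ≤ P := by omega
    exact_mod_cast h1
  have hv := Pool.Agent.Lib.MP_50b5e1_nt.vdc (fun n => p.eval (n : ℝ)) a b (b - a) hlt.le (by omega) le_rfl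
  rw [hNR, mul_div_assoc, div_self hN0.ne', mul_one] at hv
  have hT : ∀ h : ℕ, ‖∑ n ∈ Ico a (b - h), e (p.eval ((n + h : ℕ) : ℝ) - p.eval (n : ℝ))‖ =
      ‖SS (dp p h) a (b - h)‖ := fun h => by rw [dp_SS]
  have hv' : ‖SS p a b‖ ^ 2 ≤ 2 * (((b - a : ℕ) : ℝ) + 2 * ∑ h ∈ Ico 1 (b - a), ‖SS (dp p h) a (b - h)‖) := by
    rw [← Finset.sum_congr rfl fun h _ => hT h]
    exact hv
  obtain ⟨G, hG⟩ : ∃ G : Finset ℕ, G = (range P).filter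
    fun h => C1 * (P : ℝ) ^ (1 - σ1) < ‖SS (dp p h) a (b - h)‖ := ⟨_, rfl⟩
  have hsum : ∑ h ∈ Ico 1 (b - a), ‖SS (dp p h) a (b - h)‖ ≤ (G.card : ℝ) * P + P * (C1 * (P : ℝ) ^ (1 - σ1)) := by
    have h1 : ∑ h ∈ Ico 1 (b - a), ‖SS (dp p h) a (b - h)‖ ≤ ∑ h ∈ range P, ‖SS (dp p h) a (b - h)‖ := by
      refine Finset.sum_le_sum_of_subset_of_nonneg (fun h hh => ?_) fun h _ _ => norm_nonneg _
      rw [mem_Ico] at hh
      rw [mem_range]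
      omega
    have h2 := Finset.sum_filter_add_sum_filter_not (range P)
      (fun h => C1 * (P : ℝ) ^ (1 - σ1) < ‖SS (dp p h) a (b - h)‖) fun h => ‖SS (dp p h) a (b - h)‖
    rw [← hG] at h2
    have h3 : ∑ h ∈ G, ‖SS (dp p h) a (b - h)‖ ≤ (G.card : ℝ) * P := by
      have h4 := Finset.sum_le_card_nsmul G (fun h => ‖SS (dp p h) a (b - h)‖) (P : ℝ)
        fun h _ => ManyH_le _ _ _ _ (by omega)
      rw [nsmul_eq_mul] at h4
      exact h4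
    have h5 : ∑ h ∈ (range P).filter (fun h => ¬ C1 * (P : ℝ) ^ (1 - σ1) < ‖SS (dp p h) a (b - h)‖),
        ‖SS (dp p h) a (b - h)‖ ≤ P * (C1 * (P : ℝ) ^ (1 - σ1)) := by
      have h6 := Finset.sum_le_card_nsmul ((range P).filter
        (fun h => ¬ C1 * (P : ℝ) ^ (1 - σ1) < ‖SS (dp p h) a (b - h)‖)) (fun h => ‖SS (dp p h) a (b - h)‖)
        (C1 * (P : ℝ) ^ (1 - σ1)) fun h hh => not_lt.1 (mem_filter.1 hh).2
      rw [nsmul_eq_mul] at h6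
      refine le_trans h6 (mul_le_mul_of_nonneg_right ?_ (by positivity))
      have h7 : ((range P).filter (fun h => ¬ C1 * (P : ℝ) ^ (1 - σ1) < ‖SS (dp p h) a (b - h)‖)).card ≤ P := by
        have h8 := Finset.card_filter_le (range P) (fun h => ¬ C1 * (P : ℝ) ^ (1 - σ1) < ‖SS (dp p h) a (b - h)‖)
        rw [card_range] at h8
        exact h8
      exact_mod_cast h7
    linarith
  have hb : (P : ℝ) * (C1 * (P : ℝ) ^ (1 - σ1)) ≤ C1 * x ^ 2 := by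
    have h1 : (P : ℝ) * (P : ℝ) ^ (1 - σ1) = (P : ℝ) ^ (2 - σ1) := by
      rw [show (2 - σ1 : ℝ) = 1 + (1 - σ1) by ring, Real.rpow_add hP0, Real.rpow_one]
    have h2 : (P : ℝ) ^ (2 - σ1) ≤ (P : ℝ) ^ (2 - 2 * σ) := Real.rpow_le_rpow_of_exponent_le hP1 (by linarith)
    calc (P : ℝ) * (C1 * (P : ℝ) ^ (1 - σ1)) = C1 * (P : ℝ) ^ (2 - σ1) := by
          rw [← h1]
          ring
      _ ≤ C1 * x ^ 2 := by
          rw [hx2]
          exact mul_le_mul_of_nonneg_left h2 (by linarith)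
  have hPx : (P : ℝ) ≤ x ^ 2 := by
    rw [hx2]
    have h1 := Real.rpow_le_rpow_of_exponent_le hP1 (show (1 : ℝ) ≤ 2 - 2 * σ by linarith)
    rw [Real.rpow_one] at h1
    exact h1
  have hSS : (8 * C1 * x) ^ 2 < ‖SS p a b‖ ^ 2 := pow_lt_pow_left₀ hS (by positivity) two_ne_zero
  have hfin : x ^ 2 ≤ (G.card : ℝ) * P := by
    have hx2' : 0 < x ^ 2 := by positivity
    have h1 : C1 * x ^ 2 ≤ C1 ^ 2 * x ^ 2 := by
      refine mul_le_mul_of_nonneg_right ?_ hx2'.le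
      nlinarith
    have h2 : x ^ 2 ≤ C1 * x ^ 2 := le_mul_of_one_le_left hx2'.le hC
    have h3 : (8 * C1 * x) ^ 2 = 64 * (C1 ^ 2 * x ^ 2) := by ring
    rw [h3] at hSS
    linarith
  have h1 : (P : ℝ) ^ (1 - 2 * σ) * P = x ^ 2 := by
    rw [hx2, show (2 - 2 * σ : ℝ) = (1 - 2 * σ) + 1 by ring, Real.rpow_add hP0, Real.rpow_one]
  rw [← h1] at hfin
  have h2 := le_of_mul_le_mul_right hfin hP0
  rw [hG] at h2
  exact h2

end Pool.Agent.Lib.MP_570bef_ntW
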