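import Mathlib
import Pool.Agent.Lib.MP_570bef_ntW.Defs

/-!
# Pig: pigeonhole

`q h` is one of the natural numbers in `Icc 1 ⌊K⌋₊` for `h ∈ G`. If every fibre `{h ∈ G | q h = q0}` had fewer than `#G/K` elements, then `#G = ∑_{q0 ∈ Icc 1 ⌊K⌋₊} #fibre < ⌊K⌋₊ * #G/K ≤ #G` (`Finset.card_eq_sum_card_fiberwise`, `Finset.sum_lt_sum_of_nonempty`; the interval is nonempty as `K ≥ 1`). For `G = ∅` take `q0 = 1`.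
-/

set_option autoImplicit false

open Finset Real Polynomial
open Pool.Agent.Lib.MP_2a816b_nt (e nn norm_e conj_e e_add e_neg)

namespace Pool.Agent.Lib.MP_570bef_ntW

open Pool.Agent.Lib.MP_570bef_ntS (kap Dio)

theorem pig (G : Finset ℕ) (q : ℕ → ℕ) (K : ℝ) (hK : 1 ≤ K)
    (hq : ∀ h ∈ G, 1 ≤ q h ∧ (q h : ℝ) ≤ K) :
    ∃ q0 : ℕ, 1 ≤ q0 ∧ (q0 : ℝ) ≤ K ∧ (#G : ℝ) / K ≤ (#{h ∈ G | q h = q0} : ℝ) := by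
  have hK0 : (0 : ℝ) < K := by linarith
  by_contra hcon
  push Not at hcon
  have hfl : 1 ≤ ⌊K⌋₊ := Nat.le_floor (by exact_mod_cast hK)
  have hmap : ∀ h ∈ G, q h ∈ Icc 1 ⌊K⌋₊ := by
    intro h hh
    exact mem_Icc.2 ⟨(hq h hh).1, Nat.le_floor (hq h hh).2⟩
  have h1 := card_eq_sum_card_fiberwise (s := G) (t := Icc 1 ⌊K⌋₊) (f := q) hmap
  have h2 : ∀ q0 ∈ Icc 1 ⌊K⌋₊, (#{h ∈ G | q h = q0} : ℝ) < (#G : ℝ) / K := by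
    intro q0 hq0
    obtain ⟨a1, a2⟩ := mem_Icc.1 hq0
    exact hcon q0 a1 ((Nat.le_floor_iff hK0.le).1 a2)
  have h3 : ∑ q0 ∈ Icc 1 ⌊K⌋₊, (#{h ∈ G | q h = q0} : ℝ) < ∑ _q0 ∈ Icc 1 ⌊K⌋₊, (#G : ℝ) / K :=
    sum_lt_sum_of_nonempty ⟨1, mem_Icc.2 ⟨le_rfl, hfl⟩⟩ h2
  rw [sum_const, Nat.card_Icc, Nat.add_sub_cancel, nsmul_eq_mul] at h3
  have h4 : (#G : ℝ) = ∑ q0 ∈ Icc 1 ⌊K⌋₊, (#{h ∈ G | q h = q0} : ℝ) := by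
    exact_mod_cast h1
  have h5 : (⌊K⌋₊ : ℝ) ≤ K := Nat.floor_le hK0.le
  have h6 : (⌊K⌋₊ : ℝ) * ((#G : ℝ) / K) ≤ K * ((#G : ℝ) / K) :=
    mul_le_mul_of_nonneg_right h5 (by positivity)
  have h7 : K * ((#G : ℝ) / K) = #G := by field_simp
  linarith

end Pool.Agent.Lib.MP_570bef_ntW
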