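import Mathlib
import Pool.Agent.Lib.MP_570bef_ntW.Dp
import Pool.Agent.Lib.MP_570bef_ntW.Many
import Pool.Agent.Lib.MP_570bef_ntW.ManyH
import Pool.Agent.Lib.MP_570bef_ntW.Pig

/-!
# LclS: the induction step of the leading coefficient lemma

Given `ε`; replace it by `min ε 1` (a larger exponent only weakens the conclusion as `P ≥ 1`), so let `ε ≤ 1`. `η = ε/8`, `ε1 = η/2`. `h ε1` gives `σ1, C1`; let `σ1' = min σ1 1` (`P^(1-σ1) ≤ P^(1-σ1')`), `σ = min (σ1'/2) (η/4)`. `many` with `D = d`, `η`, `c = 1/C1` gives `C2`. `C = max (max (8 C1) (4 C1²)) (2 C1 C2 (d+1))`, at least.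
Let `P, p, a, b` be given with `natDegree p ≤ d + 1`, `b ≤ a + P` and suppose `‖SS p a b‖ > C P^(1-σ)`. Since `‖SS p a b‖ ≤ P = P^σ P^(1-σ) ≤ P * P^(1-σ)` we have `P > C ≥ 4 C1²`, so `P^(1/2) ≥ 2 C1`.
`many_h` (with `σ1'`): `G = {h ∈ range P | C1 P^(1-σ1') < ‖SS (dp p h) a (b-h)‖}` has `#G ≥ P^(1-2σ)`. For `h ∈ G` the first alternative of `LCL d` is false for `dp p h` (`dp_natDegree`, `b - h ≤ a + P`), so (`dp_coeff`) there are `q h ∈ [1, C1 P^ε1]`, `z h` with `|q h ((d+1) h α) - z h| ≤ C1 P^(-d+ε1)`, `α = p.coeff (d+1)` (`choose`, or `Classical.choose` with a default value `1` outside of `G`).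
`pig` with `K = C1 P^ε1`: `q0` with `G' = {h ∈ G | q h = q0}`, `#G' ≥ #G/(C1 P^ε1) ≥ (1/C1) P^(1-2σ-ε1) ≥ (1/C1) P^(1-η)` (`2σ + ε1 ≤ η`). Let `β = q0 (d+1) α`, `V = P^(d-ε1)/(2 C1)`: for `h ∈ G'` `nn (β h) ≤ |β h - z h| ≤ C1 P^(-d+ε1)` (`nn_le`), so `2 V nn (β h) ≤ 1`. `V ≤ P^d`, and `V ≥ P^(2η)` because
`P^(d-ε1-2η) ≥ P^(1/2) ≥ 2 C1` (`d ≥ 1`, `ε1 + 2η ≤ 5/16`). `many`: `q1, z1` with `1 ≤ q1 ≤ C2 P^η`, `|q1 β - z1| ≤ C2 P^(2η-1)/V = 2 C1 C2 P^(2η-1-d+ε1)`. Take `q = q1 q0 (d+1)`, `z = z1`: `q ≤ C1 C2 (d+1) P^(η+ε1) ≤ C P^ε`, `|q α - z1| ≤ 2 C1 C2 P^(-(d+1)+2η+ε1) ≤ C P^(-(d+1)+ε)`.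
-/

set_option autoImplicit false

open Finset Real Polynomial
open Pool.Agent.Lib.MP_2a816b_nt (e nn norm_e conj_e e_add e_neg)

namespace Pool.Agent.Lib.MP_570bef_ntW

open Pool.Agent.Lib.MP_570bef_ntS (kap Dio)

theorem lcl_step (d : ℕ) (hd : 1 ≤ d) (h : LCL d) : LCL (d + 1) := by
  intro ε0 hε0
  obtain ⟨ε, hεdef⟩ : ∃ ε : ℝ, ε = min ε0 1 := ⟨_, rfl⟩
  have hε : 0 < ε := by rw [hεdef]; exact lt_min hε0 one_pos
  have hε1 : ε ≤ 1 := by rw [hεdef]; exact min_le_right _ _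
  have hεε0 : ε ≤ ε0 := by rw [hεdef]; exact min_le_left _ _
  clear hεdef
  obtain ⟨σ1, C1, hσ1, hC1, H⟩ := h (ε / 16) (by positivity)
  have hC1p : 0 < C1 := by linarith
  obtain ⟨C2, hC2, M⟩ := many d (ε / 8) (1 / C1) (by positivity) (by linarith) (by positivity)
  have hC2p : 0 < C2 := by linarith
  obtain ⟨s1, hs1def⟩ : ∃ s1 : ℝ, s1 = min σ1 1 := ⟨_, rfl⟩
  have hs1 : 0 < s1 := by rw [hs1def]; exact lt_min hσ1 one_pos
  have hs11 : s1 ≤ 1 := by rw [hs1def]; exact min_le_right _ _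
  have hs1σ1 : s1 ≤ σ1 := by rw [hs1def]; exact min_le_left _ _
  clear hs1def
  obtain ⟨σ, hσdef⟩ : ∃ σ : ℝ, σ = min (s1 / 2) (ε / 32) := ⟨_, rfl⟩
  have hσ : 0 < σ := by rw [hσdef]; exact lt_min (by positivity) (by positivity)
  have hσs : 2 * σ ≤ s1 := by
    have : σ ≤ s1 / 2 := by rw [hσdef]; exact min_le_left _ _
    linarith
  have hσε : σ ≤ ε / 32 := by rw [hσdef]; exact min_le_right _ _
  clear hσdef
  have hd1 : (1 : ℝ) ≤ (d : ℝ) := by exact_mod_cast hd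
  have hCC : 0 < C1 * C2 := by positivity
  refine ⟨σ, 8 * C1 + 4 * C1 ^ 2 + 2 * C1 * C2 * (d + 1), hσ, ?_, fun P p a b hP hp hab => ?_⟩
  · have h1 : 0 ≤ 4 * C1 ^ 2 := by positivity
    have h2 : 0 ≤ 2 * C1 * C2 * ((d : ℝ) + 1) := by positivity
    linarith
  obtain ⟨C, hCdef⟩ : ∃ C : ℝ, C = 8 * C1 + 4 * C1 ^ 2 + 2 * C1 * C2 * (d + 1) := ⟨_, rfl⟩
  rw [← hCdef]
  have hC8 : 8 * C1 ≤ C := by
    have h1 : 0 ≤ 4 * C1 ^ 2 := by positivity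
    have h2 : 0 ≤ 2 * C1 * C2 * ((d : ℝ) + 1) := by positivity
    linarith
  have hC4 : 4 * C1 ^ 2 ≤ C := by
    have h2 : 0 ≤ 2 * C1 * C2 * ((d : ℝ) + 1) := by positivity
    linarith
  have hC2d : 2 * C1 * C2 * ((d : ℝ) + 1) ≤ C := by
    have h1 : 0 ≤ 4 * C1 ^ 2 := by positivity
    linarith
  clear hCdef
  have hCpos : 0 < C := by linarith
  by_cases hS : ‖SS p a b‖ ≤ C * (P : ℝ) ^ (1 - σ)
  · exact Or.inl hS
  right
  have hS' : C * (P : ℝ) ^ (1 - σ) < ‖SS p a b‖ := not_le.mp hS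
  clear hS
  have hP1 : (1 : ℝ) ≤ (P : ℝ) := by exact_mod_cast hP
  have hP0 : (0 : ℝ) < (P : ℝ) := by linarith
  have hnorm : ‖SS p a b‖ ≤ (P : ℝ) := by
    have h1 : ‖SS p a b‖ ≤ ∑ n ∈ Ico a b, ‖e (p.eval (n : ℝ))‖ := norm_sum_le _ _
    have h2 : ∑ n ∈ Ico a b, ‖e (p.eval (n : ℝ))‖ = ((b - a : ℕ) : ℝ) := by
      simp [norm_e]
    have h3 : ((b - a : ℕ) : ℝ) ≤ (P : ℝ) := by
      have : b - a ≤ P := by omega
      exact_mod_cast this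
    linarith
  have hCP : C < (P : ℝ) := by
    have h1 : (P : ℝ) ^ (1 - σ) * (P : ℝ) ^ σ = (P : ℝ) := by
      rw [← rpow_add hP0]; norm_num
    have h2 : 0 < (P : ℝ) ^ (1 - σ) := rpow_pos_of_pos hP0 _
    have h3 : C * (P : ℝ) ^ (1 - σ) < (P : ℝ) ^ σ * (P : ℝ) ^ (1 - σ) := by
      rw [mul_comm ((P : ℝ) ^ σ), h1]; linarith
    have h4 : C < (P : ℝ) ^ σ := lt_of_mul_lt_mul_right h3 h2.le
    have h5 : (P : ℝ) ^ σ ≤ (P : ℝ) ^ (1 : ℝ) := rpow_le_rpow_of_exponent_le hP1 (by linarith)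
    rw [rpow_one] at h5
    linarith
  have hroot : 2 * C1 ≤ (P : ℝ) ^ (1 / 2 : ℝ) := by
    have h1 : (2 * C1) ^ 2 ≤ (P : ℝ) := by nlinarith
    rw [← sqrt_eq_rpow]
    exact le_sqrt_of_sq_le h1
  have hG := many_h p a b P C1 s1 σ hP hC1 hσ hσs (by linarith) hab (by
    have h2 : 0 < (P : ℝ) ^ (1 - σ) := rpow_pos_of_pos hP0 _
    have h3 : 8 * C1 * (P : ℝ) ^ (1 - σ) ≤ C * (P : ℝ) ^ (1 - σ) :=
      mul_le_mul_of_nonneg_right hC8 h2.le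
    linarith)
  obtain ⟨G, hGdef⟩ : ∃ G : Finset ℕ,
      G = {h ∈ range P | C1 * (P : ℝ) ^ (1 - s1) < ‖SS (dp p h) a (b - h)‖} := ⟨_, rfl⟩
  rw [← hGdef] at hG
  have hGP : G ⊆ range P := by rw [hGdef]; exact filter_subset _ _
  have key : ∀ j : ℕ, ∃ (q : ℕ) (z : ℤ), j ∈ G → (1 ≤ q ∧ (q : ℝ) ≤ C1 * (P : ℝ) ^ (ε / 16) ∧
      |(q : ℝ) * (((d : ℝ) + 1) * j * p.coeff (d + 1)) - z| ≤
        C1 * (P : ℝ) ^ (-(d : ℝ) + ε / 16)) := by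
    intro j
    by_cases hj : j ∈ G
    · have hj2 : C1 * (P : ℝ) ^ (1 - s1) < ‖SS (dp p j) a (b - j)‖ := by
        rw [hGdef, mem_filter] at hj
        exact hj.2
      rcases H P (dp p j) a (b - j) hP (dp_natDegree p d j hp) (by omega) with h1 | ⟨q, z, h1, h2, h3⟩
      · exfalso
        have h2 : (P : ℝ) ^ (1 - σ1) ≤ (P : ℝ) ^ (1 - s1) :=
          rpow_le_rpow_of_exponent_le hP1 (by linarith)
        have h3 : C1 * (P : ℝ) ^ (1 - σ1) ≤ C1 * (P : ℝ) ^ (1 - s1) :=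
          mul_le_mul_of_nonneg_left h2 hC1p.le
        linarith
      · refine ⟨q, z, fun _ => ⟨h1, h2, ?_⟩⟩
        rw [dp_coeff p d j hp] at h3
        exact h3
    · exact ⟨1, 0, fun h => absurd h hj⟩
  choose q z hqz using key
  have hPe : 1 ≤ (P : ℝ) ^ (ε / 16) := one_le_rpow hP1 (by positivity)
  have hPe0 : 0 < (P : ℝ) ^ (ε / 16) := by linarith
  have hK1 : 1 ≤ C1 * (P : ℝ) ^ (ε / 16) := by nlinarith
  obtain ⟨q0, hq01, hq0K, hG'⟩ := pig G q (C1 * (P : ℝ) ^ (ε / 16)) hK1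
    (fun j hj => ⟨(hqz j hj).1, (hqz j hj).2.1⟩)
  have hVpos : 0 < (P : ℝ) ^ ((d : ℝ) - ε / 16) / (2 * C1) := by positivity
  obtain ⟨q1, z1, hq1, hq1C, hz1⟩ := M P ((P : ℝ) ^ ((d : ℝ) - ε / 16) / (2 * C1))
    ((q0 : ℝ) * ((d : ℝ) + 1) * p.coeff (d + 1)) {j ∈ G | q j = q0} hP (by
      rw [le_div_iff₀ (by positivity)]
      have h1 : (P : ℝ) ^ (2 * (ε / 8)) * (2 * C1) ≤
          (P : ℝ) ^ (2 * (ε / 8)) * (P : ℝ) ^ (1 / 2 : ℝ) :=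
        mul_le_mul_of_nonneg_left hroot (by positivity)
      rw [← rpow_add hP0] at h1
      refine h1.trans (rpow_le_rpow_of_exponent_le hP1 ?_)
      linarith) (by
      rw [div_le_iff₀ (by positivity)]
      have h1 : (P : ℝ) ^ ((d : ℝ) - ε / 16) ≤ (P : ℝ) ^ (d : ℝ) :=
        rpow_le_rpow_of_exponent_le hP1 (by linarith)
      have h2 : 0 < (P : ℝ) ^ (d : ℝ) := rpow_pos_of_pos hP0 _
      nlinarith) ((filter_subset _ _).trans hGP) (by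
      refine le_trans ?_ hG'
      rw [le_div_iff₀ (by positivity)]
      have h1 : 1 / C1 * (P : ℝ) ^ (1 - ε / 8) * (C1 * (P : ℝ) ^ (ε / 16)) =
          (P : ℝ) ^ (1 - ε / 8 + ε / 16) := by
        rw [rpow_add hP0]
        field_simp
      rw [h1]
      refine le_trans (rpow_le_rpow_of_exponent_le hP1 ?_) hG
      linarith) (by
      intro j hj
      rw [mem_filter] at hj
      obtain ⟨hjG, hjq⟩ := hj
      have h1 := (hqz j hjG).2.2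
      rw [hjq] at h1
      have h2 : (q0 : ℝ) * (((d : ℝ) + 1) * j * p.coeff (d + 1)) =
          (q0 : ℝ) * ((d : ℝ) + 1) * p.coeff (d + 1) * j := by ring
      rw [h2] at h1
      have h3 := Pool.Agent.Lib.MP_2a816b_nt.nn_le
        ((q0 : ℝ) * ((d : ℝ) + 1) * p.coeff (d + 1) * j) (z j)
      have h4 := h3.trans h1
      have h5 : 2 * ((P : ℝ) ^ ((d : ℝ) - ε / 16) / (2 * C1)) *
          nn ((q0 : ℝ) * ((d : ℝ) + 1) * p.coeff (d + 1) * j) ≤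
          2 * ((P : ℝ) ^ ((d : ℝ) - ε / 16) / (2 * C1)) *
            (C1 * (P : ℝ) ^ (-(d : ℝ) + ε / 16)) :=
        mul_le_mul_of_nonneg_left h4 (by positivity)
      refine h5.trans (le_of_eq ?_)
      have h6 : (P : ℝ) ^ ((d : ℝ) - ε / 16) * (P : ℝ) ^ (-(d : ℝ) + ε / 16) = 1 := by
        rw [← rpow_add hP0]
        have : (d : ℝ) - ε / 16 + (-(d : ℝ) + ε / 16) = 0 := by ring
        rw [this, rpow_zero]
      have h7 : 2 * ((P : ℝ) ^ ((d : ℝ) - ε / 16) / (2 * C1)) *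
            (C1 * (P : ℝ) ^ (-(d : ℝ) + ε / 16)) =
          (P : ℝ) ^ ((d : ℝ) - ε / 16) * (P : ℝ) ^ (-(d : ℝ) + ε / 16) := by
        field_simp
      rw [h7, h6])
  refine ⟨q1 * q0 * (d + 1), z1, ?_, ?_, ?_⟩
  · have : 0 < q1 * q0 * (d + 1) := by positivity
    omega
  · have h1 : (q1 : ℝ) * q0 ≤ (C2 * (P : ℝ) ^ (ε / 8)) * (C1 * (P : ℝ) ^ (ε / 16)) :=
      mul_le_mul hq1C hq0K (by positivity) (by positivity)
    have h2 : (C2 * (P : ℝ) ^ (ε / 8)) * (C1 * (P : ℝ) ^ (ε / 16)) =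
        C1 * C2 * (P : ℝ) ^ (ε / 8 + ε / 16) := by
      rw [rpow_add hP0]; ring
    have h3 : (P : ℝ) ^ (ε / 8 + ε / 16) ≤ (P : ℝ) ^ ε0 :=
      rpow_le_rpow_of_exponent_le hP1 (by linarith)
    have h4 : 0 < (P : ℝ) ^ ε0 := rpow_pos_of_pos hP0 _
    have h5 : C1 * C2 * (P : ℝ) ^ (ε / 8 + ε / 16) ≤ C1 * C2 * (P : ℝ) ^ ε0 :=
      mul_le_mul_of_nonneg_left h3 hCC.le
    have h6 : ((q1 * q0 * (d + 1) : ℕ) : ℝ) = (q1 : ℝ) * q0 * ((d : ℝ) + 1) := by push_cast; ring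
    rw [h6]
    calc (q1 : ℝ) * q0 * ((d : ℝ) + 1) ≤ (C1 * C2 * (P : ℝ) ^ ε0) * ((d : ℝ) + 1) :=
          mul_le_mul_of_nonneg_right (by linarith) (by positivity)
      _ = (C1 * C2 * ((d : ℝ) + 1)) * (P : ℝ) ^ ε0 := by ring
      _ ≤ C * (P : ℝ) ^ ε0 := by
          refine mul_le_mul_of_nonneg_right ?_ h4.le
          have h7 : 0 ≤ C1 * C2 * ((d : ℝ) + 1) := by positivity
          linarith
  · have h6 : ((q1 * q0 * (d + 1) : ℕ) : ℝ) * p.coeff (d + 1) - z1 =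
        (q1 : ℝ) * ((q0 : ℝ) * ((d : ℝ) + 1) * p.coeff (d + 1)) - z1 := by push_cast; ring
    rw [h6]
    refine hz1.trans ?_
    have h1 : C2 * (P : ℝ) ^ (2 * (ε / 8) - 1) / ((P : ℝ) ^ ((d : ℝ) - ε / 16) / (2 * C1)) =
        2 * C1 * C2 * (P : ℝ) ^ (2 * (ε / 8) - 1 - ((d : ℝ) - ε / 16)) := by
      rw [rpow_sub hP0 (2 * (ε / 8) - 1) ((d : ℝ) - ε / 16)]
      field_simp
    rw [h1]
    have h2 : (P : ℝ) ^ (2 * (ε / 8) - 1 - ((d : ℝ) - ε / 16)) ≤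
        (P : ℝ) ^ (-((d + 1 : ℕ) : ℝ) + ε0) := by
      refine rpow_le_rpow_of_exponent_le hP1 ?_
      push_cast
      linarith
    have h3 : 0 < (P : ℝ) ^ (-((d + 1 : ℕ) : ℝ) + ε0) := rpow_pos_of_pos hP0 _
    have h4 : 2 * C1 * C2 ≤ C := by
      have h5 : 0 ≤ 2 * C1 * C2 * (d : ℝ) := by positivity
      linarith
    exact mul_le_mul h4 h2 (by positivity) hCpos.le

end Pool.Agent.Lib.MP_570bef_ntW
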