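import Mathlib
import Pool.Agent.Lib.MP_570bef_ntW.LclS
import Pool.Agent.Lib.MP_570bef_ntW.LclO

/-!
# LclA: the leading coefficient lemma

Induction on `d` (`Nat.le_induction`): `lcl_one`, `lcl_step`.
-/

set_option autoImplicit false

open Finset Real Polynomial
open Pool.Agent.Lib.MP_2a816b_nt (e nn norm_e conj_e e_add e_neg)

namespace Pool.Agent.Lib.MP_570bef_ntW

open Pool.Agent.Lib.MP_570bef_ntS (kap Dio)

theorem lcl_all (d : ℕ) (hd : 1 ≤ d) : LCL d := by
  induction d, hd using Nat.le_induction with
  | base => exact lcl_one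
  | succ n hn ih => exact lcl_step n hn ih

end Pool.Agent.Lib.MP_570bef_ntW
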