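import Mathlib
import Pool.Agent.Lib.MP_570bef_ntW.ClsS
import Pool.Agent.Lib.MP_570bef_ntW.LclA

/-!
# AclS: one more coefficient

Given `ε > 0`, replace it by `min ε 1`; so `ε ≤ 1`. `lcl_all l` with `ε1 = ε/4`: `σ1 ∈ (0, 1]` (replace by `min σ1 1`), `C1`. `h` (`ACL d (l+1)`) with `ε2 = min (σ1/8) (ε/(8 (l+1)))`: `σ2, C2`. `σ = min σ2 (σ1/2)`.
Let `P, p, a, b` be given, `b ≤ 4P`; if `‖SS p a b‖ ≤ C2 P^(1-σ2)` the first alternative holds. Otherwise `Q ≤ C2 P^ε2` and `z i` (`i ≥ l + 1`, `i ≤ d`; `choose`) with `|Q p_i - z i| ≤ C2 P^(-i+ε2)`, so `|p_i - z i/Q| ≤ C2 P^ε2 P^(-i)` (`Q ≥ 1`): `δ = C2 P^ε2`.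
Apply `LCL l` to `low p l Q r` and `Ico a' b'` with `4P` in place of `P` (`b' ≤ 4P ≤ a' + 4P`, `low_natDegree`). Case 1: for all `r < Q`, `a'`, `b' ≤ 4P` the first alternative holds: `B = C1 (4P)^(1-σ1) ≤ 4 C1 P^(1-σ1)`; `class_sum`: `‖SS p a b‖ ≤ Q B (1 + 2π δ (d+1) 4^d) ≤ C2 P^ε2 * 4 C1 P^(1-σ1) * (1 + 2π C2 (d+1) 4^d) P^ε2 ≤ C P^(1-σ1+2ε2) ≤ C P^(1-σ1/2)` (`1 ≤ P^ε2`).
Case 2: for some `r, a', b'` there are `q', z'` with `1 ≤ q' ≤ C1 (4P)^ε1 ≤ 4 C1 P^ε1` and `|q' Q^l p_l - z'| ≤ C1 (4P)^(-l+ε1) ≤ 4 C1 P^(-l+ε1)` (`low_coeff`; `4^(-l+ε1) ≤ 4`). Take `Q' = q' Q^l`: `Q' ≤ 4 C1 P^ε1 (C2 P^ε2)^l ≤ C P^(ε1 + l ε2) ≤ C P^ε`; `i = l`: done; `i ≥ l + 1`: `|Q' p_i - q' Q^(l-1) z i| = q' Q^(l-1) |Q p_i - z i| ≤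
4 C1 P^ε1 (C2 P^ε2)^(l-1) C2 P^(-i+ε2) ≤ C P^(-i+ε)` (`l ≥ 1`). `C` = the maximum of the constants.
-/

set_option autoImplicit false

open Finset Real Polynomial
open Pool.Agent.Lib.MP_2a816b_nt (e nn norm_e conj_e e_add e_neg)

namespace Pool.Agent.Lib.MP_570bef_ntW

open Pool.Agent.Lib.MP_570bef_ntS (kap Dio)

private theorem AclS_four {X s : ℝ} (hX : 0 ≤ X) (hs : s ≤ 1) : (4 * X) ^ s ≤ 4 * X ^ s := by
  rw [Real.mul_rpow (by norm_num) hX]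
  refine mul_le_mul_of_nonneg_right ?_ (Real.rpow_nonneg hX s)
  calc (4 : ℝ) ^ s ≤ (4 : ℝ) ^ (1 : ℝ) := Real.rpow_le_rpow_of_exponent_le (by norm_num) hs
    _ = 4 := Real.rpow_one 4

private theorem AclS_pow {X c e2 : ℝ} (hX : 1 ≤ X) (m : ℕ) :
    (c * X ^ e2) ^ m = c ^ m * X ^ ((m : ℝ) * e2) := by
  rw [mul_pow, ← Real.rpow_natCast (X ^ e2) m, ← Real.rpow_mul (by linarith), mul_comm e2]

theorem acl_step (d l : ℕ) (hl : 1 ≤ l) (hld : l ≤ d) (h : ACL d (l + 1)) : ACL d l := by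
  intro ε hε
  obtain ⟨e0, he0p, he0ε, he01⟩ : ∃ e0 : ℝ, 0 < e0 ∧ e0 ≤ ε ∧ e0 ≤ 1 :=
    ⟨min ε 1, lt_min hε one_pos, min_le_left _ _, min_le_right _ _⟩
  obtain ⟨σ1, C1, hσ1, hC1, H1⟩ := lcl_all l hl (e0 / 4) (by positivity)
  obtain ⟨s1, hs1p, hs1σ, hs11⟩ : ∃ s1 : ℝ, 0 < s1 ∧ s1 ≤ σ1 ∧ s1 ≤ 1 :=
    ⟨min σ1 1, lt_min hσ1 one_pos, min_le_left _ _, min_le_right _ _⟩
  obtain ⟨e2, he2p, he2a, he2b⟩ : ∃ e2 : ℝ, 0 < e2 ∧ e2 ≤ s1 / 8 ∧ e2 ≤ e0 / (8 * ((l : ℝ) + 1)) :=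
    ⟨min (s1 / 8) (e0 / (8 * ((l : ℝ) + 1))), lt_min (by positivity) (by positivity), min_le_left _ _,
      min_le_right _ _⟩
  have hle2 : (l : ℝ) * e2 ≤ e0 / 8 := by
    have h1 : ((l : ℝ) + 1) * e2 ≤ ((l : ℝ) + 1) * (e0 / (8 * ((l : ℝ) + 1))) :=
      mul_le_mul_of_nonneg_left he2b (by positivity)
    have h2 : ((l : ℝ) + 1) * (e0 / (8 * ((l : ℝ) + 1))) = e0 / 8 := by
      have : (l : ℝ) + 1 ≠ 0 := by positivity
      field_simp
    rw [h2] at h1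
    nlinarith
  obtain ⟨σ2, C2, hσ2, hC2, H2⟩ := h e2 he2p
  obtain ⟨K, hK⟩ : ∃ K : ℝ, K = 1 + 2 * π * (C2 * (d + 1) * 4 ^ d) := ⟨_, rfl⟩
  have hK0 : 0 ≤ K := by
    rw [hK]
    positivity
  have hm1 : min σ2 (s1 / 2) ≤ σ2 := min_le_left _ _
  have hm2 : min σ2 (s1 / 2) ≤ s1 / 2 := min_le_right _ _
  obtain ⟨C, hCa, hCb, hCc⟩ : ∃ C : ℝ, C2 ≤ C ∧ C2 * (4 * C1) * K ≤ C ∧ 4 * C1 * C2 ^ l ≤ C :=
    ⟨max C2 (max (C2 * (4 * C1) * K) (4 * C1 * C2 ^ l)), le_max_left _ _,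
      (le_max_left _ _).trans (le_max_right _ _), (le_max_right _ _).trans (le_max_right _ _)⟩
  refine ⟨min σ2 (s1 / 2), C, lt_min hσ2 (by positivity), hC2.trans hCa, ?_⟩
  intro P p a b hP hp hb
  have hX : (1 : ℝ) ≤ P := by exact_mod_cast hP
  have hX0 : (0 : ℝ) < P := by linarith
  have hC0 : 0 ≤ C := by linarith
  rcases H2 P p a b hP hp hb with h1 | ⟨Q, hQ1, hQ2, hz⟩
  · left
    refine h1.trans (mul_le_mul hCa (Real.rpow_le_rpow_of_exponent_le hX (by linarith))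
      (Real.rpow_nonneg hX0.le _) hC0)
  · have hz' : ∀ i : ℕ, ∃ z : ℤ, l + 1 ≤ i → i ≤ d →
        |(Q : ℝ) * p.coeff i - z| ≤ C2 * (P : ℝ) ^ (-(i : ℝ) + e2) := by
      intro i
      by_cases hi : l + 1 ≤ i ∧ i ≤ d
      · obtain ⟨z, hz1⟩ := hz i hi.1 hi.2
        exact ⟨z, fun _ _ => hz1⟩
      · exact ⟨0, fun ha hb' => absurd ⟨ha, hb'⟩ hi⟩
    choose z hzz using hz'
    have hQR : (1 : ℝ) ≤ Q := by exact_mod_cast hQ1
    have hQ0 : (0 : ℝ) < Q := by linarith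
    have h4P : (1 : ℝ) ≤ 4 * P := by linarith
    by_cases hall : ∀ r : ℕ, r < Q → ∀ a' b' : ℕ, b' ≤ 4 * P →
        ‖SS (low p l Q r) a' b'‖ ≤ C1 * (4 * (P : ℝ)) ^ (1 - σ1)
    · left
      have hcs := class_sum p d l hp hld Q P hQ1 hP z (C2 * (P : ℝ) ^ e2) (by positivity) (by
        intro i hi1 hi2
        have h2 := hzz i hi1 hi2
        have h3 : p.coeff i - (z i : ℝ) / Q = ((Q : ℝ) * p.coeff i - z i) / Q := by
          field_simp
        rw [h3, abs_div, abs_of_pos hQ0]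
        refine (div_le_self (abs_nonneg _) hQR).trans (h2.trans (le_of_eq ?_))
        rw [add_comm, Real.rpow_add hX0, mul_assoc]) a b hb (C1 * (4 * (P : ℝ)) ^ (1 - σ1)) hall
      refine hcs.trans ?_
      have hB : C1 * (4 * (P : ℝ)) ^ (1 - σ1) ≤ 4 * C1 * (P : ℝ) ^ (1 - s1) := by
        have h5 : (4 * (P : ℝ)) ^ (1 - σ1) ≤ 4 * (P : ℝ) ^ (1 - s1) :=
          (Real.rpow_le_rpow_of_exponent_le h4P (by linarith)).trans (AclS_four hX0.le (by linarith))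
        nlinarith
      have hPe : (1 : ℝ) ≤ (P : ℝ) ^ e2 := Real.one_le_rpow hX he2p.le
      have hF : 1 + 2 * π * (C2 * (P : ℝ) ^ e2 * (d + 1) * 4 ^ d) ≤ K * (P : ℝ) ^ e2 := by
        rw [hK]
        nlinarith
      have hF0 : 0 ≤ 1 + 2 * π * (C2 * (P : ℝ) ^ e2 * (d + 1) * 4 ^ d) := by positivity
      have hB0 : 0 ≤ C1 * (4 * (P : ℝ)) ^ (1 - σ1) := by positivity
      calc (Q : ℝ) * (C1 * (4 * (P : ℝ)) ^ (1 - σ1) * (1 + 2 * π * (C2 * (P : ℝ) ^ e2 * (d + 1) * 4 ^ d)))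
          ≤ (C2 * (P : ℝ) ^ e2) * ((4 * C1 * (P : ℝ) ^ (1 - s1)) * (K * (P : ℝ) ^ e2)) := by
            refine mul_le_mul hQ2 (mul_le_mul hB hF hF0 (by positivity)) (by positivity) (by positivity)
        _ = (C2 * (4 * C1) * K) * ((P : ℝ) ^ e2 * (P : ℝ) ^ (1 - s1) * (P : ℝ) ^ e2) := by ring
        _ = (C2 * (4 * C1) * K) * (P : ℝ) ^ (e2 + (1 - s1) + e2) := by
            rw [Real.rpow_add hX0, Real.rpow_add hX0]
        _ ≤ C * (P : ℝ) ^ (1 - min σ2 (s1 / 2)) := by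
            refine mul_le_mul hCb (Real.rpow_le_rpow_of_exponent_le hX (by linarith))
              (Real.rpow_nonneg hX0.le _) hC0
    · right
      push Not at hall
      obtain ⟨r, -, a', b', hb', hbig⟩ := hall
      have hcast : ((4 * P : ℕ) : ℝ) = 4 * (P : ℝ) := by push_cast; ring
      have h6 := H1 (4 * P) (low p l Q r) a' b' (by omega) (low_natDegree p l Q r) (by omega)
      rw [hcast] at h6
      rcases h6 with h7 | ⟨q', z', hq1, hq2, hq3⟩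
      · exact absurd h7 (not_le.2 hbig)
      rw [low_coeff] at hq3
      have hq2' : (q' : ℝ) ≤ 4 * C1 * (P : ℝ) ^ (e0 / 4) := by
        have h8 := AclS_four hX0.le (by linarith : e0 / 4 ≤ 1)
        nlinarith
      have hq0 : (0 : ℝ) ≤ q' := Nat.cast_nonneg _
      refine ⟨q' * Q ^ l, Nat.one_le_iff_ne_zero.2 (by positivity), ?_, ?_⟩
      · push_cast
        calc (q' : ℝ) * (Q : ℝ) ^ l ≤ (4 * C1 * (P : ℝ) ^ (e0 / 4)) * (C2 * (P : ℝ) ^ e2) ^ l :=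
              mul_le_mul hq2' (pow_le_pow_left₀ hQ0.le hQ2 l) (by positivity) (by positivity)
          _ = (4 * C1 * C2 ^ l) * (P : ℝ) ^ (e0 / 4 + (l : ℝ) * e2) := by
              rw [AclS_pow hX, Real.rpow_add hX0]
              ring
          _ ≤ C * (P : ℝ) ^ ε := by
              refine mul_le_mul hCc (Real.rpow_le_rpow_of_exponent_le hX (by linarith))
                (Real.rpow_nonneg hX0.le _) hC0
      · intro i hi1 hi2
        rcases Nat.eq_or_lt_of_le hi1 with hil | hil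
        · refine ⟨z', ?_⟩
          subst hil
          have hl1 : (1 : ℝ) ≤ l := by exact_mod_cast hl
          have h9 : ((q' * Q ^ l : ℕ) : ℝ) * p.coeff l - z' = (q' : ℝ) * (p.coeff l * (Q : ℝ) ^ l) - z' := by
            push_cast
            ring
          rw [h9]
          refine hq3.trans ?_
          have h10 : (4 * (P : ℝ)) ^ (-(l : ℝ) + e0 / 4) ≤ (P : ℝ) ^ (-(l : ℝ) + e0 / 4) :=
            Real.rpow_le_rpow_of_nonpos hX0 (by linarith) (by linarith)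
          have hC1C : C1 ≤ C := by
            have : C1 * 1 ≤ 4 * C1 * C2 ^ l := by
              have := one_le_pow₀ hC2 (n := l)
              nlinarith
            linarith
          refine mul_le_mul hC1C (h10.trans (Real.rpow_le_rpow_of_exponent_le hX (by linarith)))
            (by positivity) hC0
        · refine ⟨(q' : ℤ) * (Q : ℤ) ^ (l - 1) * z i, ?_⟩
          have h11 := hzz i hil hi2
          obtain ⟨m, rfl⟩ : ∃ m, l = m + 1 := ⟨l - 1, by omega⟩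
          have h12 : ((q' * Q ^ (m + 1) : ℕ) : ℝ) * p.coeff i -
              (((q' : ℤ) * (Q : ℤ) ^ (m + 1 - 1) * z i : ℤ) : ℝ) =
              (q' : ℝ) * (Q : ℝ) ^ m * ((Q : ℝ) * p.coeff i - z i) := by
            rw [Nat.add_sub_cancel]
            push_cast
            ring
          rw [h12, abs_mul, abs_of_nonneg (by positivity : (0 : ℝ) ≤ (q' : ℝ) * (Q : ℝ) ^ m)]
          calc (q' : ℝ) * (Q : ℝ) ^ m * |(Q : ℝ) * p.coeff i - z i|
              ≤ ((4 * C1 * (P : ℝ) ^ (e0 / 4)) * (C2 * (P : ℝ) ^ e2) ^ m) *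
                (C2 * (P : ℝ) ^ (-(i : ℝ) + e2)) :=
                mul_le_mul (mul_le_mul hq2' (pow_le_pow_left₀ hQ0.le hQ2 m) (by positivity) (by positivity))
                  h11 (abs_nonneg _) (by positivity)
            _ = (4 * C1 * C2 ^ (m + 1)) * (P : ℝ) ^ (e0 / 4 + (m : ℝ) * e2 + (-(i : ℝ) + e2)) := by
                rw [AclS_pow hX, Real.rpow_add hX0 (e0 / 4 + (m : ℝ) * e2), Real.rpow_add hX0 (e0 / 4)]
                ring
            _ ≤ C * (P : ℝ) ^ (-(i : ℝ) + ε) := by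
                refine mul_le_mul hCc (Real.rpow_le_rpow_of_exponent_le hX ?_)
                  (Real.rpow_nonneg hX0.le _) hC0
                push_cast at hle2
                linarith

end Pool.Agent.Lib.MP_570bef_ntW
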