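import Mathlib
import Pool.Agent.Lib.MP_570bef_ntW.AclS

/-!
# AclA: all coefficients

`acl_top`: `Q = 1`, no index `i` with `d + 1 ≤ i ≤ d`. `acl_all`: descending induction from `l = d + 1` to `l = 1` (for instance: for all `m ≤ d`, `ACL d (d + 1 - m)`).
-/

set_option autoImplicit false

open Finset Real Polynomial
open Pool.Agent.Lib.MP_2a816b_nt (e nn norm_e conj_e e_add e_neg)

namespace Pool.Agent.Lib.MP_570bef_ntW

open Pool.Agent.Lib.MP_570bef_ntS (kap Dio)

theorem acl_top (d : ℕ) : ACL d (d + 1) := by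
  intro ε hε
  refine ⟨1, 1, one_pos, le_rfl, ?_⟩
  intro P p a b hP _ _
  right
  refine ⟨1, le_rfl, ?_, ?_⟩
  · have hP1 : (1 : ℝ) ≤ (P : ℝ) := by exact_mod_cast hP
    have h1 : (1 : ℝ) ≤ (P : ℝ) ^ ε := Real.one_le_rpow hP1 hε.le
    simpa using h1
  · intro i hi hi2
    omega

theorem acl_all (d : ℕ) (hd : 1 ≤ d) : ACL d 1 := by
  have key : ∀ m : ℕ, m ≤ d → ACL d (d + 1 - m) := by
    intro m
    induction m with
    | zero =>
      intro _
      exact acl_top d
    | succ m ih =>
      intro hm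
      have h1 : ACL d (d + 1 - m) := ih (by omega)
      have e1 : d + 1 - m = (d + 1 - (m + 1)) + 1 := by omega
      rw [e1] at h1
      exact acl_step d (d + 1 - (m + 1)) (by omega) (by omega) h1
  have h2 := key d le_rfl
  have e2 : d + 1 - d = 1 := by omega
  rwa [e2] at h2

end Pool.Agent.Lib.MP_570bef_ntW
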