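import Mathlib
import Pool.Agent.Lib.MP_570bef_ntW.Defs

/-!
# Waring's problem for polynomials: definitions for the large sieve
-/

set_option autoImplicit false

open Finset Real Polynomial
open Pool.Agent.Lib.MP_2a816b_nt (e norm_e conj_e e_add e_neg)

namespace Pool.Agent.Lib.MP_570bef_ntW

/-- exponential sum in two variables with weights `c` -/
noncomputable def F2 {ι : Type} (T : Finset ι) (c U V : ι → ℝ) (α β : ℝ) : ℂ :=
  ∑ t ∈ T, (c t : ℂ) * e (α * U t + β * V t)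

/-- Gaussian sum over the pairs -/
noncomputable def GP {ι : Type} (T : Finset ι) (U V : ι → ℝ) (lam : ℝ) : ℝ :=
  ∑ t ∈ T, ∑ t' ∈ T, Real.exp (-(π * lam ^ 2 * ((U t - U t') ^ 2 + (V t - V t') ^ 2)))

/-- Gaussian sum over the pairs for the combination `U + θ V` -/
noncomputable def GD {ι : Type} (T : Finset ι) (U V : ι → ℝ) (θ lam : ℝ) : ℝ :=
  ∑ t ∈ T, ∑ t' ∈ T, Real.exp (-(π * (lam * ((U t - U t') + θ * (V t - V t'))) ^ 2))

/-- number of the pairs with `|U - U' + θ (V - V')| ≤ 1/2` -/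
noncomputable def N2 {ι : Type} (T : Finset ι) (U V : ι → ℝ) (θ : ℝ) : ℕ :=
  #((T ×ˢ T).filter fun z : ι × ι => |(U z.1 - U z.2) + θ * (V z.1 - V z.2)| ≤ 1 / 2)

/-- pairwise distances at least `ρ` -/
def Sepd (B : Finset ℝ) (ρ : ℝ) : Prop := ∀ x ∈ B, ∀ y ∈ B, x ≠ y → ρ ≤ |x - y|

/-- Diophantine condition with exponent `ν` -/
def DioE (ν : ℕ) (β : ℝ) : Prop :=
  ∃ c : ℝ, 0 < c ∧ ∀ (q : ℕ) (p : ℤ), 1 ≤ q → c / (q : ℝ) ^ ν ≤ |(q : ℝ) * β - p|

end Pool.Agent.Lib.MP_570bef_ntW
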