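import Mathlib
import Pool.Agent.Lib.MP_570bef_ntW.D2
import Pool.Agent.Lib.MP_570bef_ntSH.Kap

/-!
# NumN: the numbers of variables

As `Nums.lean` (copy it): `kap k ^ (⌊k log a⌋₊ + 1) < 1/a` for `a ≥ 1`. With `a = 2k/(jδ)`: `k κ^s < jδ/2`; with `a = 2/δ`: `j κ^r < jδ/2`. `r ≤ s` because `2/δ ≤ 2k/(jδ)`.
-/

set_option autoImplicit false

open Finset Real Polynomial
open Pool.Agent.Lib.MP_2a816b_nt (e nn norm_e conj_e e_add e_neg)

namespace Pool.Agent.Lib.MP_570bef_ntW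

open Pool.Agent.Lib.MP_570bef_ntS (kap Dio)
open Pool.Agent.Lib.MP_570bef_ntSH (kap_pos kap_lt_one kap_pow_pos kap_pow_le_one)

/-- `kap k ^ (⌊k log a⌋₊ + 1) < 1 / a` -/
private theorem NumN_pow (k : ℕ) (hk : 2 ≤ k) {a : ℝ} (ha : 1 ≤ a) :
    kap k ^ (⌊(k : ℝ) * log a⌋₊ + 1) < 1 / a := by
  have hk0 : (0 : ℝ) < k := by
    have : 0 < k := by omega
    exact_mod_cast this
  have ha0 : 0 < a := by linarith
  have h1 : kap k ≤ exp (-(1 / (k : ℝ))) := by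
    have h2 := Real.add_one_le_exp (-(1 / (k : ℝ)))
    have h3 : kap k = 1 - 1 / (k : ℝ) := rfl
    rw [h3]
    linarith
  have h0 : 0 < kap k := kap_pos hk
  have h4 : (k : ℝ) * log a < ((⌊(k : ℝ) * log a⌋₊ + 1 : ℕ) : ℝ) := by
    push_cast
    exact Nat.lt_floor_add_one _
  calc kap k ^ (⌊(k : ℝ) * log a⌋₊ + 1) ≤ exp (-(1 / (k : ℝ))) ^ (⌊(k : ℝ) * log a⌋₊ + 1) :=
        pow_le_pow_left₀ h0.le h1 _
    _ = exp (((⌊(k : ℝ) * log a⌋₊ + 1 : ℕ) : ℝ) * -(1 / (k : ℝ))) := by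
        rw [← Real.exp_nat_mul]
    _ < exp (-log a) := by
        apply Real.exp_lt_exp.mpr
        have h5 : (k : ℝ) * log a * (1 / (k : ℝ)) = log a := by
          field_simp
        have h6 := mul_lt_mul_of_pos_right h4 (by positivity : 0 < 1 / (k : ℝ))
        rw [h5] at h6
        linarith
    _ = 1 / a := by
        rw [Real.exp_neg, Real.exp_log ha0, one_div]

theorem num_n (k j : ℕ) (hk : 2 ≤ k) (hj : 1 ≤ j) (hjk : j < k) (δ : ℝ) (hδ : 0 < δ)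
    (hδ1 : δ ≤ 1) :
    ⌊(k : ℝ) * log (2 / δ)⌋₊ + 1 ≤ ⌊(k : ℝ) * log (2 * k / (j * δ))⌋₊ + 1 ∧
      (k : ℝ) * kap k ^ (⌊(k : ℝ) * log (2 * k / (j * δ))⌋₊ + 1) +
        (j : ℝ) * kap k ^ (⌊(k : ℝ) * log (2 / δ)⌋₊ + 1) < j * δ := by
  have hk0 : (0 : ℝ) < k := by
    have : 0 < k := by omega
    exact_mod_cast this
  have hj0 : (0 : ℝ) < j := by
    have : 0 < j := by omega
    exact_mod_cast this
  have hjk' : (j : ℝ) ≤ k := by exact_mod_cast hjk.le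
  have hjd : 0 < (j : ℝ) * δ := mul_pos hj0 hδ
  have h1 : (1 : ℝ) ≤ 2 / δ := by
    rw [le_div_iff₀ hδ]
    linarith
  have h2 : 2 / δ ≤ 2 * k / (j * δ) := by
    rw [div_le_div_iff₀ hδ hjd]
    have h7 := mul_le_mul_of_nonneg_right hjk' hδ.le
    linarith
  constructor
  · have h3 : log (2 / δ) ≤ log (2 * k / (j * δ)) := Real.log_le_log (by linarith) h2
    have h4 : ⌊(k : ℝ) * log (2 / δ)⌋₊ ≤ ⌊(k : ℝ) * log (2 * k / (j * δ))⌋₊ :=
      Nat.floor_le_floor (mul_le_mul_of_nonneg_left h3 hk0.le)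
    omega
  · have h3 := NumN_pow k hk (a := 2 * k / (j * δ)) (by linarith)
    have h4 := NumN_pow k hk (a := 2 / δ) h1
    have h5 : (k : ℝ) * (1 / (2 * k / (j * δ))) = j * δ / 2 := by
      field_simp
    have h8 : (j : ℝ) * (1 / (2 / δ)) = j * δ / 2 := by
      field_simp
    have h6 := mul_lt_mul_of_pos_left h3 hk0
    have h7 := mul_lt_mul_of_pos_left h4 hj0
    rw [h5] at h6
    rw [h8] at h7
    linarith

end Pool.Agent.Lib.MP_570bef_ntW
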