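import Mathlib
import Pool.Agent.Lib.MP_570bef_ntW.Defs
import Pool.Agent.Lib.MP_570bef_ntM.Four

/-!
# CExp: weights and expansion of the weighted sum with floors

As `ws_mem`, `sws_expand` in `MP_570bef_ntS/SwX.lean` (adapt it, `(n + β)^k` becomes `φ n`, `gs k β` becomes `gf φ`): `four_sum α (φ n)` (file `MP_570bef_ntM/Four.lean`), `hasSum_sum`, `(⌊φ n⌋ : ℤ) = gf φ n` since `φ n ≥ 0`.
-/

set_option autoImplicit false

open Finset Real Polynomial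
open Pool.Agent.Lib.MP_2a816b_nt (e nn norm_e conj_e e_add e_neg)

namespace Pool.Agent.Lib.MP_570bef_ntW

open Pool.Agent.Lib.MP_570bef_ntS (kap Dio)
open Pool.Agent.Lib.MP_570bef_ntM (cw FW four_sum)

theorem wf_mem (φ : ℕ → ℝ) (n : ℕ) : 0 ≤ wf φ n ∧ wf φ n ≤ 1 := by
  unfold wf
  exact ⟨sq_nonneg _, Real.sin_sq_le_one _⟩

theorem sw_expand (φ : ℕ → ℝ) (hφ : ∀ n, 0 ≤ φ n) (P : ℕ) (α : ℝ) :
    HasSum (fun h : ℤ => cw (α + h) * ∑ n ∈ Ico P (2 * P), e ((α + h) * φ n))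
      (FW (Ico P (2 * P)) (wf φ) (gf φ) α) := by
  have h := hasSum_sum (s := Ico P (2 * P)) fun n _ => four_sum α (φ n)
  have e1 : (fun h : ℤ => cw (α + h) * ∑ n ∈ Ico P (2 * P), e ((α + h) * φ n)) =
      fun h : ℤ => ∑ n ∈ Ico P (2 * P), cw (α + h) * e ((α + h) * φ n) := by
    funext h
    rw [Finset.mul_sum]
  have e2 : FW (Ico P (2 * P)) (wf φ) (gf φ) α =
      ∑ n ∈ Ico P (2 * P), ((sin (π * φ n) ^ 2 : ℝ) : ℂ) * e (α * (⌊φ n⌋ : ℤ)) := by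
    unfold FW
    refine Finset.sum_congr rfl fun n _ => ?_
    have e3 : ((gf φ n : ℕ) : ℝ) = ((⌊φ n⌋ : ℤ) : ℝ) := by
      unfold gf
      exact natCast_floor_eq_intCast_floor (hφ n)
    rw [e3]
    rfl
  rw [e1, e2]
  exact h

end Pool.Agent.Lib.MP_570bef_ntW
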