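import Mathlib
import Pool.Agent.Lib.MP_570bef_ntW.CExp
import Pool.Agent.Lib.MP_570bef_ntM.CwB
import Pool.Agent.Lib.MP_570bef_ntM.InvS

/-!
# CMin: minor arcs, sum of the weights

Adapt `sws_minor`, `ws_sum` of `MP_570bef_ntS/SwY.lean`: `(n + β)^k` becomes `φ n`, `1/(128 k 2^k)` becomes `σ`, `weyl_s` becomes `hR.weyl` (with the constant `K`), `sws_expand` becomes `sw_expand`, `ws_mem` becomes `wf_mem`.
-/

set_option autoImplicit false

open Finset Real Polynomial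
open Pool.Agent.Lib.MP_2a816b_nt (e nn norm_e conj_e e_add e_neg)

namespace Pool.Agent.Lib.MP_570bef_ntW

open Pool.Agent.Lib.MP_570bef_ntS (kap Dio)
open Pool.Agent.Lib.MP_570bef_ntM (cw FW cw_norm inv_sum)

theorem minor_g {k : ℕ} {φ : ℕ → ℝ} {K c σ : ℝ} {N1 : ℕ} (hR : Reg k φ K c σ N1) :
    ∃ C : ℝ, 0 < C ∧ ∀ (P : ℕ) (α : ℝ), 1 ≤ P → (P : ℝ) ^ (-(k : ℝ) + 1 / 4) ≤ α →
      α ≤ 1 - (P : ℝ) ^ (-(k : ℝ) + 1 / 4) →
      ‖FW (Ico P (2 * P)) (wf φ) (gf φ) α‖ ≤ C * (P : ℝ) ^ (1 - σ) := by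
  obtain ⟨C', hC', hS⟩ := inv_sum
  have hK : 0 < K := lt_of_lt_of_le zero_lt_one hR.hK
  refine ⟨27 * K * C', by positivity, fun P α hP hlo hhi => ?_⟩
  have hP1 : (1 : ℝ) ≤ P := by exact_mod_cast hP
  have hP0 : (0 : ℝ) < P := by linarith
  have hpp : 0 < (P : ℝ) ^ (-(k : ℝ) + 1 / 4) := Real.rpow_pos_of_pos hP0 _
  have hα0 : 0 ≤ α := by linarith
  have hα1 : α ≤ 1 := by linarith
  obtain ⟨hsum, hsum2⟩ := hS α hα0 hα1
  obtain ⟨D, hDd⟩ : ∃ D : ℝ, D = (P : ℝ) ^ (1 - σ) := ⟨_, rfl⟩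
  have hD0 : 0 ≤ D := by
    rw [hDd]
    positivity
  have hterm : ∀ h : ℤ, ‖cw (α + h) * ∑ n ∈ Ico P (2 * P), e ((α + h) * φ n)‖ ≤
      27 * K * D * (1 / (1 + |α + h|) ^ 2) := by
    intro h
    have habs : (P : ℝ) ^ (-(k : ℝ) + 1 / 4) ≤ |α + h| := by
      rcases le_or_gt 0 h with h0 | h0
      · have h2 : (0 : ℝ) ≤ h := by exact_mod_cast h0
        rw [abs_of_nonneg (by linarith)]
        linarith
      · have h2 : (h : ℝ) ≤ -1 := by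
          have : h ≤ -1 := by omega
          exact_mod_cast this
        have h3 := neg_le_abs (α + h)
        linarith
    have h3 := hR.weyl P (α + h) hP habs
    rw [← hDd] at h3
    have h4 := cw_norm (α + h)
    have h5 : 0 ≤ |α + h| := abs_nonneg _
    rw [norm_mul]
    calc ‖cw (α + h)‖ * ‖∑ n ∈ Ico P (2 * P), e ((α + h) * φ n)‖ ≤
          27 / (1 + |α + h|) ^ 3 * (K * D * (1 + |α + h|)) :=
          mul_le_mul h4 h3 (norm_nonneg _) (by positivity)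
      _ = 27 * K * D * (1 / (1 + |α + h|) ^ 2) := by
          field_simp
  have hg : HasSum (fun h : ℤ => 27 * K * D * (1 / (1 + |α + h|) ^ 2))
      (27 * K * D * ∑' h : ℤ, 1 / (1 + |α + h|) ^ 2) := hsum.hasSum.mul_left _
  have hx := sw_expand φ hR.nonneg P α
  rw [← hDd, ← hx.tsum_eq]
  refine (tsum_of_norm_bounded hg hterm).trans ?_
  calc 27 * K * D * ∑' h : ℤ, 1 / (1 + |α + h|) ^ 2 ≤ 27 * K * D * C' :=
        mul_le_mul_of_nonneg_left hsum2 (by positivity)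
    _ = 27 * K * C' * D := by ring

theorem wsum_g {k : ℕ} {φ : ℕ → ℝ} {K c σ : ℝ} {N1 : ℕ} (hR : Reg k φ K c σ N1) :
    ∃ P0 : ℕ, ∀ P : ℕ, P0 ≤ P → (P : ℝ) / 4 ≤ ∑ n ∈ Ico P (2 * P), wf φ n := by
  have h2 : ∀ᶠ P : ℕ in Filter.atTop, 4 * K ≤ (P : ℝ) ^ σ :=
    ((tendsto_rpow_atTop hR.hσ).comp tendsto_natCast_atTop_atTop).eventually_ge_atTop (4 * K)
  obtain ⟨P0, hP0⟩ := (h2.and (Filter.eventually_ge_atTop 1)).exists_forall_of_atTop
  refine ⟨P0, fun P hP => ?_⟩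
  obtain ⟨h3, h4⟩ := hP0 P hP
  have hP1 : (1 : ℝ) ≤ P := by exact_mod_cast h4
  have hPpos : (0 : ℝ) < P := by linarith
  obtain ⟨S, hS⟩ : ∃ S : ℂ, S = ∑ n ∈ Ico P (2 * P), e (1 * φ n) := ⟨_, rfl⟩
  have h5 : ‖S‖ ≤ P / 2 := by
    have h6 := hR.weyl P 1 h4 (by
      rw [abs_one]
      have hk1 : (2 : ℝ) ≤ k := by exact_mod_cast hR.hk
      exact Real.rpow_le_one_of_one_le_of_nonpos hP1 (by linarith))
    rw [abs_one, ← hS] at h6
    have h7 : (P : ℝ) = (P : ℝ) ^ (1 - σ) * (P : ℝ) ^ σ := by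
      rw [← Real.rpow_add hPpos, sub_add_cancel, Real.rpow_one]
    have h8 : (P : ℝ) ^ (1 - σ) * (4 * K) ≤ (P : ℝ) ^ (1 - σ) * (P : ℝ) ^ σ :=
      mul_le_mul_of_nonneg_left h3 (Real.rpow_nonneg hPpos.le _)
    rw [← h7] at h8
    linarith
  have h6 : ∀ n : ℕ, wf φ n = 1 / 2 - (e (1 * φ n)).re / 2 := by
    intro n
    have h7 : (e (1 * φ n)).re = Real.cos (2 * (π * φ n)) := by
      unfold e
      have h8 : (2 * (π : ℂ) * ((1 * φ n : ℝ) : ℂ) * Complex.I) =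
          ((2 * (π * φ n) : ℝ) : ℂ) * Complex.I := by
        push_cast
        ring
      rw [h8, Complex.exp_ofReal_mul_I_re]
    rw [h7, wf, Real.sin_sq_eq_half_sub]
  have h7 : ∑ n ∈ Ico P (2 * P), wf φ n = P / 2 - S.re / 2 := by
    rw [Finset.sum_congr rfl fun n _ => h6 n, Finset.sum_sub_distrib, Finset.sum_const,
      Nat.card_Ico, ← Finset.sum_div, hS, Complex.re_sum]
    have h8 : 2 * P - P = P := by omega
    rw [h8, nsmul_eq_mul]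
    ring
  rw [h7]
  have h8 := (Complex.re_le_norm S).trans h5
  linarith

end Pool.Agent.Lib.MP_570bef_ntW
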