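import Mathlib
import Pool.Agent.Lib.MP_570bef_ntW.CMin
import Pool.Agent.Lib.MP_570bef_ntM.ParH
import Pool.Agent.Lib.MP_570bef_ntM.CirC

/-!
# CAvg: lower bound for the averaged number of representations

Adapt `avg_s` of `MP_570bef_ntS/AvS.lean`: `gs k β` becomes `gf φ`, `ws k β` becomes `wf φ`, `YY k N` becomes `YF k K N`, `3^k` becomes `2^k K`, `C3 = 2 (2C + 2^k K)`. For `P ≤ n < 2P` (`n ≥ 1`): `gf φ n ≤ φ n ≤ K n^k ≤ 2^k K P^k` (`hR.up`); so `S = v t + v t' + gf φ n ≤ (2C + 2^k K) P^k ≤ N/2`.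
`hR.cnt` with `A = N - S` (`N ≤ 2A`), `H = HH k P ≤ N` gives at least `c H N^(1/k-1) - 1` values of `m`; `N ≥ N1` for `P ≥ P0` as `N ≥ P^k ≥ P`. `N^(1/k-1) ≥ (C3 2^k)^(1/k-1) P^(1-k)` (`1/k - 1 ≤ 0`, `N ≤ C3 (2P)^k`; compare `two_n_pow` in `MP_570bef_ntM/ParH.lean`), `H ≥ P^(k-3/4)`. `wsum_g`, `avg_lower`.
-/

set_option autoImplicit false

open Finset Real Polynomial
open Pool.Agent.Lib.MP_2a816b_nt (e nn norm_e conj_e e_add e_neg)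

namespace Pool.Agent.Lib.MP_570bef_ntW

open Pool.Agent.Lib.MP_570bef_ntS (kap Dio)
open Pool.Agent.Lib.MP_570bef_ntM (RR HH hh_bounds avg_lower)

private theorem CAvg_pow (x a b : ℝ) (hx : 0 < x) : x ^ a * x ^ b = x ^ (a + b) :=
  (Real.rpow_add hx a b).symm

/-- the count for one triple -/
private theorem CAvg_count {k : ℕ} {φ : ℕ → ℝ} {K c σ : ℝ} {N1 : ℕ} (hR : Reg k φ K c σ N1)
    (C : ℝ) (hC : 1 ≤ C) (P N : ℕ) (hP : 1 ≤ P) (hPN : N1 ≤ P)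
    (hN1 : 2 * (2 * C + 2 ^ k * K) * (P : ℝ) ^ k ≤ N) (a b n : ℕ) (ha : (a : ℝ) ≤ C * (P : ℝ) ^ k)
    (hb : (b : ℝ) ≤ C * (P : ℝ) ^ k) (hn : n ∈ Ico P (2 * P)) :
    c * (HH k P : ℝ) * (N : ℝ) ^ (1 / (k : ℝ) - 1) - 1 ≤
      (#{m ∈ range (YF k K N) | N ≤ a + b + gf φ n + gf φ m ∧
        a + b + gf φ n + gf φ m < N + HH k P} : ℝ) := by
  have hk := hR.hk
  have hK := hR.hK
  have hx : (1 : ℝ) ≤ P := by exact_mod_cast hP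
  have hx0 : (0 : ℝ) < P := by linarith
  have h1 : (1 : ℝ) < (k : ℝ) := by
    have : (2 : ℝ) ≤ k := by exact_mod_cast hk
    linarith
  have hxk : (1 : ℝ) ≤ (P : ℝ) ^ k := one_le_pow₀ hx
  have hxP : (P : ℝ) ≤ (P : ℝ) ^ k := by
    calc (P : ℝ) = (P : ℝ) ^ 1 := (pow_one _).symm
      _ ≤ (P : ℝ) ^ k := pow_le_pow_right₀ hx (by omega)
  have h2k : (4 : ℝ) ≤ 2 ^ k := by
    calc (4 : ℝ) = 2 ^ 2 := by norm_num
      _ ≤ 2 ^ k := pow_le_pow_right₀ (by norm_num) hk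
  have h2K : (4 : ℝ) ≤ 2 ^ k * K := by nlinarith
  rw [Finset.mem_Ico] at hn
  have hgs : (gf φ n : ℝ) ≤ 2 ^ k * K * (P : ℝ) ^ k := by
    have h2 : ((⌊φ n⌋₊ : ℕ) : ℝ) ≤ φ n := Nat.floor_le (hR.nonneg n)
    have h3 : (n : ℝ) ≤ 2 * P := by exact_mod_cast hn.2.le
    have h4 : (n : ℝ) ^ k ≤ (2 * (P : ℝ)) ^ k := pow_le_pow_left₀ (by positivity) h3 k
    have h5 := hR.up n (hP.trans hn.1)
    have h6 : K * (n : ℝ) ^ k ≤ K * (2 * (P : ℝ)) ^ k :=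
      mul_le_mul_of_nonneg_left h4 (by linarith)
    rw [mul_pow] at h6
    show ((⌊φ n⌋₊ : ℕ) : ℝ) ≤ _
    calc ((⌊φ n⌋₊ : ℕ) : ℝ) ≤ K * (2 ^ k * (P : ℝ) ^ k) := h2.trans (h5.trans h6)
      _ = 2 ^ k * K * (P : ℝ) ^ k := by ring
  have hS : ((a + b + gf φ n : ℕ) : ℝ) ≤ (2 * C + 2 ^ k * K) * (P : ℝ) ^ k := by
    push_cast
    nlinarith
  have hN8 : 8 * (P : ℝ) ^ k ≤ N := by
    refine le_trans ?_ hN1
    refine mul_le_mul_of_nonneg_right ?_ (by linarith)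
    linarith
  have hSN : 2 * ((a + b + gf φ n : ℕ) : ℝ) ≤ N := by linarith
  have hSN' : 2 * (a + b + gf φ n) ≤ N := by exact_mod_cast hSN
  have hPN' : (P : ℝ) ≤ N := by linarith
  have hPN'' : P ≤ N := by exact_mod_cast hPN'
  obtain ⟨hH1, hH2, hH3⟩ := hh_bounds (k : ℝ) h1 P hP
  have hH4 : (HH k P : ℝ) ≤ N := by
    have h5 : (P : ℝ) ^ ((k : ℝ) - 3 / 4) ≤ (P : ℝ) ^ k := by
      rw [← Real.rpow_natCast (P : ℝ) k]
      exact Real.rpow_le_rpow_of_exponent_le hx (by linarith)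
    linarith
  have hH5 : HH k P ≤ N := by exact_mod_cast hH4
  have h6 := hR.cnt (N - (a + b + gf φ n)) (HH k P) N (by omega) (by omega) (by omega)
  refine h6.trans (le_of_eq ?_)
  congr 2
  refine Finset.filter_congr fun m _ => ?_
  constructor
  · intro h7
    omega
  · intro h7
    omega

theorem avg_g {k : ℕ} {φ : ℕ → ℝ} {K c σ : ℝ} {N1 : ℕ} (hR : Reg k φ K c σ N1) (C : ℝ)
    (hC : 1 ≤ C) :
    ∃ c1 : ℝ, 0 < c1 ∧ ∃ P0 : ℕ, ∀ P N : ℕ, P0 ≤ P → 2 * (2 * C + 2 ^ k * K) * (P : ℝ) ^ k ≤ N →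
      (N : ℝ) ≤ 2 * (2 * C + 2 ^ k * K) * (2 * (P : ℝ)) ^ k →
      ∀ {ι : Type} (T : Finset ι) (v : ι → ℕ), (∀ t ∈ T, (v t : ℝ) ≤ C * (P : ℝ) ^ k) →
      c1 * (#T : ℝ) ^ 2 * (P : ℝ) ^ (2 - (k : ℝ)) ≤
        (∑ h ∈ range (HH k P), RR T v (Ico P (2 * P)) (wf φ) (gf φ) (YF k K N) (N + h)) /
          (HH k P : ℝ) := by
  have hk := hR.hk
  have hK := hR.hK
  have hc := hR.hc
  obtain ⟨P1, hP1⟩ := wsum_g hR
  have h1 : (1 : ℝ) < (k : ℝ) := by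
    have : (2 : ℝ) ≤ k := by exact_mod_cast hk
    linarith
  have hθ0 : 0 < (k : ℝ) := by linarith
  have h2k : (4 : ℝ) ≤ 2 ^ k := by
    calc (4 : ℝ) = 2 ^ 2 := by norm_num
      _ ≤ 2 ^ k := pow_le_pow_right₀ (by norm_num) hk
  have h2K : (4 : ℝ) ≤ 2 ^ k * K := by nlinarith
  set C3 : ℝ := 2 * (2 * C + 2 ^ k * K) with hC3
  have hC3p : 8 ≤ C3 := by rw [hC3]; linarith
  set c' : ℝ := (2 * C3 * 2 ^ (k : ℝ)) ^ (1 / (k : ℝ) - 1) with hc'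
  have hc'p : 0 < c' := Real.rpow_pos_of_pos (by positivity) _
  refine ⟨c * c' / 8, by positivity, max P1 (max (max 1 N1) ⌈(2 / (c * c')) ^ 4⌉₊), ?_⟩
  intro P N hP hN1 hN2 ι T v hv
  have hPa : P1 ≤ P := (le_max_left _ _).trans hP
  have hPd : max 1 N1 ≤ P := ((le_max_left _ _).trans (le_max_right _ _)).trans hP
  have hPb : 1 ≤ P := (le_max_left _ _).trans hPd
  have hPe : N1 ≤ P := (le_max_right _ _).trans hPd
  have hPc : ⌈(2 / (c * c')) ^ 4⌉₊ ≤ P := ((le_max_right _ _).trans (le_max_right _ _)).trans hP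
  have hx : (1 : ℝ) ≤ P := by exact_mod_cast hPb
  have hx0 : (0 : ℝ) < P := by linarith
  have hxθ : (1 : ℝ) ≤ (P : ℝ) ^ k := one_le_pow₀ hx
  have hN1r : (1 : ℝ) ≤ N := by nlinarith
  have hN1' : 1 ≤ N := by exact_mod_cast hN1r
  obtain ⟨hH1, hH2, hH3⟩ := hh_bounds (k : ℝ) h1 P hPb
  have hH0 : (0 : ℝ) < HH k P := by
    have : (1 : ℝ) ≤ HH k P := by exact_mod_cast hH1
    linarith
  have hcc : 0 < c * c' := mul_pos hc hc'p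
  have h14 : 2 / (c * c') ≤ (P : ℝ) ^ (1 / 4 : ℝ) := by
    have h2 : (2 / (c * c')) ^ 4 ≤ (P : ℝ) := (Nat.le_ceil _).trans (by exact_mod_cast hPc)
    have h3 : ((2 / (c * c')) ^ 4) ^ (1 / 4 : ℝ) ≤ (P : ℝ) ^ (1 / 4 : ℝ) :=
      Real.rpow_le_rpow (by positivity) h2 (by norm_num)
    have h4 : ((2 / (c * c')) ^ 4) ^ (1 / 4 : ℝ) = 2 / (c * c') := by
      rw [← Real.rpow_natCast, ← Real.rpow_mul (by positivity)]
      norm_num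
    rwa [h4] at h3
  set c1 : ℝ := c * c' / 2 * HH k P * (P : ℝ) ^ (1 - (k : ℝ)) with hc1
  have hxp : 0 < (P : ℝ) ^ (1 - (k : ℝ)) := Real.rpow_pos_of_pos hx0 _
  have hc1' : 1 ≤ c1 := by
    have h5 : (P : ℝ) ^ (1 / 4 : ℝ) ≤ HH k P * (P : ℝ) ^ (1 - (k : ℝ)) := by
      calc (P : ℝ) ^ (1 / 4 : ℝ) = (P : ℝ) ^ ((k : ℝ) - 3 / 4) * (P : ℝ) ^ (1 - (k : ℝ)) := by
            rw [CAvg_pow _ _ _ hx0]
            congr 1
            ring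
        _ ≤ HH k P * (P : ℝ) ^ (1 - (k : ℝ)) := mul_le_mul_of_nonneg_right hH2 hxp.le
    have h6 : 2 / (c * c') ≤ HH k P * (P : ℝ) ^ (1 - (k : ℝ)) := h14.trans h5
    rw [div_le_iff₀ hcc] at h6
    rw [hc1]
    have h7 : c * c' / 2 * (HH k P : ℝ) * (P : ℝ) ^ (1 - (k : ℝ)) =
        (HH k P * (P : ℝ) ^ (1 - (k : ℝ)) * (c * c')) / 2 := by ring
    rw [h7]
    linarith
  have hN2' : (N : ℝ) ≤ C3 * (2 * (P : ℝ)) ^ (k : ℝ) := by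
    rw [Real.rpow_natCast]
    exact hN2
  have hexp : 1 / (k : ℝ) - 1 ≤ 0 := by
    have : 1 / (k : ℝ) ≤ 1 := by
      rw [div_le_one hθ0]
      linarith
    linarith
  have hc2 : c1 ≤ c * (HH k P : ℝ) * (N : ℝ) ^ (1 / (k : ℝ) - 1) - 1 := by
    have h7 := Pool.Agent.Lib.MP_570bef_ntM.two_n_pow (k : ℝ) C3 h1 (by linarith) P N hPb hN1' hN2'
    have h7' : (2 * (N : ℝ)) ^ (1 / (k : ℝ) - 1) ≤ (N : ℝ) ^ (1 / (k : ℝ) - 1) :=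
      Real.rpow_le_rpow_of_nonpos (by linarith) (by linarith) hexp
    have h8 : 2 * c1 = c * (HH k P : ℝ) * (c' * (P : ℝ) ^ (1 - (k : ℝ))) := by
      rw [hc1]
      ring
    have h9 : c * (HH k P : ℝ) * (c' * (P : ℝ) ^ (1 - (k : ℝ))) ≤
        c * (HH k P : ℝ) * (N : ℝ) ^ (1 / (k : ℝ) - 1) :=
      mul_le_mul_of_nonneg_left (h7.trans h7') (by positivity)
    linarith
  have h10 := avg_lower T v (Ico P (2 * P)) (wf φ) (gf φ) (YF k K N) N (HH k P)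
    (fun n => sq_nonneg _) c1 (fun t ht t' ht' n hn =>
      hc2.trans (CAvg_count hR C hC P N hPb hPe hN1 (v t) (v t') n (hv t ht) (hv t' ht') hn))
  have h11 := hP1 P hPa
  have h12 : c1 * (#T : ℝ) ^ 2 * ((P : ℝ) / 4) ≤
      c1 * (#T : ℝ) ^ 2 * ∑ n ∈ Ico P (2 * P), wf φ n :=
    mul_le_mul_of_nonneg_left h11 (by positivity)
  rw [le_div_iff₀ hH0]
  refine le_trans (le_of_eq ?_) (h12.trans h10)
  have h13 : (P : ℝ) ^ (2 - (k : ℝ)) = (P : ℝ) ^ (1 - (k : ℝ)) * P := by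
    rw [show (2 - (k : ℝ) : ℝ) = 1 - (k : ℝ) + 1 by ring, Real.rpow_add hx0, Real.rpow_one]
  rw [h13, hc1]
  ring

end Pool.Agent.Lib.MP_570bef_ntW
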