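import Mathlib
import Pool.Agent.Lib.MP_570bef_ntW.CMin
import Pool.Agent.Lib.MP_570bef_ntM.ParH
import Pool.Agent.Lib.MP_570bef_ntM.CirA

/-!
# CKer: sup bound of the kernel

Adapt `ker_s` of `MP_570bef_ntS/KeS.lean`: `gs k β` becomes `gf φ`, `ws k β` becomes `wf φ`, `YY k N` becomes `YF k K N`, `1/(128 k 2^k)` becomes `σ ≤ 1/2`, `sws_minor` becomes `minor_g`, `ws_mem` becomes `wf_mem`. `‖FY (gf φ) Y α‖ ≤ Y`, `Y = YF k K N ≤ K N^(1/k) + 1 ≤ (K (C3 2^k)^(1/k) + 1) P` as `N ≤ C3 (2P)^k`.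
-/

set_option autoImplicit false

open Finset Real Polynomial
open Pool.Agent.Lib.MP_2a816b_nt (e nn norm_e conj_e e_add e_neg)

namespace Pool.Agent.Lib.MP_570bef_ntW

open Pool.Agent.Lib.MP_570bef_ntS (kap Dio)
open Pool.Agent.Lib.MP_570bef_ntM (FW FY DH HH hh_bounds dh_two dh_small)

private theorem ker_fy_le {k : ℕ} (hk : 2 ≤ k) (φ : ℕ → ℝ) {K : ℝ} (hK : 1 ≤ K) (C3 : ℝ)
    (hC : 0 < C3) (P N : ℕ) (α : ℝ) (hP : 1 ≤ P) (hN : (N : ℝ) ≤ C3 * (2 * (P : ℝ)) ^ k) :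
    ‖FY (gf φ) (YF k K N) α‖ ≤ (K * (C3 * 2 ^ k) ^ (1 / (k : ℝ)) + 1) * P := by
  have hP1 : (1 : ℝ) ≤ P := by exact_mod_cast hP
  have hP0 : (0 : ℝ) < P := by linarith
  have hk2 : (2 : ℝ) ≤ k := by exact_mod_cast hk
  have hk0 : (0 : ℝ) < k := by linarith
  have h2k : (0 : ℝ) < 2 ^ k := by positivity
  have hPk : (0 : ℝ) < (P : ℝ) ^ k := by positivity
  have hN0 : (0 : ℝ) ≤ N := Nat.cast_nonneg N
  have hK0 : (0 : ℝ) ≤ K := by linarith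
  have hle : (N : ℝ) ≤ C3 * 2 ^ k * (P : ℝ) ^ k := by
    rw [mul_pow] at hN
    linarith
  have h3 : (N : ℝ) ^ (1 / (k : ℝ)) ≤ (C3 * 2 ^ k) ^ (1 / (k : ℝ)) * P := by
    have h4 := Real.rpow_le_rpow hN0 hle (by positivity : 0 ≤ 1 / (k : ℝ))
    rw [Real.mul_rpow (by positivity) hPk.le, ← Real.rpow_natCast (P : ℝ) k,
      ← Real.rpow_mul hP0.le] at h4
    have e1 : (k : ℝ) * (1 / (k : ℝ)) = 1 := by
      field_simp
    rw [e1, Real.rpow_one] at h4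
    exact h4
  have h5 : ‖FY (gf φ) (YF k K N) α‖ ≤ (YF k K N : ℝ) := by
    unfold FY
    refine (norm_sum_le _ _).trans ?_
    have : ∀ n ∈ range (YF k K N), ‖e (α * (gf φ n : ℕ))‖ ≤ 1 := fun n _ =>
      (norm_e _).le
    refine (Finset.sum_le_card_nsmul _ _ 1 this).trans (le_of_eq ?_)
    simp
  refine h5.trans ?_
  unfold YF
  have h6 := Nat.ceil_lt_add_one (a := K * (N : ℝ) ^ (1 / (k : ℝ))) (by positivity)
  have h7 : K * (N : ℝ) ^ (1 / (k : ℝ)) ≤ K * ((C3 * 2 ^ k) ^ (1 / (k : ℝ)) * P) :=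
    mul_le_mul_of_nonneg_left h3 hK0
  have e2 : (K * (C3 * 2 ^ k) ^ (1 / (k : ℝ)) + 1) * (P : ℝ) =
      K * ((C3 * 2 ^ k) ^ (1 / (k : ℝ)) * P) + P := by ring
  rw [e2]
  linarith

private theorem ker_fw_le (φ : ℕ → ℝ) (P : ℕ) (α : ℝ) :
    ‖FW (Ico P (2 * P)) (wf φ) (gf φ) α‖ ≤ P := by
  unfold FW
  refine (norm_sum_le _ _).trans ?_
  have : ∀ n ∈ Ico P (2 * P), ‖((wf φ n : ℝ) : ℂ) * e (α * (gf φ n : ℕ))‖ ≤ 1 := by
    intro n _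
    obtain ⟨h1, h2⟩ := wf_mem φ n
    rw [norm_mul, norm_e, mul_one, Complex.norm_real, Real.norm_of_nonneg h1]
    exact h2
  refine (Finset.sum_le_card_nsmul _ _ 1 this).trans (le_of_eq ?_)
  rw [Nat.card_Ico, nsmul_eq_mul, mul_one]
  congr 1
  omega

private theorem ker_small (θ : ℝ) (h1 : 1 < θ) (P : ℕ) (hP : 1 ≤ P) (α : ℝ) (m : ℤ)
    (h : |α - m| ≤ (P : ℝ) ^ (-θ + 1 / 4)) :
    ‖1 - DH (HH θ P) α‖ ≤ 4 * π * (P : ℝ) ^ (-(1 / 2 : ℝ)) := by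
  obtain ⟨hb1, -, hb3⟩ := hh_bounds θ h1 P hP
  have hp : (0 : ℝ) < P := by exact_mod_cast hP
  have hH0 : (0 : ℝ) ≤ (HH θ P : ℝ) := Nat.cast_nonneg _
  have hq : 0 ≤ (P : ℝ) ^ (-θ + 1 / 4) := Real.rpow_nonneg hp.le _
  have hr : 0 ≤ 2 * (P : ℝ) ^ (θ - 3 / 4) := by positivity
  calc ‖1 - DH (HH θ P) α‖ ≤ 2 * π * (HH θ P) * |α - m| := dh_small _ hb1 α m
    _ ≤ 2 * π * (2 * (P : ℝ) ^ (θ - 3 / 4)) * (P : ℝ) ^ (-θ + 1 / 4) := by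
        have e1 : 2 * π * (HH θ P) ≤ 2 * π * (2 * (P : ℝ) ^ (θ - 3 / 4)) :=
          mul_le_mul_of_nonneg_left hb3 (by positivity)
        exact mul_le_mul e1 h (abs_nonneg _) (by positivity)
    _ = 4 * π * ((P : ℝ) ^ (θ - 3 / 4) * (P : ℝ) ^ (-θ + 1 / 4)) := by ring
    _ = 4 * π * (P : ℝ) ^ (-(1 / 2 : ℝ)) := by
        rw [← Real.rpow_add hp]
        congr 2
        ring

theorem ker_g {k : ℕ} {φ : ℕ → ℝ} {K c σ : ℝ} {N1 : ℕ} (hR : Reg k φ K c σ N1) (C3 : ℝ)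
    (hC : 0 < C3) :
    ∃ C8 : ℝ, 0 < C8 ∧ ∀ (P N : ℕ) (α : ℝ), 1 ≤ P → (N : ℝ) ≤ C3 * (2 * (P : ℝ)) ^ k →
      0 ≤ α → α ≤ 1 →
      ‖FW (Ico P (2 * P)) (wf φ) (gf φ) α‖ * ‖FY (gf φ) (YF k K N) α‖ * ‖1 - DH (HH k P) α‖ ≤
        C8 * (P : ℝ) ^ (2 - σ) := by
  obtain ⟨C7, hC7, h7⟩ := minor_g hR
  have hk : 2 ≤ k := hR.hk
  have hK : 1 ≤ K := hR.hK
  have hK0 : 0 < K := by linarith
  have hk2 : (2 : ℝ) ≤ k := by exact_mod_cast hk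
  have h1 : (1 : ℝ) < k := by linarith
  have hC6 : 0 < K * (C3 * 2 ^ k) ^ (1 / (k : ℝ)) + 1 := by
    have : 0 ≤ (C3 * 2 ^ k) ^ (1 / (k : ℝ)) := Real.rpow_nonneg (by positivity) _
    positivity
  obtain ⟨C6, hC6e⟩ : ∃ C6, C6 = K * (C3 * 2 ^ k) ^ (1 / (k : ℝ)) + 1 := ⟨_, rfl⟩
  rw [← hC6e] at hC6
  refine ⟨4 * π * C6 + 2 * C6 * C7, by positivity, ?_⟩
  intro P N α hP hN hα0 hα1
  have hp1 : (1 : ℝ) ≤ P := by exact_mod_cast hP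
  have hp : (0 : ℝ) < P := by linarith
  have hσ := hR.hσ1
  have hy : ‖FY (gf φ) (YF k K N) α‖ ≤ C6 * P := by
    rw [hC6e]
    exact ker_fy_le hk φ hK C3 hC P N α hP hN
  have hw : ‖FW (Ico P (2 * P)) (wf φ) (gf φ) α‖ ≤ P := ker_fw_le φ P α
  have hW0 := norm_nonneg (FW (Ico P (2 * P)) (wf φ) (gf φ) α)
  have hY0 := norm_nonneg (FY (gf φ) (YF k K N) α)
  have hD0 := norm_nonneg (1 - DH (HH k P) α)
  have hps : 0 ≤ (P : ℝ) ^ (2 - σ) := Real.rpow_nonneg hp.le _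
  have major : ∀ m : ℤ, |α - m| ≤ (P : ℝ) ^ (-(k : ℝ) + 1 / 4) →
      ‖FW (Ico P (2 * P)) (wf φ) (gf φ) α‖ * ‖FY (gf φ) (YF k K N) α‖ *
        ‖1 - DH (HH k P) α‖ ≤
        (4 * π * C6 + 2 * C6 * C7) * (P : ℝ) ^ (2 - σ) := by
    intro m hm
    have hd := ker_small k h1 P hP α m hm
    have e1 : ‖FW (Ico P (2 * P)) (wf φ) (gf φ) α‖ * ‖FY (gf φ) (YF k K N) α‖ ≤
        P * (C6 * P) :=
      mul_le_mul hw hy hY0 hp.le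
    have e2 : ‖FW (Ico P (2 * P)) (wf φ) (gf φ) α‖ * ‖FY (gf φ) (YF k K N) α‖ *
        ‖1 - DH (HH k P) α‖ ≤ P * (C6 * P) * (4 * π * (P : ℝ) ^ (-(1 / 2 : ℝ))) :=
      mul_le_mul e1 hd hD0 (by positivity)
    have e3 : (P : ℝ) * (C6 * P) * (4 * π * (P : ℝ) ^ (-(1 / 2 : ℝ))) =
        4 * π * C6 * (P : ℝ) ^ (3 / 2 : ℝ) := by
      have : (P : ℝ) ^ (3 / 2 : ℝ) = P * P * (P : ℝ) ^ (-(1 / 2 : ℝ)) := by
        have h2 : (P : ℝ) * P = (P : ℝ) ^ (2 : ℝ) := by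
          rw [Real.rpow_two]; ring
        rw [h2, ← Real.rpow_add hp]
        congr 1
        norm_num
      rw [this]
      ring
    have e4 : (P : ℝ) ^ (3 / 2 : ℝ) ≤ (P : ℝ) ^ (2 - σ) :=
      Real.rpow_le_rpow_of_exponent_le hp1 (by linarith)
    have e5 : 0 ≤ 2 * C6 * C7 * (P : ℝ) ^ (2 - σ) := by positivity
    have e6 : 4 * π * C6 * (P : ℝ) ^ (3 / 2 : ℝ) ≤
        4 * π * C6 * (P : ℝ) ^ (2 - σ) :=
      mul_le_mul_of_nonneg_left e4 (by positivity)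
    rw [add_mul]
    linarith [e2, e3, e6, e5]
  rcases lt_or_ge α ((P : ℝ) ^ (-(k : ℝ) + 1 / 4)) with hlt | hge
  · apply major 0
    rw [Int.cast_zero, sub_zero, abs_of_nonneg hα0]
    exact hlt.le
  · rcases lt_or_ge (1 - (P : ℝ) ^ (-(k : ℝ) + 1 / 4)) α with hlt2 | hge2
    · apply major 1
      rw [Int.cast_one, abs_le]
      constructor
      · linarith
      · linarith [Real.rpow_nonneg hp.le (-(k : ℝ) + 1 / 4)]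
    · have hs : ‖FW (Ico P (2 * P)) (wf φ) (gf φ) α‖ ≤
          C7 * (P : ℝ) ^ (1 - σ) := h7 P α hP hge hge2
      obtain ⟨hb1, -, -⟩ := hh_bounds k h1 P hP
      have hd : ‖1 - DH (HH k P) α‖ ≤ 2 := dh_two _ hb1 α
      have e1 : ‖FW (Ico P (2 * P)) (wf φ) (gf φ) α‖ * ‖FY (gf φ) (YF k K N) α‖ ≤
          C7 * (P : ℝ) ^ (1 - σ) * (C6 * P) :=
        mul_le_mul hs hy hY0 (by positivity)
      have e2 : ‖FW (Ico P (2 * P)) (wf φ) (gf φ) α‖ * ‖FY (gf φ) (YF k K N) α‖ *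
          ‖1 - DH (HH k P) α‖ ≤
          C7 * (P : ℝ) ^ (1 - σ) * (C6 * P) * 2 :=
        mul_le_mul e1 hd hD0 (by positivity)
      have e3 : (P : ℝ) ^ (2 - σ) =
          (P : ℝ) ^ (1 - σ) * P := by
        have h2 : (2 - σ) = (1 - σ) + 1 := by
          ring
        rw [h2, Real.rpow_add hp, Real.rpow_one]
      have e4 : C7 * (P : ℝ) ^ (1 - σ) * (C6 * P) * 2 =
          2 * C6 * C7 * (P : ℝ) ^ (2 - σ) := by
        rw [e3]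
        ring
      have e5 : 0 ≤ 4 * π * C6 * (P : ℝ) ^ (2 - σ) := by positivity
      rw [add_mul]
      linarith [e2, e4, e5]

end Pool.Agent.Lib.MP_570bef_ntW
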