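import Mathlib
import Pool.Agent.Lib.MP_570bef_ntW.CAvg
import Pool.Agent.Lib.MP_570bef_ntW.CKer
import Pool.Agent.Lib.MP_570bef_ntM.BigM
import Pool.Agent.Lib.MP_570bef_ntM.CirB

/-!
# COne: one scale

Adapt `one_s` of `MP_570bef_ntS/OnS.lean`: `2 τ` (there `1/(128 k 2^k)`) becomes `σ` and the exponent `τ < σ` is arbitrary: `big_mod`, `circle_ineq`, `ker_g`, `avg_g`; `RR N ≥ (#T)² P^(2-k) (c1 - C8 P^(τ-σ)) > 0` for large `P`.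
-/

set_option autoImplicit false

open Finset Real Polynomial
open Pool.Agent.Lib.MP_2a816b_nt (e nn norm_e conj_e e_add e_neg)

namespace Pool.Agent.Lib.MP_570bef_ntW

open Pool.Agent.Lib.MP_570bef_ntS (kap Dio)
open Pool.Agent.Lib.MP_570bef_ntM (RR JT HH FY FW DH big_mod circle_ineq hh_bounds)

theorem one_g {k : ℕ} {φ : ℕ → ℝ} {K c σ : ℝ} {N1 : ℕ} (hR : Reg k φ K c σ N1) (C τ : ℝ)
    (hC : 1 ≤ C) (hτ : τ < σ) :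
    ∃ P0 : ℕ, ∀ P N : ℕ, P0 ≤ P → 2 * (2 * C + 2 ^ k * K) * (P : ℝ) ^ k ≤ N →
      (N : ℝ) ≤ 2 * (2 * C + 2 ^ k * K) * (2 * (P : ℝ)) ^ k →
      ∀ {ι : Type} (T : Finset ι) (v : ι → ℕ), T.Nonempty → (∀ t ∈ T, (v t : ℝ) ≤ C * (P : ℝ) ^ k) →
      (JT T v : ℝ) ≤ (#T : ℝ) ^ 2 * (P : ℝ) ^ (-(k : ℝ) + τ) →
      0 < RR T v (Ico P (2 * P)) (wf φ) (gf φ) (YF k K N) N := by
  obtain ⟨c1, hc1, P1, havg⟩ := avg_g hR C hC
  have hK : 0 < K := lt_of_lt_of_le one_pos hR.hK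
  have hC3 : (0 : ℝ) < 2 * (2 * C + 2 ^ k * K) := by positivity
  obtain ⟨C8, hC8, hker⟩ := ker_g hR _ hC3
  have hk := hR.hk
  have hk1 : (1 : ℝ) < (k : ℝ) := by
    have : 1 < k := by omega
    exact_mod_cast this
  have hlim : ∀ᶠ P : ℕ in Filter.atTop, C8 * (P : ℝ) ^ (-(σ - τ)) < c1 := by
    have h3 : Filter.Tendsto (fun P : ℕ => C8 * (P : ℝ) ^ (-(σ - τ))) Filter.atTop (nhds (C8 * 0)) :=
      ((tendsto_rpow_neg_atTop (sub_pos.2 hτ)).comp tendsto_natCast_atTop_atTop).const_mul C8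
    rw [mul_zero] at h3
    exact h3.eventually (gt_mem_nhds hc1)
  obtain ⟨P2, hP2⟩ := Filter.eventually_atTop.1 hlim
  refine ⟨max (max P1 P2) 1, fun P N hP hN1 hN2 ι T v hTne hv hJ => ?_⟩
  have hPP1 : P1 ≤ P := (le_max_left _ _).trans ((le_max_left _ _).trans hP)
  have hPP2 : P2 ≤ P := (le_max_right _ _).trans ((le_max_left _ _).trans hP)
  have hPone : 1 ≤ P := (le_max_right _ _).trans hP
  have hP0 : (0 : ℝ) < P := by exact_mod_cast hPone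
  obtain ⟨hH, -, -⟩ := hh_bounds (k : ℝ) hk1 P hPone
  obtain ⟨M, hM1, hM2, hM3, hM4⟩ := big_mod T v (Ico P (2 * P)) (gf φ) (YF k K N) N (HH k P)
  have hMpos : (0 : ℝ) < M := by exact_mod_cast hM1
  have hcir := circle_ineq T v (Ico P (2 * P)) (wf φ) (gf φ) (YF k K N) M N (HH k P) hM1 hH hM2
    hM4 hM3 (C8 * (P : ℝ) ^ (2 - σ)) (fun j hj => by
      rw [mem_range] at hj
      refine hker P N ((j : ℝ) / M) hPone hN2 (by positivity) ?_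
      rw [div_le_one hMpos]
      exact_mod_cast hj.le)
  have havg' := havg P N hPP1 hN1 hN2 T v hv
  have hlo := (abs_le.1 hcir).1
  have hpow : (P : ℝ) ^ (2 - σ) * (P : ℝ) ^ (-(k : ℝ) + τ) =
      (P : ℝ) ^ (2 - (k : ℝ)) * (P : ℝ) ^ (-(σ - τ)) := by
    rw [← Real.rpow_add hP0, ← Real.rpow_add hP0]
    congr 1
    ring
  have hA : (0 : ℝ) < (P : ℝ) ^ (2 - σ) := Real.rpow_pos_of_pos hP0 _
  have hB : (0 : ℝ) < (P : ℝ) ^ (2 - (k : ℝ)) := Real.rpow_pos_of_pos hP0 _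
  have hT0 : (0 : ℝ) < (#T : ℝ) ^ 2 := by
    have : 0 < #T := hTne.card_pos
    positivity
  have h5 : C8 * (P : ℝ) ^ (2 - σ) * (JT T v : ℝ) ≤
      (#T : ℝ) ^ 2 * (P : ℝ) ^ (2 - (k : ℝ)) * (C8 * (P : ℝ) ^ (-(σ - τ))) := by
    calc C8 * (P : ℝ) ^ (2 - σ) * (JT T v : ℝ)
        ≤ C8 * (P : ℝ) ^ (2 - σ) * ((#T : ℝ) ^ 2 * (P : ℝ) ^ (-(k : ℝ) + τ)) :=
          mul_le_mul_of_nonneg_left hJ (by positivity)
      _ = (#T : ℝ) ^ 2 * C8 * ((P : ℝ) ^ (2 - σ) * (P : ℝ) ^ (-(k : ℝ) + τ)) := by ring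
      _ = (#T : ℝ) ^ 2 * (P : ℝ) ^ (2 - (k : ℝ)) * (C8 * (P : ℝ) ^ (-(σ - τ))) := by
          rw [hpow]
          ring
  have h6 : (#T : ℝ) ^ 2 * (P : ℝ) ^ (2 - (k : ℝ)) * (C8 * (P : ℝ) ^ (-(σ - τ))) <
      (#T : ℝ) ^ 2 * (P : ℝ) ^ (2 - (k : ℝ)) * c1 :=
    mul_lt_mul_of_pos_left (hP2 P hPP2) (by positivity)
  have h7 : c1 * (#T : ℝ) ^ 2 * (P : ℝ) ^ (2 - (k : ℝ)) =
      (#T : ℝ) ^ 2 * (P : ℝ) ^ (2 - (k : ℝ)) * c1 := by ring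
  rw [h7] at havg'
  linarith


end Pool.Agent.Lib.MP_570bef_ntW
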