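import Mathlib
import Pool.Agent.Lib.MP_570bef_ntW.COne
import Pool.Agent.Lib.MP_570bef_ntM.CirC

/-!
# CCir: all large `N`

Adapt `circ_s` of `MP_570bef_ntS/OnS.lean` (`scale`, `rr_pos`, `one_g` with `max C 1`).
-/

set_option autoImplicit false

open Finset Real Polynomial
open Pool.Agent.Lib.MP_2a816b_nt (e nn norm_e conj_e e_add e_neg)

namespace Pool.Agent.Lib.MP_570bef_ntW

open Pool.Agent.Lib.MP_570bef_ntS (kap Dio)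
open Pool.Agent.Lib.MP_570bef_ntM (RR JT scale rr_pos)

theorem circ_g {k : ℕ} {φ : ℕ → ℝ} {K c σ : ℝ} {N1 : ℕ} (hR : Reg k φ K c σ N1) (τ : ℝ)
    (hτ : τ < σ) {ι : Type} (T : ℕ → Finset ι) (v : ι → ℕ) (C : ℝ)
    (hT : ∀ᶠ m : ℕ in Filter.atTop, (T m).Nonempty ∧
      (∀ t ∈ T m, (v t : ℝ) ≤ C * ((2 : ℝ) ^ m) ^ k) ∧
      (JT (T m) v : ℝ) ≤ (#(T m) : ℝ) ^ 2 * ((2 : ℝ) ^ m) ^ (-(k : ℝ) + τ)) :
    ∀ᶠ N : ℕ in Filter.atTop, ∃ m : ℕ, ∃ t ∈ T m, ∃ t' ∈ T m, ∃ n n' : ℕ,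
      v t + v t' + gf φ n + gf φ n' = N := by
  obtain ⟨P0, hP0⟩ := one_g hR (max C 1) τ (le_max_right C 1) hτ
  obtain ⟨m1, hm1⟩ := Filter.eventually_atTop.1 hT
  have hC1 : (1 : ℝ) ≤ max C 1 := le_max_right C 1
  have hK0 : (0 : ℝ) < K := lt_of_lt_of_le one_pos hR.hK
  have hC3 : (0 : ℝ) < 2 * (2 * max C 1 + 2 ^ k * K) := by positivity
  have hk1 : (1 : ℝ) < (k : ℝ) := by
    have : 1 < k := hR.hk
    exact_mod_cast this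
  obtain ⟨N0, hN0⟩ := scale (k : ℝ) (2 * (2 * max C 1 + 2 ^ k * K)) hk1 hC3 (max m1 P0)
  refine Filter.eventually_atTop.2 ⟨N0, fun N hN => ?_⟩
  obtain ⟨m, hm, hlow, hupp⟩ := hN0 N hN
  rw [Real.rpow_natCast] at hlow hupp
  have hmm1 : m1 ≤ m := le_trans (le_max_left _ _) hm
  have hmP : P0 ≤ m := le_trans (le_max_right _ _) hm
  obtain ⟨hTn, hTv, hTJ⟩ := hm1 m hmm1
  have h2m : ((2 ^ m : ℕ) : ℝ) = (2 : ℝ) ^ m := by push_cast; rfl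
  have hPP : P0 ≤ 2 ^ m := le_trans hmP (le_of_lt Nat.lt_two_pow_self)
  have hpos : (0 : ℝ) ≤ ((2 : ℝ) ^ m) ^ k := by positivity
  have h2m1 : (2 : ℝ) * (2 : ℝ) ^ m = (2 : ℝ) ^ (m + 1) := by rw [pow_succ]; ring
  have key : 0 < RR (T m) v (Ico (2 ^ m) (2 * 2 ^ m)) (wf φ) (gf φ) (YF k K N) N := by
    apply hP0 (2 ^ m) N hPP
    · rw [h2m]; exact hlow
    · rw [h2m, h2m1]; exact hupp
    · exact hTn
    · intro t ht
      rw [h2m]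
      exact le_trans (hTv t ht) (mul_le_mul_of_nonneg_right (le_max_left C 1) hpos)
    · rw [h2m]; exact hTJ
  obtain ⟨t, ht, t', ht', n, n', hnk⟩ := rr_pos (T m) v _ _ _ _ _ key
  exact ⟨m, t, ht, t', ht', n, n', hnk⟩

end Pool.Agent.Lib.MP_570bef_ntW
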