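import Mathlib
import Pool.Agent.Lib.MP_570bef_ntW.D2

/-!
# HdW: Hausdorff dimension of a limsup set; maximal separated sets

`haus_w`: as `hdim_lemma` in `MP_570bef_ntRE/HDim.lean` (and `haus` of the library `MP_570bef_ntWD`, with `q` in place of `1/2`): for `J ≥ n0` the limsup set is covered by the intervals `Icc p.1 (p.1 + p.2)`, `p ∈ F n`, `n ≥ J`, of diameter `p.2 ≤ C q^n ≤ C q^J`, and `∑_(n ≥ J) ∑_(p ∈ F n) p.2^s ≤ C q^J/(1-q) → 0`. `Measure.hausdorffMeasure_le_liminf_tsum` gives `μH[s] = 0`, and `dimH_le_of_hausdorffMeasure_ne_top`.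
`sepcov_w` (as `sepcov` of `MP_570bef_ntWD`): among the finite subsets `F` of `S` with pairwise distances `≥ ρ` (the empty set is one) all cards are `≤ M`, so there is one with the greatest card. For `x ∈ S` there is `y ∈ F` with `|x - y| ≤ ρ`: otherwise `insert x F` is a larger one.
-/

set_option autoImplicit false

open Finset Real Polynomial
open Pool.Agent.Lib.MP_2a816b_nt (e nn norm_e conj_e e_add e_neg)

namespace Pool.Agent.Lib.MP_570bef_ntW

open Pool.Agent.Lib.MP_570bef_ntS (kap Dio)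

theorem haus_w (E : ℕ → Set ℝ) (s C q : ℝ) (hs : 0 < s) (hC : 0 < C) (hq : 0 < q) (hq1 : q < 1)
    (n₀ : ℕ)
    (h : ∀ n ≥ n₀, ∃ F : Finset (ℝ × ℝ), E n ⊆ ⋃ p ∈ F, Set.Icc p.1 (p.1 + p.2) ∧
      (∀ p ∈ F, 0 < p.2 ∧ p.2 ≤ C * q ^ n) ∧ ∑ p ∈ F, p.2 ^ s ≤ C * q ^ n) :
    dimH {x : ℝ | ∀ J : ℕ, ∃ n ≥ J, x ∈ E n} ≤ ENNReal.ofReal s := by
  have hex : ∀ n : ℕ, ∃ F : Finset (ℝ × ℝ), n₀ ≤ n → (E n ⊆ ⋃ p ∈ F, Set.Icc p.1 (p.1 + p.2) ∧
      (∀ p ∈ F, 0 < p.2 ∧ p.2 ≤ C * q ^ n) ∧ ∑ p ∈ F, p.2 ^ s ≤ C * q ^ n) := by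
    intro n
    by_cases hn : n₀ ≤ n
    · obtain ⟨F, hF⟩ := h n hn
      exact ⟨F, fun _ => hF⟩
    · exact ⟨∅, fun h1 => absurd h1 hn⟩
  choose F hF using hex
  have hdn : ((Real.toNNReal s : NNReal) : ℝ) = s := Real.coe_toNNReal s hs.le
  have hmain : MeasureTheory.Measure.hausdorffMeasure (X := ℝ) s {x : ℝ | ∀ J : ℕ, ∃ n ≥ J, x ∈ E n} = 0 := by
    let ι : ℕ → Type := fun J => Σ k : ℕ, {p : ℝ × ℝ // p ∈ F (k + J)}
    let t : ∀ J : ℕ, ι J → Set ℝ := fun J i => Set.Icc (i.2 : ℝ × ℝ).1 ((i.2 : ℝ × ℝ).1 + (i.2 : ℝ × ℝ).2)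
    have hdiam : ∀ (J : ℕ) (i : ι J), Metric.ediam (t J i) = ENNReal.ofReal ((i.2 : ℝ × ℝ).2) := by
      intro J i
      simp only [t]
      rw [Real.ediam_Icc]
      congr 1
      ring
    let R : ℕ → ENNReal := fun J => ENNReal.ofReal (C * q ^ J)
    have hR : Filter.Tendsto R Filter.atTop (nhds 0) := by
      have h3 : Filter.Tendsto (fun j : ℕ => q ^ j) Filter.atTop (nhds 0) :=
        tendsto_pow_atTop_nhds_zero_of_lt_one hq.le hq1
      have h4 := h3.const_mul C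
      rw [mul_zero] at h4
      have h5 := ENNReal.tendsto_ofReal h4
      rwa [ENNReal.ofReal_zero] at h5
    have hanti : ∀ J k : ℕ, C * q ^ (k + J) ≤ C * q ^ J := by
      intro J k
      refine mul_le_mul_of_nonneg_left ?_ hC.le
      exact pow_le_pow_of_le_one hq.le hq1.le (Nat.le_add_left J k)
    have hle := MeasureTheory.Measure.hausdorffMeasure_le_liminf_tsum (X := ℝ) s
      {x : ℝ | ∀ J : ℕ, ∃ n ≥ J, x ∈ E n} (l := Filter.atTop) R hR t
      (by
        filter_upwards [Filter.eventually_ge_atTop n₀] with J hJ i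
        rw [hdiam]
        exact ENNReal.ofReal_le_ofReal
          ((((hF (i.1 + J) (le_trans hJ (Nat.le_add_left _ _))).2.1 _ i.2.2).2).trans (hanti J i.1)))
      (by
        filter_upwards [Filter.eventually_ge_atTop n₀] with J hJ x hx
        obtain ⟨j, hj, hxj⟩ := hx J
        have h1 := (hF j (le_trans hJ hj)).1 hxj
        rw [Set.mem_iUnion₂] at h1
        obtain ⟨m, hm, hxm⟩ := h1
        obtain ⟨k, rfl⟩ : ∃ k, j = k + J := ⟨j - J, (Nat.sub_add_cancel hj).symm⟩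
        exact Set.mem_iUnion.2 ⟨⟨k, ⟨m, hm⟩⟩, hxm⟩)
    have hsum : ∀ J, ∑' i : ι J, Metric.ediam (t J i) ^ s =
        ∑' k : ℕ, ∑ p ∈ F (k + J), ENNReal.ofReal p.2 ^ s := by
      intro J
      refine (ENNReal.tsum_sigma' (fun i : ι J => Metric.ediam (t J i) ^ s)).trans ?_
      refine tsum_congr fun k => ?_
      simp only [hdiam]
      rw [tsum_fintype]
      exact Finset.sum_coe_sort (F (k + J)) fun p => ENNReal.ofReal p.2 ^ s
    let g : ℕ → ENNReal := fun j => ENNReal.ofReal (C * q ^ j)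
    have hg : ∑' j, g j ≠ ⊤ := by
      have h1 : Summable fun j : ℕ => C * q ^ j :=
        (summable_geometric_of_lt_one hq.le hq1).mul_left C
      exact h1.tsum_ofReal_ne_top
    have hg0 := ENNReal.tendsto_sum_nat_add g hg
    have hterm : ∀ J ≥ n₀, ∑' i : ι J, Metric.ediam (t J i) ^ s ≤ ∑' k : ℕ, g (k + J) := by
      intro J hJ
      rw [hsum]
      refine ENNReal.tsum_le_tsum fun k => ?_
      obtain ⟨-, h2, h3⟩ := hF (k + J) (le_trans hJ (Nat.le_add_left _ _))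
      have h4 : ∑ p ∈ F (k + J), ENNReal.ofReal p.2 ^ s = ENNReal.ofReal (∑ p ∈ F (k + J), p.2 ^ s) := by
        rw [ENNReal.ofReal_sum_of_nonneg fun p hp => Real.rpow_nonneg (h2 p hp).1.le _]
        exact Finset.sum_congr rfl fun p hp => ENNReal.ofReal_rpow_of_pos (h2 p hp).1
      rw [h4]
      exact ENNReal.ofReal_le_ofReal h3
    have hlim : Filter.Tendsto (fun J => ∑' i : ι J, Metric.ediam (t J i) ^ s) Filter.atTop
        (nhds 0) := by
      refine tendsto_of_tendsto_of_tendsto_of_le_of_le' tendsto_const_nhds hg0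
        (Filter.Eventually.of_forall fun J => zero_le) ?_
      filter_upwards [Filter.eventually_ge_atTop n₀] with J hJ
      exact hterm J hJ
    rw [hlim.liminf_eq] at hle
    exact le_antisymm hle zero_le
  refine dimH_le_of_hausdorffMeasure_ne_top ?_
  rw [hdn, hmain]
  exact ENNReal.zero_ne_top

theorem sepcov_w (S : Set ℝ) (ρ M : ℝ) (hρ : 0 < ρ)
    (h : ∀ F : Finset ℝ, (∀ x ∈ F, x ∈ S) → Sepd F ρ → (#F : ℝ) ≤ M) :
    ∃ F : Finset ℝ, (#F : ℝ) ≤ M ∧ ∀ x ∈ S, ∃ y ∈ F, |x - y| ≤ ρ := by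
  classical
  let Good : Finset ℝ → Prop := fun F =>
    (∀ x ∈ F, x ∈ S) ∧ Sepd F ρ
  let Q : ℕ → Prop := fun n => ∃ F : Finset ℝ, Good F ∧ F.card = n
  have hQ0 : Q 0 := ⟨∅, ⟨fun x hx => absurd hx (Finset.notMem_empty x), fun x hx => absurd hx (Finset.notMem_empty x)⟩, rfl⟩
  have hb : ∀ n, Q n → n ≤ ⌊M⌋₊ := by
    rintro n ⟨F, hF, rfl⟩
    exact Nat.le_floor (h F hF.1 hF.2)
  obtain ⟨F, hF, hFc⟩ : Q (Nat.findGreatest Q ⌊M⌋₊) :=
    Nat.findGreatest_spec (P := Q) (m := 0) (Nat.zero_le _) hQ0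
  refine ⟨F, h F hF.1 hF.2, fun x hx => ?_⟩
  by_contra hcon
  push Not at hcon
  have hxF : x ∉ F := by
    intro hxF
    have := hcon x hxF
    rw [sub_self, abs_zero] at this
    linarith
  have hG : Good (insert x F) := by
    refine ⟨fun y hy => ?_, fun y hy z hz hyz => ?_⟩
    · rcases Finset.mem_insert.1 hy with rfl | hy
      · exact hx
      · exact hF.1 y hy
    · rcases Finset.mem_insert.1 hy with hy1 | hy1
      · rcases Finset.mem_insert.1 hz with hz1 | hz1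
        · exact absurd (hy1.trans hz1.symm) hyz
        · rw [hy1]
          exact (hcon z hz1).le
      · rcases Finset.mem_insert.1 hz with hz1 | hz1
        · rw [hz1, abs_sub_comm]
          exact (hcon y hy1).le
        · exact hF.2 y hy1 z hz1 hyz
  have hQ1 : Q (F.card + 1) := ⟨insert x F, hG, Finset.card_insert_of_notMem hxF⟩
  have h1 : F.card + 1 ≤ Nat.findGreatest Q ⌊M⌋₊ := Nat.le_findGreatest (hb _ hQ1) hQ1
  omega

end Pool.Agent.Lib.MP_570bef_ntW
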