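import Mathlib
import Pool.Agent.Lib.MP_570bef_ntW.HdW

/-!
# DioN: numbers which are not Diophantine for any exponent form a set of dimension zero

`dio_nu`: let `E j = {β ∈ [0,1] | ∃ q p, 2^j ≤ q < 2^(j+1), |q β - p| < 1/q^ν}`. If `β ∈ [0,1]` is irrational and `¬ DioE ν β` then `β ∈ E j` for infinitely many `j` (as in `MP_570bef_ntS/DioD.lean`: otherwise the numbers `q^ν |q β - p|` have a positive lower bound). `E j` is covered by the intervals with centre `p/q`, `2^j ≤ q < 2^(j+1)`, `0 ≤ p ≤ q` and length `2 (2^j)^(-(ν+1))` (`|β - p/q| < 1/q^(ν+1)`; `-1 < p < q + 1`), at most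
`2^j (2^(j+1) + 1) ≤ 4 * 4^j` of them. `haus_w` with exponent `s = 3/(ν+1)`: `∑ ≤ 4 * 4^j * (2 * 2^(-j(ν+1)))^s ≤ 16 * 2^(2j - 3j) = 16 (1/2)^j` (`s ≤ 3/2`, so `2^s ≤ 4`), lengths `≤ 2 (1/2)^j`. The rationals are countable (dimension `0`, `dimH_countable`). So the dimension is `≤ 3/(ν+1)`.
`dio_zero`: `DioE ν (β + m) ↔ DioE ν β` for integers `m`, so the same bound holds for all real `β` (union over `m : ℤ` of translates, as `all_dim` in `MP_570bef_ntS/FiS.lean`), and for `{θ | ¬ DioE ν ((u + θ)/L)}` (image under `β ↦ L β - u`, Lipschitz: `LipschitzWith.dimH_image_le`). The set of the statement is contained in all of them: `≤ ENNReal.ofReal (3/(ν+1))` for every `ν ≥ 1`, hence `0` (`ENNReal.ofReal` of a sequence tending to zero, `ge_of_tendsto`). See `DioW.lean`.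
-/

set_option autoImplicit false

open Finset Real Polynomial
open Pool.Agent.Lib.MP_2a816b_nt (e nn norm_e conj_e e_add e_neg)

namespace Pool.Agent.Lib.MP_570bef_ntW

open Pool.Agent.Lib.MP_570bef_ntS (kap Dio)

private theorem DioN_pos {β : ℝ} (hβ : Irrational β) (N : ℕ) :
    ∃ c : ℝ, 0 < c ∧ ∀ q : ℕ, 1 ≤ q → q < N → ∀ p : ℤ, c ≤ |(q : ℝ) * β - p| := by
  induction N with
  | zero => exact ⟨1, one_pos, fun q _ hq => absurd hq (Nat.not_lt_zero q)⟩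
  | succ N ih =>
    obtain ⟨c, hc, h⟩ := ih
    by_cases hN : N = 0
    · refine ⟨1, one_pos, fun q hq1 hq => ?_⟩
      omega
    · have h1 : Irrational ((N : ℝ) * β) := hβ.natCast_mul hN
      have h2 : 0 < |(N : ℝ) * β - round ((N : ℝ) * β)| := by
        rw [abs_pos, sub_ne_zero]
        exact h1.ne_int _
      refine ⟨min c |(N : ℝ) * β - round ((N : ℝ) * β)|, lt_min hc h2, fun q hq1 hq p => ?_⟩
      rcases Nat.lt_succ_iff_lt_or_eq.1 hq with h3 | h3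
      · exact (min_le_left _ _).trans (h q hq1 h3 p)
      · subst h3
        exact (min_le_right _ _).trans (round_le _ _)

private theorem DioN_large {ν : ℕ} {β : ℝ} (hβ : Irrational β) (hD : ¬ DioE ν β) (N : ℕ) :
    ∃ (q : ℕ) (p : ℤ), 1 ≤ q ∧ N ≤ q ∧ |(q : ℝ) * β - p| < 1 / (q : ℝ) ^ ν := by
  by_contra hcon
  push Not at hcon
  refine hD ?_
  obtain ⟨c, hc, h⟩ := DioN_pos hβ N
  refine ⟨min c 1, lt_min hc one_pos, fun q p hq => ?_⟩
  have hq1 : (1 : ℝ) ≤ (q : ℝ) := by exact_mod_cast hq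
  have hq2 : (1 : ℝ) ≤ (q : ℝ) ^ ν := one_le_pow₀ hq1
  have hq0 : (0 : ℝ) < (q : ℝ) ^ ν := by linarith
  rcases lt_or_ge q N with h1 | h1
  · refine le_trans ?_ (h q hq h1 p)
    rw [div_le_iff₀ hq0]
    have h2 : c * 1 ≤ c * (q : ℝ) ^ ν := mul_le_mul_of_nonneg_left hq2 hc.le
    have h3 := min_le_left c 1
    linarith
  · refine le_trans ?_ (hcon q p hq h1)
    exact div_le_div_of_nonneg_right (min_le_right c 1) hq0.le

private def DioN_E (ν j : ℕ) : Set ℝ :=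
  {β | β ∈ Set.Icc (0 : ℝ) 1 ∧ ∃ (q : ℕ) (p : ℤ), 2 ^ j ≤ q ∧ q < 2 ^ (j + 1) ∧
    |(q : ℝ) * β - p| < 1 / (q : ℝ) ^ ν}

private noncomputable def DioN_r (ν j : ℕ) : ℝ := (((2 : ℝ) ^ j) ^ (ν + 1))⁻¹

private noncomputable def DioN_F (ν j : ℕ) : Finset (ℝ × ℝ) :=
  (Finset.range (2 ^ (j + 1)) ×ˢ Finset.range (2 ^ (j + 1) + 1)).image
    fun u : ℕ × ℕ => ((u.2 : ℝ) / (u.1 : ℝ) - DioN_r ν j, 2 * DioN_r ν j)

private theorem DioN_r_pos (ν j : ℕ) : 0 < DioN_r ν j := by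
  unfold DioN_r
  positivity

private theorem DioN_snd {ν j : ℕ} {p : ℝ × ℝ} (hp : p ∈ DioN_F ν j) : p.2 = 2 * DioN_r ν j := by
  unfold DioN_F at hp
  obtain ⟨u, _, rfl⟩ := Finset.mem_image.1 hp
  rfl

private theorem DioN_cov (ν j : ℕ) : DioN_E ν j ⊆ ⋃ p ∈ DioN_F ν j, Set.Icc p.1 (p.1 + p.2) := by
  rintro β ⟨⟨hβ0, hβ1⟩, q, p, hq1, hq2, hqp⟩
  have hr := DioN_r_pos ν j
  have h2j : (0 : ℝ) < (2 : ℝ) ^ j := by positivity
  have hq1' : (2 : ℝ) ^ j ≤ (q : ℝ) := by exact_mod_cast hq1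
  have hq0 : (0 : ℝ) < (q : ℝ) := by linarith
  have hq1r : (1 : ℝ) ≤ (q : ℝ) := le_trans (one_le_pow₀ (by norm_num)) hq1'
  have hq2r : (1 : ℝ) ≤ (q : ℝ) ^ ν := one_le_pow₀ hq1r
  have hinv : 1 / (q : ℝ) ^ ν ≤ 1 := (div_le_one (by linarith)).2 hq2r
  have habs := abs_lt.1 hqp
  have hqβ : (q : ℝ) * β ≤ q := mul_le_of_le_one_right hq0.le hβ1
  have hqβ0 : 0 ≤ (q : ℝ) * β := mul_nonneg hq0.le hβ0
  have hp0 : 0 ≤ p := by
    have h1 : (-1 : ℝ) < (p : ℝ) := by linarith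
    have h2 : (-1 : ℤ) < p := by exact_mod_cast h1
    omega
  have hp1 : p ≤ q := by
    have h1 : (p : ℝ) < (q : ℝ) + 1 := by linarith
    have h2 : p < (q : ℤ) + 1 := by exact_mod_cast h1
    omega
  obtain ⟨P, rfl⟩ := Int.eq_ofNat_of_zero_le hp0
  have hP : P ≤ q := by exact_mod_cast hp1
  have hkey : |β - (P : ℝ) / q| ≤ DioN_r ν j := by
    have h1 : β - (P : ℝ) / q = ((q : ℝ) * β - P) / q := by
      field_simp
    rw [h1, abs_div, abs_of_pos hq0, div_le_iff₀ hq0]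
    have h2 : |(q : ℝ) * β - (P : ℝ)| < 1 / (q : ℝ) ^ ν := by
      have h3 := hqp
      rwa [Int.cast_natCast] at h3
    refine h2.le.trans ?_
    unfold DioN_r
    have h4 : ((2 : ℝ) ^ j) ^ (ν + 1) ≤ (q : ℝ) ^ (ν + 1) := pow_le_pow_left₀ h2j.le hq1' (ν + 1)
    have h5 : 0 < ((2 : ℝ) ^ j) ^ (ν + 1) := by positivity
    rw [div_le_iff₀ (by positivity), mul_assoc, ← pow_succ', inv_mul_eq_div, le_div_iff₀ h5,
      one_mul]
    exact h4
  have hk := abs_le.1 hkey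
  refine Set.mem_iUnion₂.2 ⟨((P : ℝ) / (q : ℝ) - DioN_r ν j, 2 * DioN_r ν j), ?_, ?_, ?_⟩
  · unfold DioN_F
    refine Finset.mem_image.2 ⟨(q, P), ?_, rfl⟩
    rw [Finset.mem_product, Finset.mem_range, Finset.mem_range]
    exact ⟨hq2, by omega⟩
  · show (P : ℝ) / (q : ℝ) - DioN_r ν j ≤ β
    linarith [hk.1]
  · show β ≤ (P : ℝ) / (q : ℝ) - DioN_r ν j + 2 * DioN_r ν j
    linarith [hk.2]

private theorem DioN_sum (ν : ℕ) (hν : 1 ≤ ν) (j : ℕ) :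
    ∑ p ∈ DioN_F ν j, p.2 ^ (3 / ((ν : ℝ) + 1)) ≤ 24 * (1 / 2 : ℝ) ^ j := by
  have h1 : ∑ p ∈ DioN_F ν j, p.2 ^ (3 / ((ν : ℝ) + 1)) =
      ((DioN_F ν j).card : ℝ) * (2 * DioN_r ν j) ^ (3 / ((ν : ℝ) + 1)) := by
    rw [← nsmul_eq_mul, ← Finset.sum_const]
    exact Finset.sum_congr rfl fun p hp => by rw [DioN_snd hp]
  have hν' : (1 : ℝ) ≤ (ν : ℝ) := by exact_mod_cast hν
  have hν0 : (0 : ℝ) < (ν : ℝ) + 1 := by linarith
  have h2j : (1 : ℝ) ≤ (2 : ℝ) ^ j := one_le_pow₀ (by norm_num)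
  have h2j0 : (0 : ℝ) < (2 : ℝ) ^ j := by positivity
  have h2 : ((DioN_F ν j).card : ℝ) ≤ 6 * ((2 : ℝ) ^ j) ^ 2 := by
    have h3 : (DioN_F ν j).card ≤ 2 ^ (j + 1) * (2 ^ (j + 1) + 1) := by
      unfold DioN_F
      refine Finset.card_image_le.trans ?_
      rw [Finset.card_product, Finset.card_range, Finset.card_range]
    have h4 : ((DioN_F ν j).card : ℝ) ≤ (2 : ℝ) ^ (j + 1) * ((2 : ℝ) ^ (j + 1) + 1) := by
      exact_mod_cast h3
    refine h4.trans ?_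
    rw [pow_succ]
    nlinarith
  have h5 : (2 * DioN_r ν j) ^ (3 / ((ν : ℝ) + 1)) ≤ 4 * (((2 : ℝ) ^ j) ^ 3)⁻¹ := by
    rw [Real.mul_rpow (by norm_num) (DioN_r_pos ν j).le]
    have h6 : (2 : ℝ) ^ (3 / ((ν : ℝ) + 1)) ≤ 4 := by
      have h7 : (2 : ℝ) ^ (3 / ((ν : ℝ) + 1)) ≤ (2 : ℝ) ^ (2 : ℝ) := by
        refine Real.rpow_le_rpow_of_exponent_le (by norm_num) ?_
        rw [div_le_iff₀ hν0]
        linarith
      refine h7.trans ?_
      norm_num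
    have h8 : DioN_r ν j ^ (3 / ((ν : ℝ) + 1)) = (((2 : ℝ) ^ j) ^ 3)⁻¹ := by
      unfold DioN_r
      rw [Real.inv_rpow (by positivity), ← Real.rpow_natCast (((2 : ℝ) ^ j)) (ν + 1),
        ← Real.rpow_mul h2j0.le]
      have h9 : ((ν + 1 : ℕ) : ℝ) * (3 / ((ν : ℝ) + 1)) = ((3 : ℕ) : ℝ) := by
        push_cast
        field_simp
      rw [h9, Real.rpow_natCast]
    rw [h8]
    exact mul_le_mul_of_nonneg_right h6 (by positivity)
  rw [h1]
  refine (mul_le_mul h2 h5 (Real.rpow_nonneg (by linarith [DioN_r_pos ν j]) _)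
    (by positivity)).trans (le_of_eq ?_)
  rw [one_div, inv_pow]
  field_simp
  ring

theorem dio_nu (ν : ℕ) (hν : 1 ≤ ν) :
    dimH {β : ℝ | β ∈ Set.Icc (0 : ℝ) 1 ∧ ¬ DioE ν β} ≤ ENNReal.ofReal (3 / ((ν : ℝ) + 1)) := by
  have hν' : (1 : ℝ) ≤ (ν : ℝ) := by exact_mod_cast hν
  have h1 := haus_w (DioN_E ν) (3 / ((ν : ℝ) + 1)) 24 (1 / 2) (by positivity) (by norm_num)
    (by norm_num) (by norm_num) 0 (fun j _ => ⟨DioN_F ν j, DioN_cov ν j, fun p hp => by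
      rw [DioN_snd hp]
      have hr := DioN_r_pos ν j
      refine ⟨by linarith, ?_⟩
      have h2j : (1 : ℝ) ≤ (2 : ℝ) ^ j := one_le_pow₀ (by norm_num)
      have h2 : DioN_r ν j ≤ (1 / 2 : ℝ) ^ j := by
        unfold DioN_r
        rw [one_div, inv_pow]
        refine inv_anti₀ (by positivity) ?_
        exact le_self_pow₀ h2j (by omega)
      have h3 : (0 : ℝ) < (1 / 2 : ℝ) ^ j := by positivity
      linarith, DioN_sum ν hν j⟩)
  have h2 : {β : ℝ | β ∈ Set.Icc (0 : ℝ) 1 ∧ ¬ DioE ν β} ⊆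
      {t | ∀ J : ℕ, ∃ j ≥ J, t ∈ DioN_E ν j} ∪ Set.range ((↑) : ℚ → ℝ) := by
    rintro β ⟨hβ, hD⟩
    by_cases hirr : Irrational β
    · left
      intro J
      obtain ⟨q, p, hq1, hq2, hqp⟩ := DioN_large hirr hD (2 ^ J)
      refine ⟨Nat.log 2 q, ?_, hβ, q, p, ?_, ?_, hqp⟩
      · exact Nat.le_log_of_pow_le (by norm_num) hq2
      · exact Nat.pow_log_le_self 2 (by omega)
      · exact Nat.lt_pow_succ_log_self (by norm_num) q
    · right
      unfold Irrational at hirr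
      push Not at hirr
      exact hirr
  have h3 : dimH (Set.range ((↑) : ℚ → ℝ)) = 0 := dimH_countable (Set.countable_range _)
  refine (dimH_mono h2).trans ?_
  rw [dimH_union, h3]
  exact max_le h1 zero_le

private theorem DioN_add {ν : ℕ} {β : ℝ} (m : ℤ) (h : DioE ν β) : DioE ν (β + m) := by
  obtain ⟨c, hc, hd⟩ := h
  refine ⟨c, hc, fun q p hq => ?_⟩
  refine (hd q (p - q * m) hq).trans (le_of_eq ?_)
  push_cast
  congr 1
  ring

private theorem DioN_all (ν : ℕ) (hν : 1 ≤ ν) :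
    dimH {β : ℝ | ¬ DioE ν β} ≤ ENNReal.ofReal (3 / ((ν : ℝ) + 1)) := by
  have h1 : {β : ℝ | ¬ DioE ν β} ⊆
      ⋃ m : ℤ, (fun x : ℝ => x + (m : ℝ)) '' {β : ℝ | β ∈ Set.Icc (0 : ℝ) 1 ∧ ¬ DioE ν β} := by
    intro β hβ
    rw [Set.mem_iUnion]
    refine ⟨⌊β⌋, Int.fract β, ⟨⟨Int.fract_nonneg β, (Int.fract_lt_one β).le⟩, fun h => hβ ?_⟩,
      Int.fract_add_floor β⟩
    have h2 := DioN_add ⌊β⌋ h
    rwa [Int.fract_add_floor] at h2
  refine (dimH_mono h1).trans ?_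
  rw [dimH_iUnion]
  refine iSup_le fun m => ?_
  rw [(isometry_add_right (m : ℝ)).dimH_image]
  exact dio_nu ν hν

theorem dio_zero (u L : ℝ) (hL : 0 < L) : dimH {θ : ℝ | ∀ ν : ℕ, ¬ DioE ν ((u + θ) / L)} = 0 := by
  have h2 : LipschitzWith (Real.toNNReal L) (fun β : ℝ => L * β - u) := by
    refine LipschitzWith.of_dist_le_mul fun x y => ?_
    rw [Real.coe_toNNReal L hL.le, Real.dist_eq, Real.dist_eq]
    have h3 : L * x - u - (L * y - u) = L * (x - y) := by ring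
    rw [h3, abs_mul, abs_of_pos hL]
  have key : ∀ ν : ℕ, 1 ≤ ν →
      dimH {θ : ℝ | ∀ ν : ℕ, ¬ DioE ν ((u + θ) / L)} ≤ ENNReal.ofReal (3 / ((ν : ℝ) + 1)) := by
    intro ν hν
    have h1 : {θ : ℝ | ∀ ν : ℕ, ¬ DioE ν ((u + θ) / L)} ⊆
        (fun β : ℝ => L * β - u) '' {β : ℝ | ¬ DioE ν β} := by
      intro θ hθ
      refine ⟨(u + θ) / L, hθ ν, ?_⟩
      show L * ((u + θ) / L) - u = θ
      rw [mul_div_cancel₀ _ hL.ne']
      ring
    exact (dimH_mono h1).trans ((h2.dimH_image_le _).trans (DioN_all ν hν))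
  have hlim : Filter.Tendsto (fun n : ℕ => ENNReal.ofReal (3 / ((n : ℝ) + 1))) Filter.atTop
      (nhds 0) := by
    have h3 : Filter.Tendsto (fun n : ℕ => 3 * (1 / ((n : ℝ) + 1))) Filter.atTop (nhds (3 * 0)) :=
      tendsto_one_div_add_atTop_nhds_zero_nat.const_mul 3
    have h4 := ENNReal.tendsto_ofReal h3
    rw [mul_zero, ENNReal.ofReal_zero] at h4
    refine h4.congr fun n => ?_
    rw [mul_one_div]
  have h5 : dimH {θ : ℝ | ∀ ν : ℕ, ¬ DioE ν ((u + θ) / L)} ≤ 0 :=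
    ge_of_tendsto hlim (Filter.eventually_atTop.2 ⟨1, fun ν hν => key ν hν⟩)
  exact le_antisymm h5 zero_le

end Pool.Agent.Lib.MP_570bef_ntW
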