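import Mathlib
import Pool.Agent.Lib.MP_570bef_ntW.Defs

/-!
# RAsy: size of a polynomial and of its derivative

`k = natDegree f ≥ 1`, `L = leadingCoeff f > 0`. `f x / x^k → L` and `f' x / x^(k-1) → k L` as `x → ∞` (for instance `Polynomial.isEquivalent_atTop_lead` or `Polynomial.div_tendsto_leadingCoeff_div_of_degree_eq` with `X^k`; `derivative` has degree `k - 1` and leading coefficient `k L`: `natDegree_derivative_eq`, `leadingCoeff_derivative`-type lemmas or `coeff_derivative`).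
Take `c = L/2`, `K = max 1 (2 k L)`, `n0` such that `c x^k ≤ f x ≤ 2 L x^k` and `c x^(k-1) ≤ f' x ≤ 2 k L x^(k-1)` for `x ≥ n0`.
-/

set_option autoImplicit false

open Finset Real Polynomial
open Pool.Agent.Lib.MP_2a816b_nt (e nn norm_e conj_e e_add e_neg)

namespace Pool.Agent.Lib.MP_570bef_ntW

open Pool.Agent.Lib.MP_570bef_ntS (kap Dio)

private theorem RAsy_ev (h : ℝ[X]) (n : ℕ) (hn : h.natDegree = n) (hM : 0 < h.leadingCoeff) :
    ∀ᶠ x : ℝ in Filter.atTop, h.leadingCoeff / 2 * x ^ n ≤ h.eval x ∧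
      h.eval x ≤ 2 * h.leadingCoeff * x ^ n := by
  have h0 : h ≠ 0 := by
    intro h0
    rw [h0, Polynomial.leadingCoeff_zero] at hM
    exact lt_irrefl _ hM
  have hdeg : h.degree = ((X : ℝ[X]) ^ n).degree := by
    rw [Polynomial.degree_X_pow, Polynomial.degree_eq_natDegree h0, hn]
  have ht := Polynomial.div_tendsto_atTop_leadingCoeff_div_of_degree_eq h ((X : ℝ[X]) ^ n) hdeg
  rw [(Polynomial.monic_X_pow n).leadingCoeff, div_one] at ht
  have h1 := ht.eventually (lt_mem_nhds (show h.leadingCoeff / 2 < h.leadingCoeff by linarith))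
  have h2 := ht.eventually (gt_mem_nhds (show h.leadingCoeff < 2 * h.leadingCoeff by linarith))
  filter_upwards [h1, h2, Filter.eventually_gt_atTop (0 : ℝ)] with x hx1 hx2 hx3
  have hp : 0 < x ^ n := pow_pos hx3 n
  rw [Polynomial.eval_pow, Polynomial.eval_X] at hx1 hx2
  rw [lt_div_iff₀ hp] at hx1
  rw [div_lt_iff₀ hp] at hx2
  exact ⟨hx1.le, hx2.le⟩

theorem asy (f : ℝ[X]) (k : ℕ) (hk : 1 ≤ k) (hf : f.natDegree = k) (hL : 0 < f.leadingCoeff) :
    ∃ (n0 : ℕ) (K c : ℝ), 1 ≤ n0 ∧ 1 ≤ K ∧ 0 < c ∧ ∀ x : ℝ, (n0 : ℝ) ≤ x →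
      c * x ^ k ≤ f.eval x ∧ f.eval x ≤ K * x ^ k ∧
      c * x ^ (k - 1) ≤ f.derivative.eval x ∧ f.derivative.eval x ≤ K * x ^ (k - 1) := by
  have hk0 : (1 : ℝ) ≤ (k : ℝ) := by exact_mod_cast hk
  have hd : f.derivative.natDegree = k - 1 := by
    rw [Polynomial.natDegree_derivative, hf]
  have hc : f.derivative.leadingCoeff = k * f.leadingCoeff := by
    have h1 : f.derivative.leadingCoeff = f.derivative.coeff (k - 1) := by
      rw [Polynomial.leadingCoeff, hd]
    have h2 : f.leadingCoeff = f.coeff k := by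
      rw [Polynomial.leadingCoeff, hf]
    have h3 : k - 1 + 1 = k := by omega
    have h4 : ((k - 1 : ℕ) : ℝ) + 1 = (k : ℝ) := by
      exact_mod_cast h3
    rw [h1, h2, Polynomial.coeff_derivative, h3, h4]
    ring
  have hcp : 0 < f.derivative.leadingCoeff := by
    rw [hc]
    positivity
  have e1 := RAsy_ev f k hf hL
  have e2 := RAsy_ev f.derivative (k - 1) hd hcp
  obtain ⟨A, hA⟩ := Filter.eventually_atTop.1 (e1.and e2)
  refine ⟨max 1 ⌈A⌉₊, max 1 (2 * (k * f.leadingCoeff)), f.leadingCoeff / 2, le_max_left _ _,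
    le_max_left _ _, by linarith, fun x hx => ?_⟩
  have hx1 : (1 : ℝ) ≤ x := by
    refine le_trans ?_ hx
    exact_mod_cast le_max_left 1 ⌈A⌉₊
  have hxA : A ≤ x := by
    refine le_trans (le_trans (Nat.le_ceil A) ?_) hx
    exact_mod_cast le_max_right 1 ⌈A⌉₊
  obtain ⟨⟨h1, h2⟩, h3, h4⟩ := hA x hxA
  rw [hc] at h3 h4
  have hp : 0 ≤ x ^ k := by positivity
  have hp' : 0 ≤ x ^ (k - 1) := by positivity
  have hkL : f.leadingCoeff ≤ k * f.leadingCoeff := by nlinarith
  have hK : 2 * (k * f.leadingCoeff) ≤ max 1 (2 * (k * f.leadingCoeff)) := le_max_right _ _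
  refine ⟨h1, ?_, ?_, ?_⟩
  · refine h2.trans (mul_le_mul_of_nonneg_right ?_ hp)
    linarith
  · refine le_trans (mul_le_mul_of_nonneg_right ?_ hp') h3
    linarith
  · refine h4.trans (mul_le_mul_of_nonneg_right ?_ hp')
    linarith

end Pool.Agent.Lib.MP_570bef_ntW
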