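import Mathlib
import Pool.Agent.Lib.MP_570bef_ntW.Defs

/-!
# RCnt: values of a function in short intervals

`f` is continuous and increasing on `[n0, ∞)` (mean value theorem, derivative `≥ c x^(k-1) > 0`) and `c x^k ≤ f x`. Let `F m = f (m + n0)`. Let `B = f n0` and `N1 ≥ 1` with `N1 ≥ 2B + 2`: then `A ≥ N/2 ≥ B` for `N ≥ N1`.
By the intermediate value theorem (`f x ≥ c x^k → ∞`) there are `n0 ≤ x1 ≤ x2` with `f x1 = A`, `f x2 = A + H`; `c x2^k ≤ A + H ≤ 2N`, so `x2 ≤ (2N/c)^(1/k) = (2/c)^(1/k) N^(1/k)`. Mean value theorem: `H = f x2 - f x1 ≤ K x2^(k-1) (x2 - x1) ≤ K (2/c)^((k-1)/k) N^(1-1/k) (x2 - x1)`, so `x2 - x1 ≥ c' H N^(1/k-1)` with `c' = 1/(K (2/c)^((k-1)/k))`.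
The `m` with `x1 ≤ m + n0 < x2` are in the set (`A ≤ F m < A + H`, so `A ≤ ⌊F m⌋₊ < A + H`: `Nat.le_floor`, `Nat.floor_lt`), `m < x2 - n0 ≤ (2/c)^(1/k) N^(1/k) ≤ YF k K' N` with `K' = max 1 (2/c)^(1/k)`; they are the elements of `Ico ⌈x1 - n0⌉₊ ⌈x2 - n0⌉₊` (`x1 - n0 ≥ 0`), at least `x2 - x1 - 1` numbers (`Nat.ceil_lt_add_one`, `Nat.le_ceil`). Compare `MP_570bef_ntS/CnS.lean`.
-/

set_option autoImplicit false

open Finset Real Polynomial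
open Pool.Agent.Lib.MP_2a816b_nt (e nn norm_e conj_e e_add e_neg)

namespace Pool.Agent.Lib.MP_570bef_ntW

open Pool.Agent.Lib.MP_570bef_ntS (kap Dio)

theorem cnt_f (f f' : ℝ → ℝ) (k n0 : ℕ) (K c : ℝ) (hk : 2 ≤ k) (hn0 : 1 ≤ n0) (hK : 1 ≤ K)
    (hc : 0 < c) (hd : ∀ x : ℝ, (n0 : ℝ) ≤ x → HasDerivAt f (f' x) x)
    (h1 : ∀ x : ℝ, (n0 : ℝ) ≤ x → c * x ^ k ≤ f x)
    (h2 : ∀ x : ℝ, (n0 : ℝ) ≤ x → c * x ^ (k - 1) ≤ f' x ∧ f' x ≤ K * x ^ (k - 1)) :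
    ∃ (K' c' : ℝ) (N1 : ℕ), 1 ≤ K' ∧ 0 < c' ∧ ∀ A H N : ℕ, N1 ≤ N → N ≤ 2 * A → A + H ≤ 2 * N →
      c' * (H : ℝ) * (N : ℝ) ^ (1 / (k : ℝ) - 1) - 1 ≤
        (#{m ∈ range (YF k K' N) | A ≤ gf (fun m : ℕ => f ((m + n0 : ℕ) : ℝ)) m ∧
          gf (fun m : ℕ => f ((m + n0 : ℕ) : ℝ)) m < A + H} : ℝ) := by
  have hk0 : k ≠ 0 := by omega
  have hkr : (0 : ℝ) < k := by exact_mod_cast (by omega : 0 < k)
  have hn0r : (1 : ℝ) ≤ n0 := by exact_mod_cast hn0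
  obtain ⟨D, hD⟩ : ∃ D : ℝ, D = (2 / c) ^ (1 / (k : ℝ)) := ⟨_, rfl⟩
  have hD0 : 0 < D := by
    rw [hD]
    positivity
  have hDk : D ^ k = 2 / c := by
    rw [hD, one_div]
    exact Real.rpow_inv_natCast_pow (by positivity) hk0
  have hcont : ContinuousOn f (Set.Ici (n0 : ℝ)) := fun x hx =>
    (hd x hx).continuousAt.continuousWithinAt
  have hpos : ∀ x : ℝ, (n0 : ℝ) ≤ x → 0 < f' x := by
    intro x hx
    have hx0 : 0 < x := by linarith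
    exact lt_of_lt_of_le (by positivity) (h2 x hx).1
  have hmono : StrictMonoOn f (Set.Ici (n0 : ℝ)) := by
    refine strictMonoOn_of_deriv_pos (convex_Ici _) hcont fun x hx => ?_
    rw [interior_Ici, Set.mem_Ioi] at hx
    rw [(hd x hx.le).deriv]
    exact hpos x hx.le
  refine ⟨max 1 D, 1 / (K * D ^ (k - 1)), max 1 ⌈2 * f n0 + 2⌉₊, le_max_left _ _, by positivity,
    fun A H N hN hNA hAH => ?_⟩
  have hN1 : 1 ≤ N := (le_max_left _ _).trans hN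
  have hNr : (0 : ℝ) < N := by exact_mod_cast hN1
  have hNf : 2 * f n0 + 2 ≤ N := by
    have h3 : ⌈2 * f n0 + 2⌉₊ ≤ N := (le_max_right _ _).trans hN
    exact Nat.ceil_le.1 h3
  have hNAr : (N : ℝ) ≤ 2 * A := by exact_mod_cast hNA
  have hAHr : (A : ℝ) + H ≤ 2 * N := by exact_mod_cast hAH
  have hHr : (0 : ℝ) ≤ H := Nat.cast_nonneg H
  have hfA : f n0 ≤ A := by linarith
  obtain ⟨X, hX⟩ : ∃ X : ℝ, X = n0 + ((A : ℝ) + H) / c := ⟨_, rfl⟩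
  have hAH0 : 0 ≤ ((A : ℝ) + H) / c := by positivity
  have hXn : (n0 : ℝ) ≤ X := by linarith
  have hX1 : 1 ≤ X := by linarith
  have hfX : (A : ℝ) + H ≤ f X := by
    refine le_trans ?_ (h1 X hXn)
    have h3 : X ≤ X ^ k := le_self_pow₀ hX1 hk0
    have h4 : ((A : ℝ) + H) / c ≤ X ^ k := by linarith
    have h5 := mul_le_mul_of_nonneg_left h4 hc.le
    have h6 : c * (((A : ℝ) + H) / c) = A + H := by field_simp
    linarith
  have hsub : Set.Icc (n0 : ℝ) X ⊆ Set.Ici (n0 : ℝ) := fun x hx => hx.1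
  have hivt := intermediate_value_Icc hXn (hcont.mono hsub)
  obtain ⟨x1, hx1, hfx1⟩ := hivt (show (A : ℝ) ∈ Set.Icc (f n0) (f X) from ⟨hfA, by linarith⟩)
  obtain ⟨x2, hx2, hfx2⟩ := hivt
    (show (A : ℝ) + H ∈ Set.Icc (f n0) (f X) from ⟨by linarith, hfX⟩)
  have hx12 : x1 ≤ x2 := by
    rw [← hmono.le_iff_le hx1.1 hx2.1, hfx1, hfx2]
    linarith
  have hx20 : 0 ≤ x2 := by linarith [hx2.1]
  obtain ⟨R, hR⟩ : ∃ R : ℝ, R = (N : ℝ) ^ (1 / (k : ℝ)) := ⟨_, rfl⟩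
  have hR0 : 0 < R := by
    rw [hR]
    positivity
  have hRk : R ^ k = N := by
    rw [hR, one_div]
    exact Real.rpow_inv_natCast_pow hNr.le hk0
  have hx2R : x2 ≤ D * R := by
    have h3 := h1 x2 hx2.1
    rw [hfx2] at h3
    have h4 : c * x2 ^ k ≤ c * (D * R) ^ k := by
      rw [mul_pow, hDk, hRk]
      have h5 : c * (2 / c * (N : ℝ)) = 2 * N := by field_simp
      rw [h5]
      linarith
    exact le_of_pow_le_pow_left₀ hk0 (by positivity) (le_of_mul_le_mul_left h4 hc)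
  have hmvt : (H : ℝ) ≤ K * (D * R) ^ (k - 1) * (x2 - x1) := by
    rcases hx12.eq_or_lt with h3 | h3
    · have h4 : (H : ℝ) = 0 := by
        have h5 : f x1 = f x2 := by rw [h3]
        rw [hfx1, hfx2] at h5
        linarith
      rw [h4, h3, sub_self, mul_zero]
    · obtain ⟨ξ, hξ, hξe⟩ := exists_hasDerivAt_eq_slope f f' h3
        (hcont.mono fun x hx => le_trans hx1.1 hx.1)
        (fun x hx => hd x (le_trans hx1.1 hx.1.le))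
      have h4 : (n0 : ℝ) ≤ ξ := le_trans hx1.1 hξ.1.le
      have h5 : f' ξ ≤ K * (D * R) ^ (k - 1) := by
        refine (h2 ξ h4).2.trans ?_
        have h6 : ξ ^ (k - 1) ≤ (D * R) ^ (k - 1) :=
          pow_le_pow_left₀ (by linarith) (hξ.2.le.trans hx2R) _
        exact mul_le_mul_of_nonneg_left h6 (by linarith)
      rw [hξe, hfx1, hfx2, div_le_iff₀ (by linarith)] at h5
      linarith
  have hRp : (N : ℝ) ^ (1 / (k : ℝ) - 1) * R ^ (k - 1) = 1 := by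
    have h3 : R ^ (k - 1) = (N : ℝ) ^ (1 - 1 / (k : ℝ)) := by
      rw [hR, ← Real.rpow_natCast, ← Real.rpow_mul hNr.le]
      congr 1
      rw [Nat.cast_sub (by omega)]
      field_simp
      push_cast
      ring
    rw [h3, ← Real.rpow_add hNr]
    have h4 : 1 / (k : ℝ) - 1 + (1 - 1 / (k : ℝ)) = 0 := by ring
    rw [h4, Real.rpow_zero]
  have hlen : 1 / (K * D ^ (k - 1)) * (H : ℝ) * (N : ℝ) ^ (1 / (k : ℝ) - 1) ≤ x2 - x1 := by
    have hq : 0 < K * D ^ (k - 1) := by positivity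
    have h3 : 0 ≤ 1 / (K * D ^ (k - 1)) * (N : ℝ) ^ (1 / (k : ℝ) - 1) := by positivity
    have h4 := mul_le_mul_of_nonneg_left hmvt h3
    have h5 : 1 / (K * D ^ (k - 1)) * (N : ℝ) ^ (1 / (k : ℝ) - 1) *
        (K * (D * R) ^ (k - 1) * (x2 - x1)) =
        (K * D ^ (k - 1)) / (K * D ^ (k - 1)) * ((N : ℝ) ^ (1 / (k : ℝ) - 1) * R ^ (k - 1)) *
          (x2 - x1) := by
      rw [mul_pow]
      ring
    rw [h5, hRp, div_self hq.ne', one_mul, one_mul] at h4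
    linarith
  have hYF : max 1 D * R ≤ (YF k (max 1 D) N : ℝ) := by
    unfold YF
    rw [← hR]
    exact Nat.le_ceil _
  have hcov : Ico ⌈x1 - n0⌉₊ ⌈x2 - n0⌉₊ ⊆
      {m ∈ range (YF k (max 1 D) N) | A ≤ gf (fun m : ℕ => f ((m + n0 : ℕ) : ℝ)) m ∧
          gf (fun m : ℕ => f ((m + n0 : ℕ) : ℝ)) m < A + H} := by
    intro m hm
    obtain ⟨hm1, hm2⟩ := mem_Ico.1 hm
    have h3 : x1 - n0 ≤ m := Nat.ceil_le.1 hm1
    have h4 : (m : ℝ) < x2 - n0 := Nat.lt_ceil.1 hm2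
    have h5 : (n0 : ℝ) ≤ ((m + n0 : ℕ) : ℝ) := by
      push_cast
      have : (0 : ℝ) ≤ m := Nat.cast_nonneg m
      linarith
    have h6 : x1 ≤ ((m + n0 : ℕ) : ℝ) := by
      push_cast
      linarith
    have h7 : ((m + n0 : ℕ) : ℝ) < x2 := by
      push_cast
      linarith
    have h8 : (A : ℝ) ≤ f ((m + n0 : ℕ) : ℝ) := by
      rw [← hfx1]
      exact (hmono.le_iff_le hx1.1 h5).2 h6
    have h9 : f ((m + n0 : ℕ) : ℝ) < (A : ℝ) + H := by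
      rw [← hfx2]
      exact (hmono.lt_iff_lt h5 hx2.1).2 h7
    refine mem_filter.2 ⟨mem_range.2 ?_, Nat.le_floor h8, ?_⟩
    · have h10 : D * R ≤ max 1 D * R := mul_le_mul_of_nonneg_right (le_max_right _ _) hR0.le
      have h11 : (m : ℝ) < (YF k (max 1 D) N : ℝ) := by linarith
      exact_mod_cast h11
    · have h10 : (0 : ℝ) ≤ f ((m + n0 : ℕ) : ℝ) := (Nat.cast_nonneg A).trans h8
      refine (Nat.floor_lt h10).2 ?_
      rw [← Nat.cast_add A H] at h9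
      exact h9
  have hcard := card_le_card hcov
  rw [Nat.card_Ico] at hcard
  have h6 : (⌈x2 - n0⌉₊ : ℝ) - (⌈x1 - n0⌉₊ : ℝ) ≤ ((⌈x2 - n0⌉₊ - ⌈x1 - n0⌉₊ : ℕ) : ℝ) := by
    rw [sub_le_iff_le_add]
    have h5 : ⌈x2 - n0⌉₊ ≤ (⌈x2 - n0⌉₊ - ⌈x1 - n0⌉₊) + ⌈x1 - n0⌉₊ := le_tsub_add
    exact_mod_cast h5
  have h7 : ((⌈x2 - n0⌉₊ - ⌈x1 - n0⌉₊ : ℕ) : ℝ) ≤
      (#{m ∈ range (YF k (max 1 D) N) | A ≤ gf (fun m : ℕ => f ((m + n0 : ℕ) : ℝ)) m ∧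
          gf (fun m : ℕ => f ((m + n0 : ℕ) : ℝ)) m < A + H} : ℝ) := by exact_mod_cast hcard
  have h8 : x2 - n0 ≤ (⌈x2 - n0⌉₊ : ℝ) := Nat.le_ceil _
  have h9 : (⌈x1 - n0⌉₊ : ℝ) < x1 - n0 + 1 := Nat.ceil_lt_add_one (by linarith [hx1.1])
  linarith

end Pool.Agent.Lib.MP_570bef_ntW
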