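import Mathlib
import Pool.Agent.Lib.MP_570bef_ntW.AclA

/-!
# WeP: the Weyl bound for the polynomials `g + θ X^j`

`acl_all k` with `ε = 1/32` gives `σ0, C0`; `σ = min σ0 (1/32)`. Let `L = g.leadingCoeff = g.coeff k > 0`, `ρ = (g.coeff j + θ)/L`, `Dio ρ` with the constant `c0`. Let `p = C α * (g + C θ * X^j)`: `natDegree p ≤ k`, `p.eval n = α * pf g j θ n`, `p.coeff k = α L` (`j < k`), `p.coeff j = α (g.coeff j + θ) = α L ρ`. `S = SS p a b`, `‖S‖ ≤ b - a ≤ 4P`.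
(1) `|α| > P^(1/32)`: `‖S‖ ≤ 4P = 4 P^(1-1/32) P^(1/32) ≤ 4 P^(1-σ) |α|`. (2) `|α| ≤ P^(1/32)`, first alternative of `ACL`: `‖S‖ ≤ C0 P^(1-σ0) ≤ C0 P^(1-σ)`. (3) Second alternative: `Q ≤ C0 P^ε`, `|Q α L - z| ≤ C0 P^(-k+ε)` (`i = k`), `|Q α L ρ - z'| ≤ C0 P^(-j+ε)` (`i = j`). We show that then `P ≤ P0` with `P0` depending on `g, j, θ`; then
`‖S‖ ≤ 4P ≤ 4 P0 ≤ C P^(1-σ)` for `C ≥ 4 P0`. `z = 0`: `|α| ≤ Q|α| ≤ (C0/L) P^(-k+ε)` and `|α| ≥ P^(-k+1/4)` give `P^(1/4-1/32) ≤ C0/L`. `z ≠ 0`: `|z| ≤ Q|α|L + C0 ≤ C0 (L + 1) P^(2/32)`; `|z ρ - z'| ≤ |ρ| |Q α L - z| + |Q α L ρ - z'| ≤ C0 (|ρ| + 1) P^(-1+ε)` (`k, j ≥ 1`, `P ≥ 1`); `Dio ρ` with the natural number `|z|` (replace `z'` by `-z'` if `z < 0`):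
`c0/z² ≤ |z ρ - z'|`, so `c0 ≤ C0² (L+1)² P^(4/32) C0 (|ρ|+1) P^(-1+1/32)`, i.e. `P^(27/32) ≤ C0³ (L+1)² (|ρ|+1)/c0`.
-/

set_option autoImplicit false

open Finset Real Polynomial
open Pool.Agent.Lib.MP_2a816b_nt (e nn norm_e conj_e e_add e_neg)

namespace Pool.Agent.Lib.MP_570bef_ntW

open Pool.Agent.Lib.MP_570bef_ntS (kap Dio)

private theorem wep_coeff (g : ℝ[X]) (α θ : ℝ) (j i : ℕ) :
    (C α * (g + C θ * X ^ j)).coeff i = α * (g.coeff i + if i = j then θ else 0) := by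
  rw [coeff_C_mul, coeff_add, coeff_C_mul, coeff_X_pow]
  split_ifs <;> ring

private theorem wep_eval (g : ℝ[X]) (α θ : ℝ) (j : ℕ) (x : ℝ) :
    (C α * (g + C θ * X ^ j)).eval x = α * pf g j θ x := by
  unfold pf
  rw [eval_mul, eval_C, eval_add, eval_mul, eval_C, eval_pow, eval_X]

private theorem wep_natDegree (g : ℝ[X]) (α θ : ℝ) (j k : ℕ) (hg : g.natDegree = k) (hjk : j < k) :
    (C α * (g + C θ * X ^ j)).natDegree ≤ k := by
  refine (natDegree_C_mul_le _ _).trans ((natDegree_add_le _ _).trans (max_le hg.le ?_))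
  exact ((natDegree_C_mul_le _ _).trans (natDegree_X_pow_le j)).trans hjk.le

private theorem wep_triv (φ : ℕ → ℝ) (P a b : ℕ) (hb : b ≤ 4 * P) :
    ‖∑ n ∈ Ico a b, e (φ n)‖ ≤ 4 * (P : ℝ) := by
  refine (norm_sum_le _ _).trans ?_
  have h1 : ∑ n ∈ Ico a b, ‖e (φ n)‖ = ((b - a : ℕ) : ℝ) := by
    rw [Finset.sum_congr rfl fun n _ => norm_e (φ n)]
    simp
  rw [h1]
  have h2 : b - a ≤ 4 * P := (Nat.sub_le b a).trans hb
  calc ((b - a : ℕ) : ℝ) ≤ ((4 * P : ℕ) : ℝ) := by exact_mod_cast h2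
    _ = 4 * (P : ℝ) := by push_cast; ring

/-- the numerical part: `u = P ^ (1/32)`, `v = P ^ (-k)`, `w = P ^ (-j)` -/
private theorem wep_num {c0 C0 L ρ α u v w : ℝ} {Q : ℕ} {z z' : ℤ} (hc0 : 0 < c0) (hC0 : 1 ≤ C0)
    (hL : 0 < L) (hu : 1 ≤ u) (hv : 0 < v) (hv1 : v * u ^ 32 ≤ 1) (hw1 : w * u ^ 32 ≤ 1) (_hw : 0 < w)
    (hα : v * u ^ 8 ≤ |α|) (hα1 : |α| ≤ u) (hQ1 : 1 ≤ Q) (hQ : (Q : ℝ) ≤ C0 * u)
    (h1 : |(Q : ℝ) * (α * L) - z| ≤ C0 * (v * u)) (h2 : |(Q : ℝ) * (α * L * ρ) - z'| ≤ C0 * (w * u))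
    (hD : ∀ (q : ℕ) (p : ℤ), 1 ≤ q → c0 / (q : ℝ) ^ 2 ≤ |(q : ℝ) * ρ - p|) :
    u ^ 7 ≤ max (C0 / L) (C0 ^ 3 * (L + 1) ^ 2 * (|ρ| + 1) / c0) := by
  have hu0 : 0 < u := by linarith
  have hQr : (1 : ℝ) ≤ (Q : ℝ) := by exact_mod_cast hQ1
  have hC00 : 0 < C0 := by linarith
  by_cases hz : z = 0
  · refine le_max_of_le_left ?_
    rw [le_div_iff₀ hL]
    rw [hz, Int.cast_zero, sub_zero, abs_mul, abs_mul, abs_of_pos hL, abs_of_nonneg (by linarith)]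
      at h1
    have h3 : |α| * L ≤ (Q : ℝ) * (|α| * L) :=
      le_mul_of_one_le_left (mul_nonneg (abs_nonneg α) hL.le) hQr
    have h4 : v * u ^ 8 * L ≤ C0 * (v * u) :=
      ((mul_le_mul_of_nonneg_right hα hL.le).trans h3).trans h1
    have h5 : (v * u) * (u ^ 7 * L) ≤ (v * u) * C0 := by
      calc (v * u) * (u ^ 7 * L) = v * u ^ 8 * L := by ring
        _ ≤ C0 * (v * u) := h4
        _ = (v * u) * C0 := by ring
    exact le_of_mul_le_mul_left h5 (mul_pos hv hu0)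
  · refine le_max_of_le_right ?_
    rw [le_div_iff₀ hc0]
    -- the size of `z`
    have hvu : v * u ≤ 1 := by
      have : u ≤ u ^ 32 := le_self_pow₀ hu (by norm_num)
      calc v * u ≤ v * u ^ 32 := mul_le_mul_of_nonneg_left this hv.le
        _ ≤ 1 := hv1
    have hzb : |(z : ℝ)| ≤ C0 * (L + 1) * u ^ 2 := by
      have e1 : (z : ℝ) = (Q : ℝ) * (α * L) - ((Q : ℝ) * (α * L) - z) := by ring
      have e2 : |(z : ℝ)| ≤ |(Q : ℝ) * (α * L)| + |(Q : ℝ) * (α * L) - z| := by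
        conv_lhs => rw [e1]
        exact abs_sub _ _
      have e3 : |(Q : ℝ) * (α * L)| ≤ C0 * u * (u * L) := by
        rw [abs_mul, abs_mul, abs_of_pos hL, abs_of_nonneg (by linarith : (0 : ℝ) ≤ (Q : ℝ))]
        exact mul_le_mul hQ (mul_le_mul_of_nonneg_right hα1 hL.le)
          (mul_nonneg (abs_nonneg α) hL.le) (by positivity)
      have e4 : C0 * (v * u) ≤ C0 * u ^ 2 := by
        refine mul_le_mul_of_nonneg_left ?_ hC00.le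
        nlinarith
      calc |(z : ℝ)| ≤ C0 * u * (u * L) + C0 * u ^ 2 := by linarith
        _ = C0 * (L + 1) * u ^ 2 := by ring
    -- the distance
    have hd : |(z : ℝ) * ρ - z'| * u ^ 31 ≤ C0 * (|ρ| + 1) := by
      have e1 : (z : ℝ) * ρ - z' = ((Q : ℝ) * (α * L * ρ) - z') - ((Q : ℝ) * (α * L) - z) * ρ := by
        ring
      have e2 : |(z : ℝ) * ρ - z'| ≤ C0 * (w * u) + C0 * (v * u) * |ρ| := by
        rw [e1]
        refine (abs_sub _ _).trans (add_le_add h2 ?_)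
        rw [abs_mul]
        exact mul_le_mul_of_nonneg_right h1 (abs_nonneg ρ)
      have e3 : (C0 * (w * u) + C0 * (v * u) * |ρ|) * u ^ 31 =
          C0 * (w * u ^ 32) + C0 * (v * u ^ 32) * |ρ| := by ring
      have e4 : C0 * (w * u ^ 32) ≤ C0 * 1 := mul_le_mul_of_nonneg_left hw1 hC00.le
      have e5 : C0 * (v * u ^ 32) * |ρ| ≤ C0 * 1 * |ρ| :=
        mul_le_mul_of_nonneg_right (mul_le_mul_of_nonneg_left hv1 hC00.le) (abs_nonneg ρ)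
      calc |(z : ℝ) * ρ - z'| * u ^ 31 ≤ (C0 * (w * u) + C0 * (v * u) * |ρ|) * u ^ 31 :=
            mul_le_mul_of_nonneg_right e2 (by positivity)
        _ ≤ C0 * 1 + C0 * 1 * |ρ| := by rw [e3]; exact add_le_add e4 e5
        _ = C0 * (|ρ| + 1) := by ring
    -- Dio
    have hzz : (0 : ℝ) < |(z : ℝ)| := abs_pos.2 (by exact_mod_cast hz)
    have hDz : c0 / |(z : ℝ)| ^ 2 ≤ |(z : ℝ) * ρ - z'| := by
      have hna : ((z.natAbs : ℕ) : ℝ) = |(z : ℝ)| := by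
        rw [← Int.cast_abs, Int.abs_eq_natAbs, Int.cast_natCast]
      have h1n : 1 ≤ z.natAbs := Int.natAbs_pos.2 hz
      rcases le_total 0 z with h0 | h0
      · have := hD z.natAbs z' h1n
        rw [hna] at this
        rwa [abs_of_nonneg (by exact_mod_cast h0 : (0 : ℝ) ≤ (z : ℝ))] at this ⊢
      · have := hD z.natAbs (-z') h1n
        rw [hna] at this
        have hneg : |(z : ℝ)| = -(z : ℝ) := abs_of_nonpos (by exact_mod_cast h0)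
        rw [hneg] at this ⊢
        refine this.trans (le_of_eq ?_)
        rw [show (-(z : ℝ)) * ρ - ((-z' : ℤ) : ℝ) = -((z : ℝ) * ρ - z') by push_cast; ring, abs_neg]
    have hc : c0 ≤ |(z : ℝ) * ρ - z'| * |(z : ℝ)| ^ 2 := by
      rwa [div_le_iff₀ (by positivity)] at hDz
    have hz2 : |(z : ℝ)| ^ 2 ≤ (C0 * (L + 1) * u ^ 2) ^ 2 := pow_le_pow_left₀ hzz.le hzb 2
    have h3 : c0 * u ^ 31 ≤ (C0 * (L + 1) * u ^ 2) ^ 2 * (C0 * (|ρ| + 1)) := by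
      calc c0 * u ^ 31 ≤ (|(z : ℝ) * ρ - z'| * |(z : ℝ)| ^ 2) * u ^ 31 :=
            mul_le_mul_of_nonneg_right hc (by positivity)
        _ = |(z : ℝ)| ^ 2 * (|(z : ℝ) * ρ - z'| * u ^ 31) := by ring
        _ ≤ (C0 * (L + 1) * u ^ 2) ^ 2 * (C0 * (|ρ| + 1)) :=
            mul_le_mul hz2 hd (by positivity) (by positivity)
    have h4 : u ^ 4 * (u ^ 27 * c0) ≤ u ^ 4 * (C0 ^ 3 * (L + 1) ^ 2 * (|ρ| + 1)) := by
      calc u ^ 4 * (u ^ 27 * c0) = c0 * u ^ 31 := by ring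
        _ ≤ (C0 * (L + 1) * u ^ 2) ^ 2 * (C0 * (|ρ| + 1)) := h3
        _ = u ^ 4 * (C0 ^ 3 * (L + 1) ^ 2 * (|ρ| + 1)) := by ring
    have h5 : u ^ 27 * c0 ≤ C0 ^ 3 * (L + 1) ^ 2 * (|ρ| + 1) :=
      le_of_mul_le_mul_left h4 (by positivity)
    exact (mul_le_mul_of_nonneg_right (pow_le_pow_right₀ hu (by norm_num)) hc0.le).trans h5

theorem weyl_pf (k j : ℕ) (hk : 2 ≤ k) (hj : 1 ≤ j) (hjk : j < k) :
    ∃ σ : ℝ, 0 < σ ∧ σ ≤ 1 / 2 ∧ ∀ (g : ℝ[X]) (θ : ℝ), g.natDegree = k → 0 < g.leadingCoeff →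
      Dio ((g.coeff j + θ) / g.leadingCoeff) →
      ∃ C : ℝ, 1 ≤ C ∧ ∀ (P : ℕ) (α : ℝ) (a b : ℕ), 1 ≤ P → b ≤ 4 * P →
        (P : ℝ) ^ (-(k : ℝ) + 1 / 4) ≤ |α| →
        ‖∑ n ∈ Ico a b, e (α * pf g j θ (n : ℝ))‖ ≤ C * (P : ℝ) ^ (1 - σ) * (1 + |α|) := by
  obtain ⟨σ0, C0, hσ0, hC0, H⟩ := acl_all k (by omega) (1 / 32) (by norm_num)
  have hσ32 : min σ0 (1 / 32) ≤ 1 / 32 := min_le_right _ _
  refine ⟨min σ0 (1 / 32), lt_min hσ0 (by norm_num), hσ32.trans (by norm_num),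
    fun g θ hg hL hD => ?_⟩
  obtain ⟨c0, hc0, hDio⟩ := hD
  obtain ⟨L, hLdef⟩ : ∃ L, L = g.leadingCoeff := ⟨_, rfl⟩
  rw [← hLdef] at hL hDio
  obtain ⟨ρ, hρdef⟩ : ∃ ρ, ρ = (g.coeff j + θ) / L := ⟨_, rfl⟩
  rw [← hρdef] at hDio
  obtain ⟨B, hBdef⟩ : ∃ B, B = max (C0 / L) (C0 ^ 3 * (L + 1) ^ 2 * (|ρ| + 1) / c0) := ⟨_, rfl⟩
  have hB0 : 0 ≤ B := by
    rw [hBdef]
    exact le_max_of_le_left (div_nonneg (by linarith) hL.le)
  refine ⟨C0 + 4 + 4 * B ^ 5, by nlinarith [pow_nonneg hB0 5], fun P α a b hP hb hα => ?_⟩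
  have hP0 : (1 : ℝ) ≤ (P : ℝ) := by exact_mod_cast hP
  have hPp : (0 : ℝ) < (P : ℝ) := by linarith
  have hCt : 0 ≤ 4 * B ^ 5 := by positivity
  have hpow1 : (1 : ℝ) ≤ (P : ℝ) ^ (1 - min σ0 (1 / 32)) :=
    Real.one_le_rpow hP0 (by linarith)
  have hαn : 0 ≤ |α| := abs_nonneg α
  -- the root
  obtain ⟨u, hudef⟩ : ∃ u, u = (P : ℝ) ^ ((1 : ℝ) / 32) := ⟨_, rfl⟩
  have hu1 : 1 ≤ u := by
    rw [hudef]
    exact Real.one_le_rpow hP0 (by norm_num)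
  have hun : ∀ n : ℕ, u ^ n = (P : ℝ) ^ ((n : ℝ) / 32) := by
    intro n
    rw [hudef, ← Real.rpow_natCast, ← Real.rpow_mul hPp.le]
    congr 1
    ring
  have hu32 : u ^ 32 = (P : ℝ) := by
    rw [hun 32]
    norm_num
  have hS := wep_triv (fun n => α * pf g j θ (n : ℝ)) P a b hb
  rcases lt_or_ge u |α| with hcase | hcase
  · -- large frequencies
    refine hS.trans ?_
    have h1 : (P : ℝ) = (P : ℝ) ^ ((1 : ℝ) - 1 / 32) * u := by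
      rw [hudef, ← Real.rpow_add hPp]
      norm_num
    have h2 : (P : ℝ) ^ ((1 : ℝ) - 1 / 32) ≤ (P : ℝ) ^ (1 - min σ0 (1 / 32)) :=
      Real.rpow_le_rpow_of_exponent_le hP0 (by linarith)
    have h3 : (P : ℝ) ≤ (P : ℝ) ^ (1 - min σ0 (1 / 32)) * (1 + |α|) := by
      calc (P : ℝ) = (P : ℝ) ^ ((1 : ℝ) - 1 / 32) * u := h1
        _ ≤ (P : ℝ) ^ (1 - min σ0 (1 / 32)) * (1 + |α|) :=
          mul_le_mul h2 (by linarith) (by linarith) (by linarith)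
    calc 4 * (P : ℝ) ≤ 4 * ((P : ℝ) ^ (1 - min σ0 (1 / 32)) * (1 + |α|)) := by linarith
      _ ≤ (C0 + 4 + 4 * B ^ 5) * ((P : ℝ) ^ (1 - min σ0 (1 / 32)) * (1 + |α|)) :=
        mul_le_mul_of_nonneg_right (by linarith) (by positivity)
      _ = (C0 + 4 + 4 * B ^ 5) * (P : ℝ) ^ (1 - min σ0 (1 / 32)) * (1 + |α|) := by ring
  · have hSS : SS (C α * (g + C θ * X ^ j)) a b = ∑ n ∈ Ico a b, e (α * pf g j θ (n : ℝ)) := by
      unfold SS
      exact Finset.sum_congr rfl fun n _ => by rw [wep_eval]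
    rcases H P (C α * (g + C θ * X ^ j)) a b hP (wep_natDegree g α θ j k hg hjk) hb with h | h
    · rw [hSS] at h
      refine h.trans ?_
      have h2 : (P : ℝ) ^ (1 - σ0) ≤ (P : ℝ) ^ (1 - min σ0 (1 / 32)) :=
        Real.rpow_le_rpow_of_exponent_le hP0 (by linarith [min_le_left σ0 ((1 : ℝ) / 32)])
      have h4 : 0 ≤ (P : ℝ) ^ (1 - σ0) := by positivity
      calc C0 * (P : ℝ) ^ (1 - σ0) ≤ (C0 + 4 + 4 * B ^ 5) * (P : ℝ) ^ (1 - min σ0 (1 / 32)) :=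
            mul_le_mul (by linarith) h2 h4 (by linarith)
        _ ≤ (C0 + 4 + 4 * B ^ 5) * (P : ℝ) ^ (1 - min σ0 (1 / 32)) * (1 + |α|) :=
          le_mul_of_one_le_right (by positivity) (by linarith)
    · obtain ⟨Q, hQ1, hQ, hz⟩ := h
      obtain ⟨z, hzk⟩ := hz k (by omega) le_rfl
      obtain ⟨z', hzj⟩ := hz j hj hjk.le
      have hck : (C α * (g + C θ * X ^ j)).coeff k = α * L := by
        rw [wep_coeff, if_neg (by omega), add_zero, hLdef, Polynomial.leadingCoeff, hg]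
      have hcj : (C α * (g + C θ * X ^ j)).coeff j = α * L * ρ := by
        rw [wep_coeff, if_pos rfl, hρdef]
        field_simp
      rw [hck] at hzk
      rw [hcj] at hzj
      obtain ⟨v, hvdef⟩ : ∃ v, v = (P : ℝ) ^ (-(k : ℝ)) := ⟨_, rfl⟩
      obtain ⟨w, hwdef⟩ : ∃ w, w = (P : ℝ) ^ (-(j : ℝ)) := ⟨_, rfl⟩
      have hv0 : 0 < v := by rw [hvdef]; positivity
      have hw0 : 0 < w := by rw [hwdef]; positivity
      have hv1 : v * u ^ 32 ≤ 1 := by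
        rw [hvdef, hu32]
        nth_rewrite 2 [← Real.rpow_one (P : ℝ)]
        rw [← Real.rpow_add hPp]
        refine Real.rpow_le_one_of_one_le_of_nonpos hP0 ?_
        have : (1 : ℝ) ≤ (k : ℝ) := by exact_mod_cast (by omega : 1 ≤ k)
        linarith
      have hw1 : w * u ^ 32 ≤ 1 := by
        rw [hwdef, hu32]
        nth_rewrite 2 [← Real.rpow_one (P : ℝ)]
        rw [← Real.rpow_add hPp]
        refine Real.rpow_le_one_of_one_le_of_nonpos hP0 ?_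
        have : (1 : ℝ) ≤ (j : ℝ) := by exact_mod_cast hj
        linarith
      have ek : (P : ℝ) ^ (-(k : ℝ) + 1 / 32) = v * u := by
        rw [hvdef, hudef, ← Real.rpow_add hPp]
      have ej : (P : ℝ) ^ (-(j : ℝ) + 1 / 32) = w * u := by
        rw [hwdef, hudef, ← Real.rpow_add hPp]
      have e4 : (P : ℝ) ^ (-(k : ℝ) + 1 / 4) = v * u ^ 8 := by
        rw [hvdef, hun 8, ← Real.rpow_add hPp]
        norm_num
      rw [ek] at hzk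
      rw [ej] at hzj
      rw [e4] at hα
      rw [← hudef] at hQ
      have hfin := wep_num hc0 hC0 hL hu1 hv0 hv1 hw1 hw0 hα hcase hQ1 hQ hzk hzj hDio
      rw [← hBdef] at hfin
      have hPB : (P : ℝ) ≤ B ^ 5 := by
        calc (P : ℝ) = u ^ 32 := hu32.symm
          _ ≤ u ^ 35 := pow_le_pow_right₀ hu1 (by norm_num)
          _ = (u ^ 7) ^ 5 := by ring
          _ ≤ B ^ 5 := pow_le_pow_left₀ (by positivity) hfin 5
      refine hS.trans ?_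
      calc 4 * (P : ℝ) ≤ C0 + 4 + 4 * B ^ 5 := by linarith
        _ ≤ (C0 + 4 + 4 * B ^ 5) * (P : ℝ) ^ (1 - min σ0 (1 / 32)) :=
          le_mul_of_one_le_right (by linarith) hpow1
        _ ≤ (C0 + 4 + 4 * B ^ 5) * (P : ℝ) ^ (1 - min σ0 (1 / 32)) * (1 + |α|) :=
          le_mul_of_one_le_right (by positivity) (by linarith)

end Pool.Agent.Lib.MP_570bef_ntW
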