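import Mathlib
import Pool.Agent.Lib.MP_570bef_ntW.RAsy
import Pool.Agent.Lib.MP_570bef_ntW.RCnt
import Pool.Agent.Lib.MP_570bef_ntW.WeP

/-!
# RegP: the sequence `f (n + n0)` is regular

`f = g + C θ * X^j`: `natDegree f = k` (`j < k`), `f.leadingCoeff = g.leadingCoeff`, `f.eval x = pf g j θ x`, and its derivative. `asy` gives `n0, K0, c0`; `cnt_f` (with `f' x = f.derivative.eval x`) gives `K', c', N1`.
`Reg k φ K c' σ N1` for `φ n = pf g j θ (n + n0)` and any large `K`: `nonneg`: `c0 x^k ≤ f x` at `x = n + n0 ≥ n0`. `up`: `φ n ≤ K0 (n + n0)^k ≤ K0 (1 + n0)^k n^k` for `n ≥ 1`. `cnt`: from `cnt_f` with a larger `K` (`YF` is monotone in `K`, the filter only grows).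
`weyl`: `hW` gives `C1`. `∑_{n ∈ Ico P 2P} e (α φ n) = ∑_{n ∈ Ico (P+n0) (2P+n0)} e (α pf g j θ n)` (`Finset.sum_Ico_add'` or `sum_Ico_add_right`-type lemma), for `P ≥ n0` `2P + n0 ≤ 4P` and `hW` applies; for `P < n0` the sum is at most `P ≤ n0 ≤ n0 P^(1-σ)`. `K` = the maximum of all constants.
-/

set_option autoImplicit false

open Finset Real Polynomial
open Pool.Agent.Lib.MP_2a816b_nt (e nn norm_e conj_e e_add e_neg)

namespace Pool.Agent.Lib.MP_570bef_ntW

open Pool.Agent.Lib.MP_570bef_ntS (kap Dio)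

theorem reg_p (k j : ℕ) (hk : 2 ≤ k) (hj : 1 ≤ j) (hjk : j < k) (σ : ℝ) (hσ : 0 < σ)
    (hσ1 : σ ≤ 1 / 2) (g : ℝ[X]) (θ : ℝ) (hg : g.natDegree = k) (hL : 0 < g.leadingCoeff)
    (hW : ∃ C : ℝ, 1 ≤ C ∧ ∀ (P : ℕ) (α : ℝ) (a b : ℕ), 1 ≤ P → b ≤ 4 * P →
        (P : ℝ) ^ (-(k : ℝ) + 1 / 4) ≤ |α| →
        ‖∑ n ∈ Ico a b, e (α * pf g j θ (n : ℝ))‖ ≤ C * (P : ℝ) ^ (1 - σ) * (1 + |α|)) :
    ∃ (n0 : ℕ) (K c : ℝ) (N1 : ℕ), (∀ x : ℝ, (n0 : ℝ) ≤ x → 0 ≤ pf g j θ x) ∧
      Reg k (fun n : ℕ => pf g j θ ((n + n0 : ℕ) : ℝ)) K c σ N1 := by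
  have hdg : (C θ * X ^ j : ℝ[X]).natDegree < g.natDegree := by
    rw [hg]
    exact lt_of_le_of_lt (natDegree_C_mul_X_pow_le θ j) hjk
  have hf : (g + C θ * X ^ j).natDegree = k := by
    rw [natDegree_add_eq_left_of_natDegree_lt hdg, hg]
  have hLf : 0 < (g + C θ * X ^ j).leadingCoeff := by
    rw [leadingCoeff, hf, coeff_add, coeff_C_mul_X_pow, if_neg (by omega), add_zero]
    rw [leadingCoeff, hg] at hL
    exact hL
  have hev : ∀ x : ℝ, (g + C θ * X ^ j).eval x = pf g j θ x := by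
    intro x
    simp [pf]
  obtain ⟨n0, K0, c0, hn0, hK0, hc0, h⟩ := asy (g + C θ * X ^ j) k (by omega) hf hLf
  have hfun : (fun x : ℝ => pf g j θ x) = fun x : ℝ => (g + C θ * X ^ j).eval x := by
    funext x
    exact (hev x).symm
  obtain ⟨K', c', N1, hK', hc', hcnt⟩ := cnt_f (fun x : ℝ => pf g j θ x)
    (fun x : ℝ => (g + C θ * X ^ j).derivative.eval x) k n0 K0 c0 hk hn0 hK0 hc0
    (fun x _ => by
      rw [hfun]
      exact (g + C θ * X ^ j).hasDerivAt x)
    (fun x hx => by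
      have h1 := (h x hx).1
      rw [hev] at h1
      exact h1)
    (fun x hx => ⟨(h x hx).2.2.1, (h x hx).2.2.2⟩)
  obtain ⟨C1, hC1, hW1⟩ := hW
  have hn0r : (0 : ℝ) ≤ (n0 : ℝ) := Nat.cast_nonneg _
  have hpos : 0 ≤ K0 * (1 + (n0 : ℝ)) ^ k := by positivity
  have hnn : ∀ x : ℝ, (n0 : ℝ) ≤ x → 0 ≤ pf g j θ x := by
    intro x hx
    have h1 := (h x hx).1
    rw [hev] at h1
    exact le_trans (mul_nonneg hc0.le (pow_nonneg (hn0r.trans hx) k)) h1
  refine ⟨n0, K' + K0 * (1 + (n0 : ℝ)) ^ k + C1 + n0, c', N1, hnn, ?_⟩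
  exact
    { hk := hk
      hK := by linarith
      hc := hc'
      hσ := hσ
      hσ1 := hσ1
      nonneg := by
        intro n
        refine hnn _ ?_
        push_cast
        have : (0 : ℝ) ≤ (n : ℝ) := Nat.cast_nonneg _
        linarith
      up := by
        intro n hn
        have hn1 : (1 : ℝ) ≤ (n : ℝ) := by exact_mod_cast hn
        have hx : (n0 : ℝ) ≤ ((n + n0 : ℕ) : ℝ) := by
          push_cast
          linarith
        have h1 := (h _ hx).2.1
        rw [hev] at h1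
        refine h1.trans ?_
        have h2 : ((n + n0 : ℕ) : ℝ) ≤ (1 + (n0 : ℝ)) * (n : ℝ) := by
          push_cast
          nlinarith [mul_nonneg hn0r (sub_nonneg.2 hn1)]
        calc K0 * ((n + n0 : ℕ) : ℝ) ^ k ≤ K0 * ((1 + (n0 : ℝ)) * (n : ℝ)) ^ k :=
              mul_le_mul_of_nonneg_left (pow_le_pow_left₀ (Nat.cast_nonneg _) h2 k) (by linarith)
          _ = K0 * (1 + (n0 : ℝ)) ^ k * (n : ℝ) ^ k := by
              rw [mul_pow]
              ring
          _ ≤ (K' + K0 * (1 + (n0 : ℝ)) ^ k + C1 + n0) * (n : ℝ) ^ k :=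
              mul_le_mul_of_nonneg_right (by linarith) (by positivity)
      cnt := by
        intro A H N h1 h2 h3
        refine (hcnt A H N h1 h2 h3).trans ?_
        have hY : YF k K' N ≤ YF k (K' + K0 * (1 + (n0 : ℝ)) ^ k + C1 + n0) N := by
          refine Nat.ceil_mono ?_
          exact mul_le_mul_of_nonneg_right (by linarith) (rpow_nonneg (Nat.cast_nonneg _) _)
        have hcard := Finset.card_le_card (Finset.filter_subset_filter
          (fun m => A ≤ gf (fun m : ℕ => pf g j θ ((m + n0 : ℕ) : ℝ)) m ∧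
            gf (fun m : ℕ => pf g j θ ((m + n0 : ℕ) : ℝ)) m < A + H) (Finset.range_mono hY))
        exact_mod_cast hcard
      weyl := by
        intro P α hP hα
        have hP1 : (1 : ℝ) ≤ (P : ℝ) := by exact_mod_cast hP
        have hPp : (1 : ℝ) ≤ (P : ℝ) ^ (1 - σ) := one_le_rpow hP1 (by linarith)
        have hab : (0 : ℝ) ≤ |α| := abs_nonneg α
        have hM : (0 : ℝ) ≤ (P : ℝ) ^ (1 - σ) * (1 + |α|) := by positivity
        have hM1 : (1 : ℝ) ≤ (P : ℝ) ^ (1 - σ) * (1 + |α|) := by nlinarith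
        rcases le_or_gt n0 P with hle | hlt
        · have hs : ∑ n ∈ Ico P (2 * P), e (α * pf g j θ ((n + n0 : ℕ) : ℝ)) =
              ∑ n ∈ Ico (P + n0) (2 * P + n0), e (α * pf g j θ (n : ℝ)) :=
            Finset.sum_Ico_add' (fun n : ℕ => e (α * pf g j θ (n : ℝ))) P (2 * P) n0
          have h1 := hW1 P α (P + n0) (2 * P + n0) hP (by omega) hα
          change ‖∑ n ∈ Ico P (2 * P), e (α * pf g j θ ((n + n0 : ℕ) : ℝ))‖ ≤ _
          rw [hs]
          refine h1.trans ?_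
          rw [mul_assoc, mul_assoc]
          exact mul_le_mul_of_nonneg_right (by linarith) hM
        · have h1 : ‖∑ n ∈ Ico P (2 * P), e (α * pf g j θ ((n + n0 : ℕ) : ℝ))‖ ≤ (P : ℝ) := by
            refine (norm_sum_le _ _).trans ?_
            rw [Finset.sum_congr rfl (fun n _ => norm_e _)]
            rw [Finset.sum_const, Nat.card_Ico, nsmul_eq_mul, mul_one]
            exact_mod_cast (by omega : 2 * P - P ≤ P)
          have h2 : (P : ℝ) ≤ (n0 : ℝ) := by exact_mod_cast hlt.le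
          refine h1.trans (h2.trans ?_)
          rw [mul_assoc]
          calc (n0 : ℝ) = (n0 : ℝ) * 1 := (mul_one _).symm
            _ ≤ (K' + K0 * (1 + (n0 : ℝ)) ^ k + C1 + n0) * ((P : ℝ) ^ (1 - σ) * (1 + |α|)) :=
                mul_le_mul (by linarith) hM1 zero_le_one (by linarith) }

end Pool.Agent.Lib.MP_570bef_ntW
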