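import Mathlib
import Pool.Agent.Lib.MP_570bef_ntW.D2

/-!
# GSum: Gaussian sums from counts

`g_sum`: group by `n = ⌊m z⌋₊`: `exp (-π (m z)²) ≤ exp (-π n²) ≤ exp (-π n) ≤ 16^(-n) ≤ 1/(n+1)^4` (`exp π ≥ exp 3 ≥ 16`; `n + 1 ≤ 2^n`), the group has at most `(n+1)² Q` elements (`m z ≤ n + 1`). Total `≤ Q ∑ 1/(n+1)² ≤ 2 Q ≤ 4 Q` (finite sums: `n ≤ N` with `N` a bound for the `⌊m z⌋₊`; `∑_{n < N} 1/(n+1)² ≤ 2 - 1/N`-type induction).
`gp_le`: `z = (t, t')`, `m z = lam * max |U t - U t'| |V t - V t'|`, `lam² ((..)² + (..)²) ≥ (m z)²` (`Finset.sum_product`), `m z ≤ n + 1 ↔` both differences are `≤ (n+1)/lam`. `gd_le`: `m z = lam |D z|`; here the count is `≤ (n+1) Q ≤ (n+1)² Q`.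
-/

set_option autoImplicit false

open Finset Real Polynomial
open Pool.Agent.Lib.MP_2a816b_nt (e nn norm_e conj_e e_add e_neg)

namespace Pool.Agent.Lib.MP_570bef_ntW

open Pool.Agent.Lib.MP_570bef_ntS (kap Dio)

private theorem GSum_sq (N : ℕ) : ∑ n ∈ range N, (1 : ℝ) / ((n : ℝ) + 1) ^ 2 ≤ 2 - 2 / ((N : ℝ) + 1) := by
  induction N with
  | zero => simp
  | succ N ih =>
    rw [Finset.sum_range_succ]
    have hN : (0 : ℝ) ≤ N := Nat.cast_nonneg N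
    have h1 : (1 : ℝ) / ((N : ℝ) + 1) ^ 2 ≤ 2 / ((N : ℝ) + 1) - 2 / ((N : ℝ) + 1 + 1) := by
      rw [div_sub_div _ _ (by positivity) (by positivity), div_le_div_iff₀ (by positivity) (by positivity)]
      nlinarith [mul_nonneg hN hN, mul_nonneg (mul_nonneg hN hN) hN]
    push_cast
    linarith

private theorem GSum_exp (n : ℕ) (x : ℝ) (hx : (n : ℝ) ≤ x) :
    Real.exp (-(π * x ^ 2)) ≤ 1 / ((n : ℝ) + 1) ^ 4 := by
  have hn : (0 : ℝ) ≤ n := Nat.cast_nonneg n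
  have h0 : (n : ℝ) ≤ (n : ℝ) ^ 2 := by
    rcases Nat.eq_zero_or_pos n with h | h
    · subst h
      norm_num
    · have h1 : (1 : ℝ) ≤ n := by exact_mod_cast h
      nlinarith
  have h1 : (n : ℝ) ≤ x ^ 2 := h0.trans (pow_le_pow_left₀ hn hx 2)
  have h2 : 3 * (n : ℝ) ≤ π * x ^ 2 := by
    have h3 := Real.pi_gt_three
    have h4 : 3 * (n : ℝ) ≤ 3 * x ^ 2 := by linarith
    have h5 : 3 * x ^ 2 ≤ π * x ^ 2 := mul_le_mul_of_nonneg_right h3.le (sq_nonneg x)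
    linarith
  have h3 : ((n : ℝ) + 1) ^ 4 ≤ Real.exp (3 * (n : ℝ)) := by
    have h4 : (n : ℝ) + 1 ≤ 2 ^ n := by
      have := Nat.lt_two_pow_self (n := n)
      exact_mod_cast this
    have h5 : (16 : ℝ) ≤ Real.exp 3 := by
      have h6 : Real.exp 3 = Real.exp 1 ^ 3 := by
        rw [← Real.exp_nat_mul]
        norm_num
      rw [h6]
      have h7 : (2.7 : ℝ) ≤ Real.exp 1 := by
        have := Real.exp_one_gt_d9
        linarith
      have h8 : (2.7 : ℝ) ^ 3 ≤ Real.exp 1 ^ 3 := pow_le_pow_left₀ (by norm_num) h7 3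
      have h9 : (16 : ℝ) ≤ (2.7 : ℝ) ^ 3 := by norm_num
      linarith
    calc ((n : ℝ) + 1) ^ 4 ≤ (2 ^ n : ℝ) ^ 4 := pow_le_pow_left₀ (by positivity) h4 4
      _ = 16 ^ n := by
        rw [← pow_mul, mul_comm n 4, pow_mul]
        norm_num
      _ ≤ (Real.exp 3) ^ n := pow_le_pow_left₀ (by norm_num) h5 n
      _ = Real.exp (3 * (n : ℝ)) := by
        rw [← Real.exp_nat_mul]
        congr 1
        ring
  rw [Real.exp_neg, ← one_div]
  refine one_div_le_one_div_of_le (by positivity) (h3.trans ?_)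
  exact Real.exp_le_exp.2 h2

theorem g_sum {ι : Type} (Z : Finset ι) (m : ι → ℝ) (hm : ∀ z ∈ Z, 0 ≤ m z) (Q : ℝ)
    (h : ∀ n : ℕ, (#(Z.filter fun z : ι => m z ≤ (n : ℝ) + 1) : ℝ) ≤ ((n : ℝ) + 1) ^ 2 * Q) :
    ∑ z ∈ Z, Real.exp (-(π * (m z) ^ 2)) ≤ 4 * Q := by
  classical
  have hQ : 0 ≤ Q := by
    have h1 := h 0
    have h2 : (0 : ℝ) ≤ (#(Z.filter fun z : ι => m z ≤ ((0 : ℕ) : ℝ) + 1) : ℝ) := Nat.cast_nonneg _
    have h3 : (((0 : ℕ) : ℝ) + 1) ^ 2 * Q = Q := by norm_num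
    linarith
  obtain ⟨N, hN⟩ : ∃ N : ℕ, ∀ z ∈ Z, ⌊m z⌋₊ ∈ range N :=
    ⟨Z.sup (fun z => ⌊m z⌋₊) + 1, fun z hz => Finset.mem_range.2
      (Nat.lt_succ_of_le (Finset.le_sup (f := fun z => ⌊m z⌋₊) hz))⟩
  rw [← Finset.sum_fiberwise_of_maps_to hN]
  have h1 : ∀ n ∈ range N, ∑ z ∈ Z with ⌊m z⌋₊ = n, Real.exp (-(π * (m z) ^ 2)) ≤
      Q * (1 / ((n : ℝ) + 1) ^ 2) := by
    intro n _
    have hc : (#(Z.filter fun z : ι => ⌊m z⌋₊ = n) : ℝ) ≤ ((n : ℝ) + 1) ^ 2 * Q := by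
      refine le_trans ?_ (h n)
      rw [Nat.cast_le]
      refine Finset.card_le_card fun z hz => ?_
      rw [Finset.mem_filter] at hz ⊢
      refine ⟨hz.1, ?_⟩
      rw [← hz.2]
      exact (Nat.lt_floor_add_one (m z)).le
    have hn : (0 : ℝ) < (n : ℝ) + 1 := by positivity
    calc ∑ z ∈ Z with ⌊m z⌋₊ = n, Real.exp (-(π * (m z) ^ 2))
        ≤ ∑ z ∈ Z with ⌊m z⌋₊ = n, 1 / ((n : ℝ) + 1) ^ 4 := by
          refine Finset.sum_le_sum fun z hz => ?_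
          rw [Finset.mem_filter] at hz
          refine GSum_exp n (m z) ?_
          rw [← hz.2]
          exact Nat.floor_le (hm z hz.1)
      _ = (#(Z.filter fun z : ι => ⌊m z⌋₊ = n) : ℝ) * (1 / ((n : ℝ) + 1) ^ 4) := by
          rw [Finset.sum_const, nsmul_eq_mul]
      _ ≤ (((n : ℝ) + 1) ^ 2 * Q) * (1 / ((n : ℝ) + 1) ^ 4) :=
          mul_le_mul_of_nonneg_right hc (by positivity)
      _ = Q * (1 / ((n : ℝ) + 1) ^ 2) := by
          field_simp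
  refine (Finset.sum_le_sum h1).trans ?_
  rw [← Finset.mul_sum]
  have h2 : ∑ n ∈ range N, (1 : ℝ) / ((n : ℝ) + 1) ^ 2 ≤ 4 := by
    have h3 := GSum_sq N
    have h4 : (0 : ℝ) ≤ 2 / ((N : ℝ) + 1) := by positivity
    linarith
  have h5 := mul_le_mul_of_nonneg_left h2 hQ
  linarith

theorem gp_le {ι : Type} (T : Finset ι) (U V : ι → ℝ) (lam Q : ℝ) (hl : 0 < lam)
    (h : ∀ n : ℕ, (#((T ×ˢ T).filter fun z : ι × ι => |U z.1 - U z.2| ≤ ((n : ℝ) + 1) / lam ∧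
      |V z.1 - V z.2| ≤ ((n : ℝ) + 1) / lam) : ℝ) ≤ ((n : ℝ) + 1) ^ 2 * Q) :
    GP T U V lam ≤ 4 * Q := by
  have hmax : ∀ z : ι × ι, 0 ≤ max |U z.1 - U z.2| |V z.1 - V z.2| := fun z => le_max_of_le_left (abs_nonneg _)
  have h1 := g_sum (T ×ˢ T) (fun z => lam * max |U z.1 - U z.2| |V z.1 - V z.2|)
    (fun z _ => mul_nonneg hl.le (hmax z)) Q (by
      intro n
      refine le_trans ?_ (h n)
      rw [Nat.cast_le]
      refine Finset.card_le_card fun z hz => ?_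
      rw [Finset.mem_filter] at hz ⊢
      refine ⟨hz.1, ?_⟩
      have h2 : max |U z.1 - U z.2| |V z.1 - V z.2| ≤ ((n : ℝ) + 1) / lam := by
        rw [le_div_iff₀ hl, mul_comm]
        exact hz.2
      exact ⟨(le_max_left _ _).trans h2, (le_max_right _ _).trans h2⟩)
  refine le_trans ?_ h1
  unfold GP
  rw [Finset.sum_product]
  refine Finset.sum_le_sum fun t _ => Finset.sum_le_sum fun t' _ => ?_
  rw [Real.exp_le_exp, neg_le_neg_iff, mul_assoc]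
  refine mul_le_mul_of_nonneg_left ?_ Real.pi_pos.le
  simp only
  rw [mul_pow]
  refine mul_le_mul_of_nonneg_left ?_ (sq_nonneg lam)
  rcases max_cases |U t - U t'| |V t - V t'| with ⟨h2, -⟩ | ⟨h2, -⟩
  · rw [h2, sq_abs]
    have := sq_nonneg (V t - V t')
    linarith
  · rw [h2, sq_abs]
    have := sq_nonneg (U t - U t')
    linarith

theorem gd_le {ι : Type} (T : Finset ι) (U V : ι → ℝ) (θ lam Q : ℝ) (hl : 0 < lam) (hQ : 0 ≤ Q)
    (h : ∀ n : ℕ, (#((T ×ˢ T).filter fun z : ι × ι =>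
      |(U z.1 - U z.2) + θ * (V z.1 - V z.2)| ≤ ((n : ℝ) + 1) / lam) : ℝ) ≤ ((n : ℝ) + 1) * Q) :
    GD T U V θ lam ≤ 4 * Q := by
  have h1 := g_sum (T ×ˢ T) (fun z => lam * |(U z.1 - U z.2) + θ * (V z.1 - V z.2)|)
    (fun z _ => mul_nonneg hl.le (abs_nonneg _)) Q (by
      intro n
      have h3 : ((n : ℝ) + 1) * Q ≤ ((n : ℝ) + 1) ^ 2 * Q := by
        refine mul_le_mul_of_nonneg_right ?_ hQ
        have : (0 : ℝ) ≤ n := Nat.cast_nonneg n
        nlinarith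
      refine le_trans (le_trans ?_ (h n)) h3
      rw [Nat.cast_le]
      refine Finset.card_le_card fun z hz => ?_
      rw [Finset.mem_filter] at hz ⊢
      refine ⟨hz.1, ?_⟩
      rw [le_div_iff₀ hl, mul_comm]
      exact hz.2)
  refine le_trans ?_ h1
  unfold GD
  rw [Finset.sum_product]
  refine Finset.sum_le_sum fun t _ => Finset.sum_le_sum fun t' _ => ?_
  rw [Real.exp_le_exp, neg_le_neg_iff]
  refine mul_le_mul_of_nonneg_left (le_of_eq ?_) Real.pi_pos.le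
  simp only
  rw [mul_pow, mul_pow, sq_abs]

end Pool.Agent.Lib.MP_570bef_ntW
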