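import Mathlib
import Pool.Agent.Lib.MP_570bef_ntW.Defs
import Pool.Agent.Lib.MP_570bef_ntSH.Cards

/-!
# CrdW: number of elements of the family

As `MP_570bef_ntSH/Cards.lean` (`prod_rpow : ∏ i : Fin s, X^(kap k^i) = X^(k (1 - kap k^s))`). `#(rd k a Y) = ⌊(1+dl k) a Y⌋₊ - ⌊a Y⌋₊ ≥ dl k a Y - 1 ≥ (dl k a/2) Y` as soon as `Y ≥ 2/(dl k a)`; `a ≥ 1/8`, so with `c0 = dl k/16`: `#(rd k a Y) ≥ c0 Y` for `Y ≥ 16/dl k = 64 k` and `a ∈ {1, 1/8}`. The smallest `Y` is `X^(kap k^i) ≥ X^(kap k^s)` resp. `X^(kap k^r)`, at least `64 k` for `X ≥ X0` (`X0 = (64k)^(1/(kap k^(s+r)))`, `kap k^i ≥ kap k^(s+r)` for `i ≤ s + r`).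
`Fintype.card_piFinset`, `Finset.card_product`, `Finset.prod_le_prod`: `#TF ≥ c0^(s+r) X^(k(1-κ^s) + k(1-κ^r))`.
-/

set_option autoImplicit false

open Finset Real Polynomial
open Pool.Agent.Lib.MP_2a816b_nt (e nn norm_e conj_e e_add e_neg)

namespace Pool.Agent.Lib.MP_570bef_ntW

open Pool.Agent.Lib.MP_570bef_ntS (kap Dio)
open Pool.Agent.Lib.MP_570bef_ntSH (kap_pos kap_lt_one kap_pow_pos kap_pow_le_one prod_rpow)

/-- Number of elements of one range. -/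
private theorem CrdW_rd {k : ℕ} (hk : 2 ≤ k) {a Y : ℝ} (ha : 1 / 8 ≤ a) (hY : 64 * (k : ℝ) ≤ Y) :
    dl k / 16 * Y ≤ ((rd k a Y).card : ℝ) := by
  have hk' : (2 : ℝ) ≤ k := by exact_mod_cast hk
  have hdl : 0 < dl k := by
    unfold dl
    positivity
  have hY0 : 0 < Y := by linarith
  have ha0 : 0 < a := by linarith
  have h1 : 2 ≤ dl k * (a * Y) := by
    have h2 : 1 / 8 * (64 * (k : ℝ)) ≤ a * Y := mul_le_mul ha hY (by positivity) ha0.le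
    have h3 : dl k * (1 / 8 * (64 * (k : ℝ))) = 2 := by
      unfold dl
      field_simp
      norm_num
    have h4 := mul_le_mul_of_nonneg_left h2 hdl.le
    linarith
  have h2 : (⌊a * Y⌋₊ : ℝ) ≤ a * Y := Nat.floor_le (by positivity)
  have h3 : (1 + dl k) * (a * Y) < (⌊(1 + dl k) * (a * Y)⌋₊ : ℝ) + 1 := Nat.lt_floor_add_one _
  have h7 : (1 + dl k) * (a * Y) = a * Y + dl k * (a * Y) := by ring
  have h4 : ⌊a * Y⌋₊ ≤ ⌊(1 + dl k) * (a * Y)⌋₊ := Nat.floor_le_floor (by rw [h7]; linarith)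
  unfold rd
  rw [Nat.card_Ioc, Nat.cast_sub h4]
  have h5 : 1 / 8 * Y ≤ a * Y := mul_le_mul_of_nonneg_right ha hY0.le
  have h6 := mul_le_mul_of_nonneg_left h5 hdl.le
  have h8 : dl k / 16 * Y = dl k * (1 / 8 * Y) / 2 := by ring
  rw [h8]
  linarith

/-- Number of elements of a block. -/
private theorem CrdW_tw {k s : ℕ} (hk : 2 ≤ k) {a X : ℝ} (ha : 1 / 8 ≤ a) (hX : 0 < X)
    (h : ∀ i : ℕ, i < s → 64 * (k : ℝ) ≤ X ^ (kap k ^ i)) :
    (dl k / 16) ^ s * X ^ ((k : ℝ) * (1 - kap k ^ s)) ≤ ((TW k s a X).card : ℝ) := by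
  have hk' : (2 : ℝ) ≤ k := by exact_mod_cast hk
  have hdl : 0 < dl k := by
    unfold dl
    positivity
  unfold TW
  rw [Fintype.card_piFinset, Nat.cast_prod, ← prod_rpow hk s hX]
  have h1 : (dl k / 16) ^ s * ∏ i : Fin s, X ^ (kap k ^ (i : ℕ)) =
      ∏ i : Fin s, (dl k / 16 * X ^ (kap k ^ (i : ℕ))) := by
    rw [Finset.prod_mul_distrib, Finset.prod_const, Finset.card_univ, Fintype.card_fin]
  rw [h1]
  refine Finset.prod_le_prod (fun i _ => ?_) fun i _ => CrdW_rd hk ha (h i i.2)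
  have h2 : 0 < X ^ (kap k ^ (i : ℕ)) := Real.rpow_pos_of_pos hX _
  positivity

theorem crd_w (k s r : ℕ) (hk : 2 ≤ k) :
    ∃ c X0 : ℝ, 0 < c ∧ 1 ≤ X0 ∧ ∀ X : ℝ, X0 ≤ X →
      c * X ^ ((k : ℝ) * (1 - kap k ^ s) + (k : ℝ) * (1 - kap k ^ r)) ≤ (#(TF k s r X) : ℝ) := by
  have hk' : (2 : ℝ) ≤ k := by exact_mod_cast hk
  have hdl : 0 < dl k := by
    unfold dl
    positivity
  have hE : 0 < kap k ^ (s + r) := kap_pow_pos hk (s + r)
  have h64 : (1 : ℝ) ≤ 64 * (k : ℝ) := by linarith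
  have hX0 : 1 ≤ (64 * (k : ℝ)) ^ (1 / kap k ^ (s + r)) :=
    Real.one_le_rpow h64 (by positivity)
  refine ⟨(dl k / 16) ^ (s + r), (64 * (k : ℝ)) ^ (1 / kap k ^ (s + r)), by positivity, hX0, ?_⟩
  intro X hX
  have hX1 : 1 ≤ X := hX0.trans hX
  have hXp : 0 < X := by linarith
  have hbig : ∀ i : ℕ, i ≤ s + r → 64 * (k : ℝ) ≤ X ^ (kap k ^ i) := by
    intro i hi
    have h1 : kap k ^ (s + r) ≤ kap k ^ i :=
      pow_le_pow_of_le_one (kap_pos hk).le (kap_lt_one hk).le hi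
    have h2 : X ^ (kap k ^ (s + r)) ≤ X ^ (kap k ^ i) :=
      Real.rpow_le_rpow_of_exponent_le hX1 h1
    have h3 : ((64 * (k : ℝ)) ^ (1 / kap k ^ (s + r))) ^ (kap k ^ (s + r)) ≤
        X ^ (kap k ^ (s + r)) := Real.rpow_le_rpow (by positivity) hX hE.le
    have h4 : ((64 * (k : ℝ)) ^ (1 / kap k ^ (s + r))) ^ (kap k ^ (s + r)) = 64 * (k : ℝ) := by
      rw [← Real.rpow_mul (by positivity), one_div, inv_mul_cancel₀ hE.ne', Real.rpow_one]
    rw [h4] at h3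
    exact h3.trans h2
  have h1 := CrdW_tw (s := s) (a := 1) hk (by norm_num) hXp fun i hi => hbig i (by omega)
  have h2 := CrdW_tw (s := r) (a := 1 / 8) hk le_rfl hXp fun i hi => hbig i (by omega)
  unfold TF
  rw [Finset.card_product, Nat.cast_mul, pow_add, Real.rpow_add hXp]
  have h3 := mul_le_mul h1 h2 (by positivity) (Nat.cast_nonneg _)
  refine le_trans (le_of_eq ?_) h3
  ring

end Pool.Agent.Lib.MP_570bef_ntW
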