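import Mathlib
import Pool.Agent.Lib.MP_570bef_ntW.Defs
import Pool.Agent.Lib.MP_570bef_ntSH.Kap

/-!
# Mxs: the numbers `MX`, `BB`

`MX T W Z = max 1 (min T W / Z)`. `mx_mul` (`0 < Z ≤ Y ≤ W`): if `T ≤ Y` the first factor is `1` and `min T Y = T = min T W`; if `T > Y`: `min T Y = Y`, the second factor is `Y/Z`, the first is `min T W / Y`, the product is `min T W / Z`.
`BB k j s r T X = MX T (X^k) (X_s^k) * ((X/X_r)^(k-j) * MX T (X^j) (X_r^j))` with `X_i = X^(kap k^i)`, `X_0 = X` (`Real.rpow_one`, `pow_zero`), `(X^kap k)^(kap k^i) = X^(kap k^(i+1))` (`rpow_kap_pow` in `MP_570bef_ntSH/Kap.lean`), `X_(i+1) ≤ X_1 ≤ X` for `X ≥ 1` (exponents `kap k^(i+1) ≤ kap k ≤ 1`), all positive.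
`bb_two`: `mx_mul` twice (with natural powers, `pow_le_pow_left₀`) and `(X/X_1)^(k-j) (X_1/X_(r+1))^(k-j) = (X/X_(r+1))^(k-j)`. `bb_one`: `r = 0`: `(X/X)^(k-j) = 1` and `MX T (X^j) (X^j) = 1` (`min T (X^j) ≤ X^j`), also for `X_1` in place of `X`. `bb_ge`: all factors are `≥ 1`.
-/

set_option autoImplicit false

open Finset Real Polynomial
open Pool.Agent.Lib.MP_2a816b_nt (e nn norm_e conj_e e_add e_neg)

namespace Pool.Agent.Lib.MP_570bef_ntW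

open Pool.Agent.Lib.MP_570bef_ntS (kap Dio)
open Pool.Agent.Lib.MP_570bef_ntSH (kap_pos kap_lt_one kap_pow_pos kap_pow_le_one rpow_kap_pow rpow_kap_nat)

private theorem Mxs_le {k : ℕ} (hk : 2 ≤ k) {X : ℝ} (hX : 1 ≤ X) (i : ℕ) : X ^ (kap k ^ i) ≤ X := by
  calc X ^ (kap k ^ i) ≤ X ^ (1 : ℝ) := Real.rpow_le_rpow_of_exponent_le hX (kap_pow_le_one hk i)
    _ = X := Real.rpow_one X

private theorem Mxs_ratio {k : ℕ} (hk : 2 ≤ k) {X : ℝ} (hX : 1 ≤ X) (i : ℕ) : 1 ≤ X / X ^ (kap k ^ i) :=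
  (one_le_div (Real.rpow_pos_of_pos (by linarith) _)).mpr (Mxs_le hk hX i)

private theorem Mxs_self (T : ℝ) {Y : ℝ} (hY : 0 < Y) : MX T Y Y = 1 := by
  unfold MX
  exact max_eq_left ((div_le_one hY).mpr (min_le_right _ _))

theorem mx_ge (T W Z : ℝ) : 1 ≤ MX T W Z := by
  exact le_max_left _ _

theorem mx_mul (T W Y Z : ℝ) (hZ : 0 < Z) (hZY : Z ≤ Y) (hYW : Y ≤ W) :
    MX T W Y * MX T Y Z ≤ MX T W Z := by
  have hY : 0 < Y := lt_of_lt_of_le hZ hZY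
  unfold MX
  by_cases h : T ≤ Y
  · have h1 : min T W = T := min_eq_left (h.trans hYW)
    have h2 : T / Y ≤ 1 := (div_le_one hY).mpr h
    rw [h1, min_eq_left h, max_eq_left h2, one_mul]
  · have h' : Y ≤ T := (not_le.mp h).le
    have h1 : 1 ≤ Y / Z := (one_le_div hZ).mpr hZY
    have h2 : 1 ≤ min T W / Y := (one_le_div hY).mpr (le_min h' hYW)
    rw [min_eq_right h', max_eq_right h1, max_eq_right h2, div_mul_div_cancel₀ hY.ne']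
    exact le_max_right _ _

theorem bb_ge (k j s r : ℕ) (T X : ℝ) (hk : 2 ≤ k) (hX : 1 ≤ X) : 1 ≤ BB k j s r T X := by
  unfold BB
  have h1 : 1 ≤ (X / X ^ (kap k ^ r)) ^ (k - j) := one_le_pow₀ (Mxs_ratio hk hX r)
  exact one_le_mul_of_one_le_of_one_le (mx_ge _ _ _) (one_le_mul_of_one_le_of_one_le h1 (mx_ge _ _ _))

theorem bb_two (k j s r : ℕ) (T X : ℝ) (hk : 2 ≤ k) (hX : 1 ≤ X) :
    MX T (X ^ k) ((X ^ kap k) ^ k) * ((X / X ^ kap k) ^ (k - j) * MX T (X ^ j) ((X ^ kap k) ^ j)) *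
      BB k j s r T (X ^ kap k) ≤ BB k j (s + 1) (r + 1) T X := by
  have hX0 : 0 < X := by linarith
  have hY0 : 0 < X ^ kap k := Real.rpow_pos_of_pos hX0 _
  have hY1 : 1 ≤ X ^ kap k := Real.one_le_rpow hX (kap_pos hk).le
  have hYX : X ^ kap k ≤ X := by
    have h := Mxs_le hk hX 1
    rw [pow_one] at h
    exact h
  have hZ : ∀ i : ℕ, 0 < X ^ (kap k ^ i) := fun i => Real.rpow_pos_of_pos hX0 _
  have hZY : ∀ i : ℕ, X ^ (kap k ^ (i + 1)) ≤ X ^ kap k := by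
    intro i
    rw [← rpow_kap_pow hX0.le i]
    exact Mxs_le hk hY1 i
  unfold BB
  rw [rpow_kap_pow hX0.le s, rpow_kap_pow hX0.le r]
  have h1 := mx_mul T (X ^ k) ((X ^ kap k) ^ k) ((X ^ (kap k ^ (s + 1))) ^ k) (pow_pos (hZ _) _)
    (pow_le_pow_left₀ (hZ _).le (hZY s) k) (pow_le_pow_left₀ hY0.le hYX k)
  have h2 := mx_mul T (X ^ j) ((X ^ kap k) ^ j) ((X ^ (kap k ^ (r + 1))) ^ j) (pow_pos (hZ _) _)
    (pow_le_pow_left₀ (hZ _).le (hZY r) j) (pow_le_pow_left₀ hY0.le hYX j)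
  have h3 : (X / X ^ kap k) ^ (k - j) * (X ^ kap k / X ^ (kap k ^ (r + 1))) ^ (k - j) =
      (X / X ^ (kap k ^ (r + 1))) ^ (k - j) := by
    rw [← mul_pow, div_mul_div_cancel₀ hY0.ne']
  have h4 : 0 ≤ (X / X ^ (kap k ^ (r + 1))) ^ (k - j) := pow_nonneg (div_nonneg hX0.le (hZ _).le) _
  have h5 : ∀ a b c : ℝ, 0 ≤ MX a b c := fun a b c => zero_le_one.trans (mx_ge a b c)
  calc MX T (X ^ k) ((X ^ kap k) ^ k) * ((X / X ^ kap k) ^ (k - j) * MX T (X ^ j) ((X ^ kap k) ^ j)) *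
        (MX T ((X ^ kap k) ^ k) ((X ^ (kap k ^ (s + 1))) ^ k) *
          ((X ^ kap k / X ^ (kap k ^ (r + 1))) ^ (k - j) *
            MX T ((X ^ kap k) ^ j) ((X ^ (kap k ^ (r + 1))) ^ j)))
      = (MX T (X ^ k) ((X ^ kap k) ^ k) * MX T ((X ^ kap k) ^ k) ((X ^ (kap k ^ (s + 1))) ^ k)) *
        (((X / X ^ kap k) ^ (k - j) * (X ^ kap k / X ^ (kap k ^ (r + 1))) ^ (k - j)) *
          (MX T (X ^ j) ((X ^ kap k) ^ j) * MX T ((X ^ kap k) ^ j) ((X ^ (kap k ^ (r + 1))) ^ j))) := by ring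
    _ = (MX T (X ^ k) ((X ^ kap k) ^ k) * MX T ((X ^ kap k) ^ k) ((X ^ (kap k ^ (s + 1))) ^ k)) *
        ((X / X ^ (kap k ^ (r + 1))) ^ (k - j) *
          (MX T (X ^ j) ((X ^ kap k) ^ j) * MX T ((X ^ kap k) ^ j) ((X ^ (kap k ^ (r + 1))) ^ j))) := by rw [h3]
    _ ≤ MX T (X ^ k) ((X ^ (kap k ^ (s + 1))) ^ k) *
        ((X / X ^ (kap k ^ (r + 1))) ^ (k - j) * MX T (X ^ j) ((X ^ (kap k ^ (r + 1))) ^ j)) :=
      mul_le_mul h1 (mul_le_mul_of_nonneg_left h2 h4) (mul_nonneg h4 (mul_nonneg (h5 _ _ _) (h5 _ _ _))) (h5 _ _ _)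

theorem bb_one (k j s : ℕ) (T X : ℝ) (hk : 2 ≤ k) (hX : 1 ≤ X) :
    MX T (X ^ k) ((X ^ kap k) ^ k) * BB k j s 0 T (X ^ kap k) ≤ BB k j (s + 1) 0 T X := by
  have hX0 : 0 < X := by linarith
  have hY0 : 0 < X ^ kap k := Real.rpow_pos_of_pos hX0 _
  have hY1 : 1 ≤ X ^ kap k := Real.one_le_rpow hX (kap_pos hk).le
  have hYX : X ^ kap k ≤ X := by
    have h := Mxs_le hk hX 1
    rw [pow_one] at h
    exact h
  have hZ : 0 < X ^ (kap k ^ (s + 1)) := Real.rpow_pos_of_pos hX0 _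
  have hZY : X ^ (kap k ^ (s + 1)) ≤ X ^ kap k := by
    rw [← rpow_kap_pow hX0.le s]
    exact Mxs_le hk hY1 s
  have h1 := mx_mul T (X ^ k) ((X ^ kap k) ^ k) ((X ^ (kap k ^ (s + 1))) ^ k) (pow_pos hZ _)
    (pow_le_pow_left₀ hZ.le hZY k) (pow_le_pow_left₀ hY0.le hYX k)
  unfold BB
  rw [rpow_kap_pow hX0.le s, pow_zero, Real.rpow_one, Real.rpow_one, div_self hY0.ne', div_self hX0.ne', one_pow,
    Mxs_self T (pow_pos hY0 j), Mxs_self T (pow_pos hX0 j), mul_one, mul_one, mul_one]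
  exact h1

end Pool.Agent.Lib.MP_570bef_ntW
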