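import Mathlib
import Pool.Agent.Lib.MP_570bef_ntW.Defs

/-!
# Slp: slopes on short ranges

`dl k = 1/(4k)`. `slp_pow`: `y^j - x^j = (y - x) ∑_{i < j} y^i x^(j-1-i)` (`Commute.geom_sum₂_mul`, or the mean value theorem), every term is between `X^(j-1)` and `((1 + dl k) X)^(j-1) ≤ 3/2 X^(j-1)`: `(1 + 1/(4k))^(j-1) ≤ exp ((j-1)/(4k)) ≤ exp (1/4) ≤ 3/2` (`Real.add_one_le_exp`, `exp (1/4) ≤ 3/2` since `exp 1 < 2.7182818286 ≤ (3/2)^4 = 5.06`).
`slp_g`: `L = leadingCoeff g > 0`. `g'(ξ)/(k L ξ^(k-1)) → 1` as `ξ → ∞` (as in `RAsy`: `derivative g` has degree `k - 1` and leading coefficient `k L`), so `3/4 k L ξ^(k-1) ≤ g' ξ ≤ 4/3 k L ξ^(k-1)` for `ξ ≥ X0`; for `X ≤ ξ ≤ (1 + dl k) X`: `X^(k-1) ≤ ξ^(k-1) ≤ 3/2 X^(k-1)`. Mean value theorem.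
-/

set_option autoImplicit false

open Finset Real Polynomial
open Pool.Agent.Lib.MP_2a816b_nt (e nn norm_e conj_e e_add e_neg)

namespace Pool.Agent.Lib.MP_570bef_ntW

open Pool.Agent.Lib.MP_570bef_ntS (kap Dio)

private theorem Slp_exp : Real.exp (1 / 4) ≤ 3 / 2 := by
  have h1 : Real.exp (1 / 4) ^ 4 = Real.exp 1 := by
    rw [← Real.exp_nat_mul]
    norm_num
  have h2 : Real.exp 1 < 2.7182818286 := Real.exp_one_lt_d9
  by_contra h
  push Not at h
  have h3 : (3 / 2 : ℝ) ^ 4 ≤ Real.exp (1 / 4) ^ 4 := pow_le_pow_left₀ (by norm_num) h.le 4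
  rw [h1] at h3
  norm_num at h3 h2
  linarith

private theorem Slp_dl (k i : ℕ) (hk : 1 ≤ k) (hi : i ≤ k) : (1 + dl k) ^ i ≤ 3 / 2 := by
  have hk0 : (0 : ℝ) < k := by exact_mod_cast hk
  have hd0 : 0 ≤ dl k := by
    unfold dl
    positivity
  have h1 : (1 + dl k) ^ i ≤ Real.exp (dl k) ^ i :=
    pow_le_pow_left₀ (by linarith) (by linarith [Real.add_one_le_exp (dl k)]) i
  have h2 : Real.exp (dl k) ^ i ≤ Real.exp (1 / 4) := by
    rw [← Real.exp_nat_mul]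
    refine Real.exp_le_exp.2 ?_
    unfold dl
    rw [mul_one_div, div_le_iff₀ (by positivity)]
    have h3 : (i : ℝ) ≤ k := by exact_mod_cast hi
    linarith
  exact (h1.trans h2).trans Slp_exp

private theorem Slp_up (k i : ℕ) (hk : 1 ≤ k) (hi : i ≤ k) (X ξ : ℝ) (hX : 0 < X) (h0 : 0 ≤ ξ)
    (hξ : ξ ≤ (1 + dl k) * X) : ξ ^ i ≤ 3 / 2 * X ^ i := by
  refine (pow_le_pow_left₀ h0 hξ i).trans ?_
  rw [mul_pow]
  exact mul_le_mul_of_nonneg_right (Slp_dl k i hk hi) (pow_nonneg hX.le i)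

theorem slp_pow (k j : ℕ) (hj : 1 ≤ j) (hjk : j ≤ k) (X x y : ℝ) (hX : 0 < X) (hx : X ≤ x)
    (hxy : x ≤ y) (hy : y ≤ (1 + dl k) * X) :
    (j * X ^ (j - 1)) * (y - x) ≤ y ^ j - x ^ j ∧
      y ^ j - x ^ j ≤ 3 / 2 * (j * X ^ (j - 1)) * (y - x) := by
  have hk : 1 ≤ k := hj.trans hjk
  have hx0 : 0 < x := hX.trans_le hx
  have hy0 : 0 < y := hx0.trans_le hxy
  have hd : 0 ≤ y - x := sub_nonneg.2 hxy
  have hge : y ^ j - x ^ j = (∑ i ∈ range j, y ^ i * x ^ (j - 1 - i)) * (y - x) := (geom_sum₂_mul y x j).symm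
  have hlo : (j : ℝ) * X ^ (j - 1) ≤ ∑ i ∈ range j, y ^ i * x ^ (j - 1 - i) := by
    have h1 : ∑ i ∈ range j, X ^ (j - 1) ≤ ∑ i ∈ range j, y ^ i * x ^ (j - 1 - i) := by
      refine Finset.sum_le_sum fun i hi => ?_
      have hi' := Finset.mem_range.1 hi
      have h2 : X ^ (j - 1) = X ^ i * X ^ (j - 1 - i) := by
        rw [← pow_add]
        congr 1
        omega
      rw [h2]
      exact mul_le_mul (pow_le_pow_left₀ hX.le (hx.trans hxy) i) (pow_le_pow_left₀ hX.le hx _)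
        (pow_nonneg hX.le _) (pow_nonneg hy0.le _)
    rw [Finset.sum_const, Finset.card_range, nsmul_eq_mul] at h1
    exact h1
  have hup : ∑ i ∈ range j, y ^ i * x ^ (j - 1 - i) ≤ 3 / 2 * ((j : ℝ) * X ^ (j - 1)) := by
    have h1 : ∑ i ∈ range j, y ^ i * x ^ (j - 1 - i) ≤ ∑ i ∈ range j, 3 / 2 * X ^ (j - 1) := by
      refine Finset.sum_le_sum fun i hi => ?_
      have hi' := Finset.mem_range.1 hi
      have h3 : y ^ i * x ^ (j - 1 - i) ≤ y ^ i * y ^ (j - 1 - i) :=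
        mul_le_mul_of_nonneg_left (pow_le_pow_left₀ hx0.le hxy _) (pow_nonneg hy0.le _)
      have h2 : y ^ i * y ^ (j - 1 - i) = y ^ (j - 1) := by
        rw [← pow_add]
        congr 1
        omega
      rw [h2] at h3
      exact h3.trans (Slp_up k (j - 1) hk (by omega) X y hX hy0.le hy)
    rw [Finset.sum_const, Finset.card_range, nsmul_eq_mul] at h1
    linarith
  rw [hge]
  exact ⟨mul_le_mul_of_nonneg_right hlo hd, by
    rw [mul_assoc (3 / 2 : ℝ), ← mul_assoc (3 / 2 : ℝ)]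
    exact mul_le_mul_of_nonneg_right hup hd⟩

theorem slp_g (g : ℝ[X]) (k : ℕ) (hk : 1 ≤ k) (hg : g.natDegree = k) (hL : 0 < g.leadingCoeff) :
    ∃ X0 : ℝ, 1 ≤ X0 ∧ ∀ X : ℝ, X0 ≤ X → ∀ x y : ℝ, X ≤ x → x ≤ y → y ≤ (1 + dl k) * X →
      3 / 4 * (k * g.leadingCoeff * X ^ (k - 1)) * (y - x) ≤ g.eval y - g.eval x ∧
      g.eval y - g.eval x ≤ 2 * (k * g.leadingCoeff * X ^ (k - 1)) * (y - x) := by
  have hk0 : (0 : ℝ) < k := by exact_mod_cast hk
  have hc : (derivative g).coeff (k - 1) = k * g.leadingCoeff := by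
    rw [coeff_derivative, leadingCoeff, hg]
    have h1 : k - 1 + 1 = k := by omega
    rw [h1]
    have h2 : ((k - 1 : ℕ) : ℝ) + 1 = k := by
      rw [Nat.cast_sub hk]
      push_cast
      ring
    rw [h2]
    ring
  have hc0 : (derivative g).coeff (k - 1) ≠ 0 := by
    rw [hc]
    positivity
  have hd : (derivative g).natDegree = k - 1 :=
    le_antisymm (by have := natDegree_derivative_le g; rwa [hg] at this) (le_natDegree_of_ne_zero hc0)
  have hlc : (derivative g).leadingCoeff = k * g.leadingCoeff := by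
    rw [leadingCoeff, hd, hc]
  have heq := (derivative g).isEquivalent_atTop_lead
  rw [hd, hlc] at heq
  have hev := heq.isLittleO.def (show (0 : ℝ) < 1 / 4 by norm_num)
  obtain ⟨X1, hX1⟩ := Filter.eventually_atTop.1 hev
  refine ⟨max X1 1, le_max_right _ _, fun X hX x y hx hxy hy => ?_⟩
  have hX1' : X1 ≤ X := (le_max_left _ _).trans hX
  have hXp : 0 < X := zero_lt_one.trans_le ((le_max_right _ _).trans hX)
  have hcL : 0 < (k : ℝ) * g.leadingCoeff := mul_pos hk0 hL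
  have hder : ∀ ξ : ℝ, X ≤ ξ → ξ ≤ (1 + dl k) * X →
      3 / 4 * (k * g.leadingCoeff * X ^ (k - 1)) ≤ (derivative g).eval ξ ∧
        (derivative g).eval ξ ≤ 2 * (k * g.leadingCoeff * X ^ (k - 1)) := by
    intro ξ h1 h2
    have h3 := hX1 ξ (hX1'.trans h1)
    have hξ0 : 0 < ξ := hXp.trans_le h1
    have h4 : 0 < (k : ℝ) * g.leadingCoeff * ξ ^ (k - 1) := mul_pos hcL (pow_pos hξ0 _)
    rw [Pi.sub_apply, Real.norm_eq_abs, Real.norm_eq_abs, abs_of_pos h4, abs_le] at h3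
    have h5 : X ^ (k - 1) ≤ ξ ^ (k - 1) := pow_le_pow_left₀ hXp.le h1 _
    have h6 : ξ ^ (k - 1) ≤ 3 / 2 * X ^ (k - 1) := Slp_up k (k - 1) hk (by omega) X ξ hXp hξ0.le h2
    have h7 : (k : ℝ) * g.leadingCoeff * X ^ (k - 1) ≤ k * g.leadingCoeff * ξ ^ (k - 1) :=
      mul_le_mul_of_nonneg_left h5 hcL.le
    have h8 : (k : ℝ) * g.leadingCoeff * ξ ^ (k - 1) ≤ k * g.leadingCoeff * (3 / 2 * X ^ (k - 1)) :=
      mul_le_mul_of_nonneg_left h6 hcL.le
    have h9 : 0 < (k : ℝ) * g.leadingCoeff * X ^ (k - 1) := mul_pos hcL (pow_pos hXp _)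
    constructor
    · linarith [h3.1]
    · have h10 : (k : ℝ) * g.leadingCoeff * (3 / 2 * X ^ (k - 1)) = 3 / 2 * (k * g.leadingCoeff * X ^ (k - 1)) := by
        ring
      linarith [h3.2]
  have hconv : Convex ℝ (Set.Icc X ((1 + dl k) * X)) := convex_Icc _ _
  have hcont : ContinuousOn (fun t => g.eval t) (Set.Icc X ((1 + dl k) * X)) := g.continuous.continuousOn
  have hdiff : DifferentiableOn ℝ (fun t => g.eval t) (interior (Set.Icc X ((1 + dl k) * X))) :=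
    g.differentiable.differentiableOn
  have hxI : x ∈ Set.Icc X ((1 + dl k) * X) := ⟨hx, hxy.trans hy⟩
  have hyI : y ∈ Set.Icc X ((1 + dl k) * X) := ⟨hx.trans hxy, hy⟩
  have hde : ∀ t : ℝ, deriv (fun t => g.eval t) t = (derivative g).eval t := fun t => g.deriv
  constructor
  · refine hconv.mul_sub_le_image_sub_of_le_deriv hcont hdiff ?_ x hxI y hyI hxy
    intro t ht
    have ht' := interior_subset ht
    rw [hde]
    exact (hder t ht'.1 ht'.2).1
  · refine hconv.image_sub_le_mul_sub_of_deriv_le hcont hdiff ?_ x hxI y hyI hxy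
    intro t ht
    have ht' := interior_subset ht
    rw [hde]
    exact (hder t ht'.1 ht'.2).2

end Pool.Agent.Lib.MP_570bef_ntW
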