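import Mathlib
import Pool.Agent.Lib.MP_2a816b_nt.Expo
import Pool.Agent.Lib.MP_570bef_ntS.Defs

/-!
# TwoEq: points with two conditions (only Mathlib)

`card_le_of_diam` and `card_fib` in `MP_570bef_ntSH/Rec.lean` are useful models (a set of natural numbers of diameter at most `L` has at most `L + 1` elements; counting through a map with bounded fibres), copy them as private lemmas.
(1) Let `(x, z)`, `(x', z')` be in the set, `z ≤ z'`, `Z = z' - z`. Then `|u x' - u x + u z' - u z| ≤ 2E`, `|v x' - v x + v z' - v z| ≤ 2F`. If `x ≤ x'`: `q s Z ≤ v z' - v z ≤ 2F - (v x' - v x) ≤ 2F`. If `x' < x`, `D = x - x'`: `3/4 p D ≤ u x - u x' ≤ (u z' - u z) + 2E ≤ 2 p r Z + 2E`, so `D ≤ 8/3 r Z + 8/3 E/p`,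
`q s Z ≤ v z' - v z ≤ 2F + (v x - v x') ≤ 2F + 3/2 q D ≤ 2F + 4 q r Z + 4 q E/p ≤ 2F + q s Z/2 + 4 q E/p` (`8 r ≤ s`), so `Z ≤ 4F/(q s) + 8E/(p s)`. In all cases `Z ≤ L = 8/s (F/q + E/p)`. So the second coordinates are in a set of diameter at most `L`: at most `min #J (1 + L)` of them.
(2) For a fixed second coordinate `z` two first coordinates `x ≤ x'` satisfy `3/4 p (x' - x) ≤ u x' - u x ≤ 2E`, `x' - x ≤ 8/3 E/p ≤ 3E/p`: at most `min #I (1 + 3E/p)` of them. `one_eq` is the same argument with one coordinate.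
-/

set_option autoImplicit false

open Finset Real Polynomial
open Pool.Agent.Lib.MP_2a816b_nt (e nn norm_e conj_e e_add e_neg)

namespace Pool.Agent.Lib.MP_570bef_ntW

open Pool.Agent.Lib.MP_570bef_ntS (kap Dio)

private theorem TwoEq_diam (S : Finset ℕ) {L : ℝ} (hL : 0 ≤ L)
    (h : ∀ x ∈ S, ∀ y ∈ S, (x : ℝ) - y ≤ L) : (S.card : ℝ) ≤ 1 + L := by
  rcases S.eq_empty_or_nonempty with rfl | hS
  · simp; linarith
  · have h1 : S ⊆ Finset.Icc (S.min' hS) (S.max' hS) := fun x hx =>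
      Finset.mem_Icc.2 ⟨S.min'_le x hx, S.le_max' x hx⟩
    have h2 := Finset.card_le_card h1
    have h3 := h _ (S.max'_mem hS) _ (S.min'_mem hS)
    have h4 : S.min' hS ≤ S.max' hS := S.min'_le _ (S.max'_mem hS)
    rw [Nat.card_Icc] at h2
    have h5 : (S.card : ℝ) ≤ ((S.max' hS + 1 - S.min' hS : ℕ) : ℝ) := by exact_mod_cast h2
    rw [Nat.cast_sub (by omega)] at h5
    push_cast at h5
    linarith

private theorem TwoEq_fib {α γ : Type*} [DecidableEq γ] (S : Finset α) (T : Finset γ) (f : α → γ)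
    (hf : ∀ a ∈ S, f a ∈ T) {B : ℝ}
    (hB : ∀ b ∈ T, ((S.filter (fun a => f a = b)).card : ℝ) ≤ B) :
    (S.card : ℝ) ≤ B * T.card := by
  rw [Finset.card_eq_sum_card_fiberwise hf]
  push_cast
  calc ∑ b ∈ T, ((S.filter (fun a => f a = b)).card : ℝ) ≤ ∑ _b ∈ T, B := Finset.sum_le_sum hB
    _ = B * T.card := by rw [Finset.sum_const, nsmul_eq_mul, mul_comm]

theorem one_eq (u : ℝ → ℝ) (I : Finset ℕ) (A E p : ℝ) (hp : 0 < p) (hE : 0 ≤ E)
    (hu1 : ∀ x ∈ I, ∀ y ∈ I, x ≤ y → 3 / 4 * p * ((y : ℝ) - x) ≤ u y - u x) :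
    (#(I.filter fun x : ℕ => |u (x : ℝ) - A| ≤ E) : ℝ) ≤ min (#I : ℝ) (1 + 3 * E / p) := by
  refine le_min ?_ ?_
  · exact_mod_cast Finset.card_le_card (Finset.filter_subset _ _)
  · apply TwoEq_diam _ (by positivity)
    intro x hx y hy
    rw [Finset.mem_filter] at hx hy
    obtain ⟨hx1, hx2⟩ := hx
    obtain ⟨hy1, hy2⟩ := hy
    rw [abs_le] at hx2 hy2
    rw [le_div_iff₀ hp]
    rcases le_total x y with h | h
    · have h' : (x : ℝ) ≤ y := by exact_mod_cast h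
      have h2 : ((x : ℝ) - y) * p ≤ 0 := mul_nonpos_of_nonpos_of_nonneg (by linarith) hp.le
      linarith
    · have h1 := hu1 y hy1 x hx1 h
      have h2 : 3 / 4 * p * ((x : ℝ) - y) = 3 / 4 * (((x : ℝ) - y) * p) := by ring
      rw [h2] at h1
      linarith [hx2.1, hx2.2, hy2.1, hy2.2]

theorem two_eq (u v : ℝ → ℝ) (I J : Finset ℕ) (A B E F p q r s : ℝ) (hp : 0 < p) (hq : 0 < q)
    (hr : 0 < r) (hrs : 8 * r ≤ s) (hE : 0 ≤ E) (hF : 0 ≤ F)
    (hu1 : ∀ x ∈ I, ∀ y ∈ I, x ≤ y → 3 / 4 * p * ((y : ℝ) - x) ≤ u y - u x ∧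
      u y - u x ≤ 2 * p * ((y : ℝ) - x))
    (hv1 : ∀ x ∈ I, ∀ y ∈ I, x ≤ y → q * ((y : ℝ) - x) ≤ v y - v x ∧
      v y - v x ≤ 3 / 2 * q * ((y : ℝ) - x))
    (hu2 : ∀ x ∈ J, ∀ y ∈ J, x ≤ y → 3 / 4 * (p * r) * ((y : ℝ) - x) ≤ u y - u x ∧
      u y - u x ≤ 2 * (p * r) * ((y : ℝ) - x))
    (hv2 : ∀ x ∈ J, ∀ y ∈ J, x ≤ y → (q * s) * ((y : ℝ) - x) ≤ v y - v x ∧
      v y - v x ≤ 3 / 2 * (q * s) * ((y : ℝ) - x)) :
    (#((I ×ˢ J).filter fun w : ℕ × ℕ => |u (w.1 : ℝ) + u (w.2 : ℝ) - A| ≤ E ∧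
      |v (w.1 : ℝ) + v (w.2 : ℝ) - B| ≤ F) : ℝ) ≤
      min (#I : ℝ) (1 + 3 * E / p) * min (#J : ℝ) (1 + 8 / s * (F / q + E / p)) := by
  have hs : 0 < s := by linarith
  obtain ⟨a, ha⟩ : ∃ a : ℝ, a = E / p := ⟨_, rfl⟩
  obtain ⟨b, hb⟩ : ∃ b : ℝ, b = F / q := ⟨_, rfl⟩
  have hE' : E = a * p := by rw [ha]; exact (div_mul_cancel₀ E hp.ne').symm
  have hF' : F = b * q := by rw [hb]; exact (div_mul_cancel₀ F hq.ne').symm
  have ha0 : 0 ≤ a := by rw [ha]; positivity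
  have hb0 : 0 ≤ b := by rw [hb]; positivity
  obtain ⟨S, hS⟩ : ∃ S : Finset (ℕ × ℕ), S = (I ×ˢ J).filter fun w : ℕ × ℕ =>
      |u (w.1 : ℝ) + u (w.2 : ℝ) - A| ≤ E ∧ |v (w.1 : ℝ) + v (w.2 : ℝ) - B| ≤ F := ⟨_, rfl⟩
  rw [← hS]
  have hmem : ∀ w ∈ S, w.1 ∈ I ∧ w.2 ∈ J ∧ |u (w.1 : ℝ) + u (w.2 : ℝ) - A| ≤ E ∧
      |v (w.1 : ℝ) + v (w.2 : ℝ) - B| ≤ F := by
    intro w hw
    rw [hS, Finset.mem_filter, Finset.mem_product] at hw
    exact ⟨hw.1.1, hw.1.2, hw.2.1, hw.2.2⟩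
  have hm0 : 0 ≤ min (#I : ℝ) (1 + 3 * E / p) :=
    le_min (Nat.cast_nonneg _) (add_nonneg zero_le_one (div_nonneg (by linarith) hp.le))
  have hfib : (S.card : ℝ) ≤ min (#I : ℝ) (1 + 3 * E / p) * (S.image Prod.snd).card := by
    apply TwoEq_fib S (S.image Prod.snd) Prod.snd (fun w hw => Finset.mem_image_of_mem _ hw)
    intro z _
    have h1 : ((S.filter fun w : ℕ × ℕ => w.2 = z).card : ℝ) ≤
        (#(I.filter fun x : ℕ => |u (x : ℝ) - (A - u (z : ℝ))| ≤ E) : ℝ) := by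
      have h2 : (S.filter fun w : ℕ × ℕ => w.2 = z).card ≤
          #(I.filter fun x : ℕ => |u (x : ℝ) - (A - u (z : ℝ))| ≤ E) := by
        apply Finset.card_le_card_of_injOn Prod.fst
        · intro w hw
          rw [Finset.mem_coe, Finset.mem_filter] at hw
          obtain ⟨hw1, hw2⟩ := hw
          obtain ⟨g1, _, g3, _⟩ := hmem w hw1
          rw [Finset.mem_coe, Finset.mem_filter]
          refine ⟨g1, ?_⟩
          rw [hw2] at g3
          have e1 : u (w.1 : ℝ) - (A - u (z : ℝ)) = u (w.1 : ℝ) + u (z : ℝ) - A := by ring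
          rw [e1]
          exact g3
        · intro w hw w' hw' h
          rw [Finset.mem_coe, Finset.mem_filter] at hw hw'
          exact Prod.ext h (hw.2.trans hw'.2.symm)
      exact_mod_cast h2
    refine h1.trans ?_
    exact one_eq u I (A - u (z : ℝ)) E p hp hE (fun x hx y hy hxy => (hu1 x hx y hy hxy).1)
  have hT : ((S.image Prod.snd).card : ℝ) ≤ min (#J : ℝ) (1 + 8 / s * (F / q + E / p)) := by
    refine le_min ?_ ?_
    · have h1 : (S.image Prod.snd).card ≤ #J := by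
        apply Finset.card_le_card
        intro z hz
        rw [Finset.mem_image] at hz
        obtain ⟨w, hw, rfl⟩ := hz
        exact (hmem w hw).2.1
      exact_mod_cast h1
    · rw [← ha, ← hb]
      apply TwoEq_diam _ (mul_nonneg (div_nonneg (by norm_num) hs.le) (add_nonneg hb0 ha0))
      intro z' hz' z hz
      rw [Finset.mem_image] at hz hz'
      obtain ⟨w, hw, rfl⟩ := hz
      obtain ⟨w', hw', rfl⟩ := hz'
      obtain ⟨g1, g2, g3, g4⟩ := hmem w hw
      obtain ⟨k1, k2, k3, k4⟩ := hmem w' hw'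
      rw [abs_le] at g3 g4 k3 k4
      have hdiv : 8 / s * (b + a) = 8 * (b + a) / s := by ring
      rw [hdiv, le_div_iff₀ hs]
      rcases le_total w'.2 w.2 with h | h
      · have h' : (w'.2 : ℝ) ≤ w.2 := by exact_mod_cast h
        have h2 : ((w'.2 : ℝ) - w.2) * s ≤ 0 :=
          mul_nonpos_of_nonpos_of_nonneg (by linarith) hs.le
        have h3 : 0 ≤ 8 * (b + a) := by linarith
        linarith
      · have hu2' := hu2 _ g2 _ k2 h
        have hv2' := hv2 _ g2 _ k2 h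
        obtain ⟨Z, hZ⟩ : ∃ Z : ℝ, Z = (w'.2 : ℝ) - w.2 := ⟨_, rfl⟩
        rw [← hZ] at hu2' hv2' ⊢
        have hZ0 : 0 ≤ Z := by
          have : (w.2 : ℝ) ≤ w'.2 := by exact_mod_cast h
          rw [hZ]
          linarith
        rcases le_total w.1 w'.1 with hx | hx
        · have hv1' := (hv1 _ g1 _ k1 hx).1
          have hD0 : 0 ≤ (w'.1 : ℝ) - w.1 := by
            have : (w.1 : ℝ) ≤ w'.1 := by exact_mod_cast hx
            linarith
          have h5 : 0 ≤ q * ((w'.1 : ℝ) - w.1) := mul_nonneg hq.le hD0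
          have h6 : q * (Z * s) ≤ q * (2 * b) := by
            have e1 : q * (Z * s) = q * s * Z := by ring
            have e2 : q * (2 * b) = 2 * F := by rw [hF']; ring
            rw [e1, e2]
            linarith [hv2'.1, g4.1, g4.2, k4.1, k4.2]
          have h7 := le_of_mul_le_mul_left h6 hq
          linarith
        · have hu1' := (hu1 _ k1 _ g1 hx).1
          have hv1' := (hv1 _ k1 _ g1 hx).2
          obtain ⟨D, hD⟩ : ∃ D : ℝ, D = (w.1 : ℝ) - w'.1 := ⟨_, rfl⟩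
          rw [← hD] at hu1' hv1'
          have h5 : p * (3 / 4 * D) ≤ p * (2 * (r * Z) + 2 * a) := by
            have e1 : p * (3 / 4 * D) = 3 / 4 * p * D := by ring
            have e2 : p * (2 * (r * Z) + 2 * a) = 2 * (p * r) * Z + 2 * E := by rw [hE']; ring
            rw [e1, e2]
            linarith [hu2'.2, g3.1, g3.2, k3.1, k3.2]
          have h6 := le_of_mul_le_mul_left h5 hp
          have h7 : q * (s * Z) ≤ q * (2 * b + 3 / 2 * D) := by
            have e1 : q * (s * Z) = q * s * Z := by ring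
            have e2 : q * (2 * b + 3 / 2 * D) = 2 * F + 3 / 2 * q * D := by rw [hF']; ring
            rw [e1, e2]
            linarith [hv2'.1, g4.1, g4.2, k4.1, k4.2]
          have h8 := le_of_mul_le_mul_left h7 hq
          have h9 : 8 * r * Z ≤ s * Z := mul_le_mul_of_nonneg_right hrs hZ0
          have e3 : 8 * r * Z = 8 * (r * Z) := by ring
          have e4 : Z * s = s * Z := by ring
          rw [e3] at h9
          rw [e4]
          linarith
  refine hfib.trans ?_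
  exact mul_le_mul_of_nonneg_left hT hm0

end Pool.Agent.Lib.MP_570bef_ntW
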