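import Mathlib
import Pool.Agent.Lib.MP_570bef_ntW.TwoEq
import Pool.Agent.Lib.MP_570bef_ntW.Slp
import Pool.Agent.Lib.MP_570bef_ntW.Mxs

/-!
# Lvl: one level

Elements of `rd k a X`: `a X < n ≤ (1 + dl k) (a X)` (`Finset.mem_Ioc`, `Nat.floor_lt`, `Nat.le_floor_iff`), `#(rd k 1 X) ≤ 2X`, `#(rd k (1/8) X) ≤ 2X` (`#Ioc ⌊a X⌋₊ ⌊(1+dl k) a X⌋₊ ≤ (1 + dl k) a X ≤ 2 X`, `dl k ≤ 1`).
`u = g.eval`, `v = x^j`, `L = leadingCoeff`. `X0 = 8 X0'` with `X0'` from `slp_g` (so `X/8 ≥ X0'`). `p = k L X^(k-1)`, `q = j X^(j-1)`, `r = (1/8)^(k-1)`, `s = (1/8)^(j-1)`: `p r = k L (X/8)^(k-1)`, `q s = j (X/8)^(j-1)`, `8 r ≤ s` because `k - 1 ≥ j`. Put `X1 = X^kap k`, `X1^k = X^(k-1)` (`rpow_kap_nat`), `Y = (X/X1)^(k-j)`. Identities (exponents, `X1 = X^(1-1/k)`):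
`Y = X^(1-j/k)`, `X1^j = Y X^(j-1)`, `X^j/X1^j = X^(j/k)`, `Y X^j/X1^j = X`.
First factor: `min (2X) (1 + 3E/p)`, `E ≤ K (T + X^(k-1))`, so `1 + 3E/p ≤ C (1 + T/X^(k-1))`. If `T ≤ X^k`: `≤ 2C max 1 (T/X^(k-1)) = 2C MX T (X^k) (X1^k)`; if `T > X^k`: `MX = X^k/X^(k-1) = X` and `#I ≤ 2X`.
Second factor: `F/q ≤ K (T + X1^j)/(j X^(j-1)) ≤ K (T/X^(j-1) + Y)`, `E/p ≤ C (1 + T/X^(k-1)) ≤ C (1 + T/X^(j-1))`, `Y ≥ 1`, so `1 + 8/s (F/q + E/p) ≤ C (Y + T/X^(j-1)) = C Y (1 + T/X1^j)`. If `T ≤ X^j` this is `≤ 2 C Y MX T (X^j) (X1^j)`; if `T > X^j`: `Y MX = Y X^j/X1^j = X`, `#J ≤ 2X`. `two_eq`, `one_eq`.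
-/

set_option autoImplicit false

open Finset Real Polynomial
open Pool.Agent.Lib.MP_2a816b_nt (e nn norm_e conj_e e_add e_neg)

namespace Pool.Agent.Lib.MP_570bef_ntW

open Pool.Agent.Lib.MP_570bef_ntS (kap Dio)
open Pool.Agent.Lib.MP_570bef_ntSH (kap_pos kap_lt_one kap_pow_pos kap_pow_le_one rpow_kap_pow rpow_kap_nat one_le_rpow_kap)

private theorem Lvl_dl0 (k : ℕ) : 0 ≤ dl k := by
  unfold dl
  positivity

private theorem Lvl_dl1 {k : ℕ} (hk : 2 ≤ k) : dl k ≤ 1 := by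
  have h : (2 : ℝ) ≤ k := by exact_mod_cast hk
  unfold dl
  rw [div_le_one (by linarith)]
  linarith

theorem rd_mem (k : ℕ) (a X : ℝ) (ha : 0 ≤ a * X) (n : ℕ) :
    n ∈ rd k a X ↔ a * X < n ∧ (n : ℝ) ≤ (1 + dl k) * (a * X) := by
  have h := Lvl_dl0 k
  have h2 : 0 ≤ (1 + dl k) * (a * X) := mul_nonneg (by linarith) ha
  unfold rd
  rw [Finset.mem_Ioc, Nat.floor_lt ha, Nat.le_floor_iff h2]

private theorem Lvl_card {k : ℕ} (hk : 2 ≤ k) {a X : ℝ} (ha : 0 ≤ a * X) :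
    (#(rd k a X) : ℝ) ≤ 2 * (a * X) := by
  have h := Lvl_dl0 k
  have h1 := Lvl_dl1 hk
  have h2 : 0 ≤ (1 + dl k) * (a * X) := mul_nonneg (by linarith) ha
  unfold rd
  rw [Nat.card_Ioc]
  have h3 : ((⌊(1 + dl k) * (a * X)⌋₊ - ⌊a * X⌋₊ : ℕ) : ℝ) ≤ (⌊(1 + dl k) * (a * X)⌋₊ : ℝ) := by
    exact_mod_cast Nat.sub_le _ _
  have h4 := Nat.floor_le h2
  have h5 : (1 + dl k) * (a * X) ≤ 2 * (a * X) := mul_le_mul_of_nonneg_right (by linarith) ha
  linarith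

private theorem Lvl_MX1 (T W Z : ℝ) : 1 ≤ MX T W Z := le_max_left _ _

private theorem Lvl_MX2 (T W Z : ℝ) : min T W / Z ≤ MX T W Z := le_max_right _ _

private theorem Lvl_a {k : ℕ} (hk : 2 ≤ k) {L K X T E N : ℝ} (hL : 0 < L) (hK : 1 ≤ K) (hX : 1 ≤ X)
    (hE : E ≤ K * (T + X ^ (k - 1))) (hN : N ≤ 2 * X) :
    min N (1 + 3 * E / (k * L * X ^ (k - 1))) ≤
      (2 + 2 * (3 * K / (k * L))) * MX T (X ^ k) (X ^ (k - 1)) := by
  have hk0 : (0 : ℝ) < k := by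
    have : 0 < k := by omega
    exact_mod_cast this
  have hZ : 0 < X ^ (k - 1) := pow_pos (by linarith) _
  have hc : 0 < 3 * K / (k * L) := by positivity
  have hM1 := Lvl_MX1 T (X ^ k) (X ^ (k - 1))
  have hM2 := Lvl_MX2 T (X ^ k) (X ^ (k - 1))
  obtain ⟨M, hM⟩ : ∃ M, M = MX T (X ^ k) (X ^ (k - 1)) := ⟨_, rfl⟩
  obtain ⟨c, hcc⟩ : ∃ c, c = 3 * K / (k * L) := ⟨_, rfl⟩
  rw [← hM] at hM1 hM2 ⊢
  rw [← hcc] at hc ⊢
  have hcM : c ≤ c * M := le_mul_of_one_le_right hc.le hM1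
  by_cases h : T ≤ X ^ k
  · refine (min_le_right _ _).trans ?_
    rw [min_eq_left h] at hM2
    have h1 : 3 * E / (k * L * X ^ (k - 1)) ≤ c * (T / X ^ (k - 1)) + c := by
      have e : c * (T / X ^ (k - 1)) + c = 3 * (K * (T + X ^ (k - 1))) / (k * L * X ^ (k - 1)) := by
        rw [hcc]
        field_simp
      rw [e]
      have : 0 < k * L * X ^ (k - 1) := by positivity
      gcongr
    have h2 : c * (T / X ^ (k - 1)) ≤ c * M := mul_le_mul_of_nonneg_left hM2 hc.le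
    nlinarith
  · push Not at h
    refine (min_le_left _ _).trans (hN.trans ?_)
    rw [min_eq_right h.le] at hM2
    have e : X ^ k / X ^ (k - 1) = X := by
      have h2 : X ^ k = X ^ (k - 1) * X := by
        rw [← pow_succ]
        congr 1
        omega
      rw [h2, mul_div_cancel_left₀ _ hZ.ne']
    rw [e] at hM2
    nlinarith

private theorem Lvl_Y {k j : ℕ} (hk : 2 ≤ k) (hj : 1 ≤ j) (hjk : j < k) {X : ℝ} (hX : 1 ≤ X) :
    1 ≤ (X / X ^ kap k) ^ (k - j) ∧ (X / X ^ kap k) ^ (k - j) * X ^ (j - 1) = (X ^ kap k) ^ j := by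
  have hX0 : 0 < X := by linarith
  have hX1 : 0 < X ^ kap k := Real.rpow_pos_of_pos hX0 _
  constructor
  · apply one_le_pow₀
    rw [one_le_div hX1]
    calc X ^ kap k ≤ X ^ (1 : ℝ) := Real.rpow_le_rpow_of_exponent_le hX (kap_lt_one hk).le
      _ = X := Real.rpow_one X
  · have h1 := rpow_kap_nat hk hX0.le
    have h2 : X ^ (k - 1) = X ^ (k - j) * X ^ (j - 1) := by
      rw [← pow_add]
      congr 1
      omega
    have h3 : (X ^ kap k) ^ k = (X ^ kap k) ^ (k - j) * (X ^ kap k) ^ j := by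
      rw [← pow_add]
      congr 1
      omega
    rw [h2, h3] at h1
    rw [div_pow, div_mul_eq_mul_div, ← h1, mul_div_cancel_left₀ _ (pow_pos hX1 _).ne']

private theorem Lvl_b {k j : ℕ} (hk : 2 ≤ k) (hj : 1 ≤ j) (hjk : j < k) {L K X T E F N s : ℝ} (hL : 0 < L)
    (hK : 1 ≤ K) (hX : 1 ≤ X) (hT : 1 ≤ T) (hs : 0 < s) (hE : E ≤ K * (T + X ^ (k - 1)))
    (hF : F ≤ K * (T + (X ^ kap k) ^ j)) (hN : N ≤ 2 * X) :
    min N (1 + 8 / s * (F / (j * X ^ (j - 1)) + E / (k * L * X ^ (k - 1)))) ≤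
      (2 * (1 + 8 / s * (K + K / (k * L)))) *
        ((X / X ^ kap k) ^ (k - j) * MX T (X ^ j) ((X ^ kap k) ^ j)) := by
  have hk0 : (0 : ℝ) < k := by
    have : 0 < k := by omega
    exact_mod_cast this
  have hj0 : (1 : ℝ) ≤ j := by exact_mod_cast hj
  have hX0 : 0 < X := by linarith
  have hX1 : 0 < X ^ kap k := Real.rpow_pos_of_pos hX0 _
  have hZ : 0 < (X ^ kap k) ^ j := pow_pos hX1 _
  have hW : 0 < X ^ (k - 1) := pow_pos hX0 _
  have hV : 0 < X ^ (j - 1) := pow_pos hX0 _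
  obtain ⟨hY1, hY2⟩ := Lvl_Y hk hj hjk hX
  have hM1 := Lvl_MX1 T (X ^ j) ((X ^ kap k) ^ j)
  have hM2 := Lvl_MX2 T (X ^ j) ((X ^ kap k) ^ j)
  have hVW : X ^ (j - 1) ≤ X ^ (k - 1) := pow_le_pow_right₀ hX (by omega)
  have hVj : X ^ j = X * X ^ (j - 1) := by
    rw [← pow_succ']
    congr 1
    omega
  rw [hVj] at hM1 hM2 ⊢
  obtain ⟨M, hM⟩ : ∃ M, M = MX T (X * X ^ (j - 1)) ((X ^ kap k) ^ j) := ⟨_, rfl⟩
  rw [← hM] at hM1 hM2 ⊢
  obtain ⟨Y, hY⟩ : ∃ Y, Y = (X / X ^ kap k) ^ (k - j) := ⟨_, rfl⟩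
  rw [← hY] at hY1 hY2 ⊢
  obtain ⟨Z, hZ'⟩ : ∃ Z, Z = (X ^ kap k) ^ j := ⟨_, rfl⟩
  rw [← hZ'] at hZ hM2 hY2 hF
  obtain ⟨W, hW'⟩ : ∃ W, W = X ^ (k - 1) := ⟨_, rfl⟩
  rw [← hW'] at hW hVW hE ⊢
  obtain ⟨V, hV'⟩ : ∃ V, V = X ^ (j - 1) := ⟨_, rfl⟩
  rw [← hV'] at hV hVW hY2 hM2 ⊢
  have hY0 : 0 < Y := by linarith
  have hM0 : 0 < M := by linarith
  have hc : 0 < K / (k * L) := by positivity
  obtain ⟨c, hcc⟩ : ∃ c, c = K / (k * L) := ⟨_, rfl⟩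
  rw [← hcc] at hc ⊢
  have hD0 : 0 < 8 / s := by positivity
  obtain ⟨D, hDD⟩ : ∃ D, D = 8 / s := ⟨_, rfl⟩
  rw [← hDD] at hD0 ⊢
  have hYM : Y ≤ Y * M := le_mul_of_one_le_right hY0.le hM1
  by_cases h : T ≤ X * V
  · refine (min_le_right _ _).trans ?_
    rw [min_eq_left h] at hM2
    have h1 : F / (j * V) ≤ K * (T / V + Y) := by
      have e : K * (T / V + Y) = K * (T + Z) / (1 * V) := by
        rw [← hY2]
        field_simp
      rw [e]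
      have h3 : 0 ≤ K * (T + Z) := by positivity
      calc F / (j * V) ≤ K * (T + Z) / (j * V) := by gcongr
        _ ≤ K * (T + Z) / (1 * V) := by gcongr
    have h2 : E / (k * L * W) ≤ c * (T / V + Y) := by
      have e : c * (T / W + 1) = K * (T + W) / (k * L * W) := by
        rw [hcc]
        field_simp
      have h3 : E / (k * L * W) ≤ c * (T / W + 1) := by
        rw [e]
        gcongr
      refine h3.trans (mul_le_mul_of_nonneg_left ?_ hc.le)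
      have h4 : T / W ≤ T / V := by gcongr
      linarith
    have h5 : T / V + Y ≤ 2 * (Y * M) := by
      have h6 : T / V = Y * (T / Z) := by
        rw [← hY2]
        field_simp
      have h7 : Y * (T / Z) ≤ Y * M := mul_le_mul_of_nonneg_left hM2 hY0.le
      rw [h6]
      linarith
    have h8 : F / (j * V) + E / (k * L * W) ≤ (K + c) * (2 * (Y * M)) := by
      calc F / (j * V) + E / (k * L * W) ≤ K * (T / V + Y) + c * (T / V + Y) := add_le_add h1 h2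
        _ = (K + c) * (T / V + Y) := by ring
        _ ≤ (K + c) * (2 * (Y * M)) := mul_le_mul_of_nonneg_left h5 (by linarith)
    have h9 : D * (F / (j * V) + E / (k * L * W)) ≤ D * ((K + c) * (2 * (Y * M))) :=
      mul_le_mul_of_nonneg_left h8 hD0.le
    have h10 : 1 ≤ Y * M := by linarith
    calc 1 + D * (F / (j * V) + E / (k * L * W)) ≤ 2 * (Y * M) + D * ((K + c) * (2 * (Y * M))) := by
          linarith
      _ = 2 * (1 + D * (K + c)) * (Y * M) := by ring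
  · push Not at h
    refine (min_le_left _ _).trans (hN.trans ?_)
    rw [min_eq_right h.le] at hM2
    have h1 : X ≤ Y * M := by
      have e : X = Y * (X * V / Z) := by
        rw [← hY2]
        field_simp
      calc X = Y * (X * V / Z) := e
        _ ≤ Y * M := mul_le_mul_of_nonneg_left hM2 hY0.le
    have h2 : 0 ≤ D * (K + c) := by positivity
    have h3 : 0 ≤ Y * M := by positivity
    nlinarith [mul_nonneg h2 h3]

theorem level1 (g : ℝ[X]) (k : ℕ) (hk : 2 ≤ k) (hg : g.natDegree = k) (hL : 0 < g.leadingCoeff)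
    (K : ℝ) (hK : 1 ≤ K) :
    ∃ C X0 : ℝ, 1 ≤ C ∧ 1 ≤ X0 ∧ ∀ X : ℝ, X0 ≤ X → ∀ T A E : ℝ, 1 ≤ T → 0 ≤ E →
      E ≤ K * (T + (X ^ kap k) ^ k) →
      (#((rd k 1 X).filter fun n : ℕ => |g.eval (n : ℝ) - A| ≤ E) : ℝ) ≤ C * MX T (X ^ k) ((X ^ kap k) ^ k) := by
  obtain ⟨X0, hX0, hs⟩ := slp_g g k (by omega) hg hL
  have hk0 : (0 : ℝ) < k := by
    have : 0 < k := by omega
    exact_mod_cast this
  have hc : 0 < 3 * K / (k * g.leadingCoeff) := by positivity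
  refine ⟨2 + 2 * (3 * K / (k * g.leadingCoeff)), X0, by linarith, hX0, ?_⟩
  intro X hX T A E _ hE0 hE
  have hX1 : 1 ≤ X := hX0.trans hX
  have hXp : 0 < X := by linarith
  rw [rpow_kap_nat hk hXp.le] at hE ⊢
  have hp : 0 < k * g.leadingCoeff * X ^ (k - 1) := by positivity
  have h1X : 0 ≤ 1 * X := by linarith
  have h1 := one_eq (fun x => g.eval x) (rd k 1 X) A E _ hp hE0 (by
    intro x hx y hy hxy
    rw [rd_mem k 1 X h1X] at hx hy
    have hxy' : (x : ℝ) ≤ y := by exact_mod_cast hxy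
    rw [one_mul] at hx hy
    exact (hs X hX x y hx.1.le hxy' hy.2).1)
  have h2 := Lvl_card hk (X := X) (a := 1) h1X
  rw [one_mul] at h2
  exact h1.trans (Lvl_a hk hL hK hX1 hE h2)

theorem level2 (g : ℝ[X]) (k j : ℕ) (hk : 2 ≤ k) (hj : 1 ≤ j) (hjk : j < k) (hg : g.natDegree = k)
    (hL : 0 < g.leadingCoeff) (K : ℝ) (hK : 1 ≤ K) :
    ∃ C X0 : ℝ, 1 ≤ C ∧ 1 ≤ X0 ∧ ∀ X : ℝ, X0 ≤ X → ∀ T A B E F : ℝ, 1 ≤ T → 0 ≤ E → 0 ≤ F →
      E ≤ K * (T + (X ^ kap k) ^ k) → F ≤ K * (T + (X ^ kap k) ^ j) →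
      (#((rd k 1 X ×ˢ rd k (1 / 8) X).filter fun w : ℕ × ℕ =>
        |g.eval (w.1 : ℝ) + g.eval (w.2 : ℝ) - A| ≤ E ∧ |(w.1 : ℝ) ^ j + (w.2 : ℝ) ^ j - B| ≤ F) : ℝ) ≤
      C * (MX T (X ^ k) ((X ^ kap k) ^ k) *
        ((X / X ^ kap k) ^ (k - j) * MX T (X ^ j) ((X ^ kap k) ^ j))) := by
  obtain ⟨X0, hX0, hs⟩ := slp_g g k (by omega) hg hL
  have hk0 : (0 : ℝ) < k := by
    have : 0 < k := by omega
    exact_mod_cast this
  have hj0 : (0 : ℝ) < j := by exact_mod_cast hj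
  have hc : 0 < 3 * K / (k * g.leadingCoeff) := by positivity
  have hc' : 0 < K / (k * g.leadingCoeff) := by positivity
  obtain ⟨s, hsd⟩ : ∃ s : ℝ, s = (1 / 8) ^ (j - 1) := ⟨_, rfl⟩
  have hs0 : 0 < s := by rw [hsd]; positivity
  have hD : 0 < 8 / s * (K + K / (k * g.leadingCoeff)) := by positivity
  refine ⟨(2 + 2 * (3 * K / (k * g.leadingCoeff))) * (2 * (1 + 8 / s * (K + K / (k * g.leadingCoeff)))),
    8 * X0, ?_, by linarith, ?_⟩
  · nlinarith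
  intro X hX T A B E F hT hE0 hF0 hE hF
  have hX1 : 1 ≤ X := by linarith
  have hXX : X0 ≤ X := by linarith
  have hX8 : X0 ≤ X / 8 := by linarith
  have hXp : 0 < X := by linarith
  rw [rpow_kap_nat hk hXp.le] at hE ⊢
  have hp : 0 < k * g.leadingCoeff * X ^ (k - 1) := by positivity
  have hq : 0 < j * X ^ (j - 1) := by positivity
  have h1X : 0 ≤ 1 * X := by linarith
  have h8X : 0 ≤ 1 / 8 * X := by linarith
  have hr : (0 : ℝ) < (1 / 8) ^ (k - 1) := by positivity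
  have hrs : 8 * (1 / 8 : ℝ) ^ (k - 1) ≤ s := by
    have h1 : ((1 : ℝ) / 8) ^ (k - 1) ≤ (1 / 8) ^ j :=
      pow_le_pow_of_le_one (by norm_num) (by norm_num) (by omega)
    have h2 : ((1 : ℝ) / 8) ^ j = (1 / 8) ^ (j - 1) * (1 / 8) := by
      rw [← pow_succ]
      congr 1
      omega
    rw [hsd]
    linarith
  have e1 : k * g.leadingCoeff * X ^ (k - 1) * (1 / 8) ^ (k - 1) =
      k * g.leadingCoeff * (X / 8) ^ (k - 1) := by
    rw [mul_assoc _ (X ^ (k - 1)), ← mul_pow]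
    congr 2
    ring
  have e2 : j * X ^ (j - 1) * s = j * (X / 8) ^ (j - 1) := by
    rw [hsd, mul_assoc, ← mul_pow]
    congr 2
    ring
  have h1 := two_eq (fun x => g.eval x) (fun x => x ^ j) (rd k 1 X) (rd k (1 / 8) X) A B E F
    (k * g.leadingCoeff * X ^ (k - 1)) (j * X ^ (j - 1)) ((1 / 8) ^ (k - 1)) s hp hq hr hrs hE0 hF0
    (by
      intro x hx y hy hxy
      rw [rd_mem k 1 X h1X] at hx hy
      have hxy' : (x : ℝ) ≤ y := by exact_mod_cast hxy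
      rw [one_mul] at hx hy
      exact hs X hXX x y hx.1.le hxy' hy.2)
    (by
      intro x hx y hy hxy
      rw [rd_mem k 1 X h1X] at hx hy
      have hxy' : (x : ℝ) ≤ y := by exact_mod_cast hxy
      rw [one_mul] at hx hy
      exact slp_pow k j hj hjk.le X x y hXp hx.1.le hxy' hy.2)
    (by
      intro x hx y hy hxy
      rw [rd_mem k (1 / 8) X h8X] at hx hy
      have hxy' : (x : ℝ) ≤ y := by exact_mod_cast hxy
      have e : 1 / 8 * X = X / 8 := by ring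
      rw [e] at hx hy
      rw [e1]
      exact hs (X / 8) hX8 x y hx.1.le hxy' hy.2)
    (by
      intro x hx y hy hxy
      rw [rd_mem k (1 / 8) X h8X] at hx hy
      have hxy' : (x : ℝ) ≤ y := by exact_mod_cast hxy
      have e : 1 / 8 * X = X / 8 := by ring
      rw [e] at hx hy
      rw [e2]
      exact slp_pow k j hj hjk.le (X / 8) x y (by linarith) hx.1.le hxy' hy.2)
  have h2 := Lvl_card hk (X := X) (a := 1) h1X
  have h3 := Lvl_card hk (X := X) (a := 1 / 8) h8X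
  have h4 : (#(rd k 1 X) : ℝ) ≤ 2 * X := by linarith
  have h5 : (#(rd k (1 / 8) X) : ℝ) ≤ 2 * X := by linarith
  have h6 := Lvl_a hk hL hK hX1 hE h4
  have h7 := Lvl_b hk hj hjk hL hK hX1 hT hs0 hE hF h5
  refine h1.trans ?_
  have h8 : 0 ≤ min (#(rd k (1 / 8) X) : ℝ) (1 + 8 / s * (F / (j * X ^ (j - 1)) +
      E / (k * g.leadingCoeff * X ^ (k - 1)))) := by
    apply le_min
    · positivity
    · positivity
  have h9 : 0 ≤ (2 + 2 * (3 * K / (k * g.leadingCoeff))) * MX T (X ^ k) (X ^ (k - 1)) := by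
    have := Lvl_MX1 T (X ^ k) (X ^ (k - 1))
    positivity
  refine (mul_le_mul h6 h7 h8 h9).trans (le_of_eq ?_)
  ring

end Pool.Agent.Lib.MP_570bef_ntW
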