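import Mathlib
import Pool.Agent.Lib.MP_570bef_ntW.Defs

/-!
# PolB: crude bound for a polynomial

`|g x| ≤ ∑_{i ≤ k} |g.coeff i| x^i ≤ (∑ |g.coeff i|) x^k` for `x ≥ 1` (`eval_eq_sum_range`, `Finset.abs_sum_le_sum_abs`); add one to the constant.
-/

set_option autoImplicit false

open Finset Real Polynomial
open Pool.Agent.Lib.MP_2a816b_nt (e nn norm_e conj_e e_add e_neg)

namespace Pool.Agent.Lib.MP_570bef_ntW

open Pool.Agent.Lib.MP_570bef_ntS (kap Dio)

theorem pol_b (g : ℝ[X]) (k : ℕ) (hg : g.natDegree ≤ k) :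
    ∃ K : ℝ, 1 ≤ K ∧ ∀ x : ℝ, 1 ≤ x → |g.eval x| ≤ K * x ^ k := by
  have hS : 0 ≤ ∑ i ∈ Finset.range (g.natDegree + 1), |g.coeff i| := Finset.sum_nonneg fun i _ => abs_nonneg _
  refine ⟨∑ i ∈ Finset.range (g.natDegree + 1), |g.coeff i| + 1, by linarith, fun x hx => ?_⟩
  have hx0 : 0 ≤ x := by linarith
  rw [Polynomial.eval_eq_sum_range]
  have h1 : |∑ i ∈ Finset.range (g.natDegree + 1), g.coeff i * x ^ i| ≤
      (∑ i ∈ Finset.range (g.natDegree + 1), |g.coeff i|) * x ^ k := by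
    refine (Finset.abs_sum_le_sum_abs _ _).trans ?_
    rw [Finset.sum_mul]
    refine Finset.sum_le_sum fun i hi => ?_
    rw [abs_mul, abs_of_nonneg (pow_nonneg hx0 i)]
    refine mul_le_mul_of_nonneg_left (pow_le_pow_right₀ hx ?_) (abs_nonneg _)
    exact (Nat.lt_succ_iff.1 (Finset.mem_range.1 hi)).trans hg
  refine h1.trans (mul_le_mul_of_nonneg_right ?_ (pow_nonneg hx0 k))
  linarith

end Pool.Agent.Lib.MP_570bef_ntW
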