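import Mathlib
import Pool.Agent.Lib.MP_570bef_ntW.Defs
import Pool.Agent.Lib.MP_570bef_ntSH.Rec

/-!
# RecW: recursion of the family, sizes

As `mem_TU_succ`, `mem_TT_succ`, `Pt_succ`, `Ph_le`, `Pt_le` in `MP_570bef_ntSH/Rec.lean` (`rg` becomes `rd`; `Fin.forall_fin_succ`, `Fin.sum_univ_succ`, `rpow_kap_pow`).
`tf_succ0`: `r = 0`: the second component is a function on `Fin 0`, all its conditions are empty.
`su_le`: every entry `n` satisfies `1 ≤ n` (it is greater than a floor) and `n ≤ (1 + dl k) a X^(kap k^i) ≤ 2X` (`a ≤ 1`, `dl k ≤ 1`, `X^(kap k^i) ≤ X`), so `|h n| ≤ K n^d ≤ K (2X)^d` (`K ≥ 0` from `hK` at `x = 1`). `tf_entry`: the same facts, and `X^(kap k^i)/8 ≤ n`, `X^(kap k^i) ≥ X^(kap k^s)` for `i < s` (`X ≥ 1`, `kap k ≤ 1`) and for `i < r ≤ s`.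
-/

set_option autoImplicit false

open Finset Real Polynomial
open Pool.Agent.Lib.MP_2a816b_nt (e nn norm_e conj_e e_add e_neg)

namespace Pool.Agent.Lib.MP_570bef_ntW

open Pool.Agent.Lib.MP_570bef_ntS (kap Dio)
open Pool.Agent.Lib.MP_570bef_ntSH (kap_pos kap_lt_one kap_pow_pos kap_pow_le_one rpow_kap_pow)

private theorem RecW_dl0 (k : ℕ) : 0 ≤ dl k := by
  unfold dl
  positivity

private theorem RecW_dl1 {k : ℕ} (hk : 2 ≤ k) : dl k ≤ 1 := by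
  have h : (2 : ℝ) ≤ k := by exact_mod_cast hk
  unfold dl
  rw [div_le_one (by linarith)]
  linarith

private theorem RecW_rd {k : ℕ} {a X : ℝ} (h : 0 ≤ a * X) {n : ℕ} :
    n ∈ rd k a X ↔ a * X < n ∧ (n : ℝ) ≤ (1 + dl k) * (a * X) := by
  have hd := RecW_dl0 k
  unfold rd
  rw [Finset.mem_Ioc, Nat.floor_lt h, Nat.le_floor_iff (by positivity)]

private theorem RecW_mem {k s : ℕ} {a X : ℝ} {u : Fin s → ℕ} :
    u ∈ TW k s a X ↔ ∀ i : Fin s, u i ∈ rd k a (X ^ (kap k ^ (i : ℕ))) := by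
  unfold TW
  rw [Fintype.mem_piFinset]

private theorem RecW_succ {k s : ℕ} {a X : ℝ} (hX : 0 ≤ X) {u : Fin (s + 1) → ℕ} :
    u ∈ TW k (s + 1) a X ↔ u 0 ∈ rd k a X ∧ Fin.tail u ∈ TW k s a (X ^ kap k) := by
  rw [RecW_mem, RecW_mem, Fin.forall_fin_succ]
  refine and_congr ?_ ?_
  · simp
  · refine forall_congr' fun i => ?_
    rw [rpow_kap_pow hX, Fin.val_succ]
    rfl

private theorem RecW_one {k s i n : ℕ} {a X : ℝ} (hk : 2 ≤ k) (hi : i ≤ s) (ha : 0 ≤ a) (ha1 : a ≤ 1)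
    (ha8 : 1 / 8 ≤ a) (hX : 1 ≤ X) (hn : n ∈ rd k a (X ^ (kap k ^ i))) :
    1 ≤ n ∧ (n : ℝ) ≤ 2 * X ∧ X ^ (kap k ^ s) / 8 ≤ (n : ℝ) := by
  have h2 : (1 : ℝ) ≤ X ^ (kap k ^ i) := Real.one_le_rpow hX (kap_pow_pos hk _).le
  have h3 : X ^ (kap k ^ i) ≤ X := by
    calc X ^ (kap k ^ i) ≤ X ^ (1 : ℝ) :=
          Real.rpow_le_rpow_of_exponent_le hX (kap_pow_le_one hk _)
      _ = X := Real.rpow_one X
  have h4 : X ^ (kap k ^ s) ≤ X ^ (kap k ^ i) :=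
    Real.rpow_le_rpow_of_exponent_le hX
      (pow_le_pow_of_le_one (kap_pos hk).le (kap_lt_one hk).le hi)
  have h5 : 0 ≤ a * X ^ (kap k ^ i) := mul_nonneg ha (by linarith)
  rw [RecW_rd h5] at hn
  have hd0 := RecW_dl0 k
  have hd1 := RecW_dl1 hk
  have h6 : a * X ^ (kap k ^ i) ≤ 1 * X ^ (kap k ^ i) := mul_le_mul_of_nonneg_right ha1 (by linarith)
  have h7 : 1 / 8 * X ^ (kap k ^ i) ≤ a * X ^ (kap k ^ i) := mul_le_mul_of_nonneg_right ha8 (by linarith)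
  refine ⟨?_, ?_, ?_⟩
  · have h8 : (0 : ℝ) < n := by linarith [hn.1]
    exact_mod_cast h8
  · have h9 : (1 + dl k) * (a * X ^ (kap k ^ i)) ≤ 2 * (a * X ^ (kap k ^ i)) :=
      mul_le_mul_of_nonneg_right (by linarith) h5
    linarith [hn.2]
  · linarith [hn.1]

theorem tf_succ (k s r : ℕ) (X : ℝ) (hX : 0 ≤ X) (t : (Fin (s + 1) → ℕ) × (Fin (r + 1) → ℕ)) :
    t ∈ TF k (s + 1) (r + 1) X ↔ (t.1 0 ∈ rd k 1 X ∧ t.2 0 ∈ rd k (1 / 8) X) ∧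
      (Fin.tail t.1, Fin.tail t.2) ∈ TF k s r (X ^ kap k) := by
  unfold TF
  rw [Finset.mem_product, Finset.mem_product, RecW_succ hX, RecW_succ hX]
  tauto

theorem tf_succ0 (k s : ℕ) (X : ℝ) (hX : 0 ≤ X) (t : (Fin (s + 1) → ℕ) × (Fin 0 → ℕ)) :
    t ∈ TF k (s + 1) 0 X ↔ t.1 0 ∈ rd k 1 X ∧ (Fin.tail t.1, t.2) ∈ TF k s 0 (X ^ kap k) := by
  unfold TF
  rw [Finset.mem_product, Finset.mem_product, RecW_succ hX]
  have h1 : t.2 ∈ TW k 0 (1 / 8) X := RecW_mem.2 fun i => i.elim0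
  have h2 : t.2 ∈ TW k 0 (1 / 8) (X ^ kap k) := RecW_mem.2 fun i => i.elim0
  tauto

theorem su_succ (u : ℝ → ℝ) (s r : ℕ) (t : (Fin (s + 1) → ℕ) × (Fin (r + 1) → ℕ)) :
    Su u t = u (t.1 0 : ℝ) + u (t.2 0 : ℝ) + Su u (Fin.tail t.1, Fin.tail t.2) := by
  unfold Su
  rw [Fin.sum_univ_succ, Fin.sum_univ_succ]
  show _ = _ + (∑ i : Fin s, u (t.1 i.succ : ℝ) + ∑ i : Fin r, u (t.2 i.succ : ℝ))
  ring

theorem su_succ0 (u : ℝ → ℝ) (s : ℕ) (t : (Fin (s + 1) → ℕ) × (Fin 0 → ℕ)) :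
    Su u t = u (t.1 0 : ℝ) + Su u (Fin.tail t.1, t.2) := by
  unfold Su
  rw [Fin.sum_univ_succ]
  show _ = _ + (∑ i : Fin s, u (t.1 i.succ : ℝ) + ∑ i : Fin 0, u (t.2 i : ℝ))
  ring

theorem tf_entry (k s r : ℕ) (hk : 2 ≤ k) (hrs : r ≤ s) (X : ℝ) (hX : 1 ≤ X)
    (t : (Fin s → ℕ) × (Fin r → ℕ)) (ht : t ∈ TF k s r X) :
    (∀ i, 1 ≤ t.1 i ∧ (t.1 i : ℝ) ≤ 2 * X ∧ X ^ (kap k ^ s) / 8 ≤ (t.1 i : ℝ)) ∧
      ∀ i, 1 ≤ t.2 i ∧ (t.2 i : ℝ) ≤ 2 * X ∧ X ^ (kap k ^ s) / 8 ≤ (t.2 i : ℝ) := by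
  unfold TF at ht
  rw [Finset.mem_product, RecW_mem, RecW_mem] at ht
  refine ⟨fun i => ?_, fun i => ?_⟩
  · exact RecW_one hk i.2.le (by norm_num) le_rfl (by norm_num) hX (ht.1 i)
  · exact RecW_one hk (i.2.le.trans hrs) (by norm_num) (by norm_num) le_rfl hX (ht.2 i)

theorem su_le (h : ℝ → ℝ) (k s r d : ℕ) (hk : 2 ≤ k) (hrs : r ≤ s) (K : ℝ)
    (hK : ∀ x : ℝ, 1 ≤ x → |h x| ≤ K * x ^ d) (X : ℝ) (hX : 1 ≤ X)
    (t : (Fin s → ℕ) × (Fin r → ℕ)) (ht : t ∈ TF k s r X) :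
    |Su h t| ≤ ((s : ℝ) + r) * (K * 2 ^ d) * X ^ d := by
  have h1 := tf_entry k s r hk hrs X hX t ht
  have hK0 : 0 ≤ K := by
    have h2 := hK 1 le_rfl
    rw [one_pow, mul_one] at h2
    exact (abs_nonneg _).trans h2
  have h3 : ∀ n : ℕ, 1 ≤ n → (n : ℝ) ≤ 2 * X → |h (n : ℝ)| ≤ K * 2 ^ d * X ^ d := by
    intro n hn hn2
    have h4 : (1 : ℝ) ≤ n := by exact_mod_cast hn
    calc |h (n : ℝ)| ≤ K * (n : ℝ) ^ d := hK _ h4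
      _ ≤ K * (2 * X) ^ d := mul_le_mul_of_nonneg_left (pow_le_pow_left₀ (by linarith) hn2 d) hK0
      _ = K * 2 ^ d * X ^ d := by rw [mul_pow, mul_assoc]
  unfold Su
  calc |∑ i, h (t.1 i : ℝ) + ∑ i, h (t.2 i : ℝ)| ≤ |∑ i, h (t.1 i : ℝ)| + |∑ i, h (t.2 i : ℝ)| := abs_add_le _ _
    _ ≤ ∑ i, |h (t.1 i : ℝ)| + ∑ i, |h (t.2 i : ℝ)| :=
        add_le_add (Finset.abs_sum_le_sum_abs _ _) (Finset.abs_sum_le_sum_abs _ _)
    _ ≤ ∑ _i : Fin s, K * 2 ^ d * X ^ d + ∑ _i : Fin r, K * 2 ^ d * X ^ d :=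
        add_le_add (Finset.sum_le_sum fun i _ => h3 _ (h1.1 i).1 (h1.1 i).2.1)
          (Finset.sum_le_sum fun i _ => h3 _ (h1.2 i).1 (h1.2 i).2.1)
    _ = ((s : ℝ) + r) * (K * 2 ^ d) * X ^ d := by
        rw [Finset.sum_const, Finset.sum_const, Finset.card_univ, Finset.card_univ, Fintype.card_fin,
          Fintype.card_fin, nsmul_eq_mul, nsmul_eq_mul]
        ring

end Pool.Agent.Lib.MP_570bef_ntW
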