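import Mathlib
import Pool.Agent.Lib.MP_570bef_ntW.RecW

/-!
# RecK: recursion of the counts

`card_fib` (`MP_570bef_ntSH/Rec.lean`) with `f t = (t.1 0, t.2 0)` and `T` the set of the pairs `w ∈ rd k 1 X ×ˢ rd k (1/8) X` with `|u w.1 + u w.2 - A| ≤ E + E1` and `|v w.1 + v w.2 - B| ≤ F + F1`: for `t` in the set of `KK` its tail `t'` is in `TF k s r (X^kap k)` (`tf_succ`) and `u w.1 + u w.2 - A = (Su u t - A) - Su u t'` (`su_succ`), `|Su u t'| ≤ E1` (`ht`).
The fibre over `w` is mapped injectively (`t ↦ (Fin.tail t.1, Fin.tail t.2)`, `Fin.cons_self_tail`) into the set of `KK u v k s r (X^kap k) (A - u w.1 - u w.2) (B - v w.1 - v w.2) E F`. So `KK ≤ m * #T ≤ m * n` (`0 ≤ m`, from `hm` and the cast of a natural number). `rec1` in the same way with `t ↦ t.1 0` (`tf_succ0`, `su_succ0`).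
-/

set_option autoImplicit false

open Finset Real Polynomial
open Pool.Agent.Lib.MP_2a816b_nt (e nn norm_e conj_e e_add e_neg)

namespace Pool.Agent.Lib.MP_570bef_ntW

open Pool.Agent.Lib.MP_570bef_ntS (kap Dio)
open Pool.Agent.Lib.MP_570bef_ntSH (card_fib)

private theorem RecK_abs {x y z a E E1 : ℝ} (h : |x - a| ≤ E) (hx : x = y + z) (hz : |z| ≤ E1) :
    |y - a| ≤ E + E1 := by
  have h1 : y - a = (x - a) - z := by rw [hx]; ring
  rw [h1]
  exact (abs_sub _ _).trans (add_le_add h hz)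

private theorem RecK_inj {s : ℕ} {a b : Fin (s + 1) → ℕ} (h0 : a 0 = b 0) (h1 : Fin.tail a = Fin.tail b) :
    a = b := by
  rw [← Fin.cons_self_tail a, ← Fin.cons_self_tail b, h0, h1]

theorem rec2 (u v : ℝ → ℝ) (k s r : ℕ) (X A B E F E1 F1 n m : ℝ) (hX : 0 ≤ X)
    (hn : ∀ A' B' : ℝ, (#((rd k 1 X ×ˢ rd k (1 / 8) X).filter fun w : ℕ × ℕ =>
      |u (w.1 : ℝ) + u (w.2 : ℝ) - A'| ≤ E + E1 ∧ |v (w.1 : ℝ) + v (w.2 : ℝ) - B'| ≤ F + F1) : ℝ) ≤ n)
    (hm : ∀ A' B' : ℝ, (KK u v k s r (X ^ kap k) A' B' E F : ℝ) ≤ m)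
    (ht : ∀ t ∈ TF k s r (X ^ kap k), |Su u t| ≤ E1 ∧ |Su v t| ≤ F1) :
    (KK u v k (s + 1) (r + 1) X A B E F : ℝ) ≤ m * n := by
  classical
  have hm0 : 0 ≤ m := le_trans (Nat.cast_nonneg _) (hm 0 0)
  have hmain : (KK u v k (s + 1) (r + 1) X A B E F : ℝ) ≤
      m * (#((rd k 1 X ×ˢ rd k (1 / 8) X).filter fun w : ℕ × ℕ =>
        |u (w.1 : ℝ) + u (w.2 : ℝ) - A| ≤ E + E1 ∧ |v (w.1 : ℝ) + v (w.2 : ℝ) - B| ≤ F + F1) : ℝ) := by
    unfold KK
    refine card_fib _ _ (fun t : (Fin (s + 1) → ℕ) × (Fin (r + 1) → ℕ) => (t.1 0, t.2 0)) ?_ ?_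
    · intro t ht0
      rw [Finset.mem_filter, tf_succ k s r X hX] at ht0
      obtain ⟨⟨h1, h2⟩, h3, h4⟩ := ht0
      rw [Finset.mem_filter, Finset.mem_product]
      obtain ⟨h5, h6⟩ := ht _ h2
      exact ⟨h1, RecK_abs h3 (su_succ u s r t) h5, RecK_abs h4 (su_succ v s r t) h6⟩
    · intro w _
      refine le_trans ?_ (hm (A - u (w.1 : ℝ) - u (w.2 : ℝ)) (B - v (w.1 : ℝ) - v (w.2 : ℝ)))
      unfold KK
      rw [Nat.cast_le]
      refine Finset.card_le_card_of_injOn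
        (fun t : (Fin (s + 1) → ℕ) × (Fin (r + 1) → ℕ) => (Fin.tail t.1, Fin.tail t.2)) ?_ ?_
      · intro t ht0
        rw [Finset.mem_coe, Finset.mem_filter, Finset.mem_filter, tf_succ k s r X hX] at ht0
        obtain ⟨⟨⟨h1, h2⟩, h3, h4⟩, h5⟩ := ht0
        have h6 : t.1 0 = w.1 := congrArg Prod.fst h5
        have h7 : t.2 0 = w.2 := congrArg Prod.snd h5
        rw [su_succ u s r t, h6, h7] at h3
        rw [su_succ v s r t, h6, h7] at h4
        rw [Finset.mem_coe, Finset.mem_filter]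
        refine ⟨h2, ?_, ?_⟩
        · have e : Su u (Fin.tail t.1, Fin.tail t.2) - (A - u (w.1 : ℝ) - u (w.2 : ℝ)) =
              u (w.1 : ℝ) + u (w.2 : ℝ) + Su u (Fin.tail t.1, Fin.tail t.2) - A := by ring
          rw [e]
          exact h3
        · have e : Su v (Fin.tail t.1, Fin.tail t.2) - (B - v (w.1 : ℝ) - v (w.2 : ℝ)) =
              v (w.1 : ℝ) + v (w.2 : ℝ) + Su v (Fin.tail t.1, Fin.tail t.2) - B := by ring
          rw [e]
          exact h4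
      · intro t ht1 t' ht2 hh
        rw [Finset.mem_coe, Finset.mem_filter] at ht1 ht2
        have h1 : t.1 0 = t'.1 0 := (congrArg Prod.fst ht1.2).trans (congrArg Prod.fst ht2.2).symm
        have h2 : t.2 0 = t'.2 0 := (congrArg Prod.snd ht1.2).trans (congrArg Prod.snd ht2.2).symm
        have h3 : Fin.tail t.1 = Fin.tail t'.1 := congrArg Prod.fst hh
        have h4 : Fin.tail t.2 = Fin.tail t'.2 := congrArg Prod.snd hh
        exact Prod.ext (RecK_inj h1 h3) (RecK_inj h2 h4)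
  exact hmain.trans (mul_le_mul_of_nonneg_left (hn A B) hm0)

theorem rec1 (u v : ℝ → ℝ) (k s : ℕ) (X A B E F E1 n m : ℝ) (hX : 0 ≤ X)
    (hn : ∀ A' : ℝ, (#((rd k 1 X).filter fun w : ℕ => |u (w : ℝ) - A'| ≤ E + E1) : ℝ) ≤ n)
    (hm : ∀ A' B' : ℝ, (KK u v k s 0 (X ^ kap k) A' B' E F : ℝ) ≤ m)
    (ht : ∀ t ∈ TF k s 0 (X ^ kap k), |Su u t| ≤ E1) :
    (KK u v k (s + 1) 0 X A B E F : ℝ) ≤ m * n := by
  classical
  have hm0 : 0 ≤ m := le_trans (Nat.cast_nonneg _) (hm 0 0)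
  have hmain : (KK u v k (s + 1) 0 X A B E F : ℝ) ≤
      m * (#((rd k 1 X).filter fun w : ℕ => |u (w : ℝ) - A| ≤ E + E1) : ℝ) := by
    unfold KK
    refine card_fib _ _ (fun t : (Fin (s + 1) → ℕ) × (Fin 0 → ℕ) => t.1 0) ?_ ?_
    · intro t ht0
      rw [Finset.mem_filter, tf_succ0 k s X hX] at ht0
      obtain ⟨⟨h1, h2⟩, h3, _⟩ := ht0
      rw [Finset.mem_filter]
      exact ⟨h1, RecK_abs h3 (su_succ0 u s t) (ht _ h2)⟩
    · intro w _
      refine le_trans ?_ (hm (A - u (w : ℝ)) (B - v (w : ℝ)))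
      unfold KK
      rw [Nat.cast_le]
      refine Finset.card_le_card_of_injOn
        (fun t : (Fin (s + 1) → ℕ) × (Fin 0 → ℕ) => (Fin.tail t.1, t.2)) ?_ ?_
      · intro t ht0
        rw [Finset.mem_coe, Finset.mem_filter, Finset.mem_filter, tf_succ0 k s X hX] at ht0
        obtain ⟨⟨⟨h1, h2⟩, h3, h4⟩, h5⟩ := ht0
        rw [su_succ0 u s t, h5] at h3
        rw [su_succ0 v s t, h5] at h4
        rw [Finset.mem_coe, Finset.mem_filter]
        refine ⟨h2, ?_, ?_⟩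
        · have e : Su u (Fin.tail t.1, t.2) - (A - u (w : ℝ)) =
              u (w : ℝ) + Su u (Fin.tail t.1, t.2) - A := by ring
          rw [e]
          exact h3
        · have e : Su v (Fin.tail t.1, t.2) - (B - v (w : ℝ)) =
              v (w : ℝ) + Su v (Fin.tail t.1, t.2) - B := by ring
          rw [e]
          exact h4
      · intro t ht1 t' ht2 hh
        rw [Finset.mem_coe, Finset.mem_filter] at ht1 ht2
        have h1 : t.1 0 = t'.1 0 := ht1.2.trans ht2.2.symm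
        have h3 : Fin.tail t.1 = Fin.tail t'.1 := congrArg Prod.fst hh
        have h4 : t.2 = t'.2 := (Prod.mk.inj hh).2
        exact Prod.ext (RecK_inj h1 h3) h4
  exact hmain.trans (mul_le_mul_of_nonneg_left (hn A) hm0)

end Pool.Agent.Lib.MP_570bef_ntW
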