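import Mathlib
import Pool.Agent.Lib.MP_570bef_ntW.RecK
import Pool.Agent.Lib.MP_570bef_ntW.Lvl
import Pool.Agent.Lib.MP_570bef_ntW.PolB

/-!
# KkB: the count of one family

Induction on `s` (for all `r ≤ s`). `s = r = 0`: `TF k 0 0 X` has one element (functions on `Fin 0`), `BB ≥ 1` (`bb_ge`), `C = X0 = 1`.
Step. Let `u = g.eval`, `v = x^j`, `K_g ≥ 1` from `pol_b g k`, and `|x^j| ≤ 1 * x^j` for `x ≥ 1`.
Case `r = 0`, `s + 1`: `C', X0'` from the induction hypothesis for `(s, 0)` and `X^kap k` in place of `X` (`X ≥ X0'^2` gives `X^kap k ≥ X^(1/2) ≥ X0'` as `kap k ≥ 1/2`); `level1` with `K = M + s K_g 2^k` (at least one), `E = M T + E1`, `E1 = s (K_g 2^k) (X^kap k)^k` (`su_le`): `E ≤ K (T + (X^kap k)^k)`. `rec1`, `bb_one`: `KK ≤ C' BB k j s 0 T (X^kap k) * C MX T (X^k) ((X^kap k)^k) ≤ C C' BB k j (s+1) 0 T X`.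
Case `r + 1 ≤ s + 1`: the induction hypothesis for `(s, r)`, `level2` with `K = M + 1 + (s + r) K_g 2^k + (s + r) 2^j`, `rec2` with `E = M T`, `F = T`, `E1 = (s + r) (K_g 2^k) (X^kap k)^k`, `F1 = (s + r) (1 * 2^j) (X^kap k)^j`, `bb_two`.
-/

set_option autoImplicit false

open Finset Real Polynomial
open Pool.Agent.Lib.MP_2a816b_nt (e nn norm_e conj_e e_add e_neg)

namespace Pool.Agent.Lib.MP_570bef_ntW

open Pool.Agent.Lib.MP_570bef_ntS (kap Dio)
open Pool.Agent.Lib.MP_570bef_ntSH (kap_pos kap_lt_one kap_pow_pos kap_pow_le_one one_le_rpow_kap)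

private theorem KkB_half {k : ℕ} (hk : 2 ≤ k) {X X0 : ℝ} (hX0 : 1 ≤ X0) (hX : X0 ^ 2 ≤ X) : X0 ≤ X ^ kap k := by
  have hX01 : 1 ≤ X0 ^ 2 := one_le_pow₀ hX0
  have hX1 : 1 ≤ X := hX01.trans hX
  have h1 : (1 / 2 : ℝ) ≤ kap k := by
    have h : (2 : ℝ) ≤ k := by exact_mod_cast hk
    have h2 : 1 / (k : ℝ) ≤ 1 / 2 := one_div_le_one_div_of_le (by norm_num) h
    unfold Pool.Agent.Lib.MP_570bef_ntS.kap
    linarith
  calc X0 = (X0 ^ 2) ^ (1 / 2 : ℝ) := by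
        rw [← Real.sqrt_eq_rpow, Real.sqrt_sq (by linarith)]
    _ ≤ X ^ (1 / 2 : ℝ) := Real.rpow_le_rpow (by positivity) hX (by norm_num)
    _ ≤ X ^ kap k := Real.rpow_le_rpow_of_exponent_le hX1 h1

theorem kk_b (g : ℝ[X]) (k j : ℕ) (hk : 2 ≤ k) (hj : 1 ≤ j) (hjk : j < k) (hg : g.natDegree = k)
    (hL : 0 < g.leadingCoeff) (M : ℝ) (hM : 1 ≤ M) (s : ℕ) : ∀ r : ℕ, r ≤ s →
    ∃ C X0 : ℝ, 1 ≤ C ∧ 1 ≤ X0 ∧ ∀ X : ℝ, X0 ≤ X → ∀ T A B : ℝ, 1 ≤ T →
      (KK (fun x => g.eval x) (fun x => x ^ j) k s r X A B (M * T) T : ℝ) ≤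
        C * BB k j s r T X := by
  induction s with
  | zero =>
    intro r hr
    obtain rfl : r = 0 := by omega
    refine ⟨1, 1, le_refl _, le_refl _, fun X hX T A B _ => ?_⟩
    have h1 : KK (fun x => g.eval x) (fun x => x ^ j) k 0 0 X A B (M * T) T ≤ 1 := by
      unfold KK
      refine (Finset.card_filter_le _ _).trans ?_
      unfold TF TW
      rw [Finset.card_product, Fintype.card_piFinset, Fintype.card_piFinset]
      simp
    have h2 : (KK (fun x => g.eval x) (fun x => x ^ j) k 0 0 X A B (M * T) T : ℝ) ≤ 1 := by exact_mod_cast h1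
    rw [one_mul]
    exact h2.trans (bb_ge k j 0 0 T X hk hX)
  | succ s ih =>
    intro r hr
    obtain ⟨Kg, hKg, hKb⟩ := pol_b g k hg.le
    have hvb : ∀ x : ℝ, 1 ≤ x → |x ^ j| ≤ 1 * x ^ j := fun x hx => by
      rw [one_mul, abs_of_nonneg (pow_nonneg (by linarith) j)]
    have hs0 : (0 : ℝ) ≤ s := Nat.cast_nonneg s
    rcases Nat.eq_zero_or_pos r with rfl | hr0
    · obtain ⟨C', X0', hC', hX0', hIH⟩ := ih 0 (Nat.zero_le s)
      have hA0 : 0 ≤ ((s : ℝ) + ((0 : ℕ) : ℝ)) * (Kg * 2 ^ k) := by positivity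
      obtain ⟨C, X1, hC, hX1, hL1⟩ := level1 g k hk hg hL (M + ((s : ℝ) + ((0 : ℕ) : ℝ)) * (Kg * 2 ^ k)) (by linarith)
      refine ⟨C' * C, max (X0' ^ 2) X1, one_le_mul_of_one_le_of_one_le hC' hC, hX1.trans (le_max_right _ _),
        fun X hX T A B hT => ?_⟩
      have hXa : X0' ^ 2 ≤ X := (le_max_left _ _).trans hX
      have hXb : X1 ≤ X := (le_max_right _ _).trans hX
      have hX1' : 1 ≤ X := hX1.trans hXb
      have hY : X0' ≤ X ^ kap k := KkB_half hk hX0' hXa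
      have hY1 : 1 ≤ X ^ kap k := hX0'.trans hY
      have hT0 : 0 ≤ T := by linarith
      have hM0 : 0 ≤ M := by linarith
      have hP : 0 ≤ (X ^ kap k) ^ k := by positivity
      have hE1 : 0 ≤ ((s : ℝ) + ((0 : ℕ) : ℝ)) * (Kg * 2 ^ k) * (X ^ kap k) ^ k := mul_nonneg hA0 hP
      have h1 := rec1 (fun x => g.eval x) (fun x => x ^ j) k s X A B (M * T) T
        (((s : ℝ) + ((0 : ℕ) : ℝ)) * (Kg * 2 ^ k) * (X ^ kap k) ^ k)
        (C * MX T (X ^ k) ((X ^ kap k) ^ k)) (C' * BB k j s 0 T (X ^ kap k)) (by linarith)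
        (fun A' => hL1 X hXb T A' (M * T + ((s : ℝ) + ((0 : ℕ) : ℝ)) * (Kg * 2 ^ k) * (X ^ kap k) ^ k) hT
          (add_nonneg (mul_nonneg hM0 hT0) hE1) (by nlinarith [mul_nonneg hA0 hT0, mul_nonneg hM0 hP]))
        (fun A' B' => hIH (X ^ kap k) hY T A' B' hT)
        (fun t ht => su_le (fun x => g.eval x) k s 0 k hk (Nat.zero_le s) Kg hKb (X ^ kap k) hY1 t ht)
      refine h1.trans ?_
      have h2 := bb_one k j s T X hk hX1'
      have h3 : 0 ≤ C' * C := mul_nonneg (by linarith) (by linarith)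
      calc C' * BB k j s 0 T (X ^ kap k) * (C * MX T (X ^ k) ((X ^ kap k) ^ k))
          = C' * C * (MX T (X ^ k) ((X ^ kap k) ^ k) * BB k j s 0 T (X ^ kap k)) := by ring
        _ ≤ C' * C * BB k j (s + 1) 0 T X := mul_le_mul_of_nonneg_left h2 h3
    · obtain ⟨r, rfl⟩ : ∃ r', r = r' + 1 := ⟨r - 1, by omega⟩
      have hrs : r ≤ s := by omega
      have hr0' : (0 : ℝ) ≤ r := Nat.cast_nonneg r
      obtain ⟨C', X0', hC', hX0', hIH⟩ := ih r hrs
      have hA0 : 0 ≤ ((s : ℝ) + r) * (Kg * 2 ^ k) := by positivity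
      have hA1 : 0 ≤ ((s : ℝ) + r) * (1 * 2 ^ j) := by positivity
      obtain ⟨C, X1, hC, hX1, hL2⟩ := level2 g k j hk hj hjk hg hL
        (M + 1 + ((s : ℝ) + r) * (Kg * 2 ^ k) + ((s : ℝ) + r) * (1 * 2 ^ j)) (by linarith)
      refine ⟨C' * C, max (X0' ^ 2) X1, one_le_mul_of_one_le_of_one_le hC' hC, hX1.trans (le_max_right _ _),
        fun X hX T A B hT => ?_⟩
      have hXa : X0' ^ 2 ≤ X := (le_max_left _ _).trans hX
      have hXb : X1 ≤ X := (le_max_right _ _).trans hX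
      have hX1' : 1 ≤ X := hX1.trans hXb
      have hY : X0' ≤ X ^ kap k := KkB_half hk hX0' hXa
      have hY1 : 1 ≤ X ^ kap k := hX0'.trans hY
      have hT0 : 0 ≤ T := by linarith
      have hM0 : 0 ≤ M := by linarith
      have hP : 0 ≤ (X ^ kap k) ^ k := by positivity
      have hQ : 0 ≤ (X ^ kap k) ^ j := by positivity
      have hE1 : 0 ≤ ((s : ℝ) + r) * (Kg * 2 ^ k) * (X ^ kap k) ^ k := mul_nonneg hA0 hP
      have hF1 : 0 ≤ ((s : ℝ) + r) * (1 * 2 ^ j) * (X ^ kap k) ^ j := mul_nonneg hA1 hQ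
      have h1 := rec2 (fun x => g.eval x) (fun x => x ^ j) k s r X A B (M * T) T
        (((s : ℝ) + r) * (Kg * 2 ^ k) * (X ^ kap k) ^ k) (((s : ℝ) + r) * (1 * 2 ^ j) * (X ^ kap k) ^ j)
        (C * (MX T (X ^ k) ((X ^ kap k) ^ k) * ((X / X ^ kap k) ^ (k - j) * MX T (X ^ j) ((X ^ kap k) ^ j))))
        (C' * BB k j s r T (X ^ kap k)) (by linarith)
        (fun A' B' => hL2 X hXb T A' B' (M * T + ((s : ℝ) + r) * (Kg * 2 ^ k) * (X ^ kap k) ^ k)
          (T + ((s : ℝ) + r) * (1 * 2 ^ j) * (X ^ kap k) ^ j) hT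
          (add_nonneg (mul_nonneg hM0 hT0) hE1) (add_nonneg hT0 hF1)
          (by nlinarith [mul_nonneg hA0 hT0, mul_nonneg hM0 hP, mul_nonneg hA1 hT0, mul_nonneg hA1 hP])
          (by nlinarith [mul_nonneg hA0 hT0, mul_nonneg hM0 hQ, mul_nonneg hA1 hT0, mul_nonneg hA0 hQ,
            mul_nonneg hM0 hT0]))
        (fun A' B' => hIH (X ^ kap k) hY T A' B' hT)
        (fun t ht => ⟨su_le (fun x => g.eval x) k s r k hk hrs Kg hKb (X ^ kap k) hY1 t ht,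
          su_le (fun x => x ^ j) k s r j hk hrs 1 hvb (X ^ kap k) hY1 t ht⟩)
      refine h1.trans ?_
      have h2 := bb_two k j s r T X hk hX1'
      have h3 : 0 ≤ C' * C := mul_nonneg (by linarith) (by linarith)
      calc C' * BB k j s r T (X ^ kap k) *
            (C * (MX T (X ^ k) ((X ^ kap k) ^ k) * ((X / X ^ kap k) ^ (k - j) * MX T (X ^ j) ((X ^ kap k) ^ j))))
          = C' * C * (MX T (X ^ k) ((X ^ kap k) ^ k) *
            ((X / X ^ kap k) ^ (k - j) * MX T (X ^ j) ((X ^ kap k) ^ j)) * BB k j s r T (X ^ kap k)) := by ring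
        _ ≤ C' * C * BB k j (s + 1) (r + 1) T X := mul_le_mul_of_nonneg_left h2 h3

end Pool.Agent.Lib.MP_570bef_ntW
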