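import Mathlib
import Pool.Agent.Lib.MP_570bef_ntW.KkB
import Pool.Agent.Lib.MP_570bef_ntW.CrdW

/-!
# PairQ: the pairs with two conditions

`a = k κ^s`, `b = j κ^r`. As in `PairB`: the number of pairs is the sum over `z.1 ∈ TF` of `KK u v k s r X (Su u z.1) (Su v z.1) (1 * T) T ≤ C BB k j s r T X` (`kk_b` with `M = 1`). `BB = MX T (X^k) (X_s^k) * ((X/X_r)^(k-j) * MX T (X^j) (X_r^j)) ≤ (1 + T X^(-a)) * X^((k-j)(1-κ^r)) * (1 + T X^(-b))` (`min T W ≤ T`, natural powers to real powers as in `BbN`). And with `crd_w`: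
`X^((k-j)(1-κ^r)) = X^(-j) X^(k(1-κ^r) + b) = X^(-j) X^(k(1-κ^s)+k(1-κ^r)) X^(-k+a+b) ≤ (1/c) #TF X^(-k+a+b-j)`, since `(k-j)(1-κ^r) + j = k(1-κ^r) + j κ^r`.
-/

set_option autoImplicit false

open Finset Real Polynomial
open Pool.Agent.Lib.MP_2a816b_nt (e nn norm_e conj_e e_add e_neg)

namespace Pool.Agent.Lib.MP_570bef_ntW

open Pool.Agent.Lib.MP_570bef_ntS (kap Dio)

private theorem PairQ_mx {T W Z : ℝ} (hT : 0 ≤ T) (hZ : 0 < Z) : MX T W Z ≤ 1 + T / Z := by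
  unfold MX
  have h1 : 0 ≤ T / Z := div_nonneg hT hZ.le
  refine max_le (by linarith) ?_
  have h2 : min T W / Z ≤ T / Z := div_le_div_of_nonneg_right (min_le_left _ _) hZ.le
  linarith

private theorem PairQ_nonneg {T W Z : ℝ} : 0 ≤ MX T W Z := le_trans zero_le_one (le_max_left _ _)

private theorem PairQ_bb (k j s r : ℕ) (hjk : j < k) (X : ℝ) (hX : 1 ≤ X) (T : ℝ) (hT : 1 ≤ T) :
    BB k j s r T X ≤ (1 + T * X ^ (-((k : ℝ) * kap k ^ s))) *
      (X ^ ((k : ℝ) * (1 - kap k ^ s) + (k : ℝ) * (1 - kap k ^ r)) *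
        X ^ (-(k : ℝ) + ((k : ℝ) * kap k ^ s + (j : ℝ) * kap k ^ r) - j) *
        (1 + T * X ^ (-((j : ℝ) * kap k ^ r)))) := by
  obtain ⟨x, hx⟩ : ∃ x : ℝ, x = kap k ^ s := ⟨_, rfl⟩
  obtain ⟨y, hy⟩ : ∃ y : ℝ, y = kap k ^ r := ⟨_, rfl⟩
  unfold BB
  rw [← hx, ← hy]
  have hX0 : 0 < X := by linarith
  have hT0 : 0 ≤ T := by linarith
  have e1 : (X ^ x) ^ k = X ^ ((k : ℝ) * x) := by
    rw [← Real.rpow_natCast, ← Real.rpow_mul hX0.le]
    congr 1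
    ring
  have e2 : (X ^ y) ^ j = X ^ ((j : ℝ) * y) := by
    rw [← Real.rpow_natCast, ← Real.rpow_mul hX0.le]
    congr 1
    ring
  have e3 : (X / X ^ y) ^ (k - j) = X ^ (((k : ℝ) - j) * (1 - y)) := by
    have h1 : X / X ^ y = X ^ (1 - y) := by rw [Real.rpow_sub hX0, Real.rpow_one]
    rw [h1, ← Real.rpow_natCast, ← Real.rpow_mul hX0.le, Nat.cast_sub hjk.le]
    congr 1
    ring
  have h1 : MX T (X ^ k) ((X ^ x) ^ k) ≤ 1 + T * X ^ (-((k : ℝ) * x)) := by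
    refine (PairQ_mx hT0 (by positivity)).trans (le_of_eq ?_)
    rw [e1, Real.rpow_neg hX0.le, div_eq_mul_inv]
  have h2 : MX T (X ^ j) ((X ^ y) ^ j) ≤ 1 + T * X ^ (-((j : ℝ) * y)) := by
    refine (PairQ_mx hT0 (by positivity)).trans (le_of_eq ?_)
    rw [e2, Real.rpow_neg hX0.le, div_eq_mul_inv]
  have h6 : X ^ (((k : ℝ) - j) * (1 - y)) = X ^ ((k : ℝ) * (1 - x) + (k : ℝ) * (1 - y)) *
      X ^ (-(k : ℝ) + ((k : ℝ) * x + (j : ℝ) * y) - j) := by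
    rw [← Real.rpow_add hX0]
    congr 1
    ring
  rw [e3, ← h6]
  have hY0 : 0 < X ^ (((k : ℝ) - j) * (1 - y)) := Real.rpow_pos_of_pos hX0 _
  exact mul_le_mul h1 (mul_le_mul_of_nonneg_left h2 hY0.le) (mul_nonneg hY0.le PairQ_nonneg)
    (by positivity)

theorem pair_q (g : ℝ[X]) (k j s r : ℕ) (hk : 2 ≤ k) (hj : 1 ≤ j) (hjk : j < k)
    (hg : g.natDegree = k) (hL : 0 < g.leadingCoeff) (hrs : r ≤ s) :
    ∃ C X0 : ℝ, 1 ≤ C ∧ 1 ≤ X0 ∧ ∀ X : ℝ, X0 ≤ X → ∀ T : ℝ, 1 ≤ T →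
      (#((TF k s r X ×ˢ TF k s r X).filter
        fun z : ((Fin s → ℕ) × (Fin r → ℕ)) × ((Fin s → ℕ) × (Fin r → ℕ)) =>
        |Su (fun x => g.eval x) z.1 - Su (fun x => g.eval x) z.2| ≤ T ∧
        |Su (fun x => x ^ j) z.1 - Su (fun x => x ^ j) z.2| ≤ T) : ℝ) ≤
        C * (#(TF k s r X) : ℝ) ^ 2 *
          X ^ (-(k : ℝ) + ((k : ℝ) * kap k ^ s + (j : ℝ) * kap k ^ r) - j) *
          (1 + T * X ^ (-((k : ℝ) * kap k ^ s))) * (1 + T * X ^ (-((j : ℝ) * kap k ^ r))) := by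
  obtain ⟨C1, X1, hC1, hX1, h1⟩ := kk_b g k j hk hj hjk hg hL 1 le_rfl s r hrs
  obtain ⟨c, X2, hc, hX2, h3⟩ := crd_w k s r hk
  refine ⟨max 1 (C1 / c), max X1 X2, le_max_left _ _, hX1.trans (le_max_left _ _), ?_⟩
  intro X hX T hT
  have hXX1 : X1 ≤ X := (le_max_left _ _).trans hX
  have hXX2 : X2 ≤ X := (le_max_right _ _).trans hX
  have hX' : 1 ≤ X := hX1.trans hXX1
  have hX0 : 0 < X := by linarith
  have hcard : (#((TF k s r X ×ˢ TF k s r X).filter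
        fun z : ((Fin s → ℕ) × (Fin r → ℕ)) × ((Fin s → ℕ) × (Fin r → ℕ)) =>
        |Su (fun x => g.eval x) z.1 - Su (fun x => g.eval x) z.2| ≤ T ∧
        |Su (fun x => x ^ j) z.1 - Su (fun x => x ^ j) z.2| ≤ T) : ℝ) ≤
        (C1 * BB k j s r T X) * (#(TF k s r X) : ℝ) := by
    classical
    refine Pool.Agent.Lib.MP_570bef_ntSH.card_fib _ (TF k s r X) Prod.fst ?_ ?_
    · intro z hz
      exact (Finset.mem_product.1 (Finset.mem_filter.1 hz).1).1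
    · intro a _
      refine le_trans ?_ (h1 X hXX1 T (Su (fun x => g.eval x) a) (Su (fun x => x ^ j) a) hT)
      unfold KK
      refine Nat.cast_le.2 (Finset.card_le_card_of_injOn Prod.snd ?_ ?_)
      · intro z hz
        have hz' := Finset.mem_filter.1 (Finset.mem_coe.1 hz)
        have hz1 := Finset.mem_filter.1 hz'.1
        have hz2 := Finset.mem_product.1 hz1.1
        have hz3 : z.1 = a := hz'.2
        refine Finset.mem_coe.2 (Finset.mem_filter.2 ⟨hz2.2, ?_, ?_⟩)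
        · have := hz1.2.1
          rw [hz3] at this
          rw [abs_sub_comm, one_mul]
          exact this
        · have := hz1.2.2
          rw [hz3] at this
          rw [abs_sub_comm]
          exact this
      · intro z hz w hw hzw
        have hz' : z.1 = a := (Finset.mem_filter.1 (Finset.mem_coe.1 hz)).2
        have hw' : w.1 = a := (Finset.mem_filter.1 (Finset.mem_coe.1 hw)).2
        exact Prod.ext (hz'.trans hw'.symm) hzw
  have hbb := PairQ_bb k j s r hjk X hX' T hT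
  have hcr := h3 X hXX2
  obtain ⟨F, hF⟩ : ∃ F : ℝ, F = (#(TF k s r X) : ℝ) := ⟨_, rfl⟩
  obtain ⟨P, hPe⟩ : ∃ P : ℝ, P = X ^ ((k : ℝ) * (1 - kap k ^ s) + (k : ℝ) * (1 - kap k ^ r)) := ⟨_, rfl⟩
  obtain ⟨E, hE⟩ : ∃ E : ℝ, E = X ^ (-(k : ℝ) + ((k : ℝ) * kap k ^ s + (j : ℝ) * kap k ^ r) - j) := ⟨_, rfl⟩
  obtain ⟨u, hu⟩ : ∃ u : ℝ, u = 1 + T * X ^ (-((k : ℝ) * kap k ^ s)) := ⟨_, rfl⟩
  obtain ⟨w, hw⟩ : ∃ w : ℝ, w = 1 + T * X ^ (-((j : ℝ) * kap k ^ r)) := ⟨_, rfl⟩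
  have hE0 : 0 < E := by rw [hE]; exact Real.rpow_pos_of_pos hX0 _
  have hT0 : 0 ≤ T := by linarith
  have hu0 : 0 ≤ u := by rw [hu]; positivity
  have hw0 : 0 ≤ w := by rw [hw]; positivity
  have hn : 0 ≤ F := by rw [hF]; exact Nat.cast_nonneg _
  have hC10 : 0 ≤ C1 := by linarith
  rw [← hPe, ← hE, ← hu, ← hw] at hbb
  rw [← hPe, ← hF] at hcr
  rw [← hF] at hcard
  rw [← hF, ← hE, ← hu, ← hw]
  have hP : P ≤ F / c := by
    rw [le_div_iff₀ hc, mul_comm]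
    exact hcr
  calc _ ≤ (C1 * BB k j s r T X) * F := hcard
    _ ≤ (C1 * (u * (F / c * E * w))) * F := by
        refine mul_le_mul_of_nonneg_right (mul_le_mul_of_nonneg_left ?_ hC10) hn
        refine hbb.trans (mul_le_mul_of_nonneg_left ?_ hu0)
        exact mul_le_mul_of_nonneg_right (mul_le_mul_of_nonneg_right hP hE0.le) hw0
    _ = (C1 / c) * F ^ 2 * E * u * w := by ring
    _ ≤ max 1 (C1 / c) * F ^ 2 * E * u * w := by
        refine mul_le_mul_of_nonneg_right ?_ hw0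
        refine mul_le_mul_of_nonneg_right ?_ hu0
        refine mul_le_mul_of_nonneg_right ?_ hE0.le
        exact mul_le_mul_of_nonneg_right (le_max_right _ _) (by positivity)

end Pool.Agent.Lib.MP_570bef_ntW
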