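import Mathlib
import Pool.Agent.Lib.MP_570bef_ntW.D2

/-!
# Fej: the number of pairs is bounded by an integral over `[-1, 1]`

Let `D z = (U z.1 - U z.2) + θ (V z.1 - V z.2)`, `Φ γ = ‖F2 T 1 U V γ (γ θ)‖² = ∑_{z ∈ T × T} e (γ D z)` (a real number `≥ 0`; `conj_e`, `e_add`). `∫_0^1 ∫_0^1 Φ (α - α') dα dα' = ∑_z |∫_0^1 e (α D z) dα|²` (`e ((α-α') x) = e (α x) e (-α' x)`; integrals of products of functions of one variable). For `|x| ≤ 1/2`: `|∫_0^1 e (α x) dα| ≥ 2/π`: for `x = 0` it is `1`; otherwise `= |e x - 1|/(2π|x|)`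
(`integral_exp_mul_complex` or the fundamental theorem of calculus) and `‖e x - 1‖ ≥ 4 nn x = 4|x|` (`four_nn_le` in `MP_2a816b_nt/Expo.lean`, `nn x = |x|` for `|x| ≤ 1/2`; or Jordan's inequality). So `∑_z ≥ (4/π²) N2`. And for every `α' ∈ [0,1]`: `∫_0^1 Φ (α - α') dα = ∫_{-α'}^{1-α'} Φ ≤ ∫_{-1}^1 Φ`. Hence `N2 ≤ (π²/4) ∫_{-1}^1 Φ ≤ 3 ∫_{-1}^1 Φ`.
Alternative: `∫_{-1}^1 (1 - |γ|) e (γ x) dγ = |∫_0^1 e (α x) dα|²` directly.
-/

set_option autoImplicit false

open Finset Real Polynomial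
open Pool.Agent.Lib.MP_2a816b_nt (e nn norm_e conj_e e_add e_neg)

namespace Pool.Agent.Lib.MP_570bef_ntW

open Pool.Agent.Lib.MP_570bef_ntS (kap Dio)

private theorem Fej_cos (x : ℝ) : (e x).re = Real.cos (2 * π * x) := by
  unfold e
  have h1 : (2 * (π : ℂ) * (x : ℂ) * Complex.I) = ((2 * π * x : ℝ) : ℂ) * Complex.I := by
    push_cast
    ring
  rw [h1, Complex.exp_ofReal_mul_I_re]

private theorem Fej_sq {ι : Type} (T : Finset ι) (U V : ι → ℝ) (θ α : ℝ) :
    ‖F2 T (fun _ => 1) U V α (α * θ)‖ ^ 2 =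
      ∑ z ∈ T ×ˢ T, Real.cos ((2 * π * ((U z.1 - U z.2) + θ * (V z.1 - V z.2))) * α) := by
  have h1 : ((‖F2 T (fun _ => 1) U V α (α * θ)‖ ^ 2 : ℝ) : ℂ) =
      F2 T (fun _ => 1) U V α (α * θ) *
        (starRingEnd ℂ) (F2 T (fun _ => 1) U V α (α * θ)) := by
    rw [Complex.mul_conj, Complex.normSq_eq_norm_sq]
  have h2 : ‖F2 T (fun _ => 1) U V α (α * θ)‖ ^ 2 = (F2 T (fun _ => 1) U V α (α * θ) *
        (starRingEnd ℂ) (F2 T (fun _ => 1) U V α (α * θ))).re := by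
    rw [← h1, Complex.ofReal_re]
  rw [h2]
  unfold F2
  rw [map_sum, Finset.sum_mul_sum, ← Finset.sum_product', Complex.re_sum]
  refine Finset.sum_congr rfl fun z _ => ?_
  simp only [Complex.ofReal_one, one_mul]
  rw [conj_e, ← e_add, Fej_cos]
  congr 1
  ring

private theorem Fej_int {a : ℝ} (ha : a ≠ 0) :
    ∫ α in (0 : ℝ)..1, (1 - α) * Real.cos (a * α) = (1 - Real.cos a) / a ^ 2 := by
  have h1 : ∀ α ∈ Set.uIcc (0 : ℝ) 1,
      HasDerivAt (fun α : ℝ => (1 - α) * (Real.sin (a * α) / a) - Real.cos (a * α) / a ^ 2)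
        ((1 - α) * Real.cos (a * α)) α := by
    intro α _
    have h2 : HasDerivAt (fun α : ℝ => a * α) a α := by
      simpa using (hasDerivAt_id α).const_mul a
    have h3 : HasDerivAt (fun α : ℝ => 1 - α) (-1) α := by
      simpa using (hasDerivAt_id α).const_sub 1
    have h4 := (h3.mul (h2.sin.div_const a)).sub (h2.cos.div_const (a ^ 2))
    refine h4.congr_deriv ?_
    field_simp
    ring
  rw [intervalIntegral.integral_eq_sub_of_hasDerivAt h1
    (Continuous.intervalIntegrable (by fun_prop) _ _)]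
  simp only [mul_zero, mul_one, sub_self, zero_mul, Real.sin_zero, Real.cos_zero, zero_div,
    zero_sub, sub_zero]
  ring

private theorem Fej_zero : ∫ α in (0 : ℝ)..1, (1 - α) * Real.cos (0 * α) = 1 / 2 := by
  simp only [zero_mul, Real.cos_zero, mul_one]
  rw [intervalIntegral.integral_sub (Continuous.intervalIntegrable (by fun_prop) _ _)
    (Continuous.intervalIntegrable (by fun_prop) _ _)]
  rw [integral_id]
  simp
  norm_num

private theorem Fej_nonneg (a : ℝ) : 0 ≤ ∫ α in (0 : ℝ)..1, (1 - α) * Real.cos (a * α) := by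
  by_cases ha : a = 0
  · rw [ha, Fej_zero]
    norm_num
  · rw [Fej_int ha]
    exact div_nonneg (by linarith [Real.cos_le_one a]) (by positivity)

private theorem Fej_low {a : ℝ} (h : |a| ≤ π) :
    1 / 6 ≤ ∫ α in (0 : ℝ)..1, (1 - α) * Real.cos (a * α) := by
  by_cases ha : a = 0
  · rw [ha, Fej_zero]
    norm_num
  · rw [Fej_int ha]
    have h1 := Real.cos_le_one_sub_mul_cos_sq h
    have h2 : 0 < a ^ 2 := by positivity
    rw [le_div_iff₀ h2]
    have h3 : (1 : ℝ) / 6 ≤ 2 / π ^ 2 := by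
      rw [div_le_div_iff₀ (by norm_num) (by positivity)]
      nlinarith [Real.pi_lt_d2, Real.pi_pos]
    nlinarith [mul_le_mul_of_nonneg_right h3 h2.le]

theorem fej {ι : Type} (T : Finset ι) (U V : ι → ℝ) (θ : ℝ) :
    (N2 T U V θ : ℝ) ≤ 3 * ∫ α in (-1 : ℝ)..1, ‖F2 T (fun _ => 1) U V α (α * θ)‖ ^ 2 := by
  set Φ : ℝ → ℝ := fun α => ‖F2 T (fun _ => 1) U V α (α * θ)‖ ^ 2 with hΦ
  set D : ι × ι → ℝ := fun z => 2 * π * ((U z.1 - U z.2) + θ * (V z.1 - V z.2)) with hD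
  have hcos : ∀ α, Φ α = ∑ z ∈ T ×ˢ T, Real.cos (D z * α) := fun α => Fej_sq T U V θ α
  have hfun : Φ = fun α => ∑ z ∈ T ×ˢ T, Real.cos (D z * α) := funext hcos
  have hcont : Continuous Φ := by
    rw [hfun]
    fun_prop
  have hpos : ∀ α, 0 ≤ Φ α := fun α => by
    rw [hΦ]
    positivity
  have heven : ∀ α, Φ (-α) = Φ α := by
    intro α
    rw [hcos, hcos]
    refine Finset.sum_congr rfl fun z _ => ?_
    rw [mul_neg, Real.cos_neg]
  have hii : ∀ a b : ℝ, IntervalIntegrable Φ MeasureTheory.volume a b := fun a b =>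
    hcont.intervalIntegrable a b
  have h1 : ∫ α in (-1 : ℝ)..1, Φ α = 2 * ∫ α in (0 : ℝ)..1, Φ α := by
    rw [← intervalIntegral.integral_add_adjacent_intervals (hii (-1) 0) (hii 0 1)]
    have h2 := intervalIntegral.integral_comp_neg (a := 0) (b := 1) Φ
    rw [neg_zero] at h2
    rw [← h2]
    simp only [heven]
    ring
  have h2 : ∫ α in (0 : ℝ)..1, (1 - α) * Φ α ≤ ∫ α in (0 : ℝ)..1, Φ α := by
    refine intervalIntegral.integral_mono_on (by norm_num)
      (Continuous.intervalIntegrable (by fun_prop) _ _) (hii 0 1) fun α hα => ?_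
    nlinarith [mul_nonneg hα.1 (hpos α)]
  have h3 : ∫ α in (0 : ℝ)..1, (1 - α) * Φ α =
      ∑ z ∈ T ×ˢ T, ∫ α in (0 : ℝ)..1, (1 - α) * Real.cos (D z * α) := by
    rw [← intervalIntegral.integral_finsetSum fun z _ =>
      Continuous.intervalIntegrable (by fun_prop) _ _]
    refine intervalIntegral.integral_congr fun α _ => ?_
    show (1 - α) * Φ α = _
    rw [hcos, Finset.mul_sum]
  have h4 : (N2 T U V θ : ℝ) * (1 / 6) ≤
      ∑ z ∈ T ×ˢ T, ∫ α in (0 : ℝ)..1, (1 - α) * Real.cos (D z * α) := by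
    unfold N2
    rw [← nsmul_eq_mul, ← Finset.sum_const]
    refine le_trans (Finset.sum_le_sum fun z hz => ?_)
      (Finset.sum_le_sum_of_subset_of_nonneg (Finset.filter_subset _ _)
        fun z _ _ => Fej_nonneg (D z))
    refine Fej_low ?_
    have h5 := (Finset.mem_filter.1 hz).2
    rw [hD]
    show |2 * π * _| ≤ π
    rw [abs_mul, abs_of_pos (by positivity : (0 : ℝ) < 2 * π)]
    nlinarith [Real.pi_pos]
  show (N2 T U V θ : ℝ) ≤ 3 * ∫ α in (-1 : ℝ)..1, Φ α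
  rw [h1]
  rw [h3] at h2
  linarith

end Pool.Agent.Lib.MP_570bef_ntW
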