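import Mathlib
import Pool.Agent.Lib.MP_570bef_ntW.D2

/-!
# GauC: Gaussian integral of an exponential sum

`∫ exp (-π (β/λ)²) e (β x) dβ = λ exp (-π (λ x)²)` (Fourier transform of the Gaussian: `fourier_gaussian_pi`, `fourierIntegral_gaussian`, or `integral_cexp_quadratic`: `∫ exp (-b y² + c y) dy = (π/b)^(1/2) exp (c²/(4b))` with `b = π/λ²`, `c = 2 π i x`). Integrability: the norm is the Gaussian.
`‖∑ a_t e (β W_t)‖² = ∑_t ∑_t' a_t conj (a_t') e (β (W_t - W_t'))` (complex number times its conjugate, `conj_e`, `e_add`); integrate the finite sum; the integral of the real function is the real part of the complex integral, `(a_t conj (a_t') * real).re = (a_t conj (a_t')).re * real`.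
-/

set_option autoImplicit false

open Finset Real Polynomial
open Pool.Agent.Lib.MP_2a816b_nt (e nn norm_e conj_e e_add e_neg)

namespace Pool.Agent.Lib.MP_570bef_ntW

open Pool.Agent.Lib.MP_570bef_ntS (kap Dio)

private theorem GauC_one (x lam : ℝ) (hl : 0 < lam) :
    MeasureTheory.Integrable (fun β : ℝ => ((Real.exp (-(π * (β / lam) ^ 2)) : ℝ) : ℂ) * e (β * x)) ∧
    ∫ β : ℝ, ((Real.exp (-(π * (β / lam) ^ 2)) : ℝ) : ℂ) * e (β * x) =
      ((lam * Real.exp (-(π * (lam * x) ^ 2)) : ℝ) : ℂ) := by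
  have hlc : (lam : ℂ) ≠ 0 := Complex.ofReal_ne_zero.2 hl.ne'
  have hpi : (π : ℂ) ≠ 0 := Complex.ofReal_ne_zero.2 Real.pi_ne_zero
  obtain ⟨b, hb⟩ : ∃ b : ℝ, b = -(π / lam ^ 2) := ⟨_, rfl⟩
  have hb0 : b < 0 := by
    rw [hb, neg_lt_zero]
    exact div_pos Real.pi_pos (pow_pos hl 2)
  have hbr : ((b : ℝ) : ℂ).re < 0 := by
    rw [Complex.ofReal_re]
    exact hb0
  have hf : (fun β : ℝ => ((Real.exp (-(π * (β / lam) ^ 2)) : ℝ) : ℂ) * e (β * x)) =
      fun β : ℝ => Complex.exp ((b : ℂ) * (β : ℂ) ^ 2 + (2 * (π : ℂ) * (x : ℂ) * Complex.I) * (β : ℂ) + 0) := by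
    funext β
    unfold Pool.Agent.Lib.MP_2a816b_nt.e
    rw [Complex.ofReal_exp, ← Complex.exp_add, hb]
    congr 1
    push_cast
    field_simp
    ring
  rw [hf]
  refine ⟨integrable_cexp_quadratic' hbr _ _, ?_⟩
  rw [integral_cexp_quadratic hbr]
  have h1 : (π : ℂ) / -(b : ℂ) = ((lam ^ 2 : ℝ) : ℂ) := by
    rw [hb]
    push_cast
    field_simp
  have h2 : (((lam ^ 2 : ℝ) : ℂ)) ^ (1 / 2 : ℂ) = (lam : ℂ) := by
    have e1 : (1 / 2 : ℂ) = ((1 / 2 : ℝ) : ℂ) := by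
      push_cast
      rfl
    rw [e1, ← Complex.ofReal_cpow (sq_nonneg lam), ← Real.sqrt_eq_rpow, Real.sqrt_sq hl.le]
  rw [h1, h2, Complex.ofReal_mul, Complex.ofReal_exp]
  congr 2
  rw [hb]
  push_cast
  field_simp
  rw [Complex.I_sq]
  ring

theorem gau_c {ι : Type} (T : Finset ι) (a : ι → ℂ) (W : ι → ℝ) (lam : ℝ) (hl : 0 < lam) :
    MeasureTheory.Integrable
      (fun β : ℝ => Real.exp (-(π * (β / lam) ^ 2)) * ‖∑ t ∈ T, a t * e (β * W t)‖ ^ 2) ∧
    ∫ β : ℝ, Real.exp (-(π * (β / lam) ^ 2)) * ‖∑ t ∈ T, a t * e (β * W t)‖ ^ 2 =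
      lam * ∑ t ∈ T, ∑ t' ∈ T, (a t * (starRingEnd ℂ) (a t')).re *
        Real.exp (-(π * (lam * (W t - W t')) ^ 2)) := by
  obtain ⟨G, hG⟩ : ∃ G : ℝ → ℂ, G = fun β : ℝ => ∑ t ∈ T, ∑ t' ∈ T, (a t * (starRingEnd ℂ) (a t')) *
      (((Real.exp (-(π * (β / lam) ^ 2)) : ℝ) : ℂ) * e (β * (W t - W t'))) := ⟨_, rfl⟩
  have hGi : MeasureTheory.Integrable G := by
    rw [hG]
    exact MeasureTheory.integrable_finsetSum _ fun t _ => MeasureTheory.integrable_finsetSum _ fun t' _ =>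
      (GauC_one (W t - W t') lam hl).1.const_mul _
  have hval : ∀ β : ℝ, G β = ((Real.exp (-(π * (β / lam) ^ 2)) * ‖∑ t ∈ T, a t * e (β * W t)‖ ^ 2 : ℝ) : ℂ) := by
    intro β
    have h1 : (((‖∑ t ∈ T, a t * e (β * W t)‖ ^ 2 : ℝ)) : ℂ) =
        (∑ t ∈ T, a t * e (β * W t)) * (starRingEnd ℂ) (∑ t ∈ T, a t * e (β * W t)) := by
      rw [Complex.mul_conj, Complex.normSq_eq_norm_sq]
    rw [Complex.ofReal_mul, h1, map_sum, Finset.sum_mul_sum, Finset.mul_sum, hG]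
    refine Finset.sum_congr rfl fun t _ => ?_
    rw [Finset.mul_sum]
    refine Finset.sum_congr rfl fun t' _ => ?_
    have h2 : e (β * (W t - W t')) = e (β * W t) * e (-(β * W t')) := by
      rw [← e_add]
      congr 1
      ring
    rw [h2, map_mul, conj_e]
    ring
  have hre : (fun β : ℝ => Real.exp (-(π * (β / lam) ^ 2)) * ‖∑ t ∈ T, a t * e (β * W t)‖ ^ 2) =
      fun β : ℝ => (G β).re := by
    funext β
    rw [hval β, Complex.ofReal_re]
  have hre' : ∀ β : ℝ, Real.exp (-(π * (β / lam) ^ 2)) * ‖∑ t ∈ T, a t * e (β * W t)‖ ^ 2 = (G β).re :=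
    fun β => congrFun hre β
  refine ⟨?_, ?_⟩
  · rw [hre]
    exact hGi.re
  · rw [MeasureTheory.integral_congr_ae (Filter.Eventually.of_forall hre')]
    have h1 : ∫ β : ℝ, (G β).re = (∫ β : ℝ, G β).re := integral_re hGi
    have h2 : ∫ β : ℝ, G β = ∑ t ∈ T, ∑ t' ∈ T, (a t * (starRingEnd ℂ) (a t')) *
        ((lam * Real.exp (-(π * (lam * (W t - W t')) ^ 2)) : ℝ) : ℂ) := by
      rw [hG, MeasureTheory.integral_finsetSum _ fun t _ => MeasureTheory.integrable_finsetSum _ fun t' _ =>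
        (GauC_one (W t - W t') lam hl).1.const_mul _]
      refine Finset.sum_congr rfl fun t _ => ?_
      rw [MeasureTheory.integral_finsetSum _ fun t' _ => (GauC_one (W t - W t') lam hl).1.const_mul _]
      refine Finset.sum_congr rfl fun t' _ => ?_
      rw [MeasureTheory.integral_const_mul, (GauC_one (W t - W t') lam hl).2]
    rw [h1, h2, Complex.re_sum, Finset.mul_sum]
    refine Finset.sum_congr rfl fun t _ => ?_
    rw [Complex.re_sum, Finset.mul_sum]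
    refine Finset.sum_congr rfl fun t' _ => ?_
    rw [Complex.re_mul_ofReal]
    ring

end Pool.Agent.Lib.MP_570bef_ntW
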