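import Mathlib
import Pool.Agent.Lib.MP_570bef_ntW.GauC

/-!
# GauD: the double Gaussian integral

Inner integral: `gau_c` with `a t = c t * e (α U t)`, `W = V` (`F2 T c U V α β = ∑ (c t e (α U t)) e (β V t)`, `e_add`): it is `lam * ∑∑ c t c t' (e (α (U t - U t'))).re exp (-π (lam (V t - V t'))²)`. Outer integral: every term is `gau_c` (or the Fourier transform of the Gaussian itself, real part) for one pair:
`∫ exp (-π (α/lam)²) (e (α u)).re dα = lam exp (-π (lam u)²)`: for instance `gau_c` applied to the four unimodular combinations, or directly from the formula in `GauC` (prove it again as a private lemma). Sum: `lam² ∑∑ c t c t' exp (-π lam² ((U t - U t')² + (V t - V t')²))`. Integrability of the outer function: a finite sum of Gaussians times bounded continuous functions.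
-/

set_option autoImplicit false

open Finset Real Polynomial
open Pool.Agent.Lib.MP_2a816b_nt (e nn norm_e conj_e e_add e_neg)

namespace Pool.Agent.Lib.MP_570bef_ntW

open Pool.Agent.Lib.MP_570bef_ntS (kap Dio)

private lemma gauD_one (x lam : ℝ) (hl : 0 < lam) :
    MeasureTheory.Integrable (fun α : ℝ => Real.exp (-(π * (α / lam) ^ 2)) * (e (α * x)).re) ∧
    ∫ α : ℝ, Real.exp (-(π * (α / lam) ^ 2)) * (e (α * x)).re = lam * Real.exp (-(π * (lam * x) ^ 2)) := by
  have hb : 0 < ((((π / lam ^ 2 : ℝ)) : ℂ)).re := by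
    rw [Complex.ofReal_re]
    have := Real.pi_pos
    positivity
  have hl0 : (lam : ℂ) ≠ 0 := by exact_mod_cast hl.ne'
  have hpi : (π : ℂ) ≠ 0 := by exact_mod_cast Real.pi_pos.ne'
  have hf : ∀ α : ℝ, Complex.exp (-(((π / lam ^ 2 : ℝ)) : ℂ) * (α : ℂ) ^ 2 + (2 * π * x * Complex.I) * (α : ℂ) + 0) =
      ((Real.exp (-(π * (α / lam) ^ 2)) : ℝ) : ℂ) * e (α * x) := by
    intro α
    unfold Pool.Agent.Lib.MP_2a816b_nt.e
    rw [Complex.ofReal_exp, ← Complex.exp_add]
    congr 1
    push_cast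
    field_simp
    ring
  have hre : ∀ α : ℝ, (((Real.exp (-(π * (α / lam) ^ 2)) : ℝ) : ℂ) * e (α * x)).re =
      Real.exp (-(π * (α / lam) ^ 2)) * (e (α * x)).re := fun α => Complex.re_ofReal_mul _ _
  have hint := integrable_cexp_quadratic hb (2 * π * x * Complex.I) 0
  have hb' : (-(((π / lam ^ 2 : ℝ)) : ℂ)).re < 0 := by
    rw [Complex.neg_re]
    linarith
  have hval := integral_cexp_quadratic hb' (2 * π * x * Complex.I) 0
  have hint2 : MeasureTheory.Integrable (fun α : ℝ => ((Real.exp (-(π * (α / lam) ^ 2)) : ℝ) : ℂ) * e (α * x)) := by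
    refine hint.congr ?_
    exact Filter.Eventually.of_forall hf
  have hval2 : ∫ α : ℝ, ((Real.exp (-(π * (α / lam) ^ 2)) : ℝ) : ℂ) * e (α * x) =
      ((lam * Real.exp (-(π * (lam * x) ^ 2)) : ℝ) : ℂ) := by
    simp only [hf] at hval
    rw [hval]
    have h1 : ((π : ℂ) / - -(((π / lam ^ 2 : ℝ)) : ℂ)) = ((lam ^ 2 : ℝ) : ℂ) := by
      push_cast
      field_simp
    have h2 : (((lam ^ 2 : ℝ) : ℂ)) ^ (1 / 2 : ℂ) = (lam : ℂ) := by
      have h3 : (((lam ^ 2 : ℝ) : ℂ)) ^ (1 / 2 : ℂ) = (((lam ^ 2 : ℝ) ^ (1 / 2 : ℝ) : ℝ) : ℂ) := by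
        rw [Complex.ofReal_cpow (by positivity)]
        push_cast
        rfl
      rw [h3, ← Real.sqrt_eq_rpow, Real.sqrt_sq hl.le]
    rw [h1, h2]
    rw [Complex.ofReal_mul, Complex.ofReal_exp]
    congr 2
    push_cast
    have hI : Complex.I ^ 2 = -1 := Complex.I_sq
    field_simp
    linear_combination ((π : ℂ) * (x : ℂ) ^ 2 * lam ^ 2 * 4) * hI
  constructor
  · refine hint2.re.congr (Filter.Eventually.of_forall fun α => ?_)
    exact hre α
  · have h4 := integral_re hint2
    rw [hval2] at h4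
    have h5 : ∫ α : ℝ, Real.exp (-(π * (α / lam) ^ 2)) * (e (α * x)).re =
        ∫ α : ℝ, RCLike.re (((Real.exp (-(π * (α / lam) ^ 2)) : ℝ) : ℂ) * e (α * x)) := by
      refine MeasureTheory.integral_congr_ae (Filter.Eventually.of_forall fun α => ?_)
      exact (hre α).symm
    rw [h5, h4]
    exact Complex.ofReal_re _

theorem gau_d {ι : Type} (T : Finset ι) (c U V : ι → ℝ) (lam : ℝ) (hl : 0 < lam) :
    MeasureTheory.Integrable (fun α : ℝ => Real.exp (-(π * (α / lam) ^ 2)) *
      ∫ β : ℝ, Real.exp (-(π * (β / lam) ^ 2)) * ‖F2 T c U V α β‖ ^ 2) ∧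
    ∫ α : ℝ, Real.exp (-(π * (α / lam) ^ 2)) *
      ∫ β : ℝ, Real.exp (-(π * (β / lam) ^ 2)) * ‖F2 T c U V α β‖ ^ 2 =
      lam ^ 2 * ∑ t ∈ T, ∑ t' ∈ T, c t * c t' *
        Real.exp (-(π * lam ^ 2 * ((U t - U t') ^ 2 + (V t - V t') ^ 2))) := by
  have hin : ∀ α : ℝ, ∫ β : ℝ, Real.exp (-(π * (β / lam) ^ 2)) * ‖F2 T c U V α β‖ ^ 2 =
      lam * ∑ t ∈ T, ∑ t' ∈ T, (c t * c t' * (e (α * (U t - U t'))).re) * Real.exp (-(π * (lam * (V t - V t')) ^ 2)) := by
    intro α
    have h1 := (gau_c T (fun t => (c t : ℂ) * e (α * U t)) V lam hl).2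
    have h2 : ∀ β : ℝ, F2 T c U V α β = ∑ t ∈ T, ((c t : ℂ) * e (α * U t)) * e (β * V t) := by
      intro β
      unfold F2
      refine Finset.sum_congr rfl fun t _ => ?_
      rw [e_add, mul_assoc]
    simp only [h2]
    rw [h1]
    congr 1
    refine Finset.sum_congr rfl fun t _ => Finset.sum_congr rfl fun t' _ => ?_
    congr 1
    have h3 : ((c t : ℂ) * e (α * U t)) * (starRingEnd ℂ) ((c t' : ℂ) * e (α * U t')) =
        ((c t * c t' : ℝ) : ℂ) * e (α * (U t - U t')) := by
      rw [map_mul, Complex.conj_ofReal, conj_e]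
      have h4 : α * (U t - U t') = α * U t + -(α * U t') := by ring
      rw [h4, e_add]
      push_cast
      ring
    rw [h3, Complex.re_ofReal_mul]
  have hfun : (fun α : ℝ => Real.exp (-(π * (α / lam) ^ 2)) *
      ∫ β : ℝ, Real.exp (-(π * (β / lam) ^ 2)) * ‖F2 T c U V α β‖ ^ 2) =
      fun α : ℝ => ∑ t ∈ T, ∑ t' ∈ T, (lam * (c t * c t') * Real.exp (-(π * (lam * (V t - V t')) ^ 2))) *
        (Real.exp (-(π * (α / lam) ^ 2)) * (e (α * (U t - U t'))).re) := by
    funext α
    rw [hin α, Finset.mul_sum, Finset.mul_sum]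
    refine Finset.sum_congr rfl fun t _ => ?_
    rw [Finset.mul_sum, Finset.mul_sum]
    refine Finset.sum_congr rfl fun t' _ => ?_
    ring
  have hI : ∀ t t' : ι, MeasureTheory.Integrable
      (fun α : ℝ => (lam * (c t * c t') * Real.exp (-(π * (lam * (V t - V t')) ^ 2))) *
        (Real.exp (-(π * (α / lam) ^ 2)) * (e (α * (U t - U t'))).re)) := fun t t' =>
    (gauD_one (U t - U t') lam hl).1.const_mul _
  rw [hfun]
  constructor
  · exact MeasureTheory.integrable_finsetSum _ fun t _ => MeasureTheory.integrable_finsetSum _ fun t' _ => hI t t'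
  · rw [MeasureTheory.integral_finsetSum _ fun t _ => MeasureTheory.integrable_finsetSum _ fun t' _ => hI t t',
      Finset.mul_sum]
    refine Finset.sum_congr rfl fun t _ => ?_
    rw [MeasureTheory.integral_finsetSum _ fun t' _ => hI t t', Finset.mul_sum]
    refine Finset.sum_congr rfl fun t' _ => ?_
    rw [MeasureTheory.integral_const_mul, (gauD_one (U t - U t') lam hl).2]
    have h6 : Real.exp (-(π * lam ^ 2 * ((U t - U t') ^ 2 + (V t - V t') ^ 2))) =
        Real.exp (-(π * (lam * (V t - V t')) ^ 2)) * Real.exp (-(π * (lam * (U t - U t')) ^ 2)) := by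
      rw [← Real.exp_add]
      congr 1
      ring
    rw [h6]
    ring

end Pool.Agent.Lib.MP_570bef_ntW
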