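import Mathlib
import Pool.Agent.Lib.MP_570bef_ntW.D2

/-!
# SepS: Gaussian sum over a separated set

Group the `b ∈ B` by `n = ⌊|x - b|/ρ⌋₊`. In each group there are at most 2 elements (on each side of `x` the `b` with `n ρ ≤ |x - b| < (n+1) ρ` are in a half open interval of length `ρ` and have distances `≥ ρ`). With `q = Y ρ`: `exp (-(π/2) (Y (x-b))²) ≤ exp (-(q n)²) ≤ 1/(1 + q² n²)` (`π/2 ≥ 1`, `Real.add_one_le_exp`). So the sum is `≤ 2 ∑_{n < N} 1/(1 + q² n²)`, and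
`∑_{n < N} 1/(1 + q² n²) ≤ 1 + 3/q`: if `q ≥ 1`: `≤ 1 + q^(-2) ∑_{n ≥ 1} 1/n² ≤ 1 + 2/q`; if `q < 1`: at most `1/q + 1` terms with `n ≤ 1/q`, and `q^(-2) ∑_{n > 1/q} 1/n² ≤ 2/q` (`∑_{n > y} 1/n² ≤ 2/y` for `y ≥ 1`, telescoping `1/n² ≤ 1/(n-1) - 1/n`). Any correct argument is fine (for instance comparison with `1 + (1/q) ∫ 1/(1+y²)`), the constant 8 is generous.
-/

set_option autoImplicit false

open Finset Real Polynomial
open Pool.Agent.Lib.MP_2a816b_nt (e nn norm_e conj_e e_add e_neg)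

namespace Pool.Agent.Lib.MP_570bef_ntW

open Pool.Agent.Lib.MP_570bef_ntS (kap Dio)

private theorem SepS_step (q : ℝ) (hq : 0 < q) (N : ℕ) :
    ∑ k ∈ Finset.range (N + 1), 1 / (1 + (q * (k : ℝ)) ^ 2) ≤ 1 + 2 / q * (1 - 1 / (1 + q * (N : ℝ))) := by
  induction N with
  | zero => simp
  | succ N ih =>
    rw [Finset.sum_range_succ]
    have h : 1 / (1 + (q * ((N + 1 : ℕ) : ℝ)) ^ 2) ≤
        2 / q * (1 / (1 + q * (N : ℝ)) - 1 / (1 + q * ((N + 1 : ℕ) : ℝ))) := by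
      have ha : 0 ≤ q * (N : ℝ) := by positivity
      have hb : q * ((N + 1 : ℕ) : ℝ) = q * (N : ℝ) + q := by
        push_cast
        ring
      rw [hb]
      obtain ⟨a, ha'⟩ : ∃ a, a = q * (N : ℝ) := ⟨_, rfl⟩
      rw [← ha'] at ha ⊢
      have e : 2 / q * (1 / (1 + a) - 1 / (1 + (a + q))) = 2 / ((1 + a) * (1 + (a + q))) := by
        have h1 : 1 + a ≠ 0 := by positivity
        have h2 : 1 + (a + q) ≠ 0 := by positivity
        field_simp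
        ring
      rw [e, div_le_div_iff₀ (by positivity) (by positivity)]
      nlinarith [sq_nonneg (a + q - 1), mul_nonneg hq.le ha, mul_nonneg hq.le hq.le]
    have h3 : 2 / q * (1 - 1 / (1 + q * ((N + 1 : ℕ) : ℝ))) = 2 / q * (1 - 1 / (1 + q * (N : ℝ))) +
        2 / q * (1 / (1 + q * (N : ℝ)) - 1 / (1 + q * ((N + 1 : ℕ) : ℝ))) := by ring
    rw [h3]
    linarith

private theorem SepS_sum (q : ℝ) (hq : 0 < q) (N : ℕ) :
    ∑ k ∈ Finset.range N, 1 / (1 + (q * (k : ℝ)) ^ 2) ≤ 1 + 2 / q := by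
  have h1 : ∑ k ∈ Finset.range N, 1 / (1 + (q * (k : ℝ)) ^ 2) ≤
      ∑ k ∈ Finset.range (N + 1), 1 / (1 + (q * (k : ℝ)) ^ 2) := by
    rw [Finset.sum_range_succ]
    have : 0 ≤ 1 / (1 + (q * (N : ℝ)) ^ 2) := by positivity
    linarith
  have h2 := SepS_step q hq N
  have h3 : 2 / q * (1 - 1 / (1 + q * (N : ℝ))) ≤ 2 / q * 1 := by
    refine mul_le_mul_of_nonneg_left ?_ (by positivity)
    have : 0 ≤ 1 / (1 + q * (N : ℝ)) := by positivity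
    linarith
  linarith

private theorem SepS_exp (t : ℝ) : Real.exp (-(π / 2 * t ^ 2)) ≤ 1 / (1 + t ^ 2) := by
  rw [Real.exp_neg, one_div]
  refine inv_anti₀ (by positivity) ?_
  have h1 := Real.add_one_le_exp (π / 2 * t ^ 2)
  have h2 : t ^ 2 ≤ π / 2 * t ^ 2 := by
    have := Real.pi_gt_three
    nlinarith [sq_nonneg t]
  linarith

private theorem SepS_half (B : Finset ℝ) (f : ℝ → ℝ) (ρ Y : ℝ) (hρ : 0 < ρ) (hY : 0 < Y)
    (h0 : ∀ b ∈ B, 0 ≤ f b) (hB : ∀ b ∈ B, ∀ b' ∈ B, b ≠ b' → ρ ≤ |f b - f b'|) :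
    ∑ b ∈ B, Real.exp (-(π / 2 * (Y * f b) ^ 2)) ≤ 1 + 2 / (Y * ρ) := by
  have hq : 0 < Y * ρ := mul_pos hY hρ
  have hinj : Set.InjOn (fun b => ⌊f b / ρ⌋₊) (B : Set ℝ) := by
    intro b hb b' hb' h
    by_contra hne
    have h1 := hB b hb b' hb' hne
    have h2 : (⌊f b / ρ⌋₊ : ℝ) = (⌊f b' / ρ⌋₊ : ℝ) := by
      have h2' : ⌊f b / ρ⌋₊ = ⌊f b' / ρ⌋₊ := h
      rw [h2']
    have h3 := Nat.floor_le (div_nonneg (h0 b hb) hρ.le)
    have h4 := Nat.lt_floor_add_one (f b / ρ)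
    have h5 := Nat.floor_le (div_nonneg (h0 b' hb') hρ.le)
    have h6 := Nat.lt_floor_add_one (f b' / ρ)
    have h7 : |f b / ρ - f b' / ρ| < 1 := by
      rw [abs_lt]
      constructor <;> linarith
    rw [← sub_div, abs_div, abs_of_pos hρ, div_lt_one hρ] at h7
    linarith
  obtain ⟨N, hN⟩ : ∃ N : ℕ, ∀ b ∈ B, ⌊f b / ρ⌋₊ < N := by
    refine ⟨B.sup (fun b => ⌊f b / ρ⌋₊) + 1, fun b hb => ?_⟩
    exact Nat.lt_succ_of_le (Finset.le_sup (f := fun b => ⌊f b / ρ⌋₊) hb)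
  have h1 : ∑ b ∈ B, Real.exp (-(π / 2 * (Y * f b) ^ 2)) ≤
      ∑ b ∈ B, 1 / (1 + (Y * ρ * ((⌊f b / ρ⌋₊ : ℕ) : ℝ)) ^ 2) := by
    refine Finset.sum_le_sum fun b hb => (SepS_exp _).trans ?_
    refine one_div_le_one_div_of_le (by positivity) ?_
    have h3 := Nat.floor_le (div_nonneg (h0 b hb) hρ.le)
    rw [le_div_iff₀ hρ] at h3
    have h4 : Y * ρ * ((⌊f b / ρ⌋₊ : ℕ) : ℝ) ≤ Y * f b := by
      calc Y * ρ * ((⌊f b / ρ⌋₊ : ℕ) : ℝ) = Y * (((⌊f b / ρ⌋₊ : ℕ) : ℝ) * ρ) := by ring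
        _ ≤ Y * f b := mul_le_mul_of_nonneg_left h3 hY.le
    have h5 : (Y * ρ * ((⌊f b / ρ⌋₊ : ℕ) : ℝ)) ^ 2 ≤ (Y * f b) ^ 2 :=
      pow_le_pow_left₀ (by positivity) h4 2
    linarith
  have h2 : ∑ b ∈ B, 1 / (1 + (Y * ρ * ((⌊f b / ρ⌋₊ : ℕ) : ℝ)) ^ 2) =
      ∑ k ∈ B.image (fun b => ⌊f b / ρ⌋₊), 1 / (1 + (Y * ρ * (k : ℝ)) ^ 2) := by
    rw [Finset.sum_image hinj]
  have h3 : ∑ k ∈ B.image (fun b => ⌊f b / ρ⌋₊), 1 / (1 + (Y * ρ * (k : ℝ)) ^ 2) ≤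
      ∑ k ∈ Finset.range N, 1 / (1 + (Y * ρ * (k : ℝ)) ^ 2) := by
    refine Finset.sum_le_sum_of_subset_of_nonneg ?_ fun _ _ _ => by positivity
    intro k hk
    rw [Finset.mem_image] at hk
    obtain ⟨b, hb, rfl⟩ := hk
    exact Finset.mem_range.2 (hN b hb)
  linarith [SepS_sum (Y * ρ) hq N]

theorem sep_sum (B : Finset ℝ) (ρ Y x : ℝ) (hρ : 0 < ρ) (hY : 0 < Y) (hB : Sepd B ρ) :
    ∑ b ∈ B, Real.exp (-(π / 2 * (Y * (x - b)) ^ 2)) ≤ 8 * (1 + 1 / (Y * ρ)) := by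
  classical
  have h1 : ∑ b ∈ B, Real.exp (-(π / 2 * (Y * (x - b)) ^ 2)) =
      ∑ b ∈ B.filter (fun b => b ≤ x), Real.exp (-(π / 2 * (Y * (x - b)) ^ 2)) +
      ∑ b ∈ B.filter (fun b => ¬ b ≤ x), Real.exp (-(π / 2 * (Y * (x - b)) ^ 2)) :=
    (Finset.sum_filter_add_sum_filter_not _ _ _).symm
  have h2 : ∑ b ∈ B.filter (fun b => b ≤ x), Real.exp (-(π / 2 * (Y * (x - b)) ^ 2)) ≤
      1 + 2 / (Y * ρ) := by
    refine SepS_half _ (fun b => x - b) ρ Y hρ hY (fun b hb => ?_) fun b hb b' hb' hne => ?_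
    · have := (Finset.mem_filter.1 hb).2
      linarith
    · have h3 := hB b' (Finset.mem_filter.1 hb').1 b (Finset.mem_filter.1 hb).1 hne.symm
      have h4 : x - b - (x - b') = b' - b := by ring
      rw [h4]
      exact h3
  have h3 : ∑ b ∈ B.filter (fun b => ¬ b ≤ x), Real.exp (-(π / 2 * (Y * (x - b)) ^ 2)) ≤
      1 + 2 / (Y * ρ) := by
    have h4 : ∑ b ∈ B.filter (fun b => ¬ b ≤ x), Real.exp (-(π / 2 * (Y * (x - b)) ^ 2)) =
        ∑ b ∈ B.filter (fun b => ¬ b ≤ x), Real.exp (-(π / 2 * (Y * (b - x)) ^ 2)) := by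
      refine Finset.sum_congr rfl fun b _ => ?_
      have h5 : (Y * (x - b)) ^ 2 = (Y * (b - x)) ^ 2 := by ring
      rw [h5]
    rw [h4]
    refine SepS_half _ (fun b => b - x) ρ Y hρ hY (fun b hb => ?_) fun b hb b' hb' hne => ?_
    · have := (Finset.mem_filter.1 hb).2
      linarith
    · have h3 := hB b (Finset.mem_filter.1 hb).1 b' (Finset.mem_filter.1 hb').1 hne
      have h4 : b - x - (b' - x) = b - b' := by ring
      rw [h4]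
      exact h3
  have hq : 0 < Y * ρ := mul_pos hY hρ
  have h4 : 8 * (1 + 1 / (Y * ρ)) = 8 + 4 * (2 / (Y * ρ)) := by ring
  have h5 : 0 < 2 / (Y * ρ) := by positivity
  rw [h1, h4]
  linarith

end Pool.Agent.Lib.MP_570bef_ntW
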