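import Mathlib
import Pool.Agent.Lib.MP_570bef_ntW.GauC

/-!
# Smear: a value of the sum is bounded by a Gaussian average

Let `c t = exp (π (V t/Y)²)`, `b t = e (α U t + β0 V t)`. By `gau_c` (with `lam = 1/Y`, `a t = c t b t`, `W = V`, after the substitution `β = β0 + u`: `integral_add_left_eq_self` or `integral_sub_right_eq_self`) the right side is `Y * (1/Y) ∑∑ c t c t' (b t conj (b t')).re exp (-π ((V t - V t')/Y)²) = ∑∑ (b t conj (b t')).re exp (2π V t V t'/Y²)`, because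
`(V t)² + (V t')² - (V t - V t')² = 2 V t V t'`. Expand `exp (2π V t V t'/Y²) = ∑_n (2π/Y²)^n/n! (V t)^n (V t')^n`: the double sum is `∑_n (2π/Y²)^n/n! ‖∑ (V t)^n b t‖²` and the term `n = 0` is `‖∑ b t‖²`, all the terms are `≥ 0` (HasSum, `Real.hasSum_exp`-type lemma, finite sums of summable families; `le_hasSum` / `sum_le_hasSum` with the term 0).
Other possibility: `F2 T 1 U V α β0 = ∫ Y exp (-π (Y u)²) F2 T c U V α (β0 + u) du` and Cauchy-Schwarz with the probability density `Y exp (-π (Y u)²)`. (The condition `|V t| ≤ Y` is not needed.)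
-/

set_option autoImplicit false

open Finset Real Polynomial
open Pool.Agent.Lib.MP_2a816b_nt (e nn norm_e conj_e e_add e_neg)

namespace Pool.Agent.Lib.MP_570bef_ntW

open Pool.Agent.Lib.MP_570bef_ntS (kap Dio)

private theorem Smear_nsq {ι : Type} (T : Finset ι) (z : ι → ℂ) :
    ‖∑ t ∈ T, z t‖ ^ 2 = ∑ t ∈ T, ∑ t' ∈ T, (z t * (starRingEnd ℂ) (z t')).re := by
  rw [← Complex.normSq_eq_norm_sq, ← Complex.ofReal_re (Complex.normSq _), ← Complex.mul_conj, map_sum,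
    Finset.sum_mul_sum, Complex.re_sum]
  exact Finset.sum_congr rfl fun t _ => Complex.re_sum _ _

private theorem Smear_re (x y : ℝ) (z w : ℂ) :
    ((x : ℂ) * z * (starRingEnd ℂ) ((y : ℂ) * w)).re = (z * (starRingEnd ℂ) w).re * (x * y) := by
  have h1 : (x : ℂ) * z * (starRingEnd ℂ) ((y : ℂ) * w) = ((x * y : ℝ) : ℂ) * (z * (starRingEnd ℂ) w) := by
    rw [map_mul, Complex.conj_ofReal]
    push_cast
    ring
  rw [h1, Complex.re_ofReal_mul]
  ring

private theorem Smear_pos {ι : Type} (T : Finset ι) (b : ι → ℂ) (V : ι → ℝ) (q : ℝ) (hq : 0 ≤ q) :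
    ‖∑ t ∈ T, b t‖ ^ 2 ≤ ∑ t ∈ T, ∑ t' ∈ T, (b t * (starRingEnd ℂ) (b t')).re * Real.exp (q * (V t * V t')) := by
  have h1 : HasSum (fun n : ℕ => ∑ t ∈ T, ∑ t' ∈ T, (b t * (starRingEnd ℂ) (b t')).re *
      ((q * (V t * V t')) ^ n / n.factorial))
      (∑ t ∈ T, ∑ t' ∈ T, (b t * (starRingEnd ℂ) (b t')).re * Real.exp (q * (V t * V t'))) := by
    refine hasSum_sum fun t _ => hasSum_sum fun t' _ => HasSum.mul_left _ ?_
    have h2 := NormedSpace.expSeries_div_hasSum_exp (𝔸 := ℝ) (q * (V t * V t'))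
    rwa [← Real.exp_eq_exp_ℝ] at h2
  have h3 : ∀ n : ℕ, ∑ t ∈ T, ∑ t' ∈ T, (b t * (starRingEnd ℂ) (b t')).re *
      ((q * (V t * V t')) ^ n / n.factorial) = q ^ n / n.factorial * ‖∑ t ∈ T, ((V t ^ n : ℝ) : ℂ) * b t‖ ^ 2 := by
    intro n
    rw [Smear_nsq, Finset.mul_sum]
    refine Finset.sum_congr rfl fun t _ => ?_
    rw [Finset.mul_sum]
    refine Finset.sum_congr rfl fun t' _ => ?_
    rw [Smear_re, mul_pow, mul_pow]
    ring
  have h4 := le_hasSum h1 0 (fun n _ => by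
    rw [h3]
    positivity)
  simp only [h3] at h4
  simpa using h4

theorem smear {ι : Type} (T : Finset ι) (U V : ι → ℝ) (Y : ℝ) (hY : 0 < Y) (α β0 : ℝ) :
    MeasureTheory.Integrable (fun β : ℝ => Y * Real.exp (-(π * (Y * (β - β0)) ^ 2)) *
      ‖F2 T (fun t => Real.exp (π * (V t / Y) ^ 2)) U V α β‖ ^ 2) ∧
    ‖F2 T (fun _ => 1) U V α β0‖ ^ 2 ≤
      ∫ β : ℝ, Y * Real.exp (-(π * (Y * (β - β0)) ^ 2)) *
        ‖F2 T (fun t => Real.exp (π * (V t / Y) ^ 2)) U V α β‖ ^ 2 := by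
  have key := gau_c T (fun t => (Real.exp (π * (V t / Y) ^ 2) : ℂ) * e (α * U t + β0 * V t)) V (1 / Y) (by positivity)
  obtain ⟨k1, k2⟩ := key
  have hF : ∀ β : ℝ, Y * Real.exp (-(π * (Y * (β - β0)) ^ 2)) *
        ‖F2 T (fun t => Real.exp (π * (V t / Y) ^ 2)) U V α β‖ ^ 2 =
      Y * (Real.exp (-(π * ((β - β0) / (1 / Y)) ^ 2)) *
        ‖∑ t ∈ T, ((Real.exp (π * (V t / Y) ^ 2) : ℂ) * e (α * U t + β0 * V t)) * e ((β - β0) * V t)‖ ^ 2) := by
    intro β
    have h1 : (β - β0) / (1 / Y) = Y * (β - β0) := by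
      rw [div_div_eq_mul_div, div_one, mul_comm]
    have h2 : F2 T (fun t => Real.exp (π * (V t / Y) ^ 2)) U V α β =
        ∑ t ∈ T, ((Real.exp (π * (V t / Y) ^ 2) : ℂ) * e (α * U t + β0 * V t)) * e ((β - β0) * V t) := by
      unfold F2
      refine Finset.sum_congr rfl fun t _ => ?_
      rw [mul_assoc, ← e_add]
      push_cast
      congr 2
      ring
    rw [h1, h2, mul_assoc]
  simp_rw [hF]
  refine ⟨(k1.comp_sub_right β0).const_mul Y, ?_⟩
  rw [MeasureTheory.integral_const_mul, MeasureTheory.integral_sub_right_eq_self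
    (fun β : ℝ => Real.exp (-(π * (β / (1 / Y)) ^ 2)) *
      ‖∑ t ∈ T, ((Real.exp (π * (V t / Y) ^ 2) : ℂ) * e (α * U t + β0 * V t)) * e (β * V t)‖ ^ 2) β0, k2,
    ← mul_assoc, mul_one_div_cancel hY.ne', one_mul]
  have h5 := Smear_pos T (fun t => e (α * U t + β0 * V t)) V (2 * π / Y ^ 2) (by positivity)
  have h6 : F2 T (fun _ => 1) U V α β0 = ∑ t ∈ T, e (α * U t + β0 * V t) := by
    unfold F2
    refine Finset.sum_congr rfl fun t _ => ?_
    push_cast
    rw [one_mul]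
  rw [h6]
  refine h5.trans (le_of_eq ?_)
  refine Finset.sum_congr rfl fun t _ => Finset.sum_congr rfl fun t' _ => ?_
  have h7 := Smear_re (Real.exp (π * (V t / Y) ^ 2)) (Real.exp (π * (V t' / Y) ^ 2))
    (e (α * U t + β0 * V t)) (e (α * U t' + β0 * V t'))
  push_cast at h7 ⊢
  rw [h7, mul_assoc, ← Real.exp_add, ← Real.exp_add]
  congr 2
  field_simp
  ring

end Pool.Agent.Lib.MP_570bef_ntW
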