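import Mathlib
import Pool.Agent.Lib.MP_570bef_ntW.Smear
import Pool.Agent.Lib.MP_570bef_ntW.SepS

/-!
# PtW: the sum over separated parameters for one frequency

`smear` with `β0 = α θ` for every `θ ∈ B`; sum (`integral_finset_sum`): the left side is `≤ ∫ S β * G β dβ`, `G β = ‖F2 T c U V α β‖²`, `S β = ∑_{θ ∈ B} Y exp (-π (Y (β - α θ))²)`. Claim: `S β ≤ 200 Y (1 + 1/A) exp (-π (β/(4A))²)` for all `β`; then `integral_mono` (integrability of the right side: `gau_c` with `a t = c t e (α U t)`, `lam = 4A`).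
Let `α ≠ 0`; the set `α B` (image, injective) is `|α|/Y`-separated: `sep_sum`: `∑_{θ} exp (-(π/2)(Y (β - αθ))²) ≤ 8 (1 + 1/|α|) ≤ 8 (1 + 1/A)`. (i) `|β| ≤ 4A`: `exp (-π (β/(4A))²) ≥ exp (-π) ≥ 1/25`, so `S β ≤ 8 Y (1 + 1/A) ≤ 200 Y (1+1/A) exp (-π (β/(4A))²)`. (`exp π < 25`: `π < 3.15`, `exp 3.15 < 2.7182818286^3.15 < 24`; e.g. `exp π ≤ exp (22/7)`, `Real.exp_one_lt_d9`, `exp (1) ^ 3 * exp (0.15)`, any way.)
(ii) `|β| > 4A`: `|α θ| ≤ 2A`, `|β - αθ| ≥ |β|/2`, so `(β - αθ)² ≥ (β - αθ)²/2 + β²/8` and `Y² β²/8 ≥ (β/(4A))²` because `Y A ≥ 1`: `S β ≤ Y exp (-π (β/(4A))²) ∑ exp (-(π/2)(Y (β - αθ))²) ≤ 8 Y (1 + 1/A) exp (-π (β/(4A))²)`.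
-/

set_option autoImplicit false

open Finset Real Polynomial
open Pool.Agent.Lib.MP_2a816b_nt (e nn norm_e conj_e e_add e_neg)

namespace Pool.Agent.Lib.MP_570bef_ntW

open Pool.Agent.Lib.MP_570bef_ntS (kap Dio)

private theorem PtW_exp : Real.exp π < 25 := by
  have h1 : Real.exp π ≤ Real.exp 3 * Real.exp (15 / 100) := by
    rw [← Real.exp_add]
    exact Real.exp_le_exp.2 (by linarith [Real.pi_lt_d2])
  have h2 : Real.exp 3 = Real.exp 1 ^ 3 := by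
    rw [← Real.exp_nat_mul]
    norm_num
  have h3 : Real.exp 1 ^ 3 < 2.7182818286 ^ 3 :=
    pow_lt_pow_left₀ Real.exp_one_lt_d9 (Real.exp_pos _).le (by norm_num)
  have h4 : Real.exp (15 / 100) ≤ 100 / 85 := by
    have h5 := Real.add_one_le_exp (-(15 / 100) : ℝ)
    rw [Real.exp_neg] at h5
    have h6 : (85 / 100 : ℝ) ≤ (Real.exp (15 / 100))⁻¹ := by linarith
    have h7 := inv_anti₀ (by norm_num) h6
    rw [inv_inv] at h7
    linarith
  rw [h2] at h1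
  have h8 : (0 : ℝ) < Real.exp 1 ^ 3 := by positivity
  have h9 : Real.exp 1 ^ 3 * Real.exp (15 / 100) ≤ Real.exp 1 ^ 3 * (100 / 85) :=
    mul_le_mul_of_nonneg_left h4 h8.le
  have h10 : Real.exp 1 ^ 3 * (100 / 85) ≤ 2.7182818286 ^ 3 * (100 / 85) :=
    mul_le_mul_of_nonneg_right h3.le (by norm_num)
  have h11 : (2.7182818286 ^ 3 * (100 / 85) : ℝ) < 25 := by norm_num
  linarith

private theorem PtW_exp' : 1 ≤ 25 * Real.exp (-π) := by
  rw [Real.exp_neg]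
  have h := PtW_exp
  rw [← div_eq_mul_inv, le_div_iff₀ (Real.exp_pos _)]
  linarith

private theorem PtW_half (B : Finset ℝ) (Y A : ℝ) (hY : 0 < Y) (hA : 0 < A) (hB : Sepd B (1 / Y)) (α β : ℝ)
    (h1 : A ≤ |α|) : ∑ θ ∈ B, Real.exp (-(π / 2 * (Y * (β - α * θ)) ^ 2)) ≤ 8 * (1 + 1 / A) := by
  have hα : 0 < |α| := hA.trans_le h1
  have hα0 : α ≠ 0 := abs_pos.1 hα
  have hinj : Set.InjOn (fun θ : ℝ => α * θ) (B : Set ℝ) := fun x _ y _ h => mul_left_cancel₀ hα0 h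
  have h3 := sep_sum (B.image fun θ => α * θ) (|α| * (1 / Y)) Y β (by positivity) hY (by
    intro x hx y hy hxy
    obtain ⟨θ, hθ, rfl⟩ := Finset.mem_image.1 hx
    obtain ⟨η, hη, rfl⟩ := Finset.mem_image.1 hy
    have h4 : θ ≠ η := fun h => hxy (by rw [h])
    show |α| * (1 / Y) ≤ |α * θ - α * η|
    rw [← mul_sub, abs_mul]
    exact mul_le_mul_of_nonneg_left (hB θ hθ η hη h4) hα.le)
  rw [Finset.sum_image hinj] at h3
  have h5 : 1 / (Y * (|α| * (1 / Y))) = 1 / |α| := by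
    congr 1
    field_simp
  rw [h5] at h3
  have h6 : 1 / |α| ≤ 1 / A := one_div_le_one_div_of_le hA h1
  linarith

private theorem PtW_pt (B : Finset ℝ) (Y A : ℝ) (hY : 0 < Y) (hA : 0 < A) (hYA : 1 ≤ Y * A)
    (hB : Sepd B (1 / Y)) (hB1 : ∀ θ ∈ B, 0 ≤ θ ∧ θ ≤ 1) (α β : ℝ)
    (h1 : A ≤ |α|) (h2 : |α| ≤ 2 * A) :
    ∑ θ ∈ B, Y * Real.exp (-(π * (Y * (β - α * θ)) ^ 2)) ≤
      200 * Y * (1 + 1 / A) * Real.exp (-(π * (β / (4 * A)) ^ 2)) := by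
  have hh := PtW_half B Y A hY hA hB α β h1
  have hπ := Real.pi_pos
  have hA1 : 0 < 1 + 1 / A := by positivity
  rw [← Finset.mul_sum]
  rcases le_or_gt |β| (4 * A) with hb | hb
  · have h3 : ∑ θ ∈ B, Real.exp (-(π * (Y * (β - α * θ)) ^ 2)) ≤
        ∑ θ ∈ B, Real.exp (-(π / 2 * (Y * (β - α * θ)) ^ 2)) := by
      refine Finset.sum_le_sum fun θ _ => Real.exp_le_exp.2 ?_
      have h4 : 0 ≤ π * (Y * (β - α * θ)) ^ 2 := by positivity
      linarith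
    have h5 : Real.exp (-π) ≤ Real.exp (-(π * (β / (4 * A)) ^ 2)) := by
      refine Real.exp_le_exp.2 (neg_le_neg ?_)
      have h6 : (β / (4 * A)) ^ 2 ≤ 1 := by
        rw [sq_le_one_iff_abs_le_one, abs_div, abs_of_pos (show (0 : ℝ) < 4 * A by positivity)]
        exact (div_le_one (by positivity)).2 hb
      nlinarith
    have h7 : 1 ≤ 25 * Real.exp (-(π * (β / (4 * A)) ^ 2)) := by
      linarith [PtW_exp']
    calc Y * ∑ θ ∈ B, Real.exp (-(π * (Y * (β - α * θ)) ^ 2)) ≤ Y * (8 * (1 + 1 / A)) :=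
          mul_le_mul_of_nonneg_left (h3.trans hh) hY.le
      _ = 8 * Y * (1 + 1 / A) * 1 := by ring
      _ ≤ 8 * Y * (1 + 1 / A) * (25 * Real.exp (-(π * (β / (4 * A)) ^ 2))) :=
          mul_le_mul_of_nonneg_left h7 (by positivity)
      _ = _ := by ring
  · have h3 : ∀ θ ∈ B, Real.exp (-(π * (Y * (β - α * θ)) ^ 2)) ≤
        Real.exp (-(π * (β / (4 * A)) ^ 2)) * Real.exp (-(π / 2 * (Y * (β - α * θ)) ^ 2)) := by
      intro θ hθ
      rw [← Real.exp_add]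
      refine Real.exp_le_exp.2 ?_
      obtain ⟨ht0, ht1⟩ := hB1 θ hθ
      have h4 : |α * θ| ≤ 2 * A := by
        rw [abs_mul, abs_of_nonneg ht0]
        calc |α| * θ ≤ |α| * 1 := mul_le_mul_of_nonneg_left ht1 (abs_nonneg _)
          _ ≤ 2 * A := by rw [mul_one]; exact h2
      have h5 : |β| / 2 ≤ |β - α * θ| := by
        have h6 := abs_sub_abs_le_abs_sub β (α * θ)
        linarith
      have h7 : (|β| / 2) ^ 2 ≤ |β - α * θ| ^ 2 := pow_le_pow_left₀ (by positivity) h5 2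
      rw [sq_abs, div_pow, sq_abs] at h7
      have h8 : (β / (4 * A)) ^ 2 ≤ 1 / 2 * (Y * (β - α * θ)) ^ 2 := by
        have h9 : 1 ≤ (Y * A) ^ 2 := one_le_pow₀ hYA
        have h10 : (β / (4 * A)) ^ 2 ≤ Y ^ 2 * (β ^ 2 / 2 ^ 2) / 2 := by
          rw [div_pow, div_le_iff₀ (by positivity)]
          have h11 : Y ^ 2 * (β ^ 2 / 2 ^ 2) / 2 * (4 * A) ^ 2 = 2 * ((Y * A) ^ 2 * β ^ 2) := by ring
          rw [h11]
          nlinarith [sq_nonneg β, mul_le_mul_of_nonneg_right h9 (sq_nonneg β)]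
        have h12 : Y ^ 2 * (β ^ 2 / 2 ^ 2) ≤ Y ^ 2 * (β - α * θ) ^ 2 :=
          mul_le_mul_of_nonneg_left h7 (sq_nonneg Y)
        rw [mul_pow]
        linarith
      have h13 := mul_le_mul_of_nonneg_left h8 hπ.le
      linarith
    calc Y * ∑ θ ∈ B, Real.exp (-(π * (Y * (β - α * θ)) ^ 2)) ≤
          Y * ∑ θ ∈ B, Real.exp (-(π * (β / (4 * A)) ^ 2)) * Real.exp (-(π / 2 * (Y * (β - α * θ)) ^ 2)) :=
          mul_le_mul_of_nonneg_left (Finset.sum_le_sum h3) hY.le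
      _ = Y * Real.exp (-(π * (β / (4 * A)) ^ 2)) * ∑ θ ∈ B, Real.exp (-(π / 2 * (Y * (β - α * θ)) ^ 2)) := by
          rw [← Finset.mul_sum]
          ring
      _ ≤ Y * Real.exp (-(π * (β / (4 * A)) ^ 2)) * (8 * (1 + 1 / A)) :=
          mul_le_mul_of_nonneg_left hh (by positivity)
      _ = 8 * (Y * (1 + 1 / A) * Real.exp (-(π * (β / (4 * A)) ^ 2))) := by ring
      _ ≤ 200 * (Y * (1 + 1 / A) * Real.exp (-(π * (β / (4 * A)) ^ 2))) :=
          mul_le_mul_of_nonneg_right (by norm_num) (by positivity)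
      _ = _ := by ring

theorem pt_w {ι : Type} (T : Finset ι) (U V : ι → ℝ) (Y A : ℝ) (hY : 0 < Y) (hA : 0 < A)
    (hYA : 1 ≤ Y * A) (B : Finset ℝ) (hB : Sepd B (1 / Y)) (hB1 : ∀ θ ∈ B, 0 ≤ θ ∧ θ ≤ 1) (α : ℝ)
    (h1 : A ≤ |α|) (h2 : |α| ≤ 2 * A) :
    ∑ θ ∈ B, ‖F2 T (fun _ => 1) U V α (α * θ)‖ ^ 2 ≤
      200 * Y * (1 + 1 / A) * ∫ β : ℝ, Real.exp (-(π * (β / (4 * A)) ^ 2)) *
        ‖F2 T (fun t => Real.exp (π * (V t / Y) ^ 2)) U V α β‖ ^ 2 := by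
  have hG : ∀ β : ℝ, F2 T (fun t => Real.exp (π * (V t / Y) ^ 2)) U V α β =
      ∑ t ∈ T, (((Real.exp (π * (V t / Y) ^ 2) : ℝ) : ℂ) * e (α * U t)) * e (β * V t) := by
    intro β
    unfold F2
    refine Finset.sum_congr rfl fun t _ => ?_
    rw [e_add, mul_assoc]
  have hint := (gau_c T (fun t => ((Real.exp (π * (V t / Y) ^ 2) : ℝ) : ℂ) * e (α * U t)) V (4 * A)
    (by positivity)).1
  simp only [← hG] at hint
  have hs := fun θ : ℝ => smear T U V Y hY α (α * θ)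
  calc ∑ θ ∈ B, ‖F2 T (fun _ => 1) U V α (α * θ)‖ ^ 2 ≤
        ∑ θ ∈ B, ∫ β : ℝ, Y * Real.exp (-(π * (Y * (β - α * θ)) ^ 2)) *
          ‖F2 T (fun t => Real.exp (π * (V t / Y) ^ 2)) U V α β‖ ^ 2 :=
        Finset.sum_le_sum fun θ _ => (hs θ).2
    _ = ∫ β : ℝ, ∑ θ ∈ B, Y * Real.exp (-(π * (Y * (β - α * θ)) ^ 2)) *
          ‖F2 T (fun t => Real.exp (π * (V t / Y) ^ 2)) U V α β‖ ^ 2 :=
        (MeasureTheory.integral_finsetSum _ fun θ _ => (hs θ).1).symm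
    _ ≤ ∫ β : ℝ, 200 * Y * (1 + 1 / A) * (Real.exp (-(π * (β / (4 * A)) ^ 2)) *
          ‖F2 T (fun t => Real.exp (π * (V t / Y) ^ 2)) U V α β‖ ^ 2) := by
        refine MeasureTheory.integral_mono (MeasureTheory.integrable_finsetSum _ fun θ _ => (hs θ).1)
          (hint.const_mul _) fun β => ?_
        show ∑ θ ∈ B, Y * Real.exp (-(π * (Y * (β - α * θ)) ^ 2)) *
          ‖F2 T (fun t => Real.exp (π * (V t / Y) ^ 2)) U V α β‖ ^ 2 ≤ 200 * Y * (1 + 1 / A) *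
          (Real.exp (-(π * (β / (4 * A)) ^ 2)) *
          ‖F2 T (fun t => Real.exp (π * (V t / Y) ^ 2)) U V α β‖ ^ 2)
        rw [← Finset.sum_mul, ← mul_assoc]
        exact mul_le_mul_of_nonneg_right (PtW_pt B Y A hY hA hYA hB hB1 α β h1 h2) (by positivity)
    _ = _ := MeasureTheory.integral_const_mul _ _

end Pool.Agent.Lib.MP_570bef_ntW
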