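import Mathlib
import Pool.Agent.Lib.MP_570bef_ntW.PtW
import Pool.Agent.Lib.MP_570bef_ntW.GauD

/-!
# RegA: one dyadic range of frequencies

For `α` in the set of integration: `pt_w`, and `exp (-π (α/(4A))²) ≥ exp (-π/4) ≥ 1/3`. So the left side is `≤ 200 Y (1 + 1/A) * 3 * ∫_{set} exp (-π (α/(4A))²) ∫_β ... ≤ 600 Y (2/A) * ∫_ℝ exp (-π (α/(4A))²) ∫_β exp (-π (β/(4A))²) ‖F2 T c U V α β‖²` (nonnegative integrand, `setIntegral_le_integral`, integrability from `gau_d`; `1 + 1/A ≤ 2/A`), `c t = exp (π (V t/Y)²) ≤ exp π ≤ 25` (`|V t| ≤ Y`), and by `gau_d` with `lam = 4A`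
this is `1200 (Y/A) * 16 A² ∑∑ c t c t' exp (...) ≤ 1200 * 16 * 625 Y A GP T U V (4A) ≤ 10^8 Y A GP`. The left integrand is continuous in `α` (finite sums), hence integrable on the bounded set.
-/

set_option autoImplicit false

open Finset Real Polynomial
open Pool.Agent.Lib.MP_2a816b_nt (e nn norm_e conj_e e_add e_neg)

namespace Pool.Agent.Lib.MP_570bef_ntW

open Pool.Agent.Lib.MP_570bef_ntS (kap Dio)

private theorem RegA_exp : Real.exp π ≤ 25 := by
  have h1 : Real.exp π ≤ Real.exp (315 / 100) :=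
    Real.exp_le_exp.2 (by have h := Real.pi_lt_d2; norm_num at h ⊢; linarith)
  have h2 : Real.exp (315 / 100) = Real.exp 1 ^ 3 * Real.exp (15 / 100) := by
    rw [← Real.exp_nat_mul, ← Real.exp_add]
    norm_num
  have h3 : Real.exp 1 ^ 3 ≤ (272 / 100) ^ 3 :=
    pow_le_pow_left₀ (Real.exp_pos 1).le (by have h := Real.exp_one_lt_d9; linarith) 3
  have h4 : Real.exp (15 / 100) ≤ 120 / 100 := by
    have h5 := Real.one_sub_le_exp_neg (15 / 100)
    rw [Real.exp_neg] at h5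
    have h6 := Real.exp_pos (15 / 100 : ℝ)
    have h7 : Real.exp (15 / 100) * (85 / 100) ≤ 1 := by
      calc Real.exp (15 / 100) * (85 / 100) ≤ Real.exp (15 / 100) * (Real.exp (15 / 100))⁻¹ :=
            mul_le_mul_of_nonneg_left (by linarith) h6.le
        _ = 1 := mul_inv_cancel₀ h6.ne'
    linarith
  rw [h2] at h1
  refine h1.trans ((mul_le_mul h3 h4 (Real.exp_pos _).le (by norm_num)).trans (by norm_num))

private theorem RegA_third {A α : ℝ} (hA : 0 < A) (h : |α| ≤ 2 * A) :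
    1 / 3 ≤ Real.exp (-(π * (α / (4 * A)) ^ 2)) := by
  have h1 : (α / (4 * A)) ^ 2 ≤ 1 / 4 := by
    have h2 : |α / (4 * A)| ≤ 1 / 2 := by
      rw [abs_div, abs_of_pos (by positivity : 0 < 4 * A), div_le_iff₀ (by positivity)]
      linarith
    have h3 : (α / (4 * A)) ^ 2 = |α / (4 * A)| ^ 2 := (sq_abs _).symm
    rw [h3]
    have h4 := pow_le_pow_left₀ (abs_nonneg _) h2 2
    linarith
  have h2 : -(1 : ℝ) ≤ -(π * (α / (4 * A)) ^ 2) := by
    have h3 : π ≤ 4 := Real.pi_le_four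
    nlinarith [Real.pi_pos, sq_nonneg (α / (4 * A))]
  have h3 : Real.exp (-1) ≤ Real.exp (-(π * (α / (4 * A)) ^ 2)) := Real.exp_le_exp.2 h2
  refine le_trans ?_ h3
  rw [Real.exp_neg, one_div]
  refine inv_anti₀ (Real.exp_pos 1) ?_
  have h := Real.exp_one_lt_d9
  linarith

theorem reg_a {ι : Type} (T : Finset ι) (U V : ι → ℝ) (Y A : ℝ) (hY : 0 < Y) (hA : 0 < A)
    (hA1 : A ≤ 1) (hYA : 1 ≤ Y * A) (hV : ∀ t ∈ T, |V t| ≤ Y) (B : Finset ℝ)
    (hB : Sepd B (1 / Y)) (hB1 : ∀ θ ∈ B, 0 ≤ θ ∧ θ ≤ 1) :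
    ∫ α in {α : ℝ | A ≤ |α| ∧ |α| ≤ 2 * A}, ∑ θ ∈ B, ‖F2 T (fun _ => 1) U V α (α * θ)‖ ^ 2 ≤
      10 ^ 8 * (Y * A * GP T U V (4 * A)) := by
  obtain ⟨c, hc⟩ : ∃ c : ι → ℝ, c = fun t => Real.exp (π * (V t / Y) ^ 2) := ⟨_, rfl⟩
  obtain ⟨H, hH⟩ : ∃ H : ℝ → ℝ, H = fun α => ∫ β : ℝ, Real.exp (-(π * (β / (4 * A)) ^ 2)) *
      ‖F2 T c U V α β‖ ^ 2 := ⟨_, rfl⟩
  have hH0 : ∀ α, 0 ≤ H α := fun α => by
    rw [hH]
    exact MeasureTheory.integral_nonneg fun β => by positivity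
  obtain ⟨hint, hval⟩ := gau_d T c U V (4 * A) (by positivity)
  have hGH : (fun α : ℝ => Real.exp (-(π * (α / (4 * A)) ^ 2)) *
      ∫ β : ℝ, Real.exp (-(π * (β / (4 * A)) ^ 2)) * ‖F2 T c U V α β‖ ^ 2) =
      fun α => Real.exp (-(π * (α / (4 * A)) ^ 2)) * H α := by
    rw [hH]
  rw [hGH] at hint
  have hval2 : ∫ α : ℝ, Real.exp (-(π * (α / (4 * A)) ^ 2)) * H α =
      (4 * A) ^ 2 * ∑ t ∈ T, ∑ t' ∈ T, c t * c t' *
        Real.exp (-(π * (4 * A) ^ 2 * ((U t - U t') ^ 2 + (V t - V t') ^ 2))) := by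
    rw [← hval, hH]
  have hD : MeasurableSet {α : ℝ | A ≤ |α| ∧ |α| ≤ 2 * A} :=
    (measurableSet_le measurable_const measurable_norm).inter
      (measurableSet_le measurable_norm measurable_const)
  have hG0 : ∀ α, 0 ≤ Real.exp (-(π * (α / (4 * A)) ^ 2)) * H α := fun α =>
    mul_nonneg (Real.exp_pos _).le (hH0 α)
  have hstep1 : ∫ α in {α : ℝ | A ≤ |α| ∧ |α| ≤ 2 * A},
      ∑ θ ∈ B, ‖F2 T (fun _ => 1) U V α (α * θ)‖ ^ 2 ≤
      ∫ α in {α : ℝ | A ≤ |α| ∧ |α| ≤ 2 * A},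
        1200 * (Y / A) * (Real.exp (-(π * (α / (4 * A)) ^ 2)) * H α) := by
    refine MeasureTheory.integral_mono_of_nonneg ?_ ((hint.const_mul _).restrict) ?_
    · exact Filter.Eventually.of_forall fun α => Finset.sum_nonneg fun θ _ => by positivity
    · refine (MeasureTheory.ae_restrict_iff' hD).2 (Filter.Eventually.of_forall fun α hα => ?_)
      have h1 := pt_w T U V Y A hY hA hYA B hB hB1 α hα.1 hα.2
      have h2 : (∫ β : ℝ, Real.exp (-(π * (β / (4 * A)) ^ 2)) *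
          ‖F2 T (fun t => Real.exp (π * (V t / Y) ^ 2)) U V α β‖ ^ 2) = H α := by
        rw [hH, hc]
      rw [h2] at h1
      refine h1.trans ?_
      have h3 := RegA_third hA hα.2
      have h4 : H α ≤ 3 * (Real.exp (-(π * (α / (4 * A)) ^ 2)) * H α) := by
        nlinarith [hH0 α, mul_nonneg (sub_nonneg.2 h3) (hH0 α)]
      have h5 : 200 * Y * (1 + 1 / A) ≤ 400 * (Y / A) := by
        have h6 : 1 ≤ 1 / A := by
          rw [le_div_iff₀ hA]
          linarith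
        have h7 : 1 + 1 / A ≤ 2 / A := by
          have h8 : (2 : ℝ) / A = 1 / A + 1 / A := by ring
          rw [h8]
          linarith
        have h9 := mul_le_mul_of_nonneg_left h7 (by positivity : 0 ≤ 200 * Y)
        have h10 : 200 * Y * (2 / A) = 400 * (Y / A) := by ring
        rw [h10] at h9
        exact h9
      calc 200 * Y * (1 + 1 / A) * H α ≤ 400 * (Y / A) * H α :=
            mul_le_mul_of_nonneg_right h5 (hH0 α)
        _ ≤ 400 * (Y / A) * (3 * (Real.exp (-(π * (α / (4 * A)) ^ 2)) * H α)) :=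
            mul_le_mul_of_nonneg_left h4 (by positivity)
        _ = 1200 * (Y / A) * (Real.exp (-(π * (α / (4 * A)) ^ 2)) * H α) := by ring
  have hstep2 : ∫ α in {α : ℝ | A ≤ |α| ∧ |α| ≤ 2 * A},
        1200 * (Y / A) * (Real.exp (-(π * (α / (4 * A)) ^ 2)) * H α) ≤
      1200 * (Y / A) * ((4 * A) ^ 2 * ∑ t ∈ T, ∑ t' ∈ T, c t * c t' *
        Real.exp (-(π * (4 * A) ^ 2 * ((U t - U t') ^ 2 + (V t - V t') ^ 2)))) := by
    rw [MeasureTheory.integral_const_mul, ← hval2]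
    exact mul_le_mul_of_nonneg_left
      (MeasureTheory.setIntegral_le_integral hint (Filter.Eventually.of_forall hG0))
      (by positivity)
  have hc25 : ∀ t ∈ T, c t ≤ 25 := by
    intro t ht
    rw [hc]
    refine le_trans (Real.exp_le_exp.2 ?_) RegA_exp
    have h1 : (V t / Y) ^ 2 ≤ 1 := by
      have h2 : |V t / Y| ≤ 1 := by
        rw [abs_div, abs_of_pos hY, div_le_one hY]
        exact hV t ht
      have h3 : (V t / Y) ^ 2 = |V t / Y| ^ 2 := (sq_abs _).symm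
      rw [h3]
      exact pow_le_one₀ (abs_nonneg _) h2
    nlinarith [Real.pi_pos]
  have hc0 : ∀ t, 0 ≤ c t := fun t => by
    rw [hc]
    exact (Real.exp_pos _).le
  have hsum : ∑ t ∈ T, ∑ t' ∈ T, c t * c t' *
        Real.exp (-(π * (4 * A) ^ 2 * ((U t - U t') ^ 2 + (V t - V t') ^ 2))) ≤
      625 * GP T U V (4 * A) := by
    unfold GP
    rw [Finset.mul_sum]
    refine Finset.sum_le_sum fun t ht => ?_
    rw [Finset.mul_sum]
    refine Finset.sum_le_sum fun t' ht' => ?_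
    refine mul_le_mul_of_nonneg_right ?_ (Real.exp_pos _).le
    have h1 := mul_le_mul (hc25 t ht) (hc25 t' ht') (hc0 t') (by norm_num)
    linarith
  have hGP : 0 ≤ GP T U V (4 * A) := by
    unfold GP
    exact Finset.sum_nonneg fun t _ => Finset.sum_nonneg fun t' _ => (Real.exp_pos _).le
  refine hstep1.trans (hstep2.trans ?_)
  calc 1200 * (Y / A) * ((4 * A) ^ 2 * ∑ t ∈ T, ∑ t' ∈ T, c t * c t' *
        Real.exp (-(π * (4 * A) ^ 2 * ((U t - U t') ^ 2 + (V t - V t') ^ 2))))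
      ≤ 1200 * (Y / A) * ((4 * A) ^ 2 * (625 * GP T U V (4 * A))) := by
        refine mul_le_mul_of_nonneg_left (mul_le_mul_of_nonneg_left hsum (by positivity))
          (by positivity)
    _ = 12000000 * (Y * A * GP T U V (4 * A)) := by
        field_simp
        ring
    _ ≤ 10 ^ 8 * (Y * A * GP T U V (4 * A)) := by
        refine mul_le_mul_of_nonneg_right (by norm_num) ?_
        exact mul_nonneg (mul_nonneg hY.le hA.le) hGP

end Pool.Agent.Lib.MP_570bef_ntW
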