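import Mathlib
import Pool.Agent.Lib.MP_570bef_ntW.GauC

/-!
# SmaA: small frequencies

For `|α| ≤ A`: `exp (-π (α/A)²) ≥ exp (-π) ≥ 1/25`, so the left side is `≤ 25 ∫_ℝ exp (-π (α/A)²) ‖∑ 1 * e (α (U t + θ V t))‖² dα = 25 A ∑∑ exp (-π (A ((U t + θ V t) - (U t' + θ V t')))²)` (`gau_c` with `a = 1`, `W = U + θ V`; `α U + (α θ) V = α (U + θ V)`; `setIntegral_le_integral`).
-/

set_option autoImplicit false

open Finset Real Polynomial
open Pool.Agent.Lib.MP_2a816b_nt (e nn norm_e conj_e e_add e_neg)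

namespace Pool.Agent.Lib.MP_570bef_ntW

open Pool.Agent.Lib.MP_570bef_ntS (kap Dio)

private theorem SmaA_pi : 1 / 25 ≤ Real.exp (-π) := by
  have h1 := Real.exp_one_lt_d9
  have h2 : Real.exp (-(63 / 20)) = (Real.exp 1)⁻¹ ^ 3 * Real.exp (-(3 / 20)) := by
    rw [← Real.exp_neg, ← Real.exp_nat_mul, ← Real.exp_add]
    congr 1
    norm_num
  have h3 := Real.add_one_le_exp (-(3 / 20) : ℝ)
  have h4 : (2.7182818286 : ℝ)⁻¹ ≤ (Real.exp 1)⁻¹ := inv_anti₀ (Real.exp_pos _) h1.le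
  have h5 : Real.exp (-(63 / 20)) ≤ Real.exp (-π) := by
    rw [Real.exp_le_exp]
    have := Real.pi_lt_d2
    linarith
  refine le_trans ?_ h5
  rw [h2]
  have h6 : ((2.7182818286 : ℝ)⁻¹) ^ 3 ≤ (Real.exp 1)⁻¹ ^ 3 := pow_le_pow_left₀ (by norm_num) h4 3
  calc (1 : ℝ) / 25 ≤ ((2.7182818286 : ℝ)⁻¹) ^ 3 * (17 / 20) := by norm_num
    _ ≤ (Real.exp 1)⁻¹ ^ 3 * Real.exp (-(3 / 20)) :=
      mul_le_mul h6 (by linarith) (by norm_num) (by positivity)

theorem sma_a {ι : Type} (T : Finset ι) (U V : ι → ℝ) (θ A : ℝ) (hA : 0 < A) :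
    ∫ α in {α : ℝ | |α| ≤ A}, ‖F2 T (fun _ => 1) U V α (α * θ)‖ ^ 2 ≤ 25 * (A * GD T U V θ A) := by
  obtain ⟨hi, hv⟩ := gau_c T (fun _ => (1 : ℂ)) (fun t => U t + θ * V t) A hA
  have hF : ∀ α : ℝ, F2 T (fun _ => 1) U V α (α * θ) = ∑ t ∈ T, (1 : ℂ) * e (α * (U t + θ * V t)) := by
    intro α
    unfold F2
    refine Finset.sum_congr rfl fun t _ => ?_
    rw [Complex.ofReal_one]
    congr 2
    ring
  have hG : ∑ t ∈ T, ∑ t' ∈ T, ((1 : ℂ) * (starRingEnd ℂ) (1 : ℂ)).re *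
      Real.exp (-(π * (A * ((U t + θ * V t) - (U t' + θ * V t'))) ^ 2)) = GD T U V θ A := by
    unfold GD
    refine Finset.sum_congr rfl fun t _ => Finset.sum_congr rfl fun t' _ => ?_
    have h1 : ((1 : ℂ) * (starRingEnd ℂ) (1 : ℂ)).re = 1 := by simp
    rw [h1, one_mul]
    congr 4
    ring
  rw [hG] at hv
  have hs : MeasurableSet {α : ℝ | |α| ≤ A} := measurableSet_le continuous_abs.measurable measurable_const
  have h25 := hi.const_mul 25
  have h1 : ∫ α in {α : ℝ | |α| ≤ A}, ‖F2 T (fun _ => 1) U V α (α * θ)‖ ^ 2 ≤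
      ∫ α in {α : ℝ | |α| ≤ A}, 25 * (Real.exp (-(π * (α / A) ^ 2)) *
        ‖∑ t ∈ T, (1 : ℂ) * e (α * (U t + θ * V t))‖ ^ 2) := by
    refine MeasureTheory.integral_mono_of_nonneg (Filter.Eventually.of_forall fun α => by positivity)
      h25.integrableOn ?_
    rw [Filter.EventuallyLE, MeasureTheory.ae_restrict_iff' hs]
    refine Filter.Eventually.of_forall fun α hα => ?_
    have hα' : |α| ≤ A := hα
    have h2 : Real.exp (-π) ≤ Real.exp (-(π * (α / A) ^ 2)) := by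
      rw [Real.exp_le_exp, neg_le_neg_iff]
      have h3 : (α / A) ^ 2 ≤ 1 := by
        rw [div_pow, div_le_one (by positivity)]
        exact sq_le_sq' (by linarith [neg_abs_le α]) (by linarith [le_abs_self α])
      exact mul_le_of_le_one_right Real.pi_pos.le h3
    have h3 := SmaA_pi.trans h2
    rw [hF]
    have h4 : 0 ≤ ‖∑ t ∈ T, (1 : ℂ) * e (α * (U t + θ * V t))‖ ^ 2 := by positivity
    have h5 : 1 ≤ 25 * Real.exp (-(π * (α / A) ^ 2)) := by linarith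
    calc ‖∑ t ∈ T, (1 : ℂ) * e (α * (U t + θ * V t))‖ ^ 2 ≤
          (25 * Real.exp (-(π * (α / A) ^ 2))) * ‖∑ t ∈ T, (1 : ℂ) * e (α * (U t + θ * V t))‖ ^ 2 :=
          le_mul_of_one_le_left h4 h5
      _ = _ := by ring
  have h2 := MeasureTheory.setIntegral_le_integral (s := {α : ℝ | |α| ≤ A}) h25
    (Filter.Eventually.of_forall fun α => by positivity)
  refine (h1.trans h2).trans (le_of_eq ?_)
  rw [MeasureTheory.integral_const_mul, hv]

end Pool.Agent.Lib.MP_570bef_ntW
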