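import Mathlib
import Pool.Agent.Lib.MP_570bef_ntW.RegA
import Pool.Agent.Lib.MP_570bef_ntW.SmaA
import Pool.Agent.Lib.MP_570bef_ntW.Fej

/-!
# Spl: all frequencies

`Φ θ α = ‖F2 T 1 U V α (α θ)‖²`, continuous in `α` and `≥ 0`. `fej` for every `θ ∈ B`, and `[-1, 1] ⊆ {|α| ≤ 2^(-n)} ∪ ⋃_{i < n} {2^(-(i+1)) ≤ |α| ≤ 2 * 2^(-(i+1))}`: `∫_{-1}^1 Φ ≤ ∫_{|α| ≤ 2^(-n)} Φ + ∑_{i < n} ∫_{...} Φ` (induction on `n`, or `setIntegral_mono_set` with unions). Sum over `θ`: `sma_a` with `A = (1/2)^n`; `reg_a` with `A = (1/2)^(i+1) ≤ 1`, `Y A ≥ Y/2^n ≥ 1` (exchange the finite sum over `θ` and the integral).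
Total `≤ 3 (25 ∑_θ (1/2)^n GD + 10^8 ∑_i Y (1/2)^(i+1) GP)`.
-/

set_option autoImplicit false

open Finset Real Polynomial
open Pool.Agent.Lib.MP_2a816b_nt (e nn norm_e conj_e e_add e_neg)

namespace Pool.Agent.Lib.MP_570bef_ntW

open Pool.Agent.Lib.MP_570bef_ntS (kap Dio)

private theorem Spl_cont {ι : Type} (T : Finset ι) (U V : ι → ℝ) (θ : ℝ) :
    Continuous fun α : ℝ => ‖F2 T (fun _ => 1) U V α (α * θ)‖ ^ 2 := by
  have he : Continuous fun x : ℝ => e x := by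
    unfold e
    fun_prop
  unfold F2
  refine (Continuous.norm ?_).pow 2
  refine continuous_finsetSum _ fun t _ => ?_
  refine continuous_const.mul (he.comp ?_)
  fun_prop

private theorem Spl_io (f : ℝ → ℝ) (hf : Continuous f) (a : ℝ) (S : Set ℝ) (hS : S ⊆ {α : ℝ | |α| ≤ a}) :
    MeasureTheory.IntegrableOn f S := by
  have h1 : MeasureTheory.IntegrableOn f (Set.Icc (-a) a) := hf.integrableOn_Icc
  refine h1.mono_set fun x hx => ?_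
  have h2 := hS hx
  rw [Set.mem_ofPred_eq, abs_le] at h2
  exact h2

private theorem Spl_step (f : ℝ → ℝ) (hf : Continuous f) (hf0 : ∀ x, 0 ≤ f x) (n : ℕ) :
    ∫ α in {α : ℝ | |α| ≤ (1 / 2) ^ n}, f α ≤ (∫ α in {α : ℝ | |α| ≤ (1 / 2) ^ (n + 1)}, f α) +
      ∫ α in {α : ℝ | (1 / 2) ^ (n + 1) ≤ |α| ∧ |α| ≤ 2 * (1 / 2) ^ (n + 1)}, f α := by
  have h2 : (2 : ℝ) * (1 / 2) ^ (n + 1) = (1 / 2) ^ n := by
    rw [pow_succ]
    ring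
  rw [h2]
  have hmA : MeasurableSet {α : ℝ | |α| ≤ (1 / 2) ^ (n + 1)} :=
    measurableSet_le continuous_abs.measurable measurable_const
  have hmB : MeasurableSet {α : ℝ | (1 / 2) ^ (n + 1) ≤ |α| ∧ |α| ≤ (1 / 2) ^ n} :=
    (measurableSet_le measurable_const continuous_abs.measurable).inter
      (measurableSet_le continuous_abs.measurable measurable_const)
  have hle : (1 / 2 : ℝ) ^ (n + 1) ≤ (1 / 2) ^ n :=
    pow_le_pow_of_le_one (by norm_num) (by norm_num) (Nat.le_succ n)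
  have hdec : {α : ℝ | |α| ≤ (1 / 2) ^ n} = {α : ℝ | |α| ≤ (1 / 2) ^ (n + 1)} ∪
      ({α : ℝ | (1 / 2) ^ (n + 1) ≤ |α| ∧ |α| ≤ (1 / 2) ^ n} \ {α : ℝ | |α| ≤ (1 / 2) ^ (n + 1)}) := by
    ext x
    simp only [Set.mem_union, Set.mem_sdiff, Set.mem_ofPred_eq]
    constructor
    · intro h
      by_cases h1 : |x| ≤ (1 / 2) ^ (n + 1)
      · exact Or.inl h1
      · exact Or.inr ⟨⟨(not_le.1 h1).le, h⟩, h1⟩
    · rintro (h | ⟨⟨-, h⟩, -⟩)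
      · exact h.trans hle
      · exact h
  rw [hdec, MeasureTheory.setIntegral_union Set.disjoint_sdiff_right (hmB.diff hmA)
    (Spl_io f hf ((1 / 2) ^ (n + 1)) _ fun x hx => hx)
    (Spl_io f hf ((1 / 2) ^ n) _ fun x hx => hx.1.2)]
  refine add_le_add le_rfl ?_
  refine MeasureTheory.setIntegral_mono_set (Spl_io f hf ((1 / 2) ^ n) _ fun x hx => hx.2)
    (Filter.Eventually.of_forall fun x => hf0 x) (Filter.Eventually.of_forall fun x hx => hx.1)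

private theorem Spl_all (f : ℝ → ℝ) (hf : Continuous f) (hf0 : ∀ x, 0 ≤ f x) (n : ℕ) :
    ∫ α in {α : ℝ | |α| ≤ 1}, f α ≤ (∫ α in {α : ℝ | |α| ≤ (1 / 2) ^ n}, f α) +
      ∑ i ∈ range n, ∫ α in {α : ℝ | (1 / 2) ^ (i + 1) ≤ |α| ∧ |α| ≤ 2 * (1 / 2) ^ (i + 1)}, f α := by
  induction n with
  | zero => simp
  | succ n ih =>
    rw [sum_range_succ]
    have h := Spl_step f hf hf0 n
    linarith

private theorem Spl_GD {ι : Type} (T : Finset ι) (U V : ι → ℝ) (θ lam : ℝ) : 0 ≤ GD T U V θ lam := by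
  unfold GD
  exact sum_nonneg fun _ _ => sum_nonneg fun _ _ => (Real.exp_pos _).le

private theorem Spl_GP {ι : Type} (T : Finset ι) (U V : ι → ℝ) (lam : ℝ) : 0 ≤ GP T U V lam := by
  unfold GP
  exact sum_nonneg fun _ _ => sum_nonneg fun _ _ => (Real.exp_pos _).le

theorem spl {ι : Type} (T : Finset ι) (U V : ι → ℝ) (Y : ℝ) (n : ℕ) (hn : (2 : ℝ) ^ n ≤ Y)
    (hV : ∀ t ∈ T, |V t| ≤ Y) (B : Finset ℝ)
    (hB : Sepd B (1 / Y)) (hB1 : ∀ θ ∈ B, 0 ≤ θ ∧ θ ≤ 1) :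
    ∑ θ ∈ B, (N2 T U V θ : ℝ) ≤ 10 ^ 9 * (∑ θ ∈ B, (1 / 2 : ℝ) ^ n * GD T U V θ ((1 / 2) ^ n) +
      Y * ∑ i ∈ range n, (1 / 2 : ℝ) ^ (i + 1) * GP T U V (4 * (1 / 2) ^ (i + 1))) := by
  have hY : 0 < Y := lt_of_lt_of_le (by positivity) hn
  obtain ⟨Ψ, hΨ⟩ : ∃ Ψ : ℝ → ℝ, Ψ = fun α => ∑ θ ∈ B, ‖F2 T (fun _ => 1) U V α (α * θ)‖ ^ 2 := ⟨_, rfl⟩
  have hΨc : Continuous Ψ := by
    rw [hΨ]
    exact continuous_finsetSum _ fun θ _ => Spl_cont T U V θ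
  have hΨ0 : ∀ x, 0 ≤ Ψ x := by
    intro x
    rw [hΨ]
    exact sum_nonneg fun _ _ => by positivity
  have hex : ∀ (a : ℝ) (S : Set ℝ), S ⊆ {α : ℝ | |α| ≤ a} →
      ∫ α in S, Ψ α = ∑ θ ∈ B, ∫ α in S, ‖F2 T (fun _ => 1) U V α (α * θ)‖ ^ 2 := by
    intro a S hS
    rw [hΨ]
    exact MeasureTheory.integral_finsetSum B fun θ _ => Spl_io _ (Spl_cont T U V θ) a S hS
  have h1 : ∑ θ ∈ B, (N2 T U V θ : ℝ) ≤ 3 * ∫ α in {α : ℝ | |α| ≤ 1}, Ψ α := by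
    rw [hex 1 _ fun x hx => hx, mul_sum]
    refine sum_le_sum fun θ _ => ?_
    refine (fej T U V θ).trans (le_of_eq ?_)
    rw [intervalIntegral.integral_of_le (by norm_num), ← MeasureTheory.integral_Icc_eq_integral_Ioc]
    have hset : Set.Icc (-1 : ℝ) 1 = {α : ℝ | |α| ≤ 1} := by
      ext x
      rw [Set.mem_Icc, Set.mem_ofPred_eq, abs_le]
    rw [hset]
  have h2 := Spl_all Ψ hΨc hΨ0 n
  have h3 : ∫ α in {α : ℝ | |α| ≤ (1 / 2) ^ n}, Ψ α ≤ 25 * ∑ θ ∈ B, (1 / 2 : ℝ) ^ n * GD T U V θ ((1 / 2) ^ n) := by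
    rw [hex ((1 / 2) ^ n) _ fun x hx => hx, mul_sum]
    exact sum_le_sum fun θ _ => sma_a T U V θ _ (by positivity)
  have h4 : ∑ i ∈ range n, ∫ α in {α : ℝ | (1 / 2) ^ (i + 1) ≤ |α| ∧ |α| ≤ 2 * (1 / 2) ^ (i + 1)}, Ψ α ≤
      10 ^ 8 * (Y * ∑ i ∈ range n, (1 / 2 : ℝ) ^ (i + 1) * GP T U V (4 * (1 / 2) ^ (i + 1))) := by
    rw [mul_sum, mul_sum]
    refine sum_le_sum fun i hi => ?_
    rw [mem_range] at hi
    have hA1 : (1 / 2 : ℝ) ^ (i + 1) ≤ 1 := pow_le_one₀ (by norm_num) (by norm_num)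
    have hYA : 1 ≤ Y * (1 / 2 : ℝ) ^ (i + 1) := by
      have e1 : (2 : ℝ) ^ (i + 1) * (1 / 2) ^ (i + 1) = 1 := by
        rw [← mul_pow]
        norm_num
      calc (1 : ℝ) = (2 : ℝ) ^ (i + 1) * (1 / 2) ^ (i + 1) := e1.symm
        _ ≤ 2 ^ n * (1 / 2) ^ (i + 1) :=
            mul_le_mul_of_nonneg_right (pow_le_pow_right₀ (by norm_num) (by omega)) (by positivity)
        _ ≤ Y * (1 / 2) ^ (i + 1) := mul_le_mul_of_nonneg_right hn (by positivity)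
    have h := reg_a T U V Y ((1 / 2) ^ (i + 1)) hY (by positivity) hA1 hYA hV B hB hB1
    rw [hΨ]
    refine h.trans (le_of_eq ?_)
    ring
  have h5 : 0 ≤ ∑ θ ∈ B, (1 / 2 : ℝ) ^ n * GD T U V θ ((1 / 2) ^ n) :=
    sum_nonneg fun θ _ => mul_nonneg (by positivity) (Spl_GD _ _ _ _ _)
  have h6 : 0 ≤ Y * ∑ i ∈ range n, (1 / 2 : ℝ) ^ (i + 1) * GP T U V (4 * (1 / 2) ^ (i + 1)) :=
    mul_nonneg hY.le (sum_nonneg fun i _ => mul_nonneg (by positivity) (Spl_GP _ _ _ _))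
  calc ∑ θ ∈ B, (N2 T U V θ : ℝ) ≤ 3 * ∫ α in {α : ℝ | |α| ≤ 1}, Ψ α := h1
    _ ≤ 3 * (25 * ∑ θ ∈ B, (1 / 2 : ℝ) ^ n * GD T U V θ ((1 / 2) ^ n) +
        10 ^ 8 * (Y * ∑ i ∈ range n, (1 / 2 : ℝ) ^ (i + 1) * GP T U V (4 * (1 / 2) ^ (i + 1)))) := by linarith
    _ ≤ _ := by linarith

end Pool.Agent.Lib.MP_570bef_ntW
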