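import Mathlib
import Pool.Agent.Lib.MP_570bef_ntW.RecK
import Pool.Agent.Lib.MP_570bef_ntW.Lvl

/-!
# OneB: one equation, uniformly in the function

Induction on `s` (statement for all `s`; `C`, `X1` depend only on `k, s, p0, K, X0`). `s = 0`: `TF k 0 0 X` has one element and `MX ≥ 1` (`mx_ge`).
Step `s + 1`: let `C', X1'` be the constants for `s`. `rec1` with `v = 0`, `B = F = 0`, `E = T`, `E1 = s (K 2^k) (X^kap k)^k` (`su_le` with `d = k`, `r = 0`; `s + 0 = s`), `m = C' MX T ((X^kap k)^k) (((X^kap k)^(kap k^s))^k)` (induction hypothesis at `X^kap k ≥ X1'`, true for `X ≥ X1'^2` since `kap k ≥ 1/2`), `(X^kap k)^(kap k^s) = X^(kap k^(s+1))` (`rpow_kap_pow`), and the number of the first level: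
`one_eq` with `I = rd k 1 X` (`rd_mem`: `X < n ≤ (1 + dl k) X`), `3/4 p = p0 X^(k-1)`, for `X ≥ X0`: `#{w | |u w - A'| ≤ T + E1} ≤ min #I (1 + 3 (T+E1)/p) ≤ C MX T (X^k) ((X^kap k)^k)` exactly as for `level1` in `Lvl` (`(X^kap k)^k = X^(k-1)`, `#I ≤ 2X`). `mx_mul` with `Z = (X^(kap k^(s+1)))^k ≤ Y = (X^kap k)^k ≤ W = X^k`.
-/

set_option autoImplicit false

open Finset Real Polynomial
open Pool.Agent.Lib.MP_2a816b_nt (e nn norm_e conj_e e_add e_neg)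

namespace Pool.Agent.Lib.MP_570bef_ntW

open Pool.Agent.Lib.MP_570bef_ntS (kap Dio)
open Pool.Agent.Lib.MP_570bef_ntSH (kap_pos kap_lt_one kap_pow_pos kap_pow_le_one rpow_kap_pow rpow_kap_nat one_le_rpow_kap)

private theorem OneB_half {k : ℕ} (hk : 2 ≤ k) {X X0 : ℝ} (hX0 : 1 ≤ X0) (hX : X0 ^ 2 ≤ X) : X0 ≤ X ^ kap k := by
  have hX01 : 1 ≤ X0 ^ 2 := one_le_pow₀ hX0
  have hX1 : 1 ≤ X := hX01.trans hX
  have h1 : (1 / 2 : ℝ) ≤ kap k := by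
    have h : (2 : ℝ) ≤ k := by exact_mod_cast hk
    have h2 : 1 / (k : ℝ) ≤ 1 / 2 := one_div_le_one_div_of_le (by norm_num) h
    unfold Pool.Agent.Lib.MP_570bef_ntS.kap
    linarith
  calc X0 = (X0 ^ 2) ^ (1 / 2 : ℝ) := by
        rw [← Real.sqrt_eq_rpow, Real.sqrt_sq (by linarith)]
    _ ≤ X ^ (1 / 2 : ℝ) := Real.rpow_le_rpow (by positivity) hX (by norm_num)
    _ ≤ X ^ kap k := Real.rpow_le_rpow_of_exponent_le hX1 h1

private theorem OneB_card {k : ℕ} (hk : 2 ≤ k) {a X : ℝ} (ha : 0 ≤ a * X) :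
    (#(rd k a X) : ℝ) ≤ 2 * (a * X) := by
  have h : 0 ≤ dl k := by
    unfold dl
    positivity
  have h1 : dl k ≤ 1 := by
    have h : (2 : ℝ) ≤ k := by exact_mod_cast hk
    unfold dl
    rw [div_le_one (by linarith)]
    linarith
  have h2 : 0 ≤ (1 + dl k) * (a * X) := mul_nonneg (by linarith) ha
  unfold rd
  rw [Nat.card_Ioc]
  have h3 : ((⌊(1 + dl k) * (a * X)⌋₊ - ⌊a * X⌋₊ : ℕ) : ℝ) ≤ (⌊(1 + dl k) * (a * X)⌋₊ : ℝ) := by
    exact_mod_cast Nat.sub_le _ _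
  have h4 := Nat.floor_le h2
  have h5 : (1 + dl k) * (a * X) ≤ 2 * (a * X) := mul_le_mul_of_nonneg_right (by linarith) ha
  linarith

private theorem OneB_a {k : ℕ} (hk : 2 ≤ k) {P K X T E N : ℝ} (hP : 0 < P) (hK : 1 ≤ K) (hX : 1 ≤ X)
    (hE : E ≤ K * (T + X ^ (k - 1))) (hN : N ≤ 2 * X) :
    min N (1 + 3 * E / (P * X ^ (k - 1))) ≤
      (2 + 2 * (3 * K / P)) * MX T (X ^ k) (X ^ (k - 1)) := by
  have hZ : 0 < X ^ (k - 1) := pow_pos (by linarith) _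
  have hc : 0 < 3 * K / P := by positivity
  have hM1 := mx_ge T (X ^ k) (X ^ (k - 1))
  have hM2 : min T (X ^ k) / X ^ (k - 1) ≤ MX T (X ^ k) (X ^ (k - 1)) := le_max_right _ _
  obtain ⟨M, hM⟩ : ∃ M, M = MX T (X ^ k) (X ^ (k - 1)) := ⟨_, rfl⟩
  obtain ⟨c, hcc⟩ : ∃ c, c = 3 * K / P := ⟨_, rfl⟩
  rw [← hM] at hM1 hM2 ⊢
  rw [← hcc] at hc ⊢
  have hcM : c ≤ c * M := le_mul_of_one_le_right hc.le hM1
  by_cases h : T ≤ X ^ k
  · refine (min_le_right _ _).trans ?_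
    rw [min_eq_left h] at hM2
    have h1 : 3 * E / (P * X ^ (k - 1)) ≤ c * (T / X ^ (k - 1)) + c := by
      have e : c * (T / X ^ (k - 1)) + c = 3 * (K * (T + X ^ (k - 1))) / (P * X ^ (k - 1)) := by
        rw [hcc]
        field_simp
      rw [e]
      have : 0 < P * X ^ (k - 1) := by positivity
      gcongr
    have h2 : c * (T / X ^ (k - 1)) ≤ c * M := mul_le_mul_of_nonneg_left hM2 hc.le
    nlinarith
  · push Not at h
    refine (min_le_left _ _).trans (hN.trans ?_)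
    rw [min_eq_right h.le] at hM2
    have e : X ^ k / X ^ (k - 1) = X := by
      have h2 : X ^ k = X ^ (k - 1) * X := by
        rw [← pow_succ]
        congr 1
        omega
      rw [h2, mul_div_cancel_left₀ _ hZ.ne']
    rw [e] at hM2
    nlinarith

/-- one level -/
private theorem OneB_lvl {k : ℕ} (hk : 2 ≤ k) {p0 K' X0 : ℝ} (hp : 0 < p0) (hK' : 1 ≤ K') (hX0 : 1 ≤ X0)
    {u : ℝ → ℝ} (hu : ∀ Y : ℝ, X0 ≤ Y → ∀ x y : ℝ, Y ≤ x → x ≤ y → y ≤ (1 + dl k) * Y →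
        p0 * Y ^ (k - 1) * (y - x) ≤ u y - u x) {X T A E : ℝ} (hX : X0 ≤ X) (hE0 : 0 ≤ E)
    (hE : E ≤ K' * (T + (X ^ kap k) ^ k)) :
    (#((rd k 1 X).filter fun n : ℕ => |u (n : ℝ) - A| ≤ E) : ℝ) ≤
      (2 + 2 * (3 * K' / (4 / 3 * p0))) * MX T (X ^ k) ((X ^ kap k) ^ k) := by
  have hX1 : 1 ≤ X := hX0.trans hX
  have hXp : 0 < X := by linarith
  rw [rpow_kap_nat hk hXp.le] at hE ⊢
  have hpp : 0 < 4 / 3 * p0 * X ^ (k - 1) := by positivity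
  have h1X : 0 ≤ 1 * X := by linarith
  have h1 := one_eq u (rd k 1 X) A E _ hpp hE0 (by
    intro x hx y hy hxy
    rw [rd_mem k 1 X h1X] at hx hy
    have hxy' : (x : ℝ) ≤ y := by exact_mod_cast hxy
    rw [one_mul] at hx hy
    have h2 := hu X hX x y hx.1.le hxy' hy.2
    have h3 : 3 / 4 * (4 / 3 * p0 * X ^ (k - 1)) * ((y : ℝ) - x) = p0 * X ^ (k - 1) * ((y : ℝ) - x) := by ring
    rw [h3]
    exact h2)
  have h2 := OneB_card hk (X := X) (a := 1) h1X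
  rw [one_mul] at h2
  exact h1.trans (OneB_a hk (by positivity) hK' hX1 hE h2)

private theorem OneB_zero (u : ℝ → ℝ) (k s : ℕ) (X A B T : ℝ) :
    (KK u (fun _ => 0) k s 0 X A B T 0 : ℝ) ≤ (KK u (fun _ => 0) k s 0 X A 0 T 0 : ℝ) := by
  rw [Nat.cast_le]
  unfold KK
  refine Finset.card_le_card fun t ht => ?_
  rw [Finset.mem_filter] at ht ⊢
  refine ⟨ht.1, ht.2.1, ?_⟩
  have h : Su (fun _ => (0 : ℝ)) t = 0 := by
    unfold Su
    simp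
  rw [h, sub_zero, abs_zero]

theorem one_b (k : ℕ) (hk : 2 ≤ k) (p0 K X0 : ℝ) (hp : 0 < p0) (hK : 1 ≤ K) (hX0 : 1 ≤ X0)
    (s : ℕ) : ∃ C X1 : ℝ, 1 ≤ C ∧ 1 ≤ X1 ∧ ∀ u : ℝ → ℝ,
      (∀ Y : ℝ, X0 ≤ Y → ∀ x y : ℝ, Y ≤ x → x ≤ y → y ≤ (1 + dl k) * Y →
        p0 * Y ^ (k - 1) * (y - x) ≤ u y - u x) →
      (∀ x : ℝ, 1 ≤ x → |u x| ≤ K * x ^ k) → ∀ X : ℝ, X1 ≤ X → ∀ T A : ℝ, 1 ≤ T →
      (KK u (fun _ => 0) k s 0 X A 0 T 0 : ℝ) ≤
        C * MX T (X ^ k) ((X ^ (kap k ^ s)) ^ k) := by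
  induction s with
  | zero =>
    refine ⟨1, 1, le_refl _, le_refl _, fun u _ _ X hX T A _ => ?_⟩
    have h1 : KK u (fun _ => 0) k 0 0 X A 0 T 0 ≤ 1 := by
      unfold KK
      refine (Finset.card_filter_le _ _).trans ?_
      unfold TF TW
      rw [Finset.card_product, Fintype.card_piFinset, Fintype.card_piFinset]
      simp
    have h2 : (KK u (fun _ => 0) k 0 0 X A 0 T 0 : ℝ) ≤ 1 := by exact_mod_cast h1
    rw [one_mul]
    exact h2.trans (mx_ge _ _ _)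
  | succ s ih =>
    obtain ⟨C', X1', hC', hX1', hIH⟩ := ih
    have hs0 : (0 : ℝ) ≤ s := Nat.cast_nonneg s
    have hK0 : 0 ≤ K := by linarith
    have hA0 : 0 ≤ ((s : ℝ) + ((0 : ℕ) : ℝ)) * (K * 2 ^ k) := by positivity
    obtain ⟨K', hK'⟩ : ∃ K' : ℝ, K' = 1 + ((s : ℝ) + ((0 : ℕ) : ℝ)) * (K * 2 ^ k) := ⟨_, rfl⟩
    have hK'1 : 1 ≤ K' := by
      rw [hK']
      linarith
    obtain ⟨C, hC⟩ : ∃ C : ℝ, C = 2 + 2 * (3 * K' / (4 / 3 * p0)) := ⟨_, rfl⟩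
    have hC1 : 1 ≤ C := by
      have : 0 ≤ 3 * K' / (4 / 3 * p0) := by positivity
      rw [hC]
      linarith
    refine ⟨C' * C, max (X1' ^ 2) X0, one_le_mul_of_one_le_of_one_le hC' hC1, hX0.trans (le_max_right _ _),
      fun u hu hub X hX T A hT => ?_⟩
    have hXa : X1' ^ 2 ≤ X := (le_max_left _ _).trans hX
    have hXb : X0 ≤ X := (le_max_right _ _).trans hX
    have hX1 : 1 ≤ X := hX0.trans hXb
    have hXp : 0 < X := by linarith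
    have hY : X1' ≤ X ^ kap k := OneB_half hk hX1' hXa
    have hY1 : 1 ≤ X ^ kap k := hX1'.trans hY
    have hY0 : 0 < X ^ kap k := by linarith
    have hT0 : 0 ≤ T := by linarith
    have hP : 0 ≤ (X ^ kap k) ^ k := by positivity
    have hE1 : 0 ≤ ((s : ℝ) + ((0 : ℕ) : ℝ)) * (K * 2 ^ k) * (X ^ kap k) ^ k := mul_nonneg hA0 hP
    have h1 := rec1 u (fun _ => 0) k s X A 0 T 0
      (((s : ℝ) + ((0 : ℕ) : ℝ)) * (K * 2 ^ k) * (X ^ kap k) ^ k)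
      (C * MX T (X ^ k) ((X ^ kap k) ^ k))
      (C' * MX T ((X ^ kap k) ^ k) (((X ^ kap k) ^ (kap k ^ s)) ^ k)) hXp.le
      (fun A' => by
        rw [hC]
        refine OneB_lvl hk hp hK'1 hX0 hu hXb (add_nonneg hT0 hE1) ?_
        rw [hK']
        nlinarith [mul_nonneg hA0 hT0])
      (fun A' B' => (OneB_zero u k s (X ^ kap k) A' B' T).trans (hIH u hu hub (X ^ kap k) hY T A' hT))
      (fun t ht => su_le u k s 0 k hk (Nat.zero_le s) K hub (X ^ kap k) hY1 t ht)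
    refine h1.trans ?_
    have hYX : X ^ kap k ≤ X := by
      calc X ^ kap k ≤ X ^ (1 : ℝ) := Real.rpow_le_rpow_of_exponent_le hX1 (kap_lt_one hk).le
        _ = X := Real.rpow_one X
    have hZ : 0 < X ^ (kap k ^ (s + 1)) := Real.rpow_pos_of_pos hXp _
    have hZY : X ^ (kap k ^ (s + 1)) ≤ X ^ kap k := by
      rw [← rpow_kap_pow hXp.le s]
      calc (X ^ kap k) ^ (kap k ^ s) ≤ (X ^ kap k) ^ (1 : ℝ) :=
            Real.rpow_le_rpow_of_exponent_le hY1 (kap_pow_le_one hk s)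
        _ = X ^ kap k := Real.rpow_one _
    have h2 := mx_mul T (X ^ k) ((X ^ kap k) ^ k) ((X ^ (kap k ^ (s + 1))) ^ k) (pow_pos hZ _)
      (pow_le_pow_left₀ hZ.le hZY k) (pow_le_pow_left₀ hY0.le hYX k)
    rw [rpow_kap_pow hXp.le s]
    have h3 : 0 ≤ C' * C := mul_nonneg (by linarith) (by linarith)
    calc C' * MX T ((X ^ kap k) ^ k) ((X ^ (kap k ^ (s + 1))) ^ k) * (C * MX T (X ^ k) ((X ^ kap k) ^ k))
        = C' * C * (MX T (X ^ k) ((X ^ kap k) ^ k) * MX T ((X ^ kap k) ^ k) ((X ^ (kap k ^ (s + 1))) ^ k)) := by ring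
      _ ≤ C' * C * MX T (X ^ k) ((X ^ (kap k ^ (s + 1))) ^ k) := mul_le_mul_of_nonneg_left h2 h3

end Pool.Agent.Lib.MP_570bef_ntW
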