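import Mathlib
import Pool.Agent.Lib.MP_570bef_ntW.OneB
import Pool.Agent.Lib.MP_570bef_ntW.PolB
import Pool.Agent.Lib.MP_570bef_ntW.CrdW
import Pool.Agent.Lib.MP_570bef_ntW.Slp
import Pool.Agent.Lib.MP_570bef_ntSH.Cards

/-!
# ThB: the pairs for one combination, large windows, uniformly in `θ`

Let `f x = g.eval x + θ x^j`, `θ ∈ [0,1]`. Slopes: `slp_g` for `g` (`p0 = 3/4 k L`, `L = leadingCoeff g`) and `θ (y^j - x^j) ≥ 0`. Size: `|f x| ≤ (K_g + 1) x^k` for `x ≥ 1` (`pol_b`). `one_b` gives `C, X1` for all these `f`.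
Fix `z.1 ∈ TF` and the second component `w` of `z.2`: the first component `x` of `z.2` is counted by `KK f 0 k s 0 X A 0 T 0` with `A = Su f z.1 - ∑ f (w i)` (`TF k s 0 X = TW k s 1 X ×ˢ {the empty function}`; `Su f (x, w) = ∑ f (x i) + ∑ f (w i)`), so their number is `≤ C MX T (X^k) (X_s^k) ≤ C T/X_s^k`, `X_s = X^(kap k^s)` (`min T _ ≤ T`, `1 ≤ T/X_s^k`). The number of the `w` is `#(TW k r (1/8) X) ≤ 2^r X^(k(1-kap k^r))` (`#(rd k (1/8) Y) ≤ 2Y`,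
`Fintype.card_piFinset`, `prod_rpow` of `MP_570bef_ntSH/Cards.lean`). Total `≤ #TF * 2^r X^(k(1-κ^r)) * C T X^(-kκ^s) = C' #TF T X^(k(1-κ^s)+k(1-κ^r)) X^(-k) ≤ C'' #TF² T X^(-k)` (`crd_w`).
-/

set_option autoImplicit false

open Finset Real Polynomial
open Pool.Agent.Lib.MP_2a816b_nt (e nn norm_e conj_e e_add e_neg)

namespace Pool.Agent.Lib.MP_570bef_ntW

open Pool.Agent.Lib.MP_570bef_ntS (kap Dio)
open Pool.Agent.Lib.MP_570bef_ntSH (kap_pos kap_lt_one kap_pow_pos kap_pow_le_one prod_rpow)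

/-- The sum for a combination. -/
private theorem ThB_su (g : ℝ[X]) (j : ℕ) (θ : ℝ) {s r : ℕ} (t : (Fin s → ℕ) × (Fin r → ℕ)) :
    Su (fun x => g.eval x + θ * x ^ j) t = Su (fun x => g.eval x) t + θ * Su (fun x => x ^ j) t := by
  unfold Su
  rw [Finset.sum_add_distrib, Finset.sum_add_distrib, ← Finset.mul_sum, ← Finset.mul_sum]
  ring

/-- Number of elements of the second block. -/
private theorem ThB_tw {k : ℕ} (hk : 2 ≤ k) (r : ℕ) {X : ℝ} (hX : 0 < X) :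
    ((TW k r (1 / 8) X).card : ℝ) ≤ X ^ ((k : ℝ) * (1 - kap k ^ r)) := by
  have hk' : (2 : ℝ) ≤ k := by exact_mod_cast hk
  unfold TW
  rw [Fintype.card_piFinset, Nat.cast_prod, ← prod_rpow hk r hX]
  refine Finset.prod_le_prod (fun i _ => Nat.cast_nonneg _) fun i _ => ?_
  have hY : 0 < X ^ (kap k ^ (i : ℕ)) := Real.rpow_pos_of_pos hX _
  have hdl : 0 < dl k := by
    unfold dl
    positivity
  have hdl1 : dl k ≤ 1 := by
    unfold dl
    rw [div_le_one (by positivity)]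
    linarith
  unfold rd
  rw [Nat.card_Ioc]
  have h1 : ((⌊(1 + dl k) * (1 / 8 * X ^ (kap k ^ (i : ℕ)))⌋₊ - ⌊1 / 8 * X ^ (kap k ^ (i : ℕ))⌋₊ : ℕ) : ℝ) ≤
      (⌊(1 + dl k) * (1 / 8 * X ^ (kap k ^ (i : ℕ)))⌋₊ : ℝ) := by
    exact_mod_cast Nat.sub_le _ _
  have h2 : (⌊(1 + dl k) * (1 / 8 * X ^ (kap k ^ (i : ℕ)))⌋₊ : ℝ) ≤ (1 + dl k) * (1 / 8 * X ^ (kap k ^ (i : ℕ))) :=
    Nat.floor_le (by positivity)
  refine (h1.trans h2).trans ?_
  have h3 : dl k * X ^ (kap k ^ (i : ℕ)) ≤ 1 * X ^ (kap k ^ (i : ℕ)) := mul_le_mul_of_nonneg_right hdl1 hY.le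
  have h4 : (1 + dl k) * (1 / 8 * X ^ (kap k ^ (i : ℕ))) =
      1 / 8 * X ^ (kap k ^ (i : ℕ)) + 1 / 8 * (dl k * X ^ (kap k ^ (i : ℕ))) := by ring
  rw [h4]
  linarith

/-- The first components for a fixed second component. -/
private theorem ThB_fib (f : ℝ → ℝ) (k s r : ℕ) (X T B : ℝ) (w : Fin r → ℕ) :
    #((TW k s 1 X).filter fun x => |B - Su f (x, w)| ≤ T) ≤
      KK f (fun _ => 0) k s 0 X (B - ∑ i, f (w i : ℝ)) 0 T 0 := by
  unfold KK
  refine Finset.card_le_card_of_injOn (fun x => (x, fun i : Fin 0 => i.elim0)) ?_ ?_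
  · intro x hx
    have hx' := Finset.mem_filter.1 (Finset.mem_coe.1 hx)
    refine Finset.mem_coe.2 (Finset.mem_filter.2 ⟨?_, ?_, ?_⟩)
    · unfold TF
      refine Finset.mem_product.2 ⟨hx'.1, ?_⟩
      unfold TW
      exact Fintype.mem_piFinset.2 fun i => i.elim0
    · have h1 := hx'.2
      have h2 : Su f (x, fun i : Fin 0 => i.elim0) - (B - ∑ i, f (w i : ℝ)) = -(B - Su f (x, w)) := by
        unfold Su
        simp only [Finset.univ_eq_empty, Finset.sum_empty]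
        ring
      rw [h2, abs_neg]
      exact h1
    · unfold Su
      simp
  · intro x _ y _ hxy
    exact (Prod.mk.inj hxy).1

/-- Sum over the pairs. -/
private theorem ThB_nn (g : ℝ[X]) (k j s r : ℕ) (θ T X M : ℝ)
    (hM : ∀ A : ℝ, (KK (fun x => g.eval x + θ * x ^ j) (fun _ => 0) k s 0 X A 0 T 0 : ℝ) ≤ M) :
    (NN g k j s r θ T X : ℝ) ≤ (#(TF k s r X) : ℝ) * (((TW k r (1 / 8) X).card : ℝ) * M) := by
  have h1 : (NN g k j s r θ T X : ℝ) = ∑ z ∈ TF k s r X, ∑ w ∈ TW k r (1 / 8) X,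
      (#((TW k s 1 X).filter fun x => |Su (fun x => g.eval x + θ * x ^ j) z -
        Su (fun x => g.eval x + θ * x ^ j) (x, w)| ≤ T) : ℝ) := by
    unfold NN
    rw [Finset.card_filter, Finset.sum_product]
    push_cast
    refine Finset.sum_congr rfl fun z _ => ?_
    have e1 : TF k s r X = TW k s 1 X ×ˢ TW k r (1 / 8) X := rfl
    rw [e1, Finset.sum_product_right]
    refine Finset.sum_congr rfl fun w _ => ?_
    rw [Finset.card_filter]
    push_cast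
    refine Finset.sum_congr rfl fun x _ => ?_
    rw [ThB_su, ThB_su]
    have e2 : Su (fun x => g.eval x) z - Su (fun x => g.eval x) (x, w) +
        θ * (Su (fun x => x ^ j) z - Su (fun x => x ^ j) (x, w)) =
        Su (fun x => g.eval x) z + θ * Su (fun x => x ^ j) z -
          (Su (fun x => g.eval x) (x, w) + θ * Su (fun x => x ^ j) (x, w)) := by ring
    rw [e2]
  rw [h1]
  have h2 : ∀ z ∈ TF k s r X, ∑ w ∈ TW k r (1 / 8) X,
      (#((TW k s 1 X).filter fun x => |Su (fun x => g.eval x + θ * x ^ j) z -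
        Su (fun x => g.eval x + θ * x ^ j) (x, w)| ≤ T) : ℝ) ≤ ((TW k r (1 / 8) X).card : ℝ) * M := by
    intro z _
    refine (Finset.sum_le_card_nsmul _ _ M fun w _ => ?_).trans (le_of_eq (nsmul_eq_mul _ _))
    refine le_trans ?_ (hM (Su (fun x => g.eval x + θ * x ^ j) z - ∑ i, (fun x => g.eval x + θ * x ^ j) (w i : ℝ)))
    exact Nat.cast_le.2 (ThB_fib (fun x => g.eval x + θ * x ^ j) k s r X T
      (Su (fun x => g.eval x + θ * x ^ j) z) w)
  refine (Finset.sum_le_card_nsmul _ _ _ h2).trans (le_of_eq (nsmul_eq_mul _ _))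

theorem th_b (g : ℝ[X]) (k j s r : ℕ) (hk : 2 ≤ k) (hj : 1 ≤ j) (hjk : j < k)
    (hg : g.natDegree = k) (hL : 0 < g.leadingCoeff) (hrs : r ≤ s) :
    ∃ C X0 : ℝ, 1 ≤ C ∧ 1 ≤ X0 ∧ ∀ X : ℝ, X0 ≤ X → ∀ θ : ℝ, 0 ≤ θ → θ ≤ 1 → ∀ T : ℝ,
      X ^ ((k : ℝ) * kap k ^ s) ≤ T → (NN g k j s r θ T X : ℝ) ≤
        C * (#(TF k s r X) : ℝ) ^ 2 * T * X ^ (-(k : ℝ)) := by
  have hk' : (2 : ℝ) ≤ k := by exact_mod_cast hk
  have hk0 : (0 : ℝ) < k := by linarith
  obtain ⟨Y0, hY0, hslp⟩ := slp_g g k (by omega) hg hL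
  obtain ⟨K, hK, hpol⟩ := pol_b g k hg.le
  obtain ⟨C1, X1, hC1, hX1, hone⟩ := one_b k hk (3 / 4 * (k * g.leadingCoeff)) (K + 1) Y0
    (by positivity) (by linarith) hY0 s
  obtain ⟨c, X2, hc, hX2, hcrd⟩ := crd_w k s r hk
  refine ⟨max 1 (C1 / c), max X1 X2, le_max_left _ _, le_trans hX1 (le_max_left _ _), ?_⟩
  intro X hX θ hθ0 hθ1 T hT
  have hXX1 : X1 ≤ X := (le_max_left _ _).trans hX
  have hXX2 : X2 ≤ X := (le_max_right _ _).trans hX
  have hXge : 1 ≤ X := hX1.trans hXX1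
  have hXp : 0 < X := by linarith
  have hkap : 0 < kap k ^ s := kap_pow_pos hk s
  have hT1 : 1 ≤ T := le_trans (Real.one_le_rpow hXge (by positivity)) hT
  have hT0 : 0 < T := by linarith
  have hZ : (X ^ (kap k ^ s)) ^ k = X ^ ((k : ℝ) * kap k ^ s) := by
    rw [← Real.rpow_natCast, ← Real.rpow_mul hXp.le, mul_comm]
  have hZp : 0 < X ^ ((k : ℝ) * kap k ^ s) := Real.rpow_pos_of_pos hXp _
  have hM : ∀ A : ℝ, (KK (fun x => g.eval x + θ * x ^ j) (fun _ => 0) k s 0 X A 0 T 0 : ℝ) ≤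
      C1 * (T / X ^ ((k : ℝ) * kap k ^ s)) := by
    intro A
    refine (hone (fun x => g.eval x + θ * x ^ j) ?_ ?_ X hXX1 T A hT1).trans ?_
    · intro Y hY x y hx hxy hy
      have h1 := (hslp Y hY x y hx hxy hy).1
      have hx0 : 0 ≤ x := by linarith
      have h2 : x ^ j ≤ y ^ j := pow_le_pow_left₀ hx0 hxy j
      have h3 : θ * x ^ j ≤ θ * y ^ j := mul_le_mul_of_nonneg_left h2 hθ0
      have h4 : 3 / 4 * (k * g.leadingCoeff) * Y ^ (k - 1) * (y - x) =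
          3 / 4 * (k * g.leadingCoeff * Y ^ (k - 1)) * (y - x) := by ring
      rw [h4]
      show 3 / 4 * (k * g.leadingCoeff * Y ^ (k - 1)) * (y - x) ≤
        g.eval y + θ * y ^ j - (g.eval x + θ * x ^ j)
      linarith
    · intro x hx
      have h1 := hpol x hx
      have hx0 : 0 ≤ x := by linarith
      have h2 : x ^ j ≤ x ^ k := pow_le_pow_right₀ hx hjk.le
      have h3 : |θ * x ^ j| ≤ 1 * x ^ k := by
        rw [abs_mul, abs_of_nonneg hθ0, abs_of_nonneg (pow_nonneg hx0 j)]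
        exact mul_le_mul hθ1 h2 (pow_nonneg hx0 j) zero_le_one
      show |g.eval x + θ * x ^ j| ≤ (K + 1) * x ^ k
      have h4 := abs_add_le (g.eval x) (θ * x ^ j)
      have h5 : (K + 1) * x ^ k = K * x ^ k + 1 * x ^ k := by ring
      rw [h5]
      linarith
    · refine mul_le_mul_of_nonneg_left ?_ (by linarith)
      unfold MX
      rw [hZ]
      refine max_le ?_ ?_
      · rw [le_div_iff₀ hZp, one_mul]
        exact hT
      · exact div_le_div_of_nonneg_right (min_le_left _ _) hZp.le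
  have h1 := ThB_nn g k j s r θ T X _ hM
  refine h1.trans ?_
  have hTW := ThB_tw hk r hXp
  have hF := hcrd X hXX2
  have hF0 : (0 : ℝ) ≤ (#(TF k s r X) : ℝ) := Nat.cast_nonneg _
  have hM0 : 0 ≤ C1 * (T / X ^ ((k : ℝ) * kap k ^ s)) := by positivity
  obtain ⟨F, hFdef⟩ : ∃ F : ℝ, F = (#(TF k s r X) : ℝ) := ⟨_, rfl⟩
  rw [← hFdef] at hF hF0 ⊢
  obtain ⟨P, hP⟩ : ∃ P : ℝ, P = X ^ ((k : ℝ) * (1 - kap k ^ r)) := ⟨_, rfl⟩
  obtain ⟨Q, hQ⟩ : ∃ Q : ℝ, Q = X ^ ((k : ℝ) * (1 - kap k ^ s)) := ⟨_, rfl⟩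
  have hPp : 0 < P := by
    rw [hP]
    exact Real.rpow_pos_of_pos hXp _
  have hQp : 0 < Q := by
    rw [hQ]
    exact Real.rpow_pos_of_pos hXp _
  have hFP : c * (Q * P) ≤ F := by
    rw [hQ, hP, ← Real.rpow_add hXp]
    exact hF
  have hPF : P ≤ F / c / Q := by
    rw [le_div_iff₀ hQp, le_div_iff₀ hc]
    linarith
  have hXk : X ^ (-(k : ℝ)) = 1 / (Q * X ^ ((k : ℝ) * kap k ^ s)) := by
    rw [hQ, ← Real.rpow_add hXp, Real.rpow_neg hXp.le, one_div]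
    congr 2
    ring
  have h2 : ((TW k r (1 / 8) X).card : ℝ) * (C1 * (T / X ^ ((k : ℝ) * kap k ^ s))) ≤
      F / c / Q * (C1 * (T / X ^ ((k : ℝ) * kap k ^ s))) :=
    mul_le_mul_of_nonneg_right ((hTW.trans (le_of_eq hP.symm)).trans hPF) hM0
  refine (mul_le_mul_of_nonneg_left h2 hF0).trans ?_
  rw [hXk]
  have h3 : F * (F / c / Q * (C1 * (T / X ^ ((k : ℝ) * kap k ^ s)))) =
      C1 / c * (F ^ 2 * T * (1 / (Q * X ^ ((k : ℝ) * kap k ^ s)))) := by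
    field_simp
  have h4 : max 1 (C1 / c) * F ^ 2 * T * (1 / (Q * X ^ ((k : ℝ) * kap k ^ s))) =
      max 1 (C1 / c) * (F ^ 2 * T * (1 / (Q * X ^ ((k : ℝ) * kap k ^ s)))) := by ring
  rw [h3, h4]
  exact mul_le_mul_of_nonneg_right (le_max_right _ _) (by positivity)

end Pool.Agent.Lib.MP_570bef_ntW
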