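import Mathlib
import Pool.Agent.Lib.MP_570bef_ntW.Spl
import Pool.Agent.Lib.MP_570bef_ntW.GSum
import Pool.Agent.Lib.MP_570bef_ntW.ThB
import Pool.Agent.Lib.MP_570bef_ntW.PairQ
import Pool.Agent.Lib.MP_570bef_ntW.RecW

/-!
# SumB: the sum over separated parameters

Let `a = k κ^s`, `b = j κ^r`, `a + b ≤ j`, `R ≥ 1`. `U t = Su g t/(2R)`, `V t = Su (x^j) t/(2R)`, `T = TF k s r X`: `NN g k j s r θ R X = N2 T U V θ` (divide by `2R > 0`). `Y = K X^j`, `K = (s + r) 2^j + 1 ≥ 1`: `|V t| ≤ Y` (`su_le` with `h x = x^j`, `K = 1`), `1/Y ≤ X^(-j)`, so `B` is `1/Y`-separated. Let `n` be the natural number with `2^n ≤ X^a < 2^(n+1)` (`exists_nat_pow_near`, `X^a ≥ 1`); `2^n ≤ X^a ≤ X^j ≤ Y`. `spl`.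
Small frequencies: `gd_le` with `lam = (1/2)^n`: `|D'| ≤ (m+1) 2^n` means `|D| ≤ T' = 2R(m+1)2^n` and `T' ≥ R(m+1) X^a ≥ X^a`: `th_b`: count `≤ C F² T' X^(-k) = (m+1) Q`, `Q = 2 R C F² 2^n X^(-k)`, `F = #TF`. So `(1/2)^n GD ≤ 8 R C F² X^(-k)` for every `θ ∈ B`.
Dyadic ranges, `i < n`: `gp_le` with `lam = 4 (1/2)^(i+1)`: both differences (unscaled) `≤ T' = 2R(m+1)/lam = R(m+1)2^i` (`≥ 1`): `pair_q`: count `≤ C F² X^(-k+a+b-j) (1 + T' X^(-a)) (1 + T' X^(-b)) ≤ (m+1)² Q`, `Q = C F² X^(-k+a+b-j) (1 + R 2^i X^(-a)) (1 + R 2^i X^(-b))`, `2^i X^(-a) ≤ 1`. So `(1/2)^(i+1) GP ≤ 4 C F² X^(-k+a+b-j) (1 + R) ((1/2)^i + R X^(-b)) ≤ 4 C (1+R)² F² X^(-k+a+b-j)`, and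
`Y * n * (this) ≤ K X^j n 4 C (1+R)² F² X^(-k+a+b-j)`, `n ≤ a log X/log 2 ≤ C' (1 + log X)`.
-/

set_option autoImplicit false

open Finset Real Polynomial
open Pool.Agent.Lib.MP_2a816b_nt (e nn norm_e conj_e e_add e_neg)

namespace Pool.Agent.Lib.MP_570bef_ntW

open Pool.Agent.Lib.MP_570bef_ntS (kap Dio)
open Pool.Agent.Lib.MP_570bef_ntSH (kap_pos kap_lt_one kap_pow_pos kap_pow_le_one)

private theorem SumB_abs {x R c : ℝ} (hR : 0 < R) : |x / (2 * R)| ≤ c ↔ |x| ≤ 2 * R * c := by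
  rw [abs_div, abs_of_pos (by positivity : 0 < 2 * R), div_le_iff₀ (by positivity), mul_comm c]

private theorem SumB_one {m : ℕ} {y : ℝ} : 1 + ((m : ℝ) + 1) * y ≤ ((m : ℝ) + 1) * (1 + y) := by
  have : (0 : ℝ) ≤ m := Nat.cast_nonneg m
  nlinarith

theorem sum_b (g : ℝ[X]) (k j s r : ℕ) (hk : 2 ≤ k) (hj : 1 ≤ j) (hjk : j < k)
    (hg : g.natDegree = k) (hL : 0 < g.leadingCoeff) (hrs : r ≤ s)
    (hH : (k : ℝ) * kap k ^ s + (j : ℝ) * kap k ^ r ≤ j) (R : ℝ) (hR : 1 ≤ R) :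
    ∃ C X0 : ℝ, 1 ≤ C ∧ 1 ≤ X0 ∧ ∀ X : ℝ, X0 ≤ X → ∀ B : Finset ℝ,
      Sepd B (X ^ (-(j : ℝ))) → (∀ θ ∈ B, 0 ≤ θ ∧ θ ≤ 1) →
      ∑ θ ∈ B, (NN g k j s r θ R X : ℝ) ≤
        C * (1 + Real.log X) * (#(TF k s r X) : ℝ) ^ 2 * X ^ (-(k : ℝ)) *
          ((#B : ℝ) + X ^ ((k : ℝ) * kap k ^ s + (j : ℝ) * kap k ^ r)) := by
  obtain ⟨C1, X1, hC1, hX1, h1⟩ := th_b g k j s r hk hj hjk hg hL hrs
  obtain ⟨C2, X2, hC2, hX2, h2⟩ := pair_q g k j s r hk hj hjk hg hL hrs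
  obtain ⟨a, ha⟩ : ∃ a : ℝ, a = (k : ℝ) * kap k ^ s := ⟨_, rfl⟩
  obtain ⟨b, hb⟩ : ∃ b : ℝ, b = (j : ℝ) * kap k ^ r := ⟨_, rfl⟩
  have ha0 : 0 ≤ a := by
    rw [ha]
    exact mul_nonneg (Nat.cast_nonneg _) (kap_pow_pos hk s).le
  have hb0 : 0 ≤ b := by
    rw [hb]
    exact mul_nonneg (Nat.cast_nonneg _) (kap_pow_pos hk r).le
  have hak : a ≤ k := by
    rw [ha]
    exact mul_le_of_le_one_right (Nat.cast_nonneg _) (kap_pow_le_one hk s)
  rw [← ha, ← hb] at hH h2 ⊢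
  rw [← ha] at h1
  obtain ⟨K, hK⟩ : ∃ K : ℝ, K = ((s : ℝ) + r) * (1 * 2 ^ j) + 1 := ⟨_, rfl⟩
  have hK1 : 1 ≤ K := by
    rw [hK]
    have : 0 ≤ ((s : ℝ) + r) * (1 * 2 ^ j) := by positivity
    linarith
  have hR0 : 0 < R := by linarith
  have hk0 : (0 : ℝ) ≤ k := Nat.cast_nonneg k
  have hk2 : (2 : ℝ) ≤ k := by exact_mod_cast hk
  refine ⟨10 ^ 9 * (8 * R * C1 + 8 * k * C2 * (1 + R) ^ 2 * K), max X1 X2, ?_, le_max_of_le_left hX1, ?_⟩
  · have h3 : 1 ≤ 8 * R * C1 := by nlinarith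
    have h4 : 0 ≤ 8 * k * C2 * (1 + R) ^ 2 * K := by positivity
    linarith
  intro X hX B hB hB1
  have hXX1 : X1 ≤ X := (le_max_left _ _).trans hX
  have hXX2 : X2 ≤ X := (le_max_right _ _).trans hX
  have hX1' : 1 ≤ X := hX1.trans hXX1
  have hX0 : 0 < X := by linarith
  have hlog : 0 ≤ Real.log X := Real.log_nonneg hX1'
  obtain ⟨U, hU⟩ : ∃ U : (Fin s → ℕ) × (Fin r → ℕ) → ℝ, U = fun t => Su (fun x => g.eval x) t / (2 * R) := ⟨_, rfl⟩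
  obtain ⟨V, hV⟩ : ∃ V : (Fin s → ℕ) × (Fin r → ℕ) → ℝ, V = fun t => Su (fun x => x ^ j) t / (2 * R) := ⟨_, rfl⟩
  have hcomb : ∀ θ (z : ((Fin s → ℕ) × (Fin r → ℕ)) × ((Fin s → ℕ) × (Fin r → ℕ))),
      (U z.1 - U z.2) + θ * (V z.1 - V z.2) =
        ((Su (fun x => g.eval x) z.1 - Su (fun x => g.eval x) z.2) +
          θ * (Su (fun x => x ^ j) z.1 - Su (fun x => x ^ j) z.2)) / (2 * R) := by
    intro θ z
    rw [hU, hV]
    field_simp
  have hcountD : ∀ θ c, #((TF k s r X ×ˢ TF k s r X).filter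
      fun z : ((Fin s → ℕ) × (Fin r → ℕ)) × ((Fin s → ℕ) × (Fin r → ℕ)) =>
        |(U z.1 - U z.2) + θ * (V z.1 - V z.2)| ≤ c) = NN g k j s r θ (2 * R * c) X := by
    intro θ c
    unfold NN
    refine congrArg Finset.card (Finset.filter_congr fun z _ => ?_)
    rw [hcomb, SumB_abs hR0]
  have hN2 : ∀ θ, N2 (TF k s r X) U V θ = NN g k j s r θ R X := by
    intro θ
    unfold N2
    rw [hcountD]
    refine congrArg (fun c => NN g k j s r θ c X) ?_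
    ring
  obtain ⟨Y, hY⟩ : ∃ Y : ℝ, Y = K * X ^ j := ⟨_, rfl⟩
  have hXj : 1 ≤ X ^ j := one_le_pow₀ hX1'
  have hY1 : X ^ j ≤ Y := by
    rw [hY]
    nlinarith
  have hY0 : 0 < Y := by linarith
  have hVY : ∀ t ∈ TF k s r X, |V t| ≤ Y := by
    intro t ht
    have h3 := su_le (fun x => x ^ j) k s r j hk hrs 1 (fun x hx => by
      rw [abs_of_nonneg (by positivity)]
      linarith) X hX1' t ht
    rw [hV]
    dsimp only
    rw [SumB_abs hR0]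
    refine h3.trans ?_
    rw [hY, hK]
    have h4 : 0 ≤ ((s : ℝ) + r) * (1 * 2 ^ j) := by positivity
    have h5 : 0 ≤ ((s : ℝ) + r) * (1 * 2 ^ j) * X ^ j := by positivity
    have h6 : (1 : ℝ) ≤ 2 * R := by linarith
    calc ((s : ℝ) + r) * (1 * 2 ^ j) * X ^ j ≤ 1 * ((((s : ℝ) + r) * (1 * 2 ^ j) + 1) * X ^ j) := by
          nlinarith
      _ ≤ 2 * R * ((((s : ℝ) + r) * (1 * 2 ^ j) + 1) * X ^ j) := by
          gcongr
  have hBY : Sepd B (1 / Y) := by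
    intro x hx y hy hxy
    refine le_trans ?_ (hB x hx y hy hxy)
    rw [Real.rpow_neg hX0.le, Real.rpow_natCast, ← one_div]
    exact one_div_le_one_div_of_le (by positivity) hY1
  have hXa1 : 1 ≤ X ^ a := Real.one_le_rpow hX1' ha0
  obtain ⟨n, hn1, hn2⟩ := exists_nat_pow_near hXa1 (show (1 : ℝ) < 2 by norm_num)
  have hXaj : X ^ a ≤ X ^ j := by
    rw [← Real.rpow_natCast]
    exact Real.rpow_le_rpow_of_exponent_le hX1' (by linarith)
  have hs := spl (TF k s r X) U V Y n (hn1.trans (hXaj.trans hY1)) hVY B hBY hB1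
  rw [Finset.sum_congr rfl fun θ _ => by rw [hN2 θ]] at hs
  obtain ⟨F, hF⟩ : ∃ F : ℝ, F = (#(TF k s r X) : ℝ) ^ 2 := ⟨_, rfl⟩
  have hF0 : 0 ≤ F := by
    rw [hF]
    positivity
  have h1 := h1 X hXX1
  have h2 := h2 X hXX2
  rw [← hF] at h1 h2 ⊢
  have hXk0 : 0 < X ^ (-(k : ℝ)) := Real.rpow_pos_of_pos hX0 _
  -- small frequencies
  have hD : ∀ θ ∈ B, (1 / 2 : ℝ) ^ n * GD (TF k s r X) U V θ ((1 / 2) ^ n) ≤ 8 * R * C1 * (F * X ^ (-(k : ℝ))) := by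
    intro θ hθ
    have h3 := gd_le (TF k s r X) U V θ ((1 / 2) ^ n) (C1 * F * (2 * R * 2 ^ n) * X ^ (-(k : ℝ))) (by positivity)
      (by positivity) (fun m => by
        rw [hcountD]
        have h4 : 2 * R * (((m : ℝ) + 1) / (1 / 2) ^ n) = ((m : ℝ) + 1) * (2 * R * 2 ^ n) := by
          rw [one_div, inv_pow]
          field_simp
        rw [h4]
        have h5 : X ^ a ≤ ((m : ℝ) + 1) * (2 * R * 2 ^ n) := by
          have h6 : (0 : ℝ) ≤ m := Nat.cast_nonneg m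
          have h7 : (0 : ℝ) < 2 ^ n := by positivity
          calc X ^ a ≤ 2 ^ (n + 1) := hn2.le
            _ = 1 * (2 * 1 * 2 ^ n) := by ring
            _ ≤ ((m : ℝ) + 1) * (2 * R * 2 ^ n) := by
                gcongr
                linarith
        refine (h1 θ (hB1 θ hθ).1 (hB1 θ hθ).2 _ h5).trans (le_of_eq ?_)
        ring)
    have h4 := mul_le_mul_of_nonneg_left h3 (by positivity : 0 ≤ (1 / 2 : ℝ) ^ n)
    refine h4.trans (le_of_eq ?_)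
    have h5 : (1 / 2 : ℝ) ^ n * 2 ^ n = 1 := by
      rw [← mul_pow]
      norm_num
    linear_combination (8 * R * C1 * F * X ^ (-(k : ℝ))) * h5
  -- dyadic ranges
  have hP : ∀ i ∈ range n, (1 / 2 : ℝ) ^ (i + 1) * GP (TF k s r X) U V (4 * (1 / 2) ^ (i + 1)) ≤
      4 * C2 * (1 + R) ^ 2 * F * X ^ (-(k : ℝ) + (a + b) - j) := by
    intro i hi
    have hi' : i < n := Finset.mem_range.mp hi
    have h2i : (0 : ℝ) < 2 ^ i := by positivity
    have hXa : 0 < X ^ (-a) := Real.rpow_pos_of_pos hX0 _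
    have hXb : 0 < X ^ (-b) := Real.rpow_pos_of_pos hX0 _
    have hXe : 0 < X ^ (-(k : ℝ) + (a + b) - j) := Real.rpow_pos_of_pos hX0 _
    have h3 := gp_le (TF k s r X) U V (4 * (1 / 2) ^ (i + 1))
      (C2 * F * X ^ (-(k : ℝ) + (a + b) - j) * (1 + R * 2 ^ i * X ^ (-a)) * (1 + R * 2 ^ i * X ^ (-b)))
      (by positivity) (fun m => by
        have hm : (0 : ℝ) ≤ m := Nat.cast_nonneg m
        obtain ⟨T, hT⟩ : ∃ T : ℝ, T = ((m : ℝ) + 1) * (R * 2 ^ i) := ⟨_, rfl⟩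
        have hT1 : 1 ≤ T := by
          rw [hT]
          have h4 : (1 : ℝ) ≤ 2 ^ i := one_le_pow₀ (by norm_num)
          have h5 : 1 ≤ R * 2 ^ i := by nlinarith
          nlinarith
        have hlam : 2 * R * (((m : ℝ) + 1) / (4 * (1 / 2) ^ (i + 1))) = T := by
          rw [hT, one_div, inv_pow, pow_succ]
          field_simp
          ring
        have hset : ((TF k s r X ×ˢ TF k s r X).filter
            fun z : ((Fin s → ℕ) × (Fin r → ℕ)) × ((Fin s → ℕ) × (Fin r → ℕ)) =>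
              |U z.1 - U z.2| ≤ ((m : ℝ) + 1) / (4 * (1 / 2) ^ (i + 1)) ∧
              |V z.1 - V z.2| ≤ ((m : ℝ) + 1) / (4 * (1 / 2) ^ (i + 1))) =
            ((TF k s r X ×ˢ TF k s r X).filter
            fun z : ((Fin s → ℕ) × (Fin r → ℕ)) × ((Fin s → ℕ) × (Fin r → ℕ)) =>
              |Su (fun x => g.eval x) z.1 - Su (fun x => g.eval x) z.2| ≤ T ∧
              |Su (fun x => x ^ j) z.1 - Su (fun x => x ^ j) z.2| ≤ T) := by
          refine Finset.filter_congr fun z _ => ?_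
          rw [← hlam, ← SumB_abs hR0, ← SumB_abs hR0, hU, hV]
          dsimp only
          rw [sub_div, sub_div]
        rw [hset]
        refine (h2 T hT1).trans ?_
        have h4 : 1 + T * X ^ (-a) ≤ ((m : ℝ) + 1) * (1 + R * 2 ^ i * X ^ (-a)) := by
          have := SumB_one (m := m) (y := R * 2 ^ i * X ^ (-a))
          rw [hT]
          linarith
        have h5 : 1 + T * X ^ (-b) ≤ ((m : ℝ) + 1) * (1 + R * 2 ^ i * X ^ (-b)) := by
          have := SumB_one (m := m) (y := R * 2 ^ i * X ^ (-b))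
          rw [hT]
          linarith
        have hT0 : 0 ≤ T := by linarith
        calc C2 * F * X ^ (-(k : ℝ) + (a + b) - j) * (1 + T * X ^ (-a)) * (1 + T * X ^ (-b))
            ≤ C2 * F * X ^ (-(k : ℝ) + (a + b) - j) * (((m : ℝ) + 1) * (1 + R * 2 ^ i * X ^ (-a))) *
              (((m : ℝ) + 1) * (1 + R * 2 ^ i * X ^ (-b))) := by
              gcongr
          _ = _ := by ring)
    have h4 : R * 2 ^ i * X ^ (-a) ≤ R := by
      have h5 : (2 : ℝ) ^ i ≤ X ^ a := (pow_le_pow_right₀ (by norm_num) hi'.le).trans hn1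
      have h6 : 2 ^ i * X ^ (-a) ≤ 1 := by
        rw [Real.rpow_neg hX0.le, ← div_eq_mul_inv, div_le_one (by positivity)]
        exact h5
      calc R * 2 ^ i * X ^ (-a) = R * (2 ^ i * X ^ (-a)) := by ring
        _ ≤ R * 1 := by gcongr
        _ = R := mul_one R
    have h5 : (1 / 2 : ℝ) ^ (i + 1) * (1 + R * 2 ^ i * X ^ (-b)) ≤ 1 + R := by
      have h6 : (1 / 2 : ℝ) ^ (i + 1) ≤ 1 := pow_le_one₀ (by norm_num) (by norm_num)
      have h7 : (1 / 2 : ℝ) ^ (i + 1) * 2 ^ i = 1 / 2 := by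
        rw [pow_succ, mul_assoc, mul_comm (1 / 2 : ℝ) (2 ^ i), ← mul_assoc, ← mul_pow]
        norm_num
      have h8 : X ^ (-b) ≤ 1 := Real.rpow_le_one_of_one_le_of_nonpos hX1' (by linarith)
      have h9 : (1 / 2 : ℝ) ^ (i + 1) * (1 + R * 2 ^ i * X ^ (-b)) =
          (1 / 2 : ℝ) ^ (i + 1) + (1 / 2) * R * X ^ (-b) := by
        linear_combination (R * X ^ (-b)) * h7
      rw [h9]
      have h10 : R * X ^ (-b) ≤ R * 1 := by gcongr
      have h11 : 0 ≤ R * X ^ (-b) := by positivity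
      nlinarith
    have h6 := mul_le_mul_of_nonneg_left h3 (by positivity : 0 ≤ (1 / 2 : ℝ) ^ (i + 1))
    refine h6.trans ?_
    calc (1 / 2 : ℝ) ^ (i + 1) * (4 * (C2 * F * X ^ (-(k : ℝ) + (a + b) - j) *
          (1 + R * 2 ^ i * X ^ (-a)) * (1 + R * 2 ^ i * X ^ (-b))))
        = 4 * C2 * F * X ^ (-(k : ℝ) + (a + b) - j) * (1 + R * 2 ^ i * X ^ (-a)) *
          ((1 / 2 : ℝ) ^ (i + 1) * (1 + R * 2 ^ i * X ^ (-b))) := by ring
      _ ≤ 4 * C2 * F * X ^ (-(k : ℝ) + (a + b) - j) * (1 + R) * (1 + R) := by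
          gcongr
      _ = 4 * C2 * (1 + R) ^ 2 * F * X ^ (-(k : ℝ) + (a + b) - j) := by ring
  have hDsum : ∑ θ ∈ B, (1 / 2 : ℝ) ^ n * GD (TF k s r X) U V θ ((1 / 2) ^ n) ≤
      (#B : ℝ) * (8 * R * C1 * (F * X ^ (-(k : ℝ)))) := by
    refine (Finset.sum_le_sum hD).trans (le_of_eq ?_)
    rw [Finset.sum_const, nsmul_eq_mul]
  have hPsum : ∑ i ∈ range n, (1 / 2 : ℝ) ^ (i + 1) * GP (TF k s r X) U V (4 * (1 / 2) ^ (i + 1)) ≤
      (n : ℝ) * (4 * C2 * (1 + R) ^ 2 * F * X ^ (-(k : ℝ) + (a + b) - j)) := by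
    refine (Finset.sum_le_sum hP).trans (le_of_eq ?_)
    rw [Finset.sum_const, Finset.card_range, nsmul_eq_mul]
  have hnlog : (n : ℝ) ≤ 2 * k * (1 + Real.log X) := by
    have h3 : (n : ℝ) * Real.log 2 ≤ a * Real.log X := by
      have h4 := Real.log_le_log (by positivity) hn1
      rwa [Real.log_pow, Real.log_rpow hX0] at h4
    have h4 : a * Real.log X ≤ k * Real.log X := mul_le_mul_of_nonneg_right hak hlog
    have h5 : (1 / 2 : ℝ) < Real.log 2 := by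
      have := Real.log_two_gt_d9
      linarith
    have h6 : (0 : ℝ) ≤ n := Nat.cast_nonneg n
    nlinarith
  have hexp : X ^ j * X ^ (-(k : ℝ) + (a + b) - j) = X ^ (-(k : ℝ)) * X ^ (a + b) := by
    rw [← Real.rpow_natCast X j, ← Real.rpow_add hX0, ← Real.rpow_add hX0]
    refine congrArg (fun e => X ^ e) ?_
    ring
  have hXab : 0 < X ^ (a + b) := Real.rpow_pos_of_pos hX0 _
  have hXe : 0 < X ^ (-(k : ℝ) + (a + b) - j) := Real.rpow_pos_of_pos hX0 _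
  refine hs.trans ?_
  have hQ : Y * ∑ i ∈ range n, (1 / 2 : ℝ) ^ (i + 1) * GP (TF k s r X) U V (4 * (1 / 2) ^ (i + 1)) ≤
      8 * k * C2 * (1 + R) ^ 2 * K * (1 + Real.log X) * (F * (X ^ (-(k : ℝ)) * X ^ (a + b))) := by
    calc Y * ∑ i ∈ range n, (1 / 2 : ℝ) ^ (i + 1) * GP (TF k s r X) U V (4 * (1 / 2) ^ (i + 1))
        ≤ Y * ((2 * k * (1 + Real.log X)) * (4 * C2 * (1 + R) ^ 2 * F * X ^ (-(k : ℝ) + (a + b) - j))) := by
          refine mul_le_mul_of_nonneg_left (hPsum.trans ?_) hY0.le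
          gcongr
      _ = 8 * k * C2 * (1 + R) ^ 2 * K * (1 + Real.log X) * (F * (X ^ (-(k : ℝ)) * X ^ (a + b))) := by
          rw [← hexp, hY]
          ring
  have hDsum' : ∑ θ ∈ B, (1 / 2 : ℝ) ^ n * GD (TF k s r X) U V θ ((1 / 2) ^ n) ≤
      8 * R * C1 * (1 + Real.log X) * (F * (X ^ (-(k : ℝ)) * (#B : ℝ))) := by
    refine hDsum.trans ?_
    have h3 : 0 ≤ 8 * R * C1 * (F * (X ^ (-(k : ℝ)) * (#B : ℝ))) := by positivity
    nlinarith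
  obtain ⟨E1, hE1⟩ : ∃ E1 : ℝ, E1 = F * (X ^ (-(k : ℝ)) * (#B : ℝ)) := ⟨_, rfl⟩
  obtain ⟨E2, hE2⟩ : ∃ E2 : ℝ, E2 = F * (X ^ (-(k : ℝ)) * X ^ (a + b)) := ⟨_, rfl⟩
  have hE10 : 0 ≤ E1 := by
    rw [hE1]
    positivity
  have hE20 : 0 ≤ E2 := by
    rw [hE2]
    positivity
  rw [← hE1] at hDsum'
  rw [← hE2] at hQ
  have hgoal : 10 ^ 9 * (8 * R * C1 + 8 * k * C2 * (1 + R) ^ 2 * K) * (1 + Real.log X) * F * X ^ (-(k : ℝ)) *
      ((#B : ℝ) + X ^ (a + b)) =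
      10 ^ 9 * ((8 * R * C1 + 8 * k * C2 * (1 + R) ^ 2 * K) * (1 + Real.log X) * (E1 + E2)) := by
    rw [hE1, hE2]
    ring
  rw [hgoal]
  refine mul_le_mul_of_nonneg_left ?_ (by norm_num)
  have h3 : 0 ≤ 8 * k * C2 * (1 + R) ^ 2 * K * (1 + Real.log X) * E1 := by positivity
  have h4 : 0 ≤ 8 * R * C1 * (1 + Real.log X) * E2 := by positivity
  calc _ ≤ 8 * R * C1 * (1 + Real.log X) * E1 + 8 * k * C2 * (1 + R) ^ 2 * K * (1 + Real.log X) * E2 :=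
        add_le_add hDsum' hQ
    _ ≤ 8 * R * C1 * (1 + Real.log X) * E1 + 8 * k * C2 * (1 + R) ^ 2 * K * (1 + Real.log X) * E2 +
        (8 * k * C2 * (1 + R) ^ 2 * K * (1 + Real.log X) * E1 + 8 * R * C1 * (1 + Real.log X) * E2) := by
        linarith
    _ = _ := by ring

end Pool.Agent.Lib.MP_570bef_ntW
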