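import Mathlib
import Pool.Agent.Lib.MP_570bef_ntW.SumB
import Pool.Agent.Lib.MP_570bef_ntW.HdW

/-!
# DimN: the exceptional set has dimension at most `(a + b)/j`

`a = k κ^s`, `b = j κ^r`, `c0 = (a + b)/j > 0`. The set only shrinks when `η` increases; let `η ≤ 1` (replace by `min η 1`). `X = 2^m`, `F = #TF > 0` for large `m` (`crd_w`). `E m = {β ∈ [0,1] | F² X^(-k+η) < NN g k j s r β R X}`. For a finite `B ⊆ E m` with `Sepd B (X^(-j))`: `sum_b`: `#B F² X^(-k+η) ≤ ∑ NN ≤ C (1 + log X) F² X^(-k) (#B + X^(a+b))`, so `#B X^η ≤ C (1 + log X)(#B + X^(a+b))`.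
For large `X`: `C (1 + log X) ≤ X^(η/2)/2` and `X^(η/2) ≥ 1`, so `#B X^η ≤ #B X^η/2 + X^(η/2) X^(a+b)/2`, `#B ≤ X^(a+b-η/2)`. `sepcov_w` with `ρ = X^(-j)`, `M = X^(a+b-η/2)`: `G`; `E m ⊆ ⋃_{y ∈ G} Icc (y - X^(-j)) (y - X^(-j) + 2 X^(-j))`. The pairs `p = (y - X^(-j), 2 X^(-j))`: `∑ p.2^c0 = #G (2 X^(-j))^c0 ≤ 2^c0 X^(a+b-η/2) X^(-(a+b)) = 2^c0 (2^m)^(-η/2) = 2^c0 q^m`, `q = 2^(-η/2) < 1`, and
`p.2 = 2 (2^m)^(-j) ≤ 2 q^m`. `haus_w` (with `Finset.image`, `sum_image_le` or `card` of the image `≤ #G`).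
-/

set_option autoImplicit false

open Finset Real Polynomial
open Pool.Agent.Lib.MP_2a816b_nt (e nn norm_e conj_e e_add e_neg)

namespace Pool.Agent.Lib.MP_570bef_ntW

open Pool.Agent.Lib.MP_570bef_ntS (kap Dio)
open Pool.Agent.Lib.MP_570bef_ntSH (kap_pos kap_lt_one kap_pow_pos kap_pow_le_one)

private theorem DimN_log {η X : ℝ} (hη : 0 < η) (hX : 1 ≤ X) :
    1 + Real.log X ≤ (1 + 4 / η) * X ^ (η / 4) := by
  have h1 : Real.log X ≤ X ^ (η / 4) / (η / 4) := Real.log_le_rpow_div (by linarith) (by linarith)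
  have h2 : 1 ≤ X ^ (η / 4) := Real.one_le_rpow hX (by linarith)
  have h3 : X ^ (η / 4) / (η / 4) = 4 / η * X ^ (η / 4) := by
    field_simp
  rw [h3] at h1
  linarith

/-- the bound for the number of elements of a separated set -/
private theorem DimN_card {C A η X b : ℝ} (hC : 1 ≤ C) (hη : 0 < η) (hX : 1 ≤ X) (hb : 0 ≤ b)
    (hX' : 2 * (C * (1 + 4 / η)) ≤ X ^ (η / 4))
    (h : b * X ^ η ≤ C * (1 + Real.log X) * (b + X ^ A)) : b ≤ X ^ (A - η / 2) := by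
  have hX0 : 0 < X := by linarith
  have h1 : C * (1 + Real.log X) ≤ X ^ (η / 2) / 2 := by
    have h2 : C * (1 + Real.log X) ≤ C * ((1 + 4 / η) * X ^ (η / 4)) :=
      mul_le_mul_of_nonneg_left (DimN_log hη hX) (by linarith)
    have h3 : X ^ (η / 2) = X ^ (η / 4) * X ^ (η / 4) := by
      rw [← Real.rpow_add hX0]
      congr 1
      ring
    have h4 : 0 < X ^ (η / 4) := Real.rpow_pos_of_pos hX0 _
    have h5 := mul_le_mul_of_nonneg_right hX' h4.le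
    rw [h3]
    linarith
  have h6 : 0 ≤ b + X ^ A := by
    have := Real.rpow_pos_of_pos hX0 A
    linarith
  have h7 := h.trans (mul_le_mul_of_nonneg_right h1 h6)
  have h8 : X ^ (η / 2) ≤ X ^ η := Real.rpow_le_rpow_of_exponent_le hX (by linarith)
  have h9 := mul_le_mul_of_nonneg_right h8 hb
  have h10 : b * X ^ η ≤ X ^ (η / 2) * X ^ A := by
    linarith
  have h11 : X ^ (η / 2) * X ^ A = X ^ (A - η / 2) * X ^ η := by
    rw [← Real.rpow_add hX0, ← Real.rpow_add hX0]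
    congr 1
    ring
  rw [h11] at h10
  exact le_of_mul_le_mul_right h10 (Real.rpow_pos_of_pos hX0 _)

theorem dim_n (g : ℝ[X]) (k j s r : ℕ) (hk : 2 ≤ k) (hj : 1 ≤ j) (hjk : j < k)
    (hg : g.natDegree = k) (hL : 0 < g.leadingCoeff) (hrs : r ≤ s)
    (hH : (k : ℝ) * kap k ^ s + (j : ℝ) * kap k ^ r ≤ j) (R η : ℝ) (hR : 1 ≤ R) (hη : 0 < η) :
    dimH {β : ℝ | β ∈ Set.Icc (0 : ℝ) 1 ∧ ∀ M : ℕ, ∃ m ≥ M,
      (#(TF k s r ((2 : ℝ) ^ m)) : ℝ) ^ 2 * ((2 : ℝ) ^ m) ^ (-(k : ℝ) + η) <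
        (NN g k j s r β R ((2 : ℝ) ^ m) : ℝ)} ≤
      ENNReal.ofReal (((k : ℝ) * kap k ^ s + (j : ℝ) * kap k ^ r) / j) := by
  have hk' : (2 : ℝ) ≤ k := by exact_mod_cast hk
  have hj' : (1 : ℝ) ≤ j := by exact_mod_cast hj
  have hA0 : 0 < (k : ℝ) * kap k ^ s + (j : ℝ) * kap k ^ r := by
    have h1 := kap_pow_pos hk s
    have h2 := kap_pow_pos hk r
    positivity
  obtain ⟨C, X0, hC, hX0, hsum⟩ := sum_b g k j s r hk hj hjk hg hL hrs hH R hR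
  obtain ⟨c2, X2, hc2, hX2, hcrd⟩ := crd_w k s r hk
  generalize (k : ℝ) * kap k ^ s + (j : ℝ) * kap k ^ r = A at hA0 hsum
  obtain ⟨δ, hδ⟩ : ∃ δ : ℝ, δ = min η 1 := ⟨_, rfl⟩
  have hδ0 : 0 < δ := by
    rw [hδ]
    exact lt_min hη one_pos
  have hδη : δ ≤ η := by
    rw [hδ]
    exact min_le_left _ _
  have hδ1 : δ ≤ 1 := by
    rw [hδ]
    exact min_le_right _ _
  obtain ⟨E, hE⟩ : ∃ E : ℕ → Set ℝ, E = fun m : ℕ => {β : ℝ | β ∈ Set.Icc (0 : ℝ) 1 ∧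
    (#(TF k s r ((2 : ℝ) ^ m)) : ℝ) ^ 2 * ((2 : ℝ) ^ m) ^ (-(k : ℝ) + δ) <
      (NN g k j s r β R ((2 : ℝ) ^ m) : ℝ)} := ⟨_, rfl⟩
  have ht : Filter.Tendsto (fun m : ℕ => (2 : ℝ) ^ m) Filter.atTop Filter.atTop :=
    tendsto_pow_atTop_atTop_of_one_lt (by norm_num)
  have ht' : Filter.Tendsto (fun m : ℕ => ((2 : ℝ) ^ m) ^ (δ / 4)) Filter.atTop Filter.atTop :=
    (tendsto_rpow_atTop (by linarith : 0 < δ / 4)).comp ht
  obtain ⟨m0, hm0⟩ := Filter.eventually_atTop.1 ((ht.eventually_ge_atTop (max X0 X2)).and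
    (ht'.eventually_ge_atTop (2 * (C * (1 + 4 / δ)))))
  obtain ⟨q, hq⟩ : ∃ q : ℝ, q = (2 : ℝ) ^ (-(δ / 2)) := ⟨_, rfl⟩
  have hq0 : 0 < q := by
    rw [hq]
    exact Real.rpow_pos_of_pos two_pos _
  have hq1 : q < 1 := by
    rw [hq]
    exact Real.rpow_lt_one_of_one_lt_of_neg one_lt_two (by linarith)
  have hqm : ∀ m : ℕ, q ^ m = ((2 : ℝ) ^ m) ^ (-(δ / 2)) := by
    intro m
    rw [hq, ← Real.rpow_natCast, ← Real.rpow_natCast, ← Real.rpow_mul two_pos.le,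
      ← Real.rpow_mul two_pos.le, mul_comm]
  have hc0 : 0 < A / j := by positivity
  have h2c : (0 : ℝ) < 2 ^ (A / j) := Real.rpow_pos_of_pos two_pos _
  have key := haus_w E (A / j) (2 + 2 ^ (A / j)) q hc0 (by linarith) hq0 hq1 m0 (fun m hm => by
    obtain ⟨hXm, hXq⟩ := hm0 m hm
    have hqm' := hqm m
    have hEm : E m = {β : ℝ | β ∈ Set.Icc (0 : ℝ) 1 ∧
      (#(TF k s r ((2 : ℝ) ^ m)) : ℝ) ^ 2 * ((2 : ℝ) ^ m) ^ (-(k : ℝ) + δ) <
        (NN g k j s r β R ((2 : ℝ) ^ m) : ℝ)} := by rw [hE]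
    generalize (2 : ℝ) ^ m = Y at hXm hXq hqm' hEm
    have hXa : X0 ≤ Y := (le_max_left _ _).trans hXm
    have hXb : X2 ≤ Y := (le_max_right _ _).trans hXm
    have hY1 : 1 ≤ Y := hX0.trans hXa
    have hY0 : 0 < Y := by linarith
    have hF0 : (0 : ℝ) < (#(TF k s r Y) : ℝ) :=
      lt_of_lt_of_le (by positivity) (hcrd Y hXb)
    have hρ : 0 < Y ^ (-(j : ℝ)) := Real.rpow_pos_of_pos hY0 _
    obtain ⟨G, hG1, hG2⟩ := sepcov_w (E m) (Y ^ (-(j : ℝ))) (Y ^ (A - δ / 2)) hρ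
      (fun B hB hBs => by
        refine DimN_card hC hδ0 hY1 (Nat.cast_nonneg _) hXq ?_
        have h1 := hsum Y hXa B hBs (fun θ hθ => by
          have h2 := hB θ hθ
          rw [hEm] at h2
          exact h2.1)
        have h2 : (#B : ℝ) * ((#(TF k s r Y) : ℝ) ^ 2 * Y ^ (-(k : ℝ) + δ)) ≤
            ∑ θ ∈ B, (NN g k j s r θ R Y : ℝ) := by
          rw [← nsmul_eq_mul]
          refine Finset.card_nsmul_le_sum _ _ _ (fun θ hθ => ?_)
          have h3 := hB θ hθ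
          rw [hEm] at h3
          exact h3.2.le
        have h3 := h2.trans h1
        rw [Real.rpow_add hY0] at h3
        have h4 : 0 < (#(TF k s r Y) : ℝ) ^ 2 * Y ^ (-(k : ℝ)) := by positivity
        refine le_of_mul_le_mul_right ?_ h4
        calc (#B : ℝ) * Y ^ δ * ((#(TF k s r Y) : ℝ) ^ 2 * Y ^ (-(k : ℝ)))
            = (#B : ℝ) * ((#(TF k s r Y) : ℝ) ^ 2 * (Y ^ (-(k : ℝ)) * Y ^ δ)) := by ring
          _ ≤ _ := h3
          _ = C * (1 + Real.log Y) * ((#B : ℝ) + Y ^ A) *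
              ((#(TF k s r Y) : ℝ) ^ 2 * Y ^ (-(k : ℝ))) := by ring)
    refine ⟨G.image fun y => (y - Y ^ (-(j : ℝ)), 2 * Y ^ (-(j : ℝ))), ?_, ?_, ?_⟩
    · intro x hx
      obtain ⟨y, hy, hxy⟩ := hG2 x hx
      rw [Set.mem_iUnion₂]
      refine ⟨(y - Y ^ (-(j : ℝ)), 2 * Y ^ (-(j : ℝ))), Finset.mem_image_of_mem _ hy, ?_⟩
      rw [abs_le] at hxy
      rw [Set.mem_Icc]
      constructor <;> simp only <;> linarith [hxy.1, hxy.2]
    · intro p hp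
      obtain ⟨y, hy, rfl⟩ := Finset.mem_image.1 hp
      refine ⟨by simp only; positivity, ?_⟩
      simp only
      rw [hqm']
      have h1 : Y ^ (-(j : ℝ)) ≤ Y ^ (-(δ / 2)) :=
        Real.rpow_le_rpow_of_exponent_le hY1 (by linarith)
      have h2 : 0 < Y ^ (-(δ / 2)) := Real.rpow_pos_of_pos hY0 _
      have h3 : 0 ≤ (2 : ℝ) ^ (A / j) * Y ^ (-(δ / 2)) := by positivity
      linarith
    · have h1 : ∀ p ∈ G.image fun y => (y - Y ^ (-(j : ℝ)), 2 * Y ^ (-(j : ℝ))),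
          p.2 ^ (A / j) ≤ (2 : ℝ) ^ (A / j) * Y ^ (-A) := by
        intro p hp
        obtain ⟨y, hy, rfl⟩ := Finset.mem_image.1 hp
        simp only
        rw [Real.mul_rpow two_pos.le hρ.le, ← Real.rpow_mul hY0.le]
        have h2 : -(j : ℝ) * (A / j) = -A := by
          field_simp
        rw [h2]
      have h2 := Finset.sum_le_card_nsmul _ _ _ h1
      rw [nsmul_eq_mul] at h2
      refine h2.trans ?_
      have h3 : ((G.image fun y => (y - Y ^ (-(j : ℝ)), 2 * Y ^ (-(j : ℝ)))).card : ℝ) ≤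
          Y ^ (A - δ / 2) := by
        refine le_trans ?_ hG1
        exact_mod_cast Finset.card_image_le
      have h4 : 0 < Y ^ (-A) := Real.rpow_pos_of_pos hY0 _
      refine (mul_le_mul_of_nonneg_right h3 (by positivity)).trans ?_
      rw [hqm']
      have h5 : Y ^ (A - δ / 2) * (2 ^ (A / j) * Y ^ (-A)) = 2 ^ (A / j) * Y ^ (-(δ / 2)) := by
        have h6 : Y ^ (-(δ / 2)) = Y ^ (A - δ / 2) * Y ^ (-A) := by
          rw [← Real.rpow_add hY0]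
          congr 1
          ring
        rw [h6]
        ring
      rw [h5]
      have h6 : 0 < Y ^ (-(δ / 2)) := Real.rpow_pos_of_pos hY0 _
      linarith)
  refine (dimH_mono ?_).trans key
  rintro β ⟨hβ, hM⟩ J
  obtain ⟨m, hm, hlt⟩ := hM J
  refine ⟨m, hm, ?_⟩
  rw [hE]
  refine ⟨hβ, lt_of_le_of_lt ?_ hlt⟩
  refine mul_le_mul_of_nonneg_left ?_ (by positivity)
  exact Real.rpow_le_rpow_of_exponent_le (one_le_pow₀ one_le_two) (by linarith)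

end Pool.Agent.Lib.MP_570bef_ntW
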