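import Mathlib
import Pool.Agent.Lib.MP_570bef_ntW.DimN
import Pool.Agent.Lib.MP_570bef_ntM.Defs

/-!
# SmsN: the family for all parameters outside a small set

As `SmsW` (copy it), with `dim_n` in place of `dim_w` and for all `η` at once: `Z` = the union over `i : ℕ` of the sets of `dim_n` for `η = 1/(i+1)` (`dimH_iUnion`, `iSup_le`). `R = s + r ≥ 1` (`s ≥ 1`, otherwise `hH` gives `k ≤ j`). For `β ∉ Z` and `η > 0` take `i` with `1/(i+1) ≤ η` (`exists_nat_one_div_lt`), `(2^m)^(-k+1/(i+1)) ≤ (2^m)^(-k+η)`.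
-/

set_option autoImplicit false

open Finset Real Polynomial
open Pool.Agent.Lib.MP_2a816b_nt (e nn norm_e conj_e e_add e_neg)

namespace Pool.Agent.Lib.MP_570bef_ntW

open Pool.Agent.Lib.MP_570bef_ntS (kap Dio)
open Pool.Agent.Lib.MP_570bef_ntM (JT)

private theorem SmsN_sum (u : ℝ → ℝ) {s : ℕ} (t : Fin s → ℕ) (h0 : ∀ i, 0 ≤ u (t i : ℝ)) :
    ((∑ i, ⌊u (t i)⌋₊ : ℕ) : ℝ) ≤ ∑ i, u (t i : ℝ) ∧
      ∑ i, u (t i : ℝ) ≤ ((∑ i, ⌊u (t i)⌋₊ : ℕ) : ℝ) + s := by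
  push_cast
  constructor
  · exact Finset.sum_le_sum fun i _ => Nat.floor_le (h0 i)
  · have h1 : ∑ i : Fin s, u (t i : ℝ) ≤ ∑ i : Fin s, ((⌊u (t i)⌋₊ : ℝ) + 1) :=
      Finset.sum_le_sum fun i _ => (Nat.lt_floor_add_one _).le
    have h2 : ∑ i : Fin s, ((⌊u (t i)⌋₊ : ℝ) + 1) = ∑ i : Fin s, (⌊u (t i)⌋₊ : ℝ) + s := by
      rw [Finset.sum_add_distrib]
      simp
    linarith

private theorem SmsN_bounds (u : ℝ → ℝ) {s r : ℕ} (t : (Fin s → ℕ) × (Fin r → ℕ))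
    (h1 : ∀ i, 0 ≤ u (t.1 i : ℝ)) (h2 : ∀ i, 0 ≤ u (t.2 i : ℝ)) :
    (vw u t : ℝ) ≤ Su u t ∧ Su u t ≤ (vw u t : ℝ) + ((s : ℝ) + r) := by
  have h3 := SmsN_sum u t.1 h1
  have h4 := SmsN_sum u t.2 h2
  unfold vw Su
  rw [Nat.cast_add]
  constructor
  · linarith [h3.1, h4.1]
  · linarith [h3.2, h4.2]

private theorem SmsN_split (g : ℝ[X]) (j : ℕ) (β : ℝ) {s r : ℕ} (t : (Fin s → ℕ) × (Fin r → ℕ)) :
    Su (pf g j β) t = Su (fun x => g.eval x) t + β * Su (fun x => x ^ j) t := by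
  unfold Su pf
  rw [Finset.sum_add_distrib, Finset.sum_add_distrib, ← Finset.mul_sum, ← Finset.mul_sum]
  ring

/-- the function is nonnegative from some point on -/
private theorem SmsN_pos (g : ℝ[X]) (k j : ℕ) (hjk : j < k) (hg : g.natDegree = k) (hL : 0 < g.leadingCoeff)
    (β : ℝ) : ∃ x0 : ℝ, ∀ x : ℝ, x0 ≤ x → 0 ≤ pf g j β x := by
  have hg0 : g ≠ 0 := fun h => by
    rw [h, leadingCoeff_zero] at hL
    exact lt_irrefl _ hL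
  have hdg : g.degree = (k : WithBot ℕ) := by rw [degree_eq_natDegree hg0, hg]
  have hlt : (C β * X ^ j : ℝ[X]).degree < g.degree := by
    rw [hdg]
    refine lt_of_le_of_lt (degree_C_mul_X_pow_le j β) ?_
    exact_mod_cast hjk
  have h1 : (g + C β * X ^ j).degree = (k : WithBot ℕ) := by
    rw [degree_add_eq_left_of_degree_lt hlt, hdg]
  have h2 : (g + C β * X ^ j).leadingCoeff = g.leadingCoeff := by
    rw [add_comm]
    exact leadingCoeff_add_of_degree_lt hlt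
  have h3 := Polynomial.tendsto_atTop_of_leadingCoeff_nonneg (g + C β * X ^ j)
    (by rw [h1]; exact_mod_cast (by omega : 0 < k)) (by rw [h2]; exact hL.le)
  obtain ⟨x0, hx0⟩ := Filter.eventually_atTop.1 (h3.eventually_ge_atTop 0)
  refine ⟨x0, fun x hx => ?_⟩
  have h4 := hx0 x hx
  rw [eval_add, eval_mul, eval_C, eval_pow, eval_X] at h4
  exact h4

private theorem SmsN_s (k j s r : ℕ) (hk : 2 ≤ k) (hjk : j < k)
    (hH : (k : ℝ) * kap k ^ s + (j : ℝ) * kap k ^ r ≤ j) : 1 ≤ s := by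
  by_contra hcon
  have hs : s = 0 := by omega
  rw [hs, pow_zero, mul_one] at hH
  have h1 := Pool.Agent.Lib.MP_570bef_ntSH.kap_pow_pos hk r
  have h2 : (0 : ℝ) ≤ (j : ℝ) * kap k ^ r := by positivity
  have h3 : (j : ℝ) < k := by exact_mod_cast hjk
  linarith

private theorem SmsN_JT (g : ℝ[X]) (k j s r : ℕ) (β X : ℝ)
    (h : ∀ t ∈ TF k s r X, (∀ i, 0 ≤ pf g j β (t.1 i : ℝ)) ∧ ∀ i, 0 ≤ pf g j β (t.2 i : ℝ)) :
    JT (TF k s r X) (vw (pf g j β)) ≤ NN g k j s r β ((s : ℝ) + r) X := by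
  unfold JT NN
  refine Finset.card_le_card fun z hz => ?_
  rw [Finset.mem_filter] at hz ⊢
  refine ⟨hz.1, ?_⟩
  have hz1 := Finset.mem_product.1 hz.1
  have h1 := SmsN_bounds (pf g j β) z.1 (h _ hz1.1).1 (h _ hz1.1).2
  have h2 := SmsN_bounds (pf g j β) z.2 (h _ hz1.2).1 (h _ hz1.2).2
  have h3 : (vw (pf g j β) z.1 : ℝ) = vw (pf g j β) z.2 := by exact_mod_cast hz.2
  rw [SmsN_split g j β z.1] at h1
  rw [SmsN_split g j β z.2] at h2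
  rw [abs_le]
  constructor <;> nlinarith [h1.1, h1.2, h2.1, h2.2]

theorem sms_n (g : ℝ[X]) (k j s r : ℕ) (hk : 2 ≤ k) (hj : 1 ≤ j) (hjk : j < k)
    (hg : g.natDegree = k) (hL : 0 < g.leadingCoeff) (hrs : r ≤ s)
    (hH : (k : ℝ) * kap k ^ s + (j : ℝ) * kap k ^ r ≤ j) :
    ∃ Z : Set ℝ, dimH Z ≤ ENNReal.ofReal (((k : ℝ) * kap k ^ s + (j : ℝ) * kap k ^ r) / j) ∧
      ∀ β ∈ Set.Icc (0 : ℝ) 1, β ∉ Z → ∀ η : ℝ, 0 < η →
        ∃ (T : ℕ → Finset ((Fin s → ℕ) × (Fin r → ℕ))) (C : ℝ), ∀ᶠ m : ℕ in Filter.atTop,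
          ((T m).Nonempty ∧ (∀ t ∈ T m, (vw (pf g j β) t : ℝ) ≤ C * ((2 : ℝ) ^ m) ^ k) ∧
          (JT (T m) (vw (pf g j β)) : ℝ) ≤ (#(T m) : ℝ) ^ 2 * ((2 : ℝ) ^ m) ^ (-(k : ℝ) + η)) ∧
          ∀ t ∈ T m, (∀ i, 0 ≤ pf g j β (t.1 i : ℝ)) ∧ ∀ i, 0 ≤ pf g j β (t.2 i : ℝ) := by
  have hs := SmsN_s k j s r hk hjk hH
  have hs1 : (1 : ℝ) ≤ s := by exact_mod_cast hs
  have hR : 1 ≤ (s : ℝ) + r := by
    have hr0 : (0 : ℝ) ≤ (r : ℝ) := Nat.cast_nonneg r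
    linarith
  refine ⟨⋃ i : ℕ, {β : ℝ | β ∈ Set.Icc (0 : ℝ) 1 ∧ ∀ M : ℕ, ∃ m ≥ M,
      (#(TF k s r ((2 : ℝ) ^ m)) : ℝ) ^ 2 * ((2 : ℝ) ^ m) ^ (-(k : ℝ) + 1 / ((i : ℝ) + 1)) <
        (NN g k j s r β ((s : ℝ) + r) ((2 : ℝ) ^ m) : ℝ)}, ?_, fun β hβ hβZ η hη => ?_⟩
  · rw [dimH_iUnion]
    exact iSup_le fun i => dim_n g k j s r hk hj hjk hg hL hrs hH ((s : ℝ) + r) (1 / ((i : ℝ) + 1)) hR
      (by positivity)
  obtain ⟨i, hi⟩ := exists_nat_one_div_lt hη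
  have h0 : ∃ M : ℕ, ∀ m ≥ M, (NN g k j s r β ((s : ℝ) + r) ((2 : ℝ) ^ m) : ℝ) ≤
      (#(TF k s r ((2 : ℝ) ^ m)) : ℝ) ^ 2 * ((2 : ℝ) ^ m) ^ (-(k : ℝ) + 1 / ((i : ℝ) + 1)) := by
    by_contra hcon
    push Not at hcon
    exact hβZ (Set.mem_iUnion.2 ⟨i, hβ, hcon⟩)
  have h1 : ∃ M : ℕ, ∀ m ≥ M, (NN g k j s r β ((s : ℝ) + r) ((2 : ℝ) ^ m) : ℝ) ≤
      (#(TF k s r ((2 : ℝ) ^ m)) : ℝ) ^ 2 * ((2 : ℝ) ^ m) ^ (-(k : ℝ) + η) := by
    obtain ⟨M, hM⟩ := h0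
    refine ⟨M, fun m hm => (hM m hm).trans (mul_le_mul_of_nonneg_left ?_ (sq_nonneg _))⟩
    exact Real.rpow_le_rpow_of_exponent_le (one_le_pow₀ (by norm_num)) (by linarith)
  obtain ⟨M, hM⟩ := h1
  obtain ⟨x0, hx0⟩ := SmsN_pos g k j hjk hg hL β
  obtain ⟨c, X0, hc, hX0, hcrd⟩ := crd_w k s r hk
  obtain ⟨K, hK1, hK⟩ := pol_b g k hg.le
  have htend : Filter.Tendsto (fun m : ℕ => (2 : ℝ) ^ m) Filter.atTop Filter.atTop :=
    tendsto_pow_atTop_atTop_of_one_lt (by norm_num)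
  have htend2 : Filter.Tendsto (fun m : ℕ => ((2 : ℝ) ^ m) ^ (kap k ^ s)) Filter.atTop Filter.atTop :=
    (tendsto_rpow_atTop (Pool.Agent.Lib.MP_570bef_ntSH.kap_pow_pos hk s)).comp htend
  refine ⟨fun m => TF k s r ((2 : ℝ) ^ m), ((s : ℝ) + r) * (K * 2 ^ k) + ((s : ℝ) + r) * (1 * 2 ^ k), ?_⟩
  filter_upwards [Filter.eventually_ge_atTop M, htend.eventually_ge_atTop X0,
    htend2.eventually_ge_atTop (8 * x0)] with m hm hm2 hm3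
  have hX : (1 : ℝ) ≤ (2 : ℝ) ^ m := one_le_pow₀ (by norm_num)
  have hnn : ∀ t ∈ TF k s r ((2 : ℝ) ^ m),
      (∀ i, 0 ≤ pf g j β (t.1 i : ℝ)) ∧ ∀ i, 0 ≤ pf g j β (t.2 i : ℝ) := by
    intro t ht
    obtain ⟨h2, h3⟩ := tf_entry k s r hk hrs _ hX t ht
    refine ⟨fun i => hx0 _ ?_, fun i => hx0 _ ?_⟩
    · have h4 := (h2 i).2.2
      linarith
    · have h4 := (h3 i).2.2
      linarith
  refine ⟨⟨?_, ?_, ?_⟩, hnn⟩
  · have h2 := hcrd _ hm2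
    have h3 : (0 : ℝ) < (#(TF k s r ((2 : ℝ) ^ m)) : ℝ) :=
      lt_of_lt_of_le (by positivity) h2
    exact Finset.card_pos.1 (by exact_mod_cast h3)
  · intro t ht
    have h2 := (SmsN_bounds (pf g j β) t (hnn t ht).1 (hnn t ht).2).1
    rw [SmsN_split] at h2
    have h3 := su_le (fun x => g.eval x) k s r k hk hrs K hK _ hX t ht
    have h4 := su_le (fun x => x ^ j) k s r k hk hrs 1 (fun x hx => by
      rw [one_mul, abs_of_nonneg (by positivity)]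
      exact pow_le_pow_right₀ hx hjk.le) _ hX t ht
    have h5 : β * Su (fun x => x ^ j) t ≤ ((s : ℝ) + r) * (1 * 2 ^ k) * ((2 : ℝ) ^ m) ^ k := by
      calc β * Su (fun x => x ^ j) t ≤ |β * Su (fun x => x ^ j) t| := le_abs_self _
        _ = |β| * |Su (fun x => x ^ j) t| := abs_mul _ _
        _ ≤ 1 * |Su (fun x => x ^ j) t| :=
            mul_le_mul_of_nonneg_right (by rw [abs_of_nonneg hβ.1]; exact hβ.2) (abs_nonneg _)
        _ ≤ _ := by rw [one_mul]; exact h4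
    have h6 := (le_abs_self _).trans h3
    rw [add_mul]
    linarith
  · refine le_trans ?_ (hM m hm)
    exact_mod_cast SmsN_JT g k j s r β _ hnn

end Pool.Agent.Lib.MP_570bef_ntW
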