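import Mathlib
import Pool.Agent.Lib.MP_570bef_ntW.SmsN
import Pool.Agent.Lib.MP_570bef_ntW.RegP
import Pool.Agent.Lib.MP_570bef_ntW.CCir
import Pool.Agent.Lib.MP_570bef_ntW.DioN
import Pool.Agent.Lib.MP_570bef_ntW.WeN

/-!
# UniN: parameters in `[0, 1]`

As `UniW.lean` (copy it; the combinatorial part on sums of floors is the same). `Z` from `sms_n`, `Z' = {θ | ∀ ν, ¬ DioE ν ((g.coeff j + θ)/g.leadingCoeff)}` of dimension `0` (`dio_zero`). Let `θ ∈ [0,1]` be outside of both: `DioE ν ((g.coeff j + θ)/g.leadingCoeff)` for some `ν`; `weyl_n k j ν` gives `σ`, `reg_p` with this `σ` gives `n0, K, c, N1`; `sms_n` with `η = σ/2` gives the family; `circ_g` with `τ = σ/2`. The number of terms is `(s + r) + (s + r) + 2`.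
-/

set_option autoImplicit false

open Finset Real Polynomial
open Pool.Agent.Lib.MP_2a816b_nt (e nn norm_e conj_e e_add e_neg)

namespace Pool.Agent.Lib.MP_570bef_ntW

open Pool.Agent.Lib.MP_570bef_ntS (kap Dio)

/-- `M` is a sum of `s` numbers `⌊f x⌋₊` with `f x ≥ 0` -/
private def UniN_rep (f : ℝ → ℝ) (s M : ℕ) : Prop :=
  ∃ n : Fin s → ℕ, (∀ i, 0 ≤ f (n i)) ∧ M = ∑ i, ⌊f (n i)⌋₊

private theorem UniN_add (f : ℝ → ℝ) (s t M N : ℕ) (h1 : UniN_rep f s M) (h2 : UniN_rep f t N) :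
    UniN_rep f (s + t) (M + N) := by
  obtain ⟨a, ha, rfl⟩ := h1
  obtain ⟨b, hb, rfl⟩ := h2
  refine ⟨Fin.append a b, fun i => ?_, ?_⟩
  · refine Fin.addCases (fun i => ?_) (fun i => ?_) i
    · rw [Fin.append_left]
      exact ha i
    · rw [Fin.append_right]
      exact hb i
  · rw [Fin.sum_univ_add]
    simp only [Fin.append_left, Fin.append_right]

private theorem UniN_one (f : ℝ → ℝ) (n : ℕ) (h : 0 ≤ f n) : UniN_rep f 1 ⌊f n⌋₊ :=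
  ⟨fun _ => n, fun _ => h, by simp⟩

theorem uni_n (g : ℝ[X]) (k j s r : ℕ) (hk : 2 ≤ k) (hj : 1 ≤ j) (hjk : j < k)
    (hg : g.natDegree = k) (hL : 0 < g.leadingCoeff) (hrs : r ≤ s)
    (hH : (k : ℝ) * kap k ^ s + (j : ℝ) * kap k ^ r ≤ j) :
    dimH {θ : ℝ | θ ∈ Set.Icc (0 : ℝ) 1 ∧ ¬ LW (pf g j θ) (2 * s + 2 * r + 2)} ≤
      ENNReal.ofReal (((k : ℝ) * kap k ^ s + (j : ℝ) * kap k ^ r) / j) := by
  classical
  obtain ⟨Z, hZ, hZT⟩ := sms_n g k j s r hk hj hjk hg hL hrs hH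
  have hsub : {θ : ℝ | θ ∈ Set.Icc (0 : ℝ) 1 ∧ ¬ LW (pf g j θ) (2 * s + 2 * r + 2)} ⊆
        Z ∪ {θ : ℝ | ∀ ν : ℕ, ¬ DioE ν ((g.coeff j + θ) / g.leadingCoeff)} := by
    intro θ hθ
    by_contra hcon
    rw [Set.mem_union, not_or] at hcon
    obtain ⟨hθZ, hθD⟩ := hcon
    have hDio : ∃ ν : ℕ, DioE ν ((g.coeff j + θ) / g.leadingCoeff) := by
      by_contra h
      exact hθD fun ν hν => h ⟨ν, hν⟩
    obtain ⟨ν, hν⟩ := hDio
    obtain ⟨σ, hσ, hσ1, hW⟩ := weyl_n k j ν hk hj hjk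
    apply hθ.2
    obtain ⟨n0, K, c, N1, hn0, hR⟩ := reg_p k j hk hj hjk σ hσ hσ1 g θ hg hL (hW g θ hg hL hν)
    obtain ⟨T, C, hT⟩ := hZT θ hθ.1 hθZ (σ / 2) (by positivity)
    -- the elements with nonnegative values
    have hev := circ_g hR (σ / 2) (by linarith)
      (fun m => {t ∈ T m | (∀ i, 0 ≤ pf g j θ (t.1 i : ℝ)) ∧ ∀ i, 0 ≤ pf g j θ (t.2 i : ℝ)})
      (vw (pf g j θ)) C (hT.mono fun m hm => by
        have e1 : ({t ∈ T m | (∀ i, 0 ≤ pf g j θ (t.1 i : ℝ)) ∧ ∀ i, 0 ≤ pf g j θ (t.2 i : ℝ)}) = T m :=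
          Finset.filter_true_of_mem hm.2
        simp only [e1]
        exact hm.1)
    obtain ⟨N₀, hN₀⟩ := Filter.eventually_atTop.1 hev
    refine ⟨N₀, fun N hN => ?_⟩
    obtain ⟨m, t, ht, t', ht', n, n', hE⟩ := hN₀ N hN
    have ht2 := (Finset.mem_filter.1 ht).2
    have ht2' := (Finset.mem_filter.1 ht').2
    have rv : ∀ t : (Fin s → ℕ) × (Fin r → ℕ),
        ((∀ i, 0 ≤ pf g j θ (t.1 i : ℝ)) ∧ ∀ i, 0 ≤ pf g j θ (t.2 i : ℝ)) →
        UniN_rep (pf g j θ) (s + r) (vw (pf g j θ) t) := fun t h =>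
      UniN_add _ _ _ _ _ ⟨t.1, h.1, rfl⟩ ⟨t.2, h.2, rfl⟩
    have r0 : ∀ n : ℕ, UniN_rep (pf g j θ) 1 (gf (fun n : ℕ => pf g j θ ((n + n0 : ℕ) : ℝ)) n) := fun n =>
      UniN_one _ (n + n0) (hn0 _ (by push_cast; linarith [Nat.cast_nonneg (α := ℝ) n]))
    have h2 := UniN_add _ _ 1 _ _ (UniN_add _ _ 1 _ _ (UniN_add _ _ _ _ _ (rv t ht2) (rv t' ht2')) (r0 n)) (r0 n')
    rw [hE] at h2
    have e : ((s + r) + (s + r) + 1) + 1 = 2 * s + 2 * r + 2 := by ring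
    rw [e] at h2
    exact h2
  refine (dimH_mono hsub).trans ?_
  rw [dimH_union, dio_zero _ _ hL]
  exact max_le hZ zero_le

end Pool.Agent.Lib.MP_570bef_ntW
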