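import Mathlib
import Pool.Agent.Lib.MP_570bef_ntW.UniN
import Pool.Agent.Lib.MP_570bef_ntW.NumN

/-!
# AllN: all real parameters

As `AllW.lean` (copy it). `all_sr`: for `n : ℤ` let `g_n = g + C n * X^j`; `{θ | ¬ LW (pf g j θ) N} ⊆ ⋃ n : ℤ, (fun x => x + n) '' {β ∈ [0,1] | ¬ LW (pf g_n j β) N}`, `dimH_iUnion`, `(isometry_add_right _).dimH_image`, `uni_n`.
`all_n`: `num_n`: `s = ⌊k log (2k/(jδ))⌋₊ + 1`, `r = ⌊k log (2/δ)⌋₊ + 1`, `(a + b)/j < δ ≤ 1` (`ENNReal.ofReal_lt_ofReal_iff`), `2s + 2r + 2 = 2⌊..⌋₊ + 2⌊..⌋₊ + 6`.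
`all_ae_n`: dimension `< 1` implies measure zero (as in `AllW.lean`), `δ = 1`, countable intersection over `j`.
-/

set_option autoImplicit false

open Finset Real Polynomial
open Pool.Agent.Lib.MP_2a816b_nt (e nn norm_e conj_e e_add e_neg)

namespace Pool.Agent.Lib.MP_570bef_ntW

open Pool.Agent.Lib.MP_570bef_ntS (kap Dio)

theorem all_sr (g : ℝ[X]) (k j s r : ℕ) (hk : 2 ≤ k) (hj : 1 ≤ j) (hjk : j < k)
    (hg : g.natDegree = k) (hL : 0 < g.leadingCoeff) (hrs : r ≤ s)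
    (hH : (k : ℝ) * kap k ^ s + (j : ℝ) * kap k ^ r ≤ j) :
    dimH {θ : ℝ | ¬ LW (pf g j θ) (2 * s + 2 * r + 2)} ≤
      ENNReal.ofReal (((k : ℝ) * kap k ^ s + (j : ℝ) * kap k ^ r) / j) := by
  have hdeg : ∀ n : ℤ, (C (n : ℝ) * X ^ j : ℝ[X]).degree < g.degree := by
    intro n
    have hg0 : g ≠ 0 := by
      intro h
      rw [h, natDegree_zero] at hg
      omega
    rw [degree_eq_natDegree hg0, hg]
    exact lt_of_le_of_lt (degree_C_mul_X_pow_le j _) (by exact_mod_cast hjk)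
  have hnd : ∀ n : ℤ, (g + C (n : ℝ) * X ^ j : ℝ[X]).natDegree = k := by
    intro n
    rw [natDegree_add_eq_left_of_degree_lt (hdeg n), hg]
  have hlc : ∀ n : ℤ, 0 < (g + C (n : ℝ) * X ^ j : ℝ[X]).leadingCoeff := by
    intro n
    rw [leadingCoeff_add_of_degree_lt' (hdeg n)]
    exact hL
  have hpf : ∀ (n : ℤ) (β : ℝ), pf g j (β + n) = pf (g + C (n : ℝ) * X ^ j) j β := by
    intro n β
    funext x
    unfold pf
    rw [eval_add, eval_mul, eval_C, eval_pow, eval_X]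
    ring
  have hsub : {θ : ℝ | ¬ LW (pf g j θ) (2 * s + 2 * r + 2)} ⊆ ⋃ n : ℤ, (fun x : ℝ => x + (n : ℝ)) ''
      {β : ℝ | β ∈ Set.Icc (0 : ℝ) 1 ∧ ¬ LW (pf (g + C (n : ℝ) * X ^ j) j β) (2 * s + 2 * r + 2)} := by
    intro β hβ
    refine Set.mem_iUnion.2 ⟨⌊β⌋, Int.fract β, ⟨⟨Int.fract_nonneg β, (Int.fract_lt_one β).le⟩,
      fun hc => hβ ?_⟩, Int.fract_add_floor β⟩
    rw [← hpf, Int.fract_add_floor] at hc
    exact hc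
  refine le_trans (dimH_mono hsub) ?_
  rw [dimH_iUnion]
  refine iSup_le fun n => ?_
  rw [(isometry_add_right (n : ℝ)).dimH_image]
  exact uni_n _ k j s r hk hj hjk (hnd n) (hlc n) hrs hH

theorem all_n (g : ℝ[X]) (k j : ℕ) (hk : 2 ≤ k) (hj : 1 ≤ j) (hjk : j < k)
    (hg : g.natDegree = k) (hL : 0 < g.leadingCoeff) (δ : ℝ) (hδ : 0 < δ) (hδ1 : δ ≤ 1) :
    dimH {θ : ℝ | ¬ LW (pf g j θ)
      (2 * ⌊(k : ℝ) * log (2 * k / (j * δ))⌋₊ + 2 * ⌊(k : ℝ) * log (2 / δ)⌋₊ + 6)} <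
      ENNReal.ofReal δ := by
  obtain ⟨h1, h2⟩ := num_n k j hk hj hjk δ hδ hδ1
  have hj0 : (0 : ℝ) < (j : ℝ) := by exact_mod_cast (by omega : 0 < j)
  have h3 : 2 * ⌊(k : ℝ) * log (2 * k / (j * δ))⌋₊ + 2 * ⌊(k : ℝ) * log (2 / δ)⌋₊ + 6 =
      2 * (⌊(k : ℝ) * log (2 * k / (j * δ))⌋₊ + 1) + 2 * (⌊(k : ℝ) * log (2 / δ)⌋₊ + 1) + 2 := by ring
  rw [h3]
  have h4 : (j : ℝ) * δ ≤ j := by nlinarith
  refine lt_of_le_of_lt (all_sr g k j _ _ hk hj hjk hg hL h1 (h2.le.trans h4)) ?_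
  rw [ENNReal.ofReal_lt_ofReal_iff hδ, div_lt_iff₀ hj0, mul_comm δ]
  exact h2

theorem all_ae_n (g : ℝ[X]) (k : ℕ) (hg : g.natDegree = k) (hL : 0 < g.leadingCoeff) :
    ∀ᵐ θ : ℝ, ∀ j : ℕ, 1 ≤ j → j < k → LW (pf g j θ)
        (2 * ⌊(k : ℝ) * log (2 * k / (j * 1))⌋₊ + 2 * ⌊(k : ℝ) * log (2 / 1)⌋₊ + 6) := by
  rw [MeasureTheory.ae_all_iff]
  intro j
  by_cases hj : 1 ≤ j ∧ j < k
  · have h1 := all_n g k j (by omega) hj.1 hj.2 hg hL 1 one_pos le_rfl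
    rw [ENNReal.ofReal_one] at h1
    have h2 := hausdorffMeasure_of_dimH_lt (d := 1) (lt_of_lt_of_eq h1 ENNReal.coe_one.symm)
    rw [NNReal.coe_one, MeasureTheory.hausdorffMeasure_real] at h2
    have h3 : ∀ᵐ θ : ℝ, LW (pf g j θ)
        (2 * ⌊(k : ℝ) * log (2 * k / (j * 1))⌋₊ + 2 * ⌊(k : ℝ) * log (2 / 1)⌋₊ + 6) := by
      rw [MeasureTheory.ae_iff]
      exact h2
    exact h3.mono fun β h _ _ => h
  · exact Filter.Eventually.of_forall fun β h1 h2 => absurd ⟨h1, h2⟩ hj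

end Pool.Agent.Lib.MP_570bef_ntW
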