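import Mathlib
import Pool.Agent.Lib.MP_570bef_ntW.AllN

/-!
# ZeroN: outside a set of dimension zero the number of variables is linear

For a countable set of polynomials `g` the exceptional sets for `δ = 1/(m+1)` have a union of dimension at most `δ`; the intersection over `m` has dimension zero.
-/

set_option autoImplicit false

open Finset Real Polynomial

namespace Pool.Agent.Lib.MP_570bef_ntW

theorem lw_succ (f : ℝ → ℝ) (s : ℕ) (hs : 1 ≤ s) (h : LW f s) : LW f (s + 1) := by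
  obtain ⟨N₀, h⟩ := h
  obtain ⟨n0, h0, -⟩ := h N₀ le_rfl
  have h1 : 0 ≤ f (n0 ⟨0, hs⟩ : ℕ) := h0 _
  refine ⟨N₀ + ⌊f (n0 ⟨0, hs⟩ : ℕ)⌋₊, fun N hN => ?_⟩
  obtain ⟨n, hn, hN2⟩ := h (N - ⌊f (n0 ⟨0, hs⟩ : ℕ)⌋₊) (by omega)
  refine ⟨Fin.cons (n0 ⟨0, hs⟩) n, ?_, ?_⟩
  · intro i
    refine Fin.cases ?_ (fun i => ?_) i
    · simpa using h1
    · simpa using hn i
  · rw [Fin.sum_univ_succ]
    simp only [Fin.cons_zero, Fin.cons_succ]
    omega

theorem lw_mono (f : ℝ → ℝ) (s t : ℕ) (hs : 1 ≤ s) (hst : s ≤ t) (h : LW f s) : LW f t := by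
  induction t, hst using Nat.le_induction with
  | base => exact h
  | succ t ht ih => exact lw_succ f t (by omega) ih

/-- number of variables for `δ`, compared with `C k (1 + log (k/j))` -/
theorem num_le (k j : ℕ) (hk : 2 ≤ k) (hj : 1 ≤ j) (hjk : j < k) (δ : ℝ) (hδ : 0 < δ)
    (hδ1 : δ ≤ 1) :
    2 * ⌊(k : ℝ) * log (2 * k / (j * δ))⌋₊ + 2 * ⌊(k : ℝ) * log (2 / δ)⌋₊ + 6 ≤
      ⌊(4 * log (2 / δ) + 4) * (k * (1 + log (k / j)))⌋₊ := by
  have hk0 : (0 : ℝ) < k := by exact_mod_cast (by omega : 0 < k)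
  have hj0 : (0 : ℝ) < j := by exact_mod_cast (by omega : 0 < j)
  have hk2 : (2 : ℝ) ≤ k := by exact_mod_cast hk
  have hkj : (1 : ℝ) ≤ (k : ℝ) / j := by
    rw [one_le_div hj0]
    exact_mod_cast hjk.le
  have hl1 : 0 ≤ log ((k : ℝ) / j) := log_nonneg hkj
  have h2δ : (1 : ℝ) ≤ 2 / δ := by
    rw [one_le_div hδ]
    linarith
  have hl2 : 0 ≤ log (2 / δ) := log_nonneg h2δ
  have e1 : (2 * k / (j * δ) : ℝ) = (k / j) * (2 / δ) := by
    field_simp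
  have h3 : log (2 * k / (j * δ) : ℝ) = log ((k : ℝ) / j) + log (2 / δ) := by
    rw [e1, log_mul (by positivity) (by positivity)]
  apply Nat.le_floor
  push_cast
  have f1 : (⌊(k : ℝ) * log (2 * k / (j * δ))⌋₊ : ℝ) ≤ k * (log ((k : ℝ) / j) + log (2 / δ)) := by
    rw [← h3]
    exact Nat.floor_le (by rw [h3]; positivity)
  have f2 : (⌊(k : ℝ) * log (2 / δ)⌋₊ : ℝ) ≤ k * log (2 / δ) := Nat.floor_le (by positivity)
  nlinarith [mul_nonneg hk0.le hl1, mul_nonneg hk0.le hl2, mul_nonneg (mul_nonneg hk0.le hl1) hl2]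

theorem zero_n (G : Set ℝ[X]) (hG : G.Countable) :
    ∃ Z : Set ℝ, dimH Z = 0 ∧ ∀ θ : ℝ, θ ∉ Z → ∃ C : ℝ, ∀ g ∈ G, ∀ k j : ℕ, g.natDegree = k →
      0 < g.leadingCoeff → 1 ≤ j → j < k → LW (pf g j θ) ⌊C * (k * (1 + log (k / j)))⌋₊ := by
  set D : ℕ → ℝ := fun m => 1 / ((m : ℝ) + 1) with hD
  have hD0 : ∀ m, 0 < D m := fun m => by rw [hD]; positivity
  have hD1 : ∀ m, D m ≤ 1 := fun m => by
    rw [hD]
    simp only
    rw [div_le_one (by positivity)]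
    linarith [(Nat.cast_nonneg m : (0 : ℝ) ≤ m)]
  set I : Set (ℝ[X] × ℕ) := {p | p.1 ∈ G ∧ 0 < p.1.leadingCoeff ∧ 1 ≤ p.2 ∧ p.2 < p.1.natDegree}
    with hI
  have hIc : I.Countable := by
    refine Set.Countable.mono ?_ (hG.prod (Set.countable_univ (α := ℕ)))
    intro p hp
    exact ⟨hp.1, Set.mem_univ _⟩
  set E : ℕ → Set ℝ := fun m => ⋃ p ∈ I, {θ : ℝ | ¬ LW (pf p.1 p.2 θ)
    (2 * ⌊(p.1.natDegree : ℝ) * log (2 * p.1.natDegree / (p.2 * D m))⌋₊ +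
      2 * ⌊(p.1.natDegree : ℝ) * log (2 / D m)⌋₊ + 6)} with hE
  have hEd : ∀ m, dimH (E m) ≤ ENNReal.ofReal (D m) := by
    intro m
    rw [hE]
    simp only
    rw [dimH_bUnion hIc]
    refine iSup₂_le fun p hp => ?_
    obtain ⟨-, h2, h3, h4⟩ := hp
    exact (all_n p.1 p.1.natDegree p.2 (by omega) h3 h4 rfl h2 (D m) (hD0 m) (hD1 m)).le
  refine ⟨⋂ m, E m, ?_, ?_⟩
  · have h1 : ∀ m, dimH (⋂ m, E m) ≤ ENNReal.ofReal (D m) := fun m =>
      le_trans (dimH_mono (Set.iInter_subset _ m)) (hEd m)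
    have h2 : Filter.Tendsto (fun m : ℕ => ENNReal.ofReal (D m)) Filter.atTop (nhds 0) := by
      have h3 := ENNReal.tendsto_ofReal (tendsto_one_div_add_atTop_nhds_zero_nat (𝕜 := ℝ))
      rw [ENNReal.ofReal_zero] at h3
      exact h3
    exact le_antisymm (ge_of_tendsto h2 (Filter.Eventually.of_forall h1)) bot_le
  · intro θ hθ
    rw [Set.mem_iInter, not_forall] at hθ
    obtain ⟨m, hm⟩ := hθ
    refine ⟨4 * log (2 / D m) + 4, ?_⟩
    intro g hg k j hgk hL hj hjk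
    have h1 : LW (pf g j θ) (2 * ⌊(k : ℝ) * log (2 * k / (j * D m))⌋₊ +
        2 * ⌊(k : ℝ) * log (2 / D m)⌋₊ + 6) := by
      by_contra hc
      apply hm
      rw [hE]
      simp only
      refine Set.mem_biUnion (x := (g, j)) ⟨hg, hL, hj, by rw [hgk]; exact hjk⟩ ?_
      simp only [hgk]
      exact hc
    exact lw_mono _ _ _ (by omega) (num_le k j (by omega) hj hjk (D m) (hD0 m) (hD1 m)) h1

end Pool.Agent.Lib.MP_570bef_ntW
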